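import Mathlib
import Pool.Agent.SWz.Fin2
import Pool.Agent.SWz.ZetaGrow

set_option autoImplicit false

open Filter Topology Set MeasureTheory Complex
open scoped Real ContDiff ArithmeticFunction ArithmeticFunction.Moebius

namespace Pool.Agent.MP_67227b_nt.Gg

private theorem abel_one {h h' : ℝ → ℝ} {a b : ℝ} (hab : a ≤ b) (hd : ∀ v, HasDerivAt h (h' v) v)
    (hc : Continuous h') (ha : ∀ v, v ≤ a → h v = 0) (hb : ∀ v, b ≤ v → h v = 0) (x : ℝ) :
    ∫ v in Ioc a b, (Ici x).indicator h' v = -h x := by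
  have hF : ∀ y z : ℝ, ∫ v in y..z, h' v = h z - h y := fun y z =>
    intervalIntegral.integral_eq_sub_of_hasDerivAt (fun v _ => hd v) (hc.intervalIntegrable _ _)
  rw [setIntegral_indicator measurableSet_Ici]
  by_cases h1 : x ≤ a
  · have e : Ioc a b ∩ Ici x = Ioc a b := by
      ext v
      simp only [mem_inter_iff, mem_Ioc, mem_Ici, and_iff_left_iff_imp, and_imp]
      intro h2 _
      linarith
    rw [e, ← intervalIntegral.integral_of_le hab, hF, hb b le_rfl, ha a le_rfl, ha x h1]
    simp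
  · by_cases h2 : x ≤ b
    · have e : Ioc a b ∩ Ici x = Icc x b := by
        ext v
        simp only [mem_inter_iff, mem_Ioc, mem_Ici, mem_Icc]
        constructor
        · rintro ⟨⟨_, h4⟩, h5⟩
          exact ⟨h5, h4⟩
        · rintro ⟨h4, h5⟩
          exact ⟨⟨by linarith [not_le.1 h1], h5⟩, h4⟩
      rw [e, integral_Icc_eq_integral_Ioc, ← intervalIntegral.integral_of_le h2, hF, hb b le_rfl]
      simp
    · have e : Ioc a b ∩ Ici x = ∅ := by
        ext v
        simp only [mem_inter_iff, mem_Ioc, mem_Ici, mem_empty_iff_false, iff_false, not_and,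
          and_imp]
        intro _ h4
        linarith [not_le.1 h2]
      rw [e, hb x (not_le.1 h2).le]
      simp

/-- A smooth sum over the primes, from the prime number theorem. -/
theorem prime_sum (k : ℕ) : ∃ C : ℝ, 0 ≤ C ∧ ∀ (h h' : ℝ → ℝ) (a b H : ℝ) (M : ℕ),
    1 ≤ a → a ≤ b → (∀ v, HasDerivAt h (h' v) v) → Continuous h' → (∀ v, |h' v| ≤ H) →
    (∀ v, v ≤ a → h v = 0) → (∀ v, b ≤ v → h v = 0) → Real.exp b ≤ M →
    |∑ n ∈ Finset.Icc 1 M, Λ n * h (Real.log n) - ∫ v, Real.exp v * h v| ≤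
      C * H * (b - a) * (Real.exp b / a ^ k) := by
  obtain ⟨C, hC⟩ := Pool.Agent.SWz.pnt Pool.Agent.SWz.zgrow k
  refine ⟨|C|, abs_nonneg _, ?_⟩
  intro h h' a b H M h1a hab hd hc hH ha hb hM
  have hH0 : 0 ≤ H := (abs_nonneg _).trans (hH 0)
  have hind : ∀ x : ℝ, IntegrableOn ((Ici x).indicator h') (Ioc a b) := by
    intro x
    apply IntegrableOn.indicator _ measurableSet_Ici
    exact (hc.integrableOn_Icc (a := a) (b := b)).mono_set Ioc_subset_Icc_self
  -- the sum
  have hsum : ∑ n ∈ Finset.Icc 1 M, Λ n * h (Real.log n) =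
      -∫ v in Ioc a b, h' v * ∑ n ∈ Finset.Icc 1 ⌊Real.exp v⌋₊, Λ n := by
    have e1 : ∑ n ∈ Finset.Icc 1 M, Λ n * h (Real.log n) =
        -∫ v in Ioc a b, ∑ n ∈ Finset.Icc 1 M, Λ n * (Ici (Real.log n)).indicator h' v := by
      rw [integral_finsetSum _ fun n _ => (hind _).const_mul _, ← Finset.sum_neg_distrib]
      apply Finset.sum_congr rfl
      intro n _
      rw [integral_const_mul, abel_one hab hd hc ha hb]
      ring
    rw [e1]
    congr 1
    apply setIntegral_congr_fun measurableSet_Ioc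
    intro v hv
    simp only
    have e2 : ∀ n ∈ Finset.Icc 1 M, Λ n * (Ici (Real.log n)).indicator h' v =
        if n ∈ Finset.Icc 1 ⌊Real.exp v⌋₊ then h' v * Λ n else 0 := by
      intro n hn
      have hn1 := (Finset.mem_Icc.1 hn).1
      have hn0 : (0 : ℝ) < n := by exact_mod_cast hn1
      have hiff : n ∈ Finset.Icc 1 ⌊Real.exp v⌋₊ ↔ v ∈ Ici (Real.log n) := by
        rw [Finset.mem_Icc, mem_Ici, Real.log_le_iff_le_exp hn0, Nat.le_floor_iff
          (Real.exp_pos _).le]
        exact and_iff_right hn1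
      by_cases hv2 : v ∈ Ici (Real.log n)
      · rw [indicator_of_mem hv2, if_pos (hiff.2 hv2)]
        ring
      · rw [indicator_of_notMem hv2, if_neg (fun h4 => hv2 (hiff.1 h4)), mul_zero]
    rw [Finset.sum_congr rfl e2, Finset.mul_sum, ← Finset.sum_filter]
    apply Finset.sum_congr _ fun _ _ => rfl
    ext n
    rw [Finset.mem_filter]
    constructor
    · exact fun h4 => h4.2
    · intro h4
      refine ⟨?_, h4⟩
      rw [Finset.mem_Icc] at h4 ⊢
      refine ⟨h4.1, h4.2.trans ?_⟩
      have h5 : (⌊Real.exp v⌋₊ : ℝ) ≤ M :=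
        (Nat.floor_le (Real.exp_pos _).le).trans ((Real.exp_le_exp.2 hv.2).trans hM)
      exact_mod_cast h5
  -- the integral
  have hintg : ∫ v, Real.exp v * h v = -∫ v in Ioc a b, h' v * Real.exp v := by
    have hhc : Continuous h := continuous_iff_continuousAt.2 fun v => (hd v).continuousAt
    have e1 : ∫ v, Real.exp v * h v = ∫ v in Ioc a b, Real.exp v * h v := by
      symm
      apply setIntegral_eq_integral_of_forall_compl_eq_zero
      intro v hv
      rw [mem_Ioc, not_and_or, not_lt, not_le] at hv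
      rcases hv with h4 | h4
      · rw [ha v h4, mul_zero]
      · rw [hb v h4.le, mul_zero]
    have e2 : ∫ v in a..b, (Real.exp v * h v + Real.exp v * h' v) = 0 := by
      rw [intervalIntegral.integral_eq_sub_of_hasDerivAt (f := fun v => Real.exp v * h v)]
      · rw [ha a le_rfl, hb b le_rfl]
        simp
      · intro v _
        exact (Real.hasDerivAt_exp v).mul (hd v)
      · exact (by fun_prop : Continuous fun v =>
          Real.exp v * h v + Real.exp v * h' v).intervalIntegrable _ _
    rw [intervalIntegral.integral_add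
      ((by fun_prop : Continuous fun v => Real.exp v * h v).intervalIntegrable _ _)
      ((by fun_prop : Continuous fun v => Real.exp v * h' v).intervalIntegrable _ _),
      intervalIntegral.integral_of_le hab, intervalIntegral.integral_of_le hab] at e2
    rw [e1]
    have e3 : ∫ v in Ioc a b, h' v * Real.exp v = ∫ v in Ioc a b, Real.exp v * h' v := by
      congr 1
      ext v
      ring
    rw [e3]
    linarith
  have hi1 : IntegrableOn (fun v => h' v * ∑ n ∈ Finset.Icc 1 ⌊Real.exp v⌋₊, Λ n) (Ioc a b) := by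
    have hm : MonotoneOn (fun v : ℝ => ∑ n ∈ Finset.Icc 1 ⌊Real.exp v⌋₊, Λ n) (Icc a b) := by
      intro x _ y _ hxy
      apply Finset.sum_le_sum_of_subset_of_nonneg
      · apply Finset.Icc_subset_Icc_right
        exact Nat.floor_le_floor (Real.exp_le_exp.2 hxy)
      · intro _ _ _
        exact ArithmeticFunction.vonMangoldt_nonneg
    have h4 : IntegrableOn (fun v : ℝ => ∑ n ∈ Finset.Icc 1 ⌊Real.exp v⌋₊, Λ n) (Icc a b) :=
      hm.integrableOn_isCompact isCompact_Icc
    have h5 := h4.continuousOn_mul hc.continuousOn isCompact_Icc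
    exact h5.mono_set Ioc_subset_Icc_self
  have hi2 : IntegrableOn (fun v => h' v * Real.exp v) (Ioc a b) := by
    have : Continuous fun v => h' v * Real.exp v := by fun_prop
    exact this.integrableOn_Icc.mono_set Ioc_subset_Icc_self
  rw [hsum, hintg]
  have e4 : (-∫ v in Ioc a b, h' v * ∑ n ∈ Finset.Icc 1 ⌊Real.exp v⌋₊, Λ n) -
      -∫ v in Ioc a b, h' v * Real.exp v =
      -∫ v in Ioc a b, h' v * (∑ n ∈ Finset.Icc 1 ⌊Real.exp v⌋₊, Λ n - Real.exp v) := by
    have : ∫ v in Ioc a b, h' v * (∑ n ∈ Finset.Icc 1 ⌊Real.exp v⌋₊, Λ n - Real.exp v) =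
        (∫ v in Ioc a b, h' v * ∑ n ∈ Finset.Icc 1 ⌊Real.exp v⌋₊, Λ n) -
          ∫ v in Ioc a b, h' v * Real.exp v := by
      rw [← integral_sub hi1 hi2]
      congr 1
      ext v
      ring
    rw [this]
    ring
  rw [e4, abs_neg, ← Real.norm_eq_abs]
  have hbd : ∀ v ∈ Ioc a b, ‖h' v * (∑ n ∈ Finset.Icc 1 ⌊Real.exp v⌋₊, Λ n - Real.exp v)‖ ≤
      H * (|C| * (Real.exp b / a ^ k)) := by
    intro v hv
    rw [norm_mul, Real.norm_eq_abs, Real.norm_eq_abs]
    apply mul_le_mul (hH v) _ (abs_nonneg _) hH0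
    have h2v : 2 ≤ Real.exp v := by
      have := Real.add_one_le_exp v
      linarith [hv.1]
    refine (hC (Real.exp v) h2v).2.trans ?_
    rw [Real.log_exp]
    have hv0 : 0 < v := by linarith [hv.1]
    calc C * Real.exp v / v ^ k = C * (Real.exp v / v ^ k) := by ring
      _ ≤ |C| * (Real.exp v / v ^ k) :=
          mul_le_mul_of_nonneg_right (le_abs_self _) (by positivity)
      _ ≤ |C| * (Real.exp b / a ^ k) := by
          apply mul_le_mul_of_nonneg_left _ (abs_nonneg _)
          apply div_le_div₀ (Real.exp_pos _).le (Real.exp_le_exp.2 hv.2) (by positivity)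
          exact pow_le_pow_left₀ (by linarith) hv.1.le k
  refine (norm_setIntegral_le_of_norm_le_const (by simp) hbd).trans (le_of_eq ?_)
  rw [Measure.real, Real.volume_Ioc, ENNReal.toReal_ofReal (by linarith)]
  ring

end Pool.Agent.MP_67227b_nt.Gg
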