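import Mathlib

set_option autoImplicit false

/-!
Project GG (MP_67227b_nt): the theorem of Goldston, Gonek, Özlük and Snyder without GRH.
Definitions. `L = log T`, `g = η²`.
-/

open Filter Topology Set MeasureTheory Complex
open scoped Real ContDiff ArithmeticFunction ArithmeticFunction.Moebius

namespace Pool.Agent.MP_67227b_nt.Gg

/-- The profile `η`: smooth, zero outside `[-X, X]`, and `η² ≤ e^{-2|v|}`. -/
structure Eta (X : ℝ) (η : ℝ → ℝ) : Prop where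
  smooth : ContDiff ℝ ∞ η
  supp : ∀ v, X < |v| → η v = 0
  sq_le : ∀ v, η v ^ 2 ≤ Real.exp (-(2 * |v|))

/-- The cutoff `ρ` of the frequencies: smooth, between `0` and `1`, zero outside `(2κ, 1-κ)`. -/
structure Rho (κ : ℝ) (ρ : ℝ → ℝ) : Prop where
  smooth : ContDiff ℝ ∞ ρ
  left : ∀ s, s ≤ 2 * κ → ρ s = 0
  right : ∀ s, 1 - κ ≤ s → ρ s = 0
  nonneg : ∀ s, 0 ≤ ρ s
  le_one : ∀ s, ρ s ≤ 1

/-- The denominators `A`, `T^{α-1+c} < A ≤ T^{1/2-c}`. -/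
noncomputable def As (c α T : ℝ) : Finset ℕ :=
  Finset.Ioc ⌊T ^ (α - 1 + c)⌋₊ ⌊T ^ (1 / 2 - c)⌋₊

/-- The numerators `B ≤ T` coprime to `A`. -/
noncomputable def Bs (T : ℝ) (A : ℕ) : Finset ℕ := (Finset.Icc 1 ⌊T⌋₊).filter fun B => B.Coprime A

/-- The weight `ρ(2πuB/(AT))` of the fraction `B/A` at the point `u`. -/
noncomputable def wt (ρ : ℝ → ℝ) (T : ℝ) (A B : ℕ) (u : ℝ) : ℝ := ρ (2 * π * u * B / (A * T))

/-- `e(x) = e^{2πix}`. -/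
noncomputable def ex (x : ℝ) : ℂ := Complex.exp (2 * π * I * x)

/-- The model of the primes: `E(u) = ∑_A ∑_B (μ(A)/φ(A)) ρ(2πuB/(AT)) e(uB/A)`. -/
noncomputable def EE (ρ : ℝ → ℝ) (c α T u : ℝ) : ℂ :=
  ∑ A ∈ As c α T, ∑ B ∈ Bs T A,
    (((μ A : ℝ) / (Nat.totient A : ℝ) * wt ρ T A B u : ℝ) : ℂ) * ex (u * B / A)

/-- The prime sum `P(t) = ∑ Λ(n) η(log n - αL) n^{-1/2-it}`. -/
noncomputable def PP (η : ℝ → ℝ) (α T t : ℝ) : ℂ :=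
  ∑ n ∈ Finset.Icc 1 ⌊T ^ (2 : ℝ)⌋₊, ((Λ n * η (Real.log n - α * Real.log T) : ℝ) : ℂ) *
    (n : ℂ) ^ (-(1 / 2 + (t : ℂ) * I))

/-- `e^{v/2} η(v - αL) E(e^v)`; its Fourier transform is the test function. -/
noncomputable def fV (η ρ : ℝ → ℝ) (c α T v : ℝ) : ℂ :=
  ((Real.exp (v / 2) * η (v - α * Real.log T) : ℝ) : ℂ) * EE ρ c α T (Real.exp v)

/-- The test function `V(t) = ∫ e^{v/2} η(v - αL) E(e^v) e^{-itv} dv`. -/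
noncomputable def VV (η ρ : ℝ → ℝ) (c α T t : ℝ) : ℂ :=
  ∫ v : ℝ, fV η ρ c α T v * Complex.exp (-(I * t * v))

/-- The correlation `∑ Λ(n) η(log n - αL)² conj E(n)`. -/
noncomputable def XX (η ρ : ℝ → ℝ) (c α T : ℝ) : ℂ :=
  ∑ n ∈ Finset.Icc 1 ⌊T ^ (2 : ℝ)⌋₊, ((Λ n * η (Real.log n - α * Real.log T) ^ 2 : ℝ) : ℂ) *
    (starRingEnd ℂ) (EE ρ c α T n)

/-- The main term of the correlation, as a sum over the primes. -/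
noncomputable def X0 (η ρ : ℝ → ℝ) (c α T : ℝ) : ℝ :=
  ∑ A ∈ As c α T, ∑ B ∈ Bs T A, (μ A : ℝ) ^ 2 / (Nat.totient A : ℝ) ^ 2 *
    ∑ n ∈ Finset.Icc 1 ⌊T ^ (2 : ℝ)⌋₊, Λ n * η (Real.log n - α * Real.log T) ^ 2 * wt ρ T A B n

/-- The integrals `∑_A ∑_B (μ²(A)/φ(A)²) ∫_0^∞ η(log u - αL)² ρ(2πuB/(AT))^k du`. -/
noncomputable def JJ (k : ℕ) (η ρ : ℝ → ℝ) (c α T : ℝ) : ℝ :=
  ∑ A ∈ As c α T, ∑ B ∈ Bs T A, (μ A : ℝ) ^ 2 / (Nat.totient A : ℝ) ^ 2 *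
    ∫ v : ℝ, Real.exp v * η (v - α * Real.log T) ^ 2 * wt ρ T A B (Real.exp v) ^ k

end Pool.Agent.MP_67227b_nt.Gg
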