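import Mathlib
import Pool.Agent.BGV.Vaughan
import Pool.Agent.LS.Mult
import Pool.Agent.MP_67227b_nt.Gg.GgDefs

set_option autoImplicit false

/-!
Project GG (MP_67227b_nt), the part ERR: definitions.
`BV.tau` is the number of divisors, `BV.csum f X χ s = ∑_{n ≤ X, (n,s)=1} f(n) χ(n)`.
-/

open Filter Topology Set MeasureTheory Complex
open scoped Real ContDiff ArithmeticFunction ArithmeticFunction.Moebius
open scoped Classical

namespace Pool.Agent.MP_67227b_nt.Gg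

open Pool.Agent.BV (tau csum)
open Pool.Agent.LS (prim)

/-- The variation of a weight on `[1, X]`, with its last value. -/
noncomputable def tv (W : ℕ → ℂ) (X : ℕ) : ℝ :=
  ‖W X‖ + ∑ n ∈ Finset.Ico 1 X, ‖W (n + 1) - W n‖

/-- The restriction of a sequence to `[P, 2P)`. -/
noncomputable def bx (P : ℕ) (W : ℕ → ℂ) (n : ℕ) : ℂ := if P ≤ n ∧ n < 2 * P then W n else 0

/-- `n^{iU}`. -/
noncomputable def pw (U : ℝ) (n : ℕ) : ℂ := (n : ℂ) ^ (I * (U : ℂ))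

/-- The additive twist in three variables, without its mean value. -/
noncomputable def D3 (a g b : ℕ → ℂ) (X₁ X₂ Y A : ℕ) : ℂ :=
  ∑ m ∈ Finset.Icc 1 X₁, ∑ k ∈ Finset.Icc 1 X₂, ∑ B ∈ Finset.Icc 1 Y,
    if (m * k * B).Coprime A then
      a m * g k * b B * (ex (-(((m * k : ℕ) : ℝ) * B / A)) -
        (((μ A : ℝ) / (Nat.totient A : ℝ) : ℝ) : ℂ)) else 0

/-- The same in terms of the characters modulo `A`. -/
noncomputable def T3 (a g b : ℕ → ℂ) (X₁ X₂ Y A : ℕ) : ℝ :=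
  (1 / (Nat.totient A : ℝ)) * ∑ χ : DirichletCharacter ℂ A with χ ≠ 1,
    Real.sqrt (χ.conductor : ℝ) * (‖csum a X₁ χ 1‖ * ‖csum g X₂ χ 1‖ * ‖csum b Y χ 1‖)

/-- The primitive characters modulo `q`, with the coprimality condition `e`. -/
noncomputable def P3 (a g b : ℕ → ℂ) (X₁ X₂ Y q e : ℕ) : ℝ :=
  ∑ ψ ∈ prim q, ‖csum a X₁ ψ e‖ * ‖csum g X₂ ψ e‖ * ‖csum b Y ψ e‖

/-- The sum over the moduli `A = qe` in `[K, 2K)`, `q` in `S`. -/
noncomputable def S3 (S : Finset ℕ) (a g b : ℕ → ℂ) (X₁ X₂ Y K : ℕ) : ℝ :=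
  ∑ e ∈ Finset.Icc 1 (2 * K), (1 / (Nat.totient e : ℝ) ^ 2) *
    ∑ q ∈ S with (K ≤ q * e ∧ q * e < 2 * K), (Real.sqrt (q : ℝ) / (Nat.totient q : ℝ) ^ 2) *
      P3 a g b X₁ X₂ Y q e

/-- The length of the sum over `B`: `⌊K T^{1-α} e^X⌋`. -/
noncomputable def YY (X α T : ℝ) (K : ℕ) : ℕ := ⌊(K : ℝ) * T ^ (1 - α) * Real.exp X⌋₊

/-- The weight `η(log n - αL)² ρ(2πnB/(AT))`. -/
noncomputable def wg (η ρ : ℝ → ℝ) (α T : ℝ) (n A B : ℕ) : ℝ :=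
  η (Real.log n - α * Real.log T) ^ 2 * wt ρ T A B n

/-- The box sum: `A` in `[K, 2K) ∩ As`, `m` in `[P, 2P)`, `k` in `[Q, 2Q)`, `B ≤ YY`. -/
noncomputable def BX (η ρ : ℝ → ℝ) (X c α T : ℝ) (a g : ℕ → ℂ) (K P Q : ℕ) : ℂ :=
  ∑ A ∈ As c α T with (K ≤ A ∧ A < 2 * K), (((μ A : ℝ) / (Nat.totient A : ℝ) : ℝ) : ℂ) *
    ∑ m ∈ Finset.Ico P (2 * P), ∑ k ∈ Finset.Ico Q (2 * Q),
      ∑ B ∈ Finset.Icc 1 (YY X α T K), if (m * k * B).Coprime A then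
        a m * g k * (wg η ρ α T (m * k) A B : ℂ) *
          (ex (-(((m * k : ℕ) : ℝ) * B / A)) - (((μ A : ℝ) / (Nat.totient A : ℝ) : ℝ) : ℂ)) else 0

/-- The twisted sum with the coefficients `f`, over the `n` coprime to `A`. -/
noncomputable def ZZ (η ρ : ℝ → ℝ) (c α T : ℝ) (f : ℕ → ℝ) : ℂ :=
  ∑ A ∈ As c α T, (((μ A : ℝ) / (Nat.totient A : ℝ) : ℝ) : ℂ) *
    ∑ n ∈ Finset.Icc 1 ⌊T ^ (2 : ℝ)⌋₊, ∑ B ∈ Bs T A, if n.Coprime A then
      (f n : ℂ) * (wg η ρ α T n A B : ℂ) *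
        (ex (-((n : ℝ) * B / A)) - (((μ A : ℝ) / (Nat.totient A : ℝ) : ℝ) : ℂ)) else 0

/-- Dirichlet convolution of two real sequences. -/
noncomputable def cv (a g : ℕ → ℝ) (n : ℕ) : ℝ := ∑ p ∈ n.divisorsAntidiagonal, a p.1 * g p.2

/-- A real sequence as a complex one. -/
def cs (a : ℕ → ℝ) : ℕ → ℂ := fun n => (a n : ℂ)

/-- The number of dyadic intervals. -/
noncomputable def Jd (T : ℝ) : ℕ := Nat.log 2 ⌊T ^ (2 : ℝ)⌋₊ + 1

/-- The parameter of Vaughan's identity. -/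
noncomputable def uV (c α T : ℝ) : ℕ := ⌊T ^ (α - 1 + c)⌋₊

/-- The six sequences of Vaughan's identity. -/
noncomputable def a1 (u m : ℕ) : ℝ := if m ≤ u then Pool.Agent.BGV.mu m else 0

noncomputable def g1 (k : ℕ) : ℝ := Real.log k

noncomputable def a2 (u m : ℕ) : ℝ := Pool.Agent.BGV.al2 u m

noncomputable def g2 (_k : ℕ) : ℝ := 1

noncomputable def a3 (u m : ℕ) : ℝ := Pool.Agent.BGV.al4 u m

noncomputable def g3 (u k : ℕ) : ℝ := if u < k then Pool.Agent.BGV.mu k else 0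

end Pool.Agent.MP_67227b_nt.Gg
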