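import Mathlib
import Pool.Agent.MP_67227b_nt.Gg.GgErrDefs

set_option autoImplicit false

open Filter Topology Set MeasureTheory Complex
open scoped Real ContDiff ArithmeticFunction ArithmeticFunction.Moebius
open scoped Classical

namespace Pool.Agent.MP_67227b_nt.Gg

open Pool.Agent.BV (tau csum)
open Pool.Agent.LS (prim)

private theorem ram_split (f : ℕ → ℂ) (q m : ℕ) :
    ∑ i ∈ Finset.range (q * m), f i =
      ∑ l ∈ Finset.range m, ∑ r ∈ Finset.range q, f (q * l + r) := by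
  induction m with
  | zero => simp
  | succ m ih =>
    rw [mul_add, mul_one, Finset.sum_range_add, ih, Finset.sum_range_succ]

private theorem ex_add' (x y : ℝ) : ex (x + y) = ex x * ex y := by
  unfold ex
  rw [← Complex.exp_add]
  congr 1
  push_cast
  ring

private theorem ram_geom {m : ℕ} (hm : 0 < m) :
    ∑ l ∈ Finset.range m, ex ((l : ℝ) / m) = if m = 1 then 1 else 0 := by
  split_ifs with h
  · subst h
    simp [ex]
  · have h1 : 1 < m := by omega
    have h2 := Complex.isPrimitiveRoot_exp m (by omega)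
    rw [← h2.geom_sum_eq_zero h1]
    refine Finset.sum_congr rfl fun l _ => ?_
    rw [← Complex.exp_nat_mul]
    unfold ex
    congr 1
    push_cast
    ring

private theorem ram_H {q m : ℕ} (hq : 0 < q) (hm : 0 < m) (ψ : ℕ → ℂ)
    (hper : ∀ n, ψ (n + q) = ψ n) :
    ∑ i ∈ Finset.range (q * m), ψ i * ex ((i : ℝ) / ((q * m : ℕ) : ℝ)) =
      if m = 1 then ∑ r ∈ Finset.range q, ψ r * ex ((r : ℝ) / q) else 0 := by
  have hper' : ∀ l r, ψ (q * l + r) = ψ r := by
    intro l r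
    induction l with
    | zero => simp
    | succ l ih =>
      rw [← ih, ← hper (q * l + r)]
      congr 1
      ring
  have hq' : (q : ℝ) ≠ 0 := by positivity
  have hm' : (m : ℝ) ≠ 0 := by positivity
  rw [ram_split]
  have h1 : ∀ l ∈ Finset.range m, ∑ r ∈ Finset.range q,
      ψ (q * l + r) * ex (((q * l + r : ℕ) : ℝ) / ((q * m : ℕ) : ℝ)) =
      ex ((l : ℝ) / m) * ∑ r ∈ Finset.range q, ψ r * ex ((r : ℝ) / ((q * m : ℕ) : ℝ)) := by
    intro l _
    rw [Finset.mul_sum]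
    refine Finset.sum_congr rfl fun r _ => ?_
    have h2 : ((q * l + r : ℕ) : ℝ) / ((q * m : ℕ) : ℝ) =
        (l : ℝ) / m + (r : ℝ) / ((q * m : ℕ) : ℝ) := by
      push_cast
      field_simp
    rw [hper', h2, ex_add']
    ring
  rw [Finset.sum_congr rfl h1, ← Finset.sum_mul, ram_geom hm]
  split_ifs with h
  · subst h
    simp
  · simp

private theorem ram_dvd (F : ℕ → ℂ) {d : ℕ} (hd : 0 < d) (n : ℕ) :
    ∑ j ∈ Finset.range (d * n), (if d ∣ j then F j else 0) = ∑ i ∈ Finset.range n, F (d * i) := by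
  rw [ram_split]
  refine Finset.sum_congr rfl fun l _ => ?_
  rw [Finset.sum_eq_single 0]
  · simp
  · intro r hr hr0
    rw [if_neg]
    intro h
    have h1 : d ∣ r := (Nat.dvd_add_right (Dvd.intro l rfl)).1 h
    have h2 := Nat.le_of_dvd (Nat.pos_of_ne_zero hr0) h1
    have h3 := Finset.mem_range.1 hr
    omega
  · intro h
    exact absurd (Finset.mem_range.2 hd) h

private theorem ram_moebius (j : ℕ) {e : ℕ} (he : 0 < e) :
    (if j.Coprime e then (1 : ℂ) else 0) =
      ∑ d ∈ e.divisors, if d ∣ j then ((μ d : ℤ) : ℂ) else 0 := by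
  rw [← Finset.sum_filter]
  have h1 : e.divisors.filter (fun d => d ∣ j) = (Nat.gcd j e).divisors := by
    ext d
    rw [Finset.mem_filter, Nat.mem_divisors, Nat.mem_divisors, Nat.dvd_gcd_iff]
    have : Nat.gcd j e ≠ 0 := (Nat.gcd_pos_of_pos_right j he).ne'
    constructor
    · rintro ⟨⟨h1, h2⟩, h3⟩
      exact ⟨⟨h3, h1⟩, this⟩
    · rintro ⟨⟨h1, h2⟩, h3⟩
      exact ⟨⟨h2, he.ne'⟩, h1⟩
  rw [h1]
  have h2 : ∑ d ∈ (Nat.gcd j e).divisors, (μ d : ℤ) = if Nat.gcd j e = 1 then 1 else 0 := by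
    rw [← ArithmeticFunction.coe_zeta_mul_apply, ArithmeticFunction.coe_zeta_mul_moebius,
      ArithmeticFunction.one_apply]
  have h3 : ∑ d ∈ (Nat.gcd j e).divisors, ((μ d : ℤ) : ℂ) =
      ((∑ d ∈ (Nat.gcd j e).divisors, (μ d : ℤ) : ℤ) : ℂ) := by
    push_cast
    rfl
  rw [h3, h2]
  by_cases h : j.Coprime e
  · rw [if_pos h, if_pos h]
    simp
  · rw [if_neg h, if_neg h]
    simp

/-- The Gauss sum of level `qe` of a completely multiplicative function of period `q`. -/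
theorem ram_core {q e : ℕ} (hq : 0 < q) (he : 0 < e) (ψ : ℕ → ℂ)
    (hper : ∀ n, ψ (n + q) = ψ n) (hmul : ∀ m n, ψ (m * n) = ψ m * ψ n) :
    ∑ j ∈ Finset.range (q * e), (if j.Coprime e then ψ j else 0) *
      ex ((j : ℝ) / ((q * e : ℕ) : ℝ)) =
      ((μ e : ℤ) : ℂ) * ψ e * ∑ r ∈ Finset.range q, ψ r * ex ((r : ℝ) / q) := by
  have h1 : ∀ j ∈ Finset.range (q * e), (if j.Coprime e then ψ j else 0) *
      ex ((j : ℝ) / ((q * e : ℕ) : ℝ)) = ∑ d ∈ e.divisors, ((μ d : ℤ) : ℂ) *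
        (if d ∣ j then ψ j * ex ((j : ℝ) / ((q * e : ℕ) : ℝ)) else 0) := by
    intro j _
    have h2 : (if j.Coprime e then ψ j else 0) * ex ((j : ℝ) / ((q * e : ℕ) : ℝ)) =
        (if j.Coprime e then (1 : ℂ) else 0) * (ψ j * ex ((j : ℝ) / ((q * e : ℕ) : ℝ))) := by
      split_ifs <;> ring
    rw [h2, ram_moebius j he, Finset.sum_mul]
    refine Finset.sum_congr rfl fun d _ => ?_
    split_ifs <;> ring
  rw [Finset.sum_congr rfl h1, Finset.sum_comm]
  have h3 : ∀ d ∈ e.divisors, ∑ j ∈ Finset.range (q * e), ((μ d : ℤ) : ℂ) *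
        (if d ∣ j then ψ j * ex ((j : ℝ) / ((q * e : ℕ) : ℝ)) else 0) =
      if d = e then ((μ e : ℤ) : ℂ) * ψ e * ∑ r ∈ Finset.range q, ψ r * ex ((r : ℝ) / q)
        else 0 := by
    intro d hd
    obtain ⟨⟨m, hm⟩, -⟩ := Nat.mem_divisors.1 hd
    have hd0 : 0 < d := Nat.pos_of_mem_divisors hd
    have hm0 : 0 < m := Nat.pos_of_ne_zero (by rintro rfl; omega)
    rw [← Finset.mul_sum]
    have h4 : q * e = d * (q * m) := by rw [hm]; ring
    have h5 : ∑ j ∈ Finset.range (q * e),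
        (if d ∣ j then ψ j * ex ((j : ℝ) / ((q * e : ℕ) : ℝ)) else 0) =
        ψ d * ∑ i ∈ Finset.range (q * m), ψ i * ex ((i : ℝ) / ((q * m : ℕ) : ℝ)) := by
      rw [h4, ram_dvd (fun j => ψ j * ex ((j : ℝ) / ((d * (q * m) : ℕ) : ℝ))) hd0,
        Finset.mul_sum]
      refine Finset.sum_congr rfl fun i _ => ?_
      have h6 : ((d * i : ℕ) : ℝ) / ((d * (q * m) : ℕ) : ℝ) = (i : ℝ) / ((q * m : ℕ) : ℝ) := by
        have hd' : (d : ℝ) ≠ 0 := by positivity
        rw [Nat.cast_mul d i, Nat.cast_mul d (q * m), mul_div_mul_left _ _ hd']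
      show ψ (d * i) * ex (((d * i : ℕ) : ℝ) / ((d * (q * m) : ℕ) : ℝ)) = _
      rw [h6, hmul]
      ring
    rw [h5, ram_H hq hm0 ψ hper]
    by_cases hde : d = e
    · have hm1 : m = 1 := by
        rw [hde] at hm
        exact Nat.eq_of_mul_eq_mul_left he (by rw [mul_one]; exact hm.symm)
      rw [if_pos hm1, if_pos hde, hde]
      ring
    · have hm1 : m ≠ 1 := by
        rintro rfl
        exact hde (by rw [hm, mul_one])
      rw [if_neg hm1, if_neg hde]
      ring
  rw [Finset.sum_congr rfl h3, Finset.sum_ite_eq' e.divisors e, if_pos]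
  exact Nat.mem_divisors_self e he.ne'

/-- A sum over `ZMod A` with the additive character as a sum over `j < A`. -/
theorem ram_zmod (A : ℕ) [NeZero A] (χ : DirichletCharacter ℂ A) :
    gaussSum χ (ZMod.stdAddChar (N := A)) =
      ∑ j ∈ Finset.range A, χ ((j : ℕ) : ZMod A) * ex ((j : ℝ) / A) := by
  unfold gaussSum
  symm
  refine Finset.sum_bij' (fun j _ => ((j : ℕ) : ZMod A)) (fun x _ => x.val) ?_ ?_ ?_ ?_ ?_
  · intro j _
    exact Finset.mem_univ _
  · intro x _
    exact Finset.mem_range.2 x.val_lt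
  · intro j hj
    exact ZMod.val_cast_of_lt (Finset.mem_range.1 hj)
  · intro x _
    exact ZMod.natCast_zmod_val x
  · intro j _
    congr 1
    have h1 : ((j : ℕ) : ZMod A) = (((j : ℕ) : ℤ) : ZMod A) := by push_cast; rfl
    rw [h1, ZMod.stdAddChar_coe]
    unfold ex
    congr 1
    push_cast
    ring

/-- The Ramanujan sum at `1`. PROOF. The left side is `∑ e(j/A)` over `0 ≤ j < A`, `(j,A) = 1`;
Möbius: `∑_{d ∣ A} μ(d) ∑_{i < A/d} e(i/(A/d))`, and the inner sum is `0` unless `A/d = 1`.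
(Units of `ZMod A` are the classes of `j` coprime to `A`, `ZMod.isUnit_iff_coprime`; the additive
character is `stdAddChar_coe`, see `TT_eq_stdAddChar` in `LS/Mult.lean`.) -/
theorem gauss_one (A : ℕ) [NeZero A] :
    gaussSum (1 : DirichletCharacter ℂ A) (ZMod.stdAddChar (N := A)) = ((μ A : ℤ) : ℂ) := by
  have hA : 0 < A := Nat.pos_of_ne_zero (NeZero.ne A)
  rw [ram_zmod]
  have h1 := ram_core (q := 1) (e := A) one_pos hA (fun _ => 1) (fun _ => rfl)
    (fun _ _ => (mul_one _).symm)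
  rw [one_mul] at h1
  have h2 : ∀ j ∈ Finset.range A, (1 : DirichletCharacter ℂ A) ((j : ℕ) : ZMod A) *
      ex ((j : ℝ) / A) = (if j.Coprime A then (1 : ℂ) else 0) * ex ((j : ℝ) / A) := by
    intro j _
    congr 1
    by_cases h : j.Coprime A
    · rw [if_pos h, MulChar.one_apply ((ZMod.isUnit_iff_coprime j A).2 h)]
    · rw [if_neg h]
      exact MulChar.map_nonunit _ (fun h' => h ((ZMod.isUnit_iff_coprime j A).1 h'))
  rw [Finset.sum_congr rfl h2, h1]
  simp [ex]

end Pool.Agent.MP_67227b_nt.Gg
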