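import Mathlib
import Pool.Agent.MP_67227b_nt.Gg.GgErrDefs
import Pool.Agent.MP_67227b_nt.Gg.GgRam
import Pool.Agent.LS.Char

set_option autoImplicit false

open Filter Topology Set MeasureTheory Complex
open scoped Real ContDiff ArithmeticFunction ArithmeticFunction.Moebius
open scoped Classical

namespace Pool.Agent.MP_67227b_nt.Gg

open Pool.Agent.BV (tau csum)
open Pool.Agent.LS (prim)

/-- PROOF. A character factors through `d` iff its inverse does. -/
theorem conductor_inv {A : ℕ} (χ : DirichletCharacter ℂ A) : (χ⁻¹).conductor = χ.conductor :=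
  DirichletCharacter.conductor_inv χ

/-- PROOF. Let `q = conductor χ`, `e = A/q`, `ψ = χ.primitiveCharacter`; `(q,e) = 1` as `A` is
squarefree. For natural `j`: `χ(j) = 1_{(j,e)=1} ψ(j)` (see `csum_primitive` in `BV/Prim.lean`).
Möbius over `d ∣ e`: `gaussSum χ = ∑_{d ∣ e} μ(d) ψ(d) ∑_{i < A/d} ψ(i) e(i/(A/d))`. Here
`A/d = q e'` with `e' = e/d`; write `i = r + q l`, `r < q`, `l < e'`: the inner sum is
`∑_r ψ(r) e(r/(q e')) ∑_{l < e'} e(l/e')`, which is `0` unless `e' = 1`, and for `e' = 1` it is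
the Gauss sum of the primitive character `ψ`, of modulus `√q` (`LS.norm_gaussSum_sq`). -/
theorem gauss_le {A : ℕ} [NeZero A] (hA : Squarefree A) (χ : DirichletCharacter ℂ A) :
    ‖gaussSum χ (ZMod.stdAddChar (N := A))‖ ≤ Real.sqrt (χ.conductor : ℝ) := by
  have hA0 : 0 < A := hA.ne_zero.bot_lt
  have hd : χ.conductor ∣ A := χ.conductor_dvd_level
  have hq0 : χ.conductor ≠ 0 := χ.conductor_ne_zero
  have : NeZero χ.conductor := ⟨hq0⟩
  obtain ⟨e, he⟩ := hd
  have he0 : 0 < e := Nat.pos_of_ne_zero (by rintro rfl; omega)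
  have hval : ∀ n : ℕ, χ ((n : ℕ) : ZMod A) =
      if n.Coprime e then χ.primitiveCharacter ((n : ℕ) : ZMod χ.conductor) else 0 := by
    intro n
    by_cases hn : n.Coprime A
    · have h1 : n.Coprime e := Nat.Coprime.coprime_dvd_right (Dvd.intro_left _ he.symm) hn
      have hc : IsCoprime (n : ℤ) (A : ℤ) := Nat.isCoprime_iff_coprime.mpr hn
      have h3 := χ.primitiveCharacter_apply_of_isCoprime hc
      rw [if_pos h1]
      simpa using h3.symm
    · have h1 : χ (n : ZMod A) = 0 :=
        χ.map_nonunit (fun h => hn ((ZMod.isUnit_iff_coprime n A).mp h))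
      rw [h1]
      by_cases hs : n.Coprime e
      · rw [if_pos hs]
        have h2 : ¬ n.Coprime χ.conductor := by
          intro h
          apply hn
          rw [he]
          exact Nat.Coprime.mul_right h hs
        exact (χ.primitiveCharacter.map_nonunit
          (fun h => h2 ((ZMod.isUnit_iff_coprime n χ.conductor).mp h))).symm
      · rw [if_neg hs]
  have h1 := ram_core (q := χ.conductor) (e := e) (Nat.pos_of_ne_zero hq0) he0
    (fun n => χ.primitiveCharacter ((n : ℕ) : ZMod χ.conductor))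
    (fun n => by push_cast; rw [ZMod.natCast_self, add_zero])
    (fun m n => by push_cast; rw [map_mul])
  have h2 : gaussSum χ (ZMod.stdAddChar (N := A)) =
      ((μ e : ℤ) : ℂ) * χ.primitiveCharacter ((e : ℕ) : ZMod χ.conductor) *
        gaussSum χ.primitiveCharacter (ZMod.stdAddChar (N := χ.conductor)) := by
    rw [ram_zmod, ram_zmod, ← h1, ← he]
    exact Finset.sum_congr rfl fun j _ => by rw [hval]
  have h3 := Pool.Agent.LS.norm_gaussSum_sq χ.primitiveCharacter
    χ.primitiveCharacter_isPrimitive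
  have h4 : ‖gaussSum χ.primitiveCharacter (ZMod.stdAddChar (N := χ.conductor))‖ =
      Real.sqrt (χ.conductor : ℝ) := by
    rw [← h3, Real.sqrt_sq (norm_nonneg _)]
  rw [h2, norm_mul, norm_mul, h4]
  have h5 : ‖(((μ e : ℤ)) : ℂ)‖ ≤ 1 := by
    rw [Complex.norm_intCast]
    exact_mod_cast ArithmeticFunction.abs_moebius_le_one
  have h6 : ‖χ.primitiveCharacter ((e : ℕ) : ZMod χ.conductor)‖ ≤ 1 :=
    DirichletCharacter.norm_le_one _ _
  have h7 : ‖(((μ e : ℤ)) : ℂ)‖ * ‖χ.primitiveCharacter ((e : ℕ) : ZMod χ.conductor)‖ ≤ 1 :=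
    mul_le_one₀ h5 (norm_nonneg _) h6
  calc _ ≤ 1 * Real.sqrt (χ.conductor : ℝ) :=
        mul_le_mul_of_nonneg_right h7 (Real.sqrt_nonneg _)
    _ = _ := one_mul _

end Pool.Agent.MP_67227b_nt.Gg
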