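import Mathlib
import Pool.Agent.MP_67227b_nt.Gg.GgErrDefs
import Pool.Agent.MP_67227b_nt.Gg.GgGau

set_option autoImplicit false

open Filter Topology Set MeasureTheory Complex
open scoped Real ContDiff ArithmeticFunction ArithmeticFunction.Moebius
open scoped Classical

namespace Pool.Agent.MP_67227b_nt.Gg

open Pool.Agent.BV (tau csum)
open Pool.Agent.LS (prim)

/-- The additive character through the Gauss sums. -/
private theorem ort_pt {A : ℕ} [NeZero A] {u : ZMod A} (hu : IsUnit u) :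
    ZMod.stdAddChar (N := A) u = (1 / (Nat.totient A : ℂ)) *
      ∑ χ : DirichletCharacter ℂ A, gaussSum χ⁻¹ (ZMod.stdAddChar (N := A)) * χ u := by
  have hφ : (A.totient : ℂ) ≠ 0 := by
    have : 0 < A.totient := Nat.totient_pos.2 (Nat.pos_of_ne_zero (NeZero.ne A))
    exact_mod_cast this.ne'
  have h1 : ∑ χ : DirichletCharacter ℂ A, gaussSum χ⁻¹ (ZMod.stdAddChar (N := A)) * χ u =
      ∑ χ : DirichletCharacter ℂ A, gaussSum χ (ZMod.stdAddChar (N := A)) * χ⁻¹ u := by
    refine Fintype.sum_equiv (Equiv.inv _) _ _ fun χ => ?_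
    rw [Equiv.inv_apply, inv_inv]
  have h2 : ∀ χ : DirichletCharacter ℂ A, χ⁻¹ u = χ u⁻¹ := by
    intro χ
    obtain ⟨U, rfl⟩ := hu
    rw [MulChar.inv_apply, Ring.inverse_unit, ZMod.inv_coe_unit]
  have h3 : ∑ χ : DirichletCharacter ℂ A, gaussSum χ (ZMod.stdAddChar (N := A)) * χ⁻¹ u =
      ∑ x : ZMod A, ZMod.stdAddChar (N := A) x *
        ∑ χ : DirichletCharacter ℂ A, χ u⁻¹ * χ x := by
    simp only [Finset.mul_sum]
    rw [Finset.sum_comm]
    refine Finset.sum_congr rfl fun χ _ => ?_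
    rw [h2, gaussSum, Finset.sum_mul]
    refine Finset.sum_congr rfl fun x _ => ?_
    ring
  rw [h1, h3]
  have h4 : ∀ x ∈ (Finset.univ : Finset (ZMod A)), ZMod.stdAddChar (N := A) x *
      ∑ χ : DirichletCharacter ℂ A, χ u⁻¹ * χ x =
      if x = u then ZMod.stdAddChar (N := A) u * (A.totient : ℂ) else 0 := by
    intro x _
    rw [DirichletCharacter.sum_char_inv_mul_char_eq ℂ hu x]
    by_cases h : x = u
    · subst h
      rw [if_pos rfl, if_pos rfl]
    · rw [if_neg h, if_neg (fun h' => h h'.symm), mul_zero]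
  rw [Finset.sum_congr rfl h4, Finset.sum_ite_eq' Finset.univ u, if_pos (Finset.mem_univ u)]
  field_simp

private theorem ort_csum {A : ℕ} (f : ℕ → ℂ) (X : ℕ) (χ : DirichletCharacter ℂ A) :
    csum f X χ 1 = ∑ n ∈ Finset.Icc 1 X, f n * χ ((n : ℕ) : ZMod A) := by
  unfold csum
  exact Finset.sum_congr rfl fun n _ => if_pos (Nat.coprime_one_right n)

/-- PROOF. For a unit `u` of `ZMod A`: `stdAddChar u = (1/φ(A)) ∑_χ gaussSum(χ⁻¹) χ(u)`
(orthogonality, `DirichletCharacter.sum_char_inv_mul_char_eq`, see `orth_pt` in `BV/Orth.lean`), and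
the term `χ = 1` is `μ(A)/φ(A)` (`gauss_one`). With `u = -mkB` and
`ex(-(mkB)/A) = stdAddChar(-mkB)`:
`D3 = (1/φ(A)) ∑_{χ ≠ 1} gaussSum(χ⁻¹) χ(-1) (csum a X₁ χ 1) (csum g X₂ χ 1) (csum b Y χ 1)`
(`χ` vanishes off the units, `Coprime 1` is no condition). Then `|gaussSum(χ⁻¹)| ≤ √cond(χ)` by
`gauss_le` and `conductor_inv`. -/
theorem D3_le (a g b : ℕ → ℂ) (X₁ X₂ Y : ℕ) {A : ℕ} (hA : Squarefree A) :
    ‖D3 a g b X₁ X₂ Y A‖ ≤ T3 a g b X₁ X₂ Y A := by
  have : NeZero A := ⟨hA.ne_zero⟩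
  have hφ : (0 : ℝ) < A.totient := by
    exact_mod_cast Nat.totient_pos.2 (Nat.pos_of_ne_zero (NeZero.ne A))
  have hφ' : (A.totient : ℂ) ≠ 0 := by exact_mod_cast hφ.ne'
  set G : DirichletCharacter ℂ A → ℂ := fun χ =>
    gaussSum χ⁻¹ (ZMod.stdAddChar (N := A)) * χ (-1) with hG
  have hpt : ∀ m k B : ℕ, (if (m * k * B).Coprime A then
      a m * g k * b B * (ex (-(((m * k : ℕ) : ℝ) * B / A)) -
        (((μ A : ℝ) / (Nat.totient A : ℝ) : ℝ) : ℂ)) else 0) =
      (1 / (Nat.totient A : ℂ)) * ∑ χ : DirichletCharacter ℂ A with χ ≠ 1,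
        G χ * ((a m * χ ((m : ℕ) : ZMod A)) * (g k * χ ((k : ℕ) : ZMod A)) *
          (b B * χ ((B : ℕ) : ZMod A))) := by
    intro m k B
    by_cases hc : (m * k * B).Coprime A
    · rw [if_pos hc]
      have hu0 : IsUnit (((m * k * B : ℕ)) : ZMod A) := (ZMod.isUnit_iff_coprime _ A).2 hc
      have hu : IsUnit (-(((m * k * B : ℕ)) : ZMod A)) := hu0.neg
      have h1 : ex (-(((m * k : ℕ) : ℝ) * B / A)) =
          ZMod.stdAddChar (N := A) (-(((m * k * B : ℕ)) : ZMod A)) := by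
        have h2 : (-(((m * k * B : ℕ)) : ZMod A)) = ((-((m * k * B : ℕ) : ℤ) : ℤ) : ZMod A) := by
          push_cast
          ring
        rw [h2, ZMod.stdAddChar_coe]
        unfold ex
        congr 1
        push_cast
        ring
      have h3 : ∀ χ : DirichletCharacter ℂ A, χ (-(((m * k * B : ℕ)) : ZMod A)) =
          χ (-1) * (χ ((m : ℕ) : ZMod A) * χ ((k : ℕ) : ZMod A) * χ ((B : ℕ) : ZMod A)) := by
        intro χ
        rw [← map_mul, ← map_mul, ← map_mul]
        congr 1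
        push_cast
        ring
      rw [h1, ort_pt hu]
      have h4 : ∑ χ : DirichletCharacter ℂ A, gaussSum χ⁻¹ (ZMod.stdAddChar (N := A)) *
          χ (-(((m * k * B : ℕ)) : ZMod A)) =
          ((μ A : ℤ) : ℂ) + ∑ χ : DirichletCharacter ℂ A with χ ≠ 1,
            gaussSum χ⁻¹ (ZMod.stdAddChar (N := A)) *
              χ (-(((m * k * B : ℕ)) : ZMod A)) := by
        rw [← Finset.sum_filter_add_sum_filter_not Finset.univ
          (fun χ : DirichletCharacter ℂ A => χ = 1)]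
        congr 1
        rw [Finset.sum_filter, Finset.sum_ite_eq' Finset.univ (1 : DirichletCharacter ℂ A),
          if_pos (Finset.mem_univ _), inv_one, gauss_one, MulChar.one_apply hu, mul_one]
      rw [h4]
      have h5 : (((μ A : ℝ) / (Nat.totient A : ℝ) : ℝ) : ℂ) =
          (1 / (Nat.totient A : ℂ)) * ((μ A : ℤ) : ℂ) := by
        push_cast
        ring
      rw [h5, mul_add, add_sub_cancel_left, mul_left_comm, Finset.mul_sum]
      congr 1
      refine Finset.sum_congr rfl fun χ _ => ?_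
      rw [h3, hG]
      ring
    · rw [if_neg hc]
      symm
      rw [Finset.sum_eq_zero, mul_zero]
      intro χ _
      have h1 : χ (((m * k * B : ℕ)) : ZMod A) = 0 :=
        χ.map_nonunit (fun h => hc ((ZMod.isUnit_iff_coprime _ A).1 h))
      have h2 : χ (((m * k * B : ℕ)) : ZMod A) =
          χ ((m : ℕ) : ZMod A) * χ ((k : ℕ) : ZMod A) * χ ((B : ℕ) : ZMod A) := by
        rw [← map_mul, ← map_mul]
        congr 1
        push_cast
        ring
      rw [h2] at h1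
      linear_combination (G χ * a m * g k * b B) * h1
  have hD : D3 a g b X₁ X₂ Y A = (1 / (Nat.totient A : ℂ)) *
      ∑ χ : DirichletCharacter ℂ A with χ ≠ 1,
        G χ * (csum a X₁ χ 1 * csum g X₂ χ 1 * csum b Y χ 1) := by
    have e2 : ∀ χ : DirichletCharacter ℂ A,
        G χ * (csum a X₁ χ 1 * csum g X₂ χ 1 * csum b Y χ 1) =
        ∑ m ∈ Finset.Icc 1 X₁, ∑ k ∈ Finset.Icc 1 X₂, ∑ B ∈ Finset.Icc 1 Y,
          G χ * ((a m * χ ((m : ℕ) : ZMod A)) * (g k * χ ((k : ℕ) : ZMod A)) *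
            (b B * χ ((B : ℕ) : ZMod A))) := by
      intro χ
      rw [ort_csum, ort_csum, ort_csum, Finset.sum_mul_sum, Finset.sum_mul, Finset.mul_sum]
      refine Finset.sum_congr rfl fun m _ => ?_
      rw [Finset.sum_mul, Finset.mul_sum]
      refine Finset.sum_congr rfl fun k _ => ?_
      rw [Finset.mul_sum, Finset.mul_sum]
    have e3 : ∑ χ : DirichletCharacter ℂ A with χ ≠ 1,
        G χ * (csum a X₁ χ 1 * csum g X₂ χ 1 * csum b Y χ 1) =
        ∑ χ : DirichletCharacter ℂ A with χ ≠ 1,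
        ∑ m ∈ Finset.Icc 1 X₁, ∑ k ∈ Finset.Icc 1 X₂, ∑ B ∈ Finset.Icc 1 Y,
          G χ * ((a m * χ ((m : ℕ) : ZMod A)) * (g k * χ ((k : ℕ) : ZMod A)) *
            (b B * χ ((B : ℕ) : ZMod A))) := Finset.sum_congr rfl fun χ _ => e2 χ
    rw [e3, Finset.sum_comm.trans (Finset.sum_congr rfl fun m _ => Finset.sum_comm.trans
      (Finset.sum_congr rfl fun k _ => Finset.sum_comm)), Finset.mul_sum]
    unfold D3
    refine Finset.sum_congr rfl fun m _ => ?_
    rw [Finset.mul_sum]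
    refine Finset.sum_congr rfl fun k _ => ?_
    rw [Finset.mul_sum]
    refine Finset.sum_congr rfl fun B _ => ?_
    exact hpt m k B
  rw [hD, norm_mul]
  unfold T3
  have h6 : ‖(1 / (Nat.totient A : ℂ))‖ = 1 / (Nat.totient A : ℝ) := by
    rw [norm_div, norm_one, Complex.norm_natCast]
  rw [h6]
  refine mul_le_mul_of_nonneg_left ?_ (by positivity)
  refine (norm_sum_le _ _).trans ?_
  rw [Finset.sum_filter, Finset.sum_filter]
  refine Finset.sum_le_sum fun χ _ => ?_
  by_cases hχ : χ = 1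
  · rw [if_neg (fun h => h hχ), if_neg (fun h => h hχ)]
  rw [if_pos hχ, if_pos hχ]
  rw [norm_mul, norm_mul, norm_mul, norm_mul]
  refine mul_le_mul_of_nonneg_right ?_
    (mul_nonneg (mul_nonneg (norm_nonneg _) (norm_nonneg _)) (norm_nonneg _))
  calc ‖gaussSum χ⁻¹ (ZMod.stdAddChar (N := A))‖ * ‖χ (-1)‖
      ≤ Real.sqrt ((χ⁻¹).conductor : ℝ) * 1 :=
        mul_le_mul (gauss_le hA _) (DirichletCharacter.norm_le_one _ _) (norm_nonneg _)
          (Real.sqrt_nonneg _)
    _ = Real.sqrt (χ.conductor : ℝ) := by rw [mul_one, conductor_inv]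

end Pool.Agent.MP_67227b_nt.Gg
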