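import Mathlib
import Pool.Agent.MP_67227b_nt.Gg.GgErrDefs
import Pool.Agent.MP_67227b_nt.Mo.Decay

set_option autoImplicit false

open Filter Topology Set MeasureTheory Complex
open scoped Real ContDiff ArithmeticFunction ArithmeticFunction.Moebius
open scoped Classical

namespace Pool.Agent.MP_67227b_nt.Gg

open Pool.Agent.BV (tau csum)
open Pool.Agent.LS (prim)

/-- Fourier inversion for a smooth function with compact support. PROOF. `f` (complex valued) is a
`Mo.Bump R`; `Mo.integral_gs_exp` with `y = 0`: `∫ gs f t e^{-2πivt} dt = f v`. Substitute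
`t = -u/(2π)`: `F(u) = gs f (-u/(2π)) / (2π)`; the decay is `Mo.gs_real_bound` with `K = 2`
(`1 + u² ≤ (2π)² (1 + (u/2π)²)`), the continuity `Mo.continuous_gs`. If `R < 0` then `f = 0`. -/
theorem sepF {f : ℝ → ℝ} (hf : ContDiff ℝ ∞ f) {R : ℝ} (hs : ∀ v, R < |v| → f v = 0) :
    ∃ (F : ℝ → ℂ) (C : ℝ), Continuous F ∧ 0 ≤ C ∧ (∀ u, ‖F u‖ ≤ C / (1 + u ^ 2) ^ 2) ∧
      ∀ v, (f v : ℂ) = ∫ u : ℝ, F u * Complex.exp (I * u * v) := by
  rcases lt_or_ge R 0 with hR | hR
  · have h0 : ∀ v, f v = 0 := fun v => hs v (hR.trans_le (abs_nonneg v))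
    refine ⟨fun _ => 0, 0, continuous_const, le_rfl, fun u => ?_, fun v => ?_⟩
    · simp
    · simp [h0 v]
  · have hη : Mo.Bump R (fun v => (f v : ℂ)) :=
      ⟨Complex.ofRealCLM.contDiff.comp hf, fun v hv => by rw [hs v hv, Complex.ofReal_zero]⟩
    obtain ⟨C, hC, hb⟩ := Mo.gs_real_bound hR hη 2
    have hpi : (0 : ℝ) < 2 * π := by positivity
    set a : ℝ := -(2 * π)⁻¹ with ha
    have haabs : |a⁻¹| = 2 * π := by
      rw [ha, ← inv_neg, inv_inv, abs_neg, abs_of_pos hpi]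
    refine ⟨fun u => ((2 * π : ℝ)⁻¹ : ℝ) * Mo.gs (fun v => (f v : ℂ)) ((a * u : ℝ) : ℂ),
      C * (2 * π) ^ 3, ?_, by positivity, fun u => ?_, fun v => ?_⟩
    · refine continuous_const.mul ((Mo.continuous_gs hR hη).comp ?_)
      fun_prop
    · rw [norm_mul, Complex.norm_real, Real.norm_of_nonneg (by positivity)]
      have h1 : 1 + u ^ 2 ≤ (2 * π) ^ 2 * (1 + (a * u) ^ 2) := by
        have h2 : (2 * π) ^ 2 * (1 + (a * u) ^ 2) = (2 * π) ^ 2 + u ^ 2 := by
          rw [ha]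
          field_simp
        have h3 : (1 : ℝ) ≤ (2 * π) ^ 2 := by
          have := Real.pi_gt_three
          nlinarith
        rw [h2]
        linarith
      have h4 : (1 + u ^ 2) ^ 2 ≤ (2 * π) ^ 4 * (1 + (a * u) ^ 2) ^ 2 := by
        calc (1 + u ^ 2) ^ 2 ≤ ((2 * π) ^ 2 * (1 + (a * u) ^ 2)) ^ 2 :=
              pow_le_pow_left₀ (by positivity) h1 2
          _ = _ := by ring
      have h5 : (2 * π)⁻¹ * ‖Mo.gs (fun v => (f v : ℂ)) ((a * u : ℝ) : ℂ)‖ ≤
          (2 * π)⁻¹ * (C / (1 + (a * u) ^ 2) ^ 2) :=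
        mul_le_mul_of_nonneg_left (hb (a * u)) (by positivity)
      refine h5.trans ?_
      rw [inv_mul_eq_div, div_div, div_le_div_iff₀ (by positivity) (by positivity)]
      calc C * (1 + u ^ 2) ^ 2 ≤ C * ((2 * π) ^ 4 * (1 + (a * u) ^ 2) ^ 2) :=
            mul_le_mul_of_nonneg_left h4 hC.le
        _ = C * (2 * π) ^ 3 * ((1 + (a * u) ^ 2) ^ 2 * (2 * π)) := by ring
    · have h1 := Mo.integral_gs_exp hR hη 0 v
      simp only [ofReal_zero, zero_mul, add_zero, mul_zero, Real.exp_zero, ofReal_one, mul_one,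
        neg_zero] at h1
      rw [← h1]
      have h2 := Measure.integral_comp_mul_left (fun t : ℝ =>
        Mo.gs (fun v => (f v : ℂ)) (t : ℂ) * Complex.exp (-(2 * π * I * v * t))) a
      rw [haabs] at h2
      have h3 : ∫ t : ℝ, Mo.gs (fun v => (f v : ℂ)) (t : ℂ) *
          Complex.exp (-(2 * π * I * v * t)) = ((2 * π : ℝ)⁻¹ : ℝ) • ∫ u : ℝ,
          Mo.gs (fun v => (f v : ℂ)) ((a * u : ℝ) : ℂ) *
          Complex.exp (-(2 * π * I * v * (a * u : ℝ))) := by
        rw [h2, smul_smul, inv_mul_cancel₀ hpi.ne', one_smul]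
      rw [h3, ← integral_smul]
      refine integral_congr_ae (Eventually.of_forall fun u => ?_)
      simp only [Complex.real_smul]
      have hE : Complex.exp (-(2 * π * I * v * ((a * u : ℝ) : ℂ))) = Complex.exp (I * u * v) := by
        congr 1
        have h4 : (π : ℂ) ≠ 0 := by exact_mod_cast Real.pi_pos.ne'
        rw [ha]
        push_cast
        field_simp
      rw [hE]
      ring

end Pool.Agent.MP_67227b_nt.Gg
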