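import Mathlib
import Pool.Agent.MP_67227b_nt.Gg.GgErrDefs
import Pool.Agent.MP_67227b_nt.Gg.GgSepF

set_option autoImplicit false

open Filter Topology Set MeasureTheory Complex
open scoped Real ContDiff ArithmeticFunction ArithmeticFunction.Moebius
open scoped Classical

namespace Pool.Agent.MP_67227b_nt.Gg

open Pool.Agent.BV (tau csum)
open Pool.Agent.LS (prim)

private theorem sepw_cexp {n : ℕ} (hn : 1 ≤ n) (U : ℝ) :
    pw U n = Complex.exp (I * U * Real.log n) := by
  unfold pw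
  have h0 : (n : ℂ) ≠ 0 := by exact_mod_cast (by omega : n ≠ 0)
  rw [Complex.cpow_def_of_ne_zero h0, ← Complex.natCast_log]
  congr 1
  ring

private theorem sepw_conj {n : ℕ} (hn : 1 ≤ n) (U : ℝ) :
    (starRingEnd ℂ) (pw U n) = Complex.exp (-(I * U * Real.log n)) := by
  rw [sepw_cexp hn, ← Complex.exp_conj, map_mul, map_mul, Complex.conj_I, Complex.conj_ofReal,
    Complex.conj_ofReal]
  congr 1
  ring

/-- Separation of the variables in the weight. With `p = log n - αL` and
`r = log B - log A + αL - log(T/2π)` one has `2πnB/(AT) = e^{p+r}`, so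
`wg = η(p)² W(p+r)`, `W(s) = ρ(e^s)`. PROOF. `W` is smooth, and zero for `s ≤ log(2κ)` and for
`s ≥ 0` (`1 - κ < 1 = e^0`), so `sepF` applies to it and to `η²` (`Eta.supp`); multiply the two
integrals and collect the exponentials `e^{iu(p+r)} e^{iu'p}`:
`e^{i(u+u') log n} e^{iu log B} e^{-iu log A}` times the constant
`z(u,u') = e^{-i(u+u')αL} e^{iu(αL - log(T/2π))}` of modulus `1`. -/
theorem sepW {X κ : ℝ} {η ρ : ℝ → ℝ} (hκ : 0 < κ) (hη : Eta X η) (hρ : Rho κ ρ) :
    ∃ (F₁ F₂ : ℝ → ℂ) (C : ℝ), Continuous F₁ ∧ Continuous F₂ ∧ 0 ≤ C ∧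
      (∀ u, ‖F₁ u‖ ≤ C / (1 + u ^ 2) ^ 2) ∧ (∀ u, ‖F₂ u‖ ≤ C / (1 + u ^ 2) ^ 2) ∧
      ∀ α T : ℝ, 1 < T → ∃ z : ℝ → ℝ → ℂ, (∀ u u', ‖z u u'‖ = 1) ∧
        Continuous (Function.uncurry z) ∧
        ∀ n A B : ℕ, 1 ≤ n → 1 ≤ A → 1 ≤ B → (wg η ρ α T n A B : ℂ) =
          ∫ u : ℝ, ∫ u' : ℝ, F₁ u * F₂ u' *
            (z u u' * pw (u + u') n * pw u B * (starRingEnd ℂ) (pw u A)) := by
  obtain ⟨F₁, C₁, hc1, hC1, hb1, hi1⟩ := sepF (f := fun s => ρ (Real.exp s))
    (hρ.smooth.comp Real.contDiff_exp) (R := |Real.log (2 * κ)|) (fun v hv => by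
      rcases le_or_gt 0 v with h | h
      · apply hρ.right
        have h1 : 1 ≤ Real.exp v := Real.one_le_exp h
        linarith
      · apply hρ.left
        have h1 : v ≤ Real.log (2 * κ) := by
          rw [abs_of_neg h] at hv
          have h2 := neg_abs_le (Real.log (2 * κ))
          linarith
        rw [← Real.exp_log (by positivity : 0 < 2 * κ)]
        exact Real.exp_le_exp.2 h1)
  obtain ⟨F₂, C₂, hc2, hC2, hb2, hi2⟩ := sepF (f := fun s => η s ^ 2)
    (hη.smooth.pow 2) (R := X) (fun v hv => by rw [hη.supp v hv]; norm_num)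
  have hle : ∀ (C C' u : ℝ), C ≤ C' → C / (1 + u ^ 2) ^ 2 ≤ C' / (1 + u ^ 2) ^ 2 :=
    fun C C' u h => div_le_div_of_nonneg_right h (by positivity)
  refine ⟨F₁, F₂, max C₁ C₂, hc1, hc2, hC1.trans (le_max_left _ _),
    fun u => (hb1 u).trans (hle _ _ u (le_max_left _ _)),
    fun u => (hb2 u).trans (hle _ _ u (le_max_right _ _)), fun α T hT => ?_⟩
  refine ⟨fun u u' => Complex.exp (-(I * (u * Real.log (T / (2 * π)) + u' * (α * Real.log T)))),
    fun u u' => ?_, ?_, fun n A B hn hA hB => ?_⟩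
  · have h1 : -(I * ((u : ℂ) * Real.log (T / (2 * π)) + u' * (α * Real.log T))) =
        ((-(u * Real.log (T / (2 * π)) + u' * (α * Real.log T)) : ℝ) : ℂ) * I := by
      push_cast
      ring
    show ‖Complex.exp (-(I * ((u : ℂ) * Real.log (T / (2 * π)) + u' * (α * Real.log T))))‖ = 1
    rw [h1, Complex.norm_exp_ofReal_mul_I]
  · unfold Function.uncurry
    fun_prop
  · have hn' : (0 : ℝ) < n := by exact_mod_cast hn
    have hA' : (0 : ℝ) < A := by exact_mod_cast hA
    have hB' : (0 : ℝ) < B := by exact_mod_cast hB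
    have hT' : 0 < T := by linarith
    set q : ℝ := Real.log n - α * Real.log T with hq
    set s : ℝ := Real.log n + Real.log B - Real.log A - Real.log (T / (2 * π)) with hs
    have hexp : Real.exp s = 2 * π * n * B / (A * T) := by
      rw [hs, Real.exp_sub, Real.exp_sub, Real.exp_add, Real.exp_log hn', Real.exp_log hB',
        Real.exp_log hA', Real.exp_log (by positivity)]
      field_simp
    have h1 : (wg η ρ α T n A B : ℂ) = ((η q ^ 2 : ℝ) : ℂ) * ((ρ (Real.exp s) : ℝ) : ℂ) := by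
      unfold wg wt
      rw [hexp]
      push_cast
      rfl
    rw [h1, hi1 s, hi2 q, mul_comm, ← integral_mul_const]
    refine integral_congr_ae (Eventually.of_forall fun u => ?_)
    simp only
    rw [← integral_const_mul]
    refine integral_congr_ae (Eventually.of_forall fun u' => ?_)
    simp only
    rw [sepw_cexp hn, sepw_cexp hB, sepw_conj hA]
    have h2 : F₁ u * Complex.exp (I * u * s) * (F₂ u' * Complex.exp (I * u' * q)) =
        F₁ u * F₂ u' * (Complex.exp (I * u * s) * Complex.exp (I * u' * q)) := by ring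
    rw [h2, ← Complex.exp_add, ← Complex.exp_add, ← Complex.exp_add, ← Complex.exp_add]
    congr 2
    rw [hq, hs]
    push_cast
    ring

end Pool.Agent.MP_67227b_nt.Gg
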