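import Mathlib
import Pool.Agent.BV.Prim
import Pool.Agent.MP_67227b_nt.Gg.GgErrDefs

set_option autoImplicit false

open Filter Topology Set MeasureTheory Complex
open scoped Real ContDiff ArithmeticFunction ArithmeticFunction.Moebius
open scoped Classical

namespace Pool.Agent.MP_67227b_nt.Gg

open Pool.Agent.BV (tau csum)
open Pool.Agent.LS (prim)

private theorem suma_P3_nonneg (a g b : ℕ → ℂ) (X₁ X₂ Y q e : ℕ) :
    0 ≤ P3 a g b X₁ X₂ Y q e :=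
  Finset.sum_nonneg fun _ _ => by positivity

private theorem suma_T3 (a g b : ℕ → ℂ) (X₁ X₂ Y A : ℕ) (hA : 1 ≤ A) :
    ∑ χ : DirichletCharacter ℂ A with χ ≠ 1,
      Real.sqrt (χ.conductor : ℝ) * (‖csum a X₁ χ 1‖ * ‖csum g X₂ χ 1‖ * ‖csum b Y χ 1‖) ≤
      ∑ f ∈ A.divisors.erase 1, Real.sqrt (f : ℝ) * P3 a g b X₁ X₂ Y f (A / f) := by
  have : NeZero A := ⟨by omega⟩
  have hP3 : ∀ f : ℕ, Real.sqrt (f : ℝ) * P3 a g b X₁ X₂ Y f (A / f) =
      ∑ ψ ∈ prim f, Real.sqrt (f : ℝ) * (‖csum a X₁ ψ (A / f)‖ * ‖csum g X₂ ψ (A / f)‖ *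
        ‖csum b Y ψ (A / f)‖) := fun f => by rw [P3, Finset.mul_sum]
  rw [Finset.sum_congr rfl fun f _ => hP3 f, Finset.sum_sigma']
  set B := (A.divisors.erase 1).sigma (fun f => prim f) with hB
  let i : DirichletCharacter ℂ A → (Σ f : ℕ, DirichletCharacter ℂ f) :=
    fun χ => ⟨χ.conductor, χ.primitiveCharacter⟩
  let h : (Σ f : ℕ, DirichletCharacter ℂ f) → DirichletCharacter ℂ A :=
    fun x => if h : x.1 ∣ A then DirichletCharacter.changeLevel h x.2 else 1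
  have hgi : ∀ χ, h (i χ) = χ := by
    intro χ
    show (if h : χ.conductor ∣ A then
      DirichletCharacter.changeLevel h χ.primitiveCharacter else 1) = χ
    rw [dif_pos χ.conductor_dvd_level]
    exact χ.changeLevel_primitiveCharacter
  have hinj : Function.Injective i := Function.LeftInverse.injective hgi
  let G : (Σ f : ℕ, DirichletCharacter ℂ f) → ℝ :=
    fun x => Real.sqrt (x.1 : ℝ) * (‖csum a X₁ x.2 (A / x.1)‖ * ‖csum g X₂ x.2 (A / x.1)‖ *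
      ‖csum b Y x.2 (A / x.1)‖)
  have hcs : ∀ (f : ℕ → ℂ) (X : ℕ) (χ : DirichletCharacter ℂ A),
      csum f X χ 1 = csum f X χ.primitiveCharacter (A / χ.conductor) := by
    intro f X χ
    rw [Pool.Agent.BV.csum_primitive f X A 1 hA χ, one_mul]
  have key : ∀ χ : DirichletCharacter ℂ A,
      Real.sqrt (χ.conductor : ℝ) * (‖csum a X₁ χ 1‖ * ‖csum g X₂ χ 1‖ * ‖csum b Y χ 1‖) =
        G (i χ) := by
    intro χ
    show _ = Real.sqrt (χ.conductor : ℝ) *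
      (‖csum a X₁ χ.primitiveCharacter (A / χ.conductor)‖ *
      ‖csum g X₂ χ.primitiveCharacter (A / χ.conductor)‖ *
      ‖csum b Y χ.primitiveCharacter (A / χ.conductor)‖)
    rw [← hcs a X₁ χ, ← hcs g X₂ χ, ← hcs b Y χ]
  have main : ∀ S : Finset (DirichletCharacter ℂ A), (∀ χ ∈ S, χ ≠ 1) →
      ∑ χ ∈ S, Real.sqrt (χ.conductor : ℝ) *
        (‖csum a X₁ χ 1‖ * ‖csum g X₂ χ 1‖ * ‖csum b Y χ 1‖) ≤ ∑ x ∈ B, G x := by
    intro S hS
    rw [Finset.sum_congr rfl (fun χ _ => key χ),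
      ← Finset.sum_image (f := G) (g := i) (fun a _ b _ h => hinj h)]
    refine Finset.sum_le_sum_of_subset_of_nonneg ?_ (fun x _ _ => by positivity)
    intro x hx
    rw [Finset.mem_image] at hx
    obtain ⟨χ, hχ, rfl⟩ := hx
    have hχ1 := hS χ hχ
    rw [hB, Finset.mem_sigma, Finset.mem_erase, Pool.Agent.LS.mem_prim]
    refine ⟨⟨?_, Nat.mem_divisors.mpr ⟨χ.conductor_dvd_level, by omega⟩⟩,
      χ.primitiveCharacter_isPrimitive⟩
    exact fun h => hχ1 ((χ.eq_one_iff_conductor_eq_one).mpr h)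
  exact main _ (fun χ hχ => by
    simp only [Finset.mem_filter, Finset.mem_univ, true_and] at hχ
    exact hχ)

/-- PROOF. As `sum_primitive` in `BV/Prim.lean` (the map `χ ↦ (conductor, primitive character)` is
injective, `χ ≠ 1` iff the conductor is not `1`; `csum_primitive` with `s = 1`), now with three
factors and the weight `√conductor`:
`T3 A ≤ (1/φ(A)) ∑_{f ∣ A, f ≠ 1} √f P3 f (A/f)`. For squarefree `A = f e` one has
`φ(A) = φ(f) φ(e)`. The map `(A, f) ↦ (e, q) = (A/f, f)` is injective, its image lies in the index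
set of `S3` (`1 < q`, `q ≤ A < 2K`, `K ≤ q e < 2K`, `1 ≤ e ≤ 2K`), and all terms are
nonnegative. -/
theorem sumA_le (a g b : ℕ → ℂ) (X₁ X₂ Y K : ℕ) :
    ∑ A ∈ Finset.Ico K (2 * K) with Squarefree A,
      (1 / (Nat.totient A : ℝ)) * T3 a g b X₁ X₂ Y A ≤
      S3 (Finset.Ioc 1 (2 * K)) a g b X₁ X₂ Y K := by
  set S : Finset ℕ := {A ∈ Finset.Ico K (2 * K) | Squarefree A} with hS
  have h1 : ∀ A ∈ S, (1 / (Nat.totient A : ℝ)) * T3 a g b X₁ X₂ Y A ≤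
      ∑ f ∈ A.divisors.erase 1, (1 / (Nat.totient A : ℝ)) ^ 2 *
        (Real.sqrt (f : ℝ) * P3 a g b X₁ X₂ Y f (A / f)) := by
    intro A hA
    rw [hS, Finset.mem_filter, Finset.mem_Ico] at hA
    have hA1 : 1 ≤ A := Nat.one_le_iff_ne_zero.2 hA.2.ne_zero
    rw [T3, ← mul_assoc, ← pow_two, ← Finset.mul_sum]
    exact mul_le_mul_of_nonneg_left (suma_T3 a g b X₁ X₂ Y A hA1) (by positivity)
  refine (Finset.sum_le_sum h1).trans ?_
  rw [Finset.sum_sigma']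
  have hR : S3 (Finset.Ioc 1 (2 * K)) a g b X₁ X₂ Y K =
      ∑ y ∈ (Finset.Icc 1 (2 * K)).sigma
        (fun e => {q ∈ Finset.Ioc 1 (2 * K) | K ≤ q * e ∧ q * e < 2 * K}),
        (1 / (Nat.totient y.1 : ℝ) ^ 2) * ((Real.sqrt (y.2 : ℝ) / (Nat.totient y.2 : ℝ) ^ 2) *
          P3 a g b X₁ X₂ Y y.2 y.1) := by
    rw [S3, Finset.sum_sigma]
    refine Finset.sum_congr rfl fun e _ => ?_
    rw [Finset.mul_sum]
  rw [hR]
  have hmem : ∀ x ∈ S.sigma (fun A => A.divisors.erase 1),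
      K ≤ x.1 ∧ x.1 < 2 * K ∧ Squarefree x.1 ∧ x.2 ≠ 1 ∧ x.2 ∣ x.1 ∧ 0 < x.2 ∧
        x.2 * (x.1 / x.2) = x.1 ∧ 0 < x.1 := by
    intro x hx
    rw [Finset.mem_sigma, hS, Finset.mem_filter, Finset.mem_Ico, Finset.mem_erase,
      Nat.mem_divisors] at hx
    obtain ⟨⟨⟨h1, h2⟩, h3⟩, h4, h5, h6⟩ := hx
    have h7 : 0 < x.1 := Nat.pos_of_ne_zero h6
    exact ⟨h1, h2, h3, h4, h5, Nat.pos_of_dvd_of_pos h5 h7, Nat.mul_div_cancel' h5, h7⟩
  have h2 : ∀ x ∈ S.sigma (fun A => A.divisors.erase 1),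
      (1 / (Nat.totient x.1 : ℝ)) ^ 2 *
        (Real.sqrt (x.2 : ℝ) * P3 a g b X₁ X₂ Y x.2 (x.1 / x.2)) =
      (fun y : (_ : ℕ) × ℕ => (1 / (Nat.totient y.1 : ℝ) ^ 2) *
        ((Real.sqrt (y.2 : ℝ) / (Nat.totient y.2 : ℝ) ^ 2) * P3 a g b X₁ X₂ Y y.2 y.1))
        ((fun x : (_ : ℕ) × ℕ => (⟨x.1 / x.2, x.2⟩ : (_ : ℕ) × ℕ)) x) := by
    intro x hx
    obtain ⟨-, -, h3, -, -, h6, h7, -⟩ := hmem x hx
    have hcop : x.2.Coprime (x.1 / x.2) := by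
      rw [← h7] at h3
      exact (Nat.squarefree_mul_iff.1 h3).1
    have hφ : (Nat.totient x.1 : ℝ) = (Nat.totient x.2 : ℝ) * (Nat.totient (x.1 / x.2) : ℝ) := by
      conv_lhs => rw [← h7]
      rw [Nat.totient_mul hcop, Nat.cast_mul]
    show (1 / (Nat.totient x.1 : ℝ)) ^ 2 *
        (Real.sqrt (x.2 : ℝ) * P3 a g b X₁ X₂ Y x.2 (x.1 / x.2)) =
      (1 / (Nat.totient (x.1 / x.2) : ℝ) ^ 2) *
        ((Real.sqrt (x.2 : ℝ) / (Nat.totient x.2 : ℝ) ^ 2) * P3 a g b X₁ X₂ Y x.2 (x.1 / x.2))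
    rw [hφ]
    ring
  rw [Finset.sum_congr rfl h2]
  rw [← Finset.sum_image (g := fun x : (_ : ℕ) × ℕ => (⟨x.1 / x.2, x.2⟩ : (_ : ℕ) × ℕ))
    (f := fun y : (_ : ℕ) × ℕ => (1 / (Nat.totient y.1 : ℝ) ^ 2) *
        ((Real.sqrt (y.2 : ℝ) / (Nat.totient y.2 : ℝ) ^ 2) * P3 a g b X₁ X₂ Y y.2 y.1))]
  · refine Finset.sum_le_sum_of_subset_of_nonneg ?_ ?_
    · intro y hy
      rw [Finset.mem_image] at hy
      obtain ⟨x, hx, rfl⟩ := hy
      obtain ⟨h1, h2, h3, h4, h5, h6, h7, h8⟩ := hmem x hx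
      have hle : x.2 ≤ x.1 := Nat.le_of_dvd h8 h5
      have he : 0 < x.1 / x.2 := Nat.div_pos hle h6
      have he2 : x.1 / x.2 ≤ x.1 := Nat.div_le_self _ _
      rw [Finset.mem_sigma, Finset.mem_Icc, Finset.mem_filter, Finset.mem_Ioc]
      refine ⟨⟨he, ?_⟩, ⟨?_, ?_⟩, ?_, ?_⟩
      · show x.1 / x.2 ≤ 2 * K
        omega
      · show 1 < x.2
        omega
      · show x.2 ≤ 2 * K
        omega
      · show K ≤ x.2 * (x.1 / x.2)
        rw [h7]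
        exact h1
      · show x.2 * (x.1 / x.2) < 2 * K
        rw [h7]
        exact h2
    · intro y _ _
      have := suma_P3_nonneg a g b X₁ X₂ Y y.2 y.1
      positivity
  · intro x hx y hy hxy
    obtain ⟨-, -, -, -, -, -, hx6, -⟩ := hmem x hx
    obtain ⟨-, -, -, -, -, -, hy6, -⟩ := hmem y hy
    rcases x with ⟨x1, x2⟩
    rcases y with ⟨y1, y2⟩
    simp only [Sigma.mk.injEq, heq_eq_eq] at hxy
    obtain ⟨h3, h4⟩ := hxy
    simp only at hx6 hy6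
    have h5 : x1 = y1 := by rw [← hx6, ← hy6, h3, h4]
    rw [h5, h4]

end Pool.Agent.MP_67227b_nt.Gg
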