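import Mathlib
import Pool.Agent.LS.Mult

set_option autoImplicit false

/-! # The Pólya-Vinogradov inequality, with weights of bounded variation and a coprimality
condition -/

namespace Pool.Agent.MP_67227b_nt.Gg

open Finset ZMod Pool.Agent.LS
open scoped Real

/-- A finite geometric sum. -/
theorem norm_geom_le {z : ℂ} (hz : ‖z‖ = 1) (hz1 : z ≠ 1) (M N : ℕ) :
    ‖∑ n ∈ Ioc M N, z ^ n‖ ≤ 2 / ‖z - 1‖ := by
  have h0 : 0 < ‖z - 1‖ := norm_pos_iff.mpr (sub_ne_zero.mpr hz1)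
  rcases le_or_gt N M with h | h
  · rw [Finset.Ioc_eq_empty (by omega), Finset.sum_empty, norm_zero]
    positivity
  · have h1 : ∑ n ∈ Ioc M N, z ^ n = ∑ n ∈ Ico (M + 1) (N + 1), z ^ n := by
      congr 1
      ext n
      rw [Finset.mem_Ioc, Finset.mem_Ico]
      omega
    rw [h1, geom_sum_Ico hz1 (by omega), norm_div]
    apply div_le_div_of_nonneg_right _ h0.le
    calc ‖z ^ (N + 1) - z ^ (M + 1)‖ ≤ ‖z ^ (N + 1)‖ + ‖z ^ (M + 1)‖ := norm_sub_le _ _
      _ = 2 := by rw [norm_pow, norm_pow, hz, one_pow, one_pow]; norm_num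

/-- Jordan's inequality for the distance of `e(v/q)` to `1`. -/
theorem norm_exp_sub_one_ge {q v : ℕ} (hv : 0 < v) (hvq : v < q) :
    4 * (min v (q - v) : ℕ) / (q : ℝ) ≤ ‖Complex.exp (2 * π * Complex.I * v / q) - 1‖ := by
  have hq : (0 : ℝ) < q := by exact_mod_cast hv.trans hvq
  have h1 : (2 * π * Complex.I * v / q : ℂ) = Complex.I * ((2 * π * v / q : ℝ) : ℂ) := by
    push_cast; ring
  rw [h1, Complex.norm_exp_I_mul_ofReal_sub_one, Real.norm_eq_abs, abs_mul, abs_two]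
  have h2 : (2 * π * v / q / 2 : ℝ) = π * v / q := by ring
  rw [h2]
  have hpos : 0 ≤ Real.sin (π * v / q) := by
    apply Real.sin_nonneg_of_nonneg_of_le_pi (by positivity)
    rw [div_le_iff₀ hq]
    have : (v : ℝ) ≤ q := by exact_mod_cast hvq.le
    nlinarith [Real.pi_pos]
  rw [abs_of_nonneg hpos]
  rcases le_total (2 * v) q with h | h
  · have hm : min v (q - v) = v := by omega
    rw [hm]
    have h3 := Real.mul_le_sin (x := π * v / q) (by positivity) (by
      rw [div_le_iff₀ hq]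
      have : (2 * v : ℝ) ≤ q := by exact_mod_cast h
      nlinarith [Real.pi_pos])
    have h4 : 2 / π * (π * v / q) = 2 * v / q := by
      field_simp
    rw [h4] at h3
    calc 4 * (v : ℝ) / q = 2 * (2 * v / q) := by ring
      _ ≤ _ := by linarith
  · have hm : min v (q - v) = q - v := by omega
    rw [hm]
    have h3 := Real.mul_le_sin (x := π - π * v / q) (by
      rw [sub_nonneg, div_le_iff₀ hq]
      have : (v : ℝ) ≤ q := by exact_mod_cast hvq.le
      nlinarith [Real.pi_pos]) (by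
      have : (q : ℝ) ≤ 2 * v := by exact_mod_cast h
      have h5 : π / 2 ≤ π * v / q := by
        rw [le_div_iff₀ hq]
        nlinarith [Real.pi_pos]
      linarith)
    rw [Real.sin_pi_sub] at h3
    have h4 : 2 / π * (π - π * v / q) = 2 * ((q : ℝ) - v) / q := by
      field_simp
    rw [h4] at h3
    rw [Nat.cast_sub hvq.le]
    calc 4 * ((q : ℝ) - v) / q = 2 * (2 * ((q : ℝ) - v) / q) := by ring
      _ ≤ _ := by linarith

/-- The sum of the reciprocals of the distances. -/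
theorem sum_min_le (q : ℕ) :
    ∑ v ∈ Ico 1 q, 1 / ((min v (q - v) : ℕ) : ℝ) ≤ 2 * (1 + Real.log q) := by
  have h1 : ∑ v ∈ Ico 1 q, 1 / ((min v (q - v) : ℕ) : ℝ) ≤
      ∑ v ∈ Ico 1 q, (1 / (v : ℝ) + 1 / ((q - v : ℕ) : ℝ)) := by
    apply Finset.sum_le_sum
    intro v hv
    rw [Finset.mem_Ico] at hv
    rcases le_total v (q - v) with h | h
    · rw [min_eq_left h]
      have : (0 : ℝ) ≤ 1 / ((q - v : ℕ) : ℝ) := by positivity
      linarith
    · rw [min_eq_right h]
      have : (0 : ℝ) ≤ 1 / (v : ℝ) := by positivity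
      linarith
  refine h1.trans ?_
  rw [Finset.sum_add_distrib]
  have h2 : ∑ v ∈ Ico 1 q, 1 / ((q - v : ℕ) : ℝ) = ∑ v ∈ Ico 1 q, 1 / (v : ℝ) := by
    refine Finset.sum_bij' (fun v _ => q - v) (fun v _ => q - v) ?_ ?_ ?_ ?_ ?_
    · intro v hv; rw [Finset.mem_Ico] at hv ⊢; omega
    · intro v hv; rw [Finset.mem_Ico] at hv ⊢; omega
    · intro v hv; rw [Finset.mem_Ico] at hv; omega
    · intro v hv; rw [Finset.mem_Ico] at hv; omega
    · intro v hv; rfl
  rw [h2]
  have h3 : ∑ v ∈ Ico 1 q, 1 / (v : ℝ) ≤ 1 + Real.log q := by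
    have h4 := harmonic_le_one_add_log q
    have h5 : ((harmonic q : ℚ) : ℝ) = ∑ i ∈ range q, 1 / ((i + 1 : ℕ) : ℝ) := by
      unfold harmonic
      push_cast
      simp [one_div]
    rw [h5] at h4
    refine le_trans ?_ h4
    rw [Finset.sum_Ico_eq_sum_range]
    refine le_trans (le_of_eq ?_) (Finset.sum_le_sum_of_subset_of_nonneg
      (Finset.range_subset_range.mpr (Nat.sub_le q 1)) (fun i _ _ => by positivity))
    refine Finset.sum_congr rfl fun i _ => ?_
    rw [add_comm]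
  linarith

/-- **The Pólya-Vinogradov inequality.** -/
theorem polya_vinogradov {q : ℕ} (hq : 1 < q) (χ : DirichletCharacter ℂ q) (hχ : χ.IsPrimitive)
    (M N : ℕ) : ‖∑ n ∈ Ioc M N, χ (n : ZMod q)‖ ≤ Real.sqrt q * (1 + Real.log q) := by
  have : NeZero q := ⟨by omega⟩
  have hq0 : (0 : ℝ) < q := by exact_mod_cast (by omega : 0 < q)
  have hlog : 0 ≤ Real.log q := Real.log_nonneg (by exact_mod_cast hq.le)
  rcases le_or_gt N M with h | h
  · rw [Finset.Ioc_eq_empty (by omega), Finset.sum_empty, norm_zero]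
    positivity
  obtain ⟨K, rfl⟩ : ∃ K, N = M + K := ⟨N - M, by omega⟩
  have h1 := norm_sum_char_sq χ hχ M K (fun _ => 1)
  simp only [one_mul] at h1
  -- the exponential sums
  have h2 : ‖∑ x : ZMod q, (starRingEnd ℂ) (χ x)
      * ∑ n ∈ Ioc M (M + K), stdAddChar ((n : ZMod q) * (-x))‖ ≤ (q : ℝ) * (1 + Real.log q) := by
    have h3 : ∀ x : ZMod q, ‖(starRingEnd ℂ) (χ x)
        * ∑ n ∈ Ioc M (M + K), stdAddChar ((n : ZMod q) * (-x))‖ ≤
        if x = 0 then 0 else (q : ℝ) / 2 * (1 / ((min (-x).val (q - (-x).val) : ℕ) : ℝ)) := by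
      intro x
      split_ifs with hx
      · subst hx
        have : Fact (1 < q) := ⟨hq⟩
        have : Nontrivial (ZMod q) := inferInstance
        rw [MulChar.map_zero]
        simp
      · have hv0 : 0 < (-x).val := by
          rw [Nat.pos_iff_ne_zero]
          intro h0
          rw [ZMod.val_eq_zero, neg_eq_zero] at h0
          exact hx h0
        have hvq : (-x).val < q := ZMod.val_lt _
        set v := (-x).val with hv
        set z : ℂ := Complex.exp (2 * π * Complex.I * v / q) with hz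
        have hzn : ‖z‖ = 1 := by
          rw [hz, show (2 * π * Complex.I * v / q : ℂ) = ((2 * π * v / q : ℝ) : ℂ) * Complex.I by
            push_cast; ring]
          exact Complex.norm_exp_ofReal_mul_I _
        have hge := norm_exp_sub_one_ge hv0 hvq
        have hmin : 0 < min v (q - v) := by omega
        have hmin' : (0 : ℝ) < (min v (q - v) : ℕ) := by exact_mod_cast hmin
        have hpos : 0 < 4 * ((min v (q - v) : ℕ) : ℝ) / (q : ℝ) := by positivity
        have hz1 : z ≠ 1 := by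
          intro h0
          rw [← hz, h0, sub_self, norm_zero] at hge
          linarith
        have hterm : ∀ n ∈ Ioc M (M + K), stdAddChar ((n : ZMod q) * (-x)) = z ^ n := by
          intro n _
          have h5 : ((n : ZMod q) * (-x)) = (((n * v : ℕ) : ℤ) : ZMod q) := by
            push_cast
            rw [hv, ZMod.natCast_zmod_val]
          rw [h5, stdAddChar_coe, hz, ← Complex.exp_nat_mul]
          congr 1
          push_cast
          ring
        rw [Finset.sum_congr rfl hterm, norm_mul, RCLike.norm_conj]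
        have h6 : ‖χ x‖ ≤ 1 := χ.norm_le_one x
        have h7 := norm_geom_le hzn hz1 M (M + K)
        have h8 : 2 / ‖z - 1‖ ≤ 2 / (4 * ((min v (q - v) : ℕ) : ℝ) / (q : ℝ)) :=
          div_le_div_of_nonneg_left (by norm_num) hpos hge
        have h9 : 2 / (4 * ((min v (q - v) : ℕ) : ℝ) / (q : ℝ)) =
            (q : ℝ) / 2 * (1 / ((min v (q - v) : ℕ) : ℝ)) := by
          field_simp
          norm_num
        calc ‖χ x‖ * ‖∑ n ∈ Ioc M (M + K), z ^ n‖ ≤ 1 * ‖∑ n ∈ Ioc M (M + K), z ^ n‖ := by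
              gcongr
          _ ≤ _ := by rw [one_mul]; linarith
    refine (norm_sum_le _ _).trans ?_
    refine (Finset.sum_le_sum fun x _ => h3 x).trans ?_
    have h4 : ∑ x : ZMod q, (if x = 0 then 0 else
        (q : ℝ) / 2 * (1 / ((min (-x).val (q - (-x).val) : ℕ) : ℝ))) =
        ∑ v ∈ Ico 1 q, (q : ℝ) / 2 * (1 / ((min v (q - v) : ℕ) : ℝ)) := by
      rw [← Finset.sum_filter_not_add_sum_filter Finset.univ (fun x : ZMod q => x = 0)]
      have h5 : ∑ x ∈ Finset.univ.filter (fun x : ZMod q => x = 0), (if x = 0 then 0 else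
          (q : ℝ) / 2 * (1 / ((min (-x).val (q - (-x).val) : ℕ) : ℝ))) = 0 := by
        apply Finset.sum_eq_zero
        intro x hx
        rw [Finset.mem_filter] at hx
        rw [if_pos hx.2]
      rw [h5, add_zero]
      refine Finset.sum_bij' (fun (x : ZMod q) _ => (-x).val) (fun (v : ℕ) _ => -(v : ZMod q))
        ?_ ?_ ?_ ?_ ?_
      · intro x hx
        rw [Finset.mem_filter] at hx
        rw [Finset.mem_Ico]
        refine ⟨?_, ZMod.val_lt _⟩
        rw [Nat.one_le_iff_ne_zero]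
        intro h0
        rw [ZMod.val_eq_zero, neg_eq_zero] at h0
        exact hx.2 h0
      · intro v hv
        rw [Finset.mem_Ico] at hv
        rw [Finset.mem_filter]
        refine ⟨Finset.mem_univ _, ?_⟩
        rw [neg_eq_zero, ZMod.natCast_eq_zero_iff]
        intro hd
        have := Nat.le_of_dvd (by omega) hd
        omega
      · intro x _
        rw [ZMod.natCast_zmod_val, neg_neg]
      · intro v hv
        rw [Finset.mem_Ico] at hv
        rw [neg_neg, ZMod.val_natCast, Nat.mod_eq_of_lt hv.2]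
      · intro x hx
        rw [Finset.mem_filter] at hx
        rw [if_neg hx.2]
    rw [h4, ← Finset.mul_sum]
    have h5 := sum_min_le q
    calc (q : ℝ) / 2 * ∑ v ∈ Ico 1 q, 1 / ((min v (q - v) : ℕ) : ℝ)
        ≤ (q : ℝ) / 2 * (2 * (1 + Real.log q)) := by gcongr
      _ = _ := by ring
  set S := ‖∑ n ∈ Ioc M (M + K), χ (n : ZMod q)‖ with hS
  have h3 : (q : ℝ) * S ^ 2 ≤ ((q : ℝ) * (1 + Real.log q)) ^ 2 := by
    rw [h1]
    gcongr
  have h4 : S ^ 2 ≤ (Real.sqrt q * (1 + Real.log q)) ^ 2 := by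
    rw [mul_pow, Real.sq_sqrt hq0.le]
    have : (q : ℝ) * S ^ 2 ≤ (q : ℝ) * ((q : ℝ) * (1 + Real.log q) ^ 2) := by
      calc (q : ℝ) * S ^ 2 ≤ _ := h3
        _ = _ := by ring
    exact le_of_mul_le_mul_left this hq0
  exact abs_le_of_sq_le_sq' h4 (by positivity) |>.2

/-- Partial summation. -/
theorem abel_Ioc (f a : ℕ → ℂ) (M K : ℕ) :
    ∑ n ∈ Ioc M (M + K), f n * a n = f (M + K) * ∑ n ∈ Ioc M (M + K), a n -
      ∑ n ∈ Ico M (M + K), (f (n + 1) - f n) * ∑ k ∈ Ioc M n, a k := by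
  induction K with
  | zero => simp
  | succ K ih =>
    have h1 : ∀ g : ℕ → ℂ, ∑ n ∈ Ioc M (M + (K + 1)), g n =
        ∑ n ∈ Ioc M (M + K), g n + g (M + K + 1) := by
      intro g
      rw [← add_assoc, Finset.sum_Ioc_succ_top (by omega)]
    have h2 : ∀ g : ℕ → ℂ, ∑ n ∈ Ico M (M + (K + 1)), g n =
        ∑ n ∈ Ico M (M + K), g n + g (M + K) := by
      intro g
      rw [← add_assoc, Finset.sum_Ico_succ_top (by omega)]
    rw [h1, h1, h2, ih, ← add_assoc]
    ring

/-- Pólya-Vinogradov with a weight of bounded variation. -/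
theorem pv_var {q : ℕ} (hq : 1 < q) (χ : DirichletCharacter ℂ q) (hχ : χ.IsPrimitive)
    (f : ℕ → ℂ) {M N : ℕ} (hMN : M < N) :
    ‖∑ n ∈ Ioc M N, f n * χ (n : ZMod q)‖ ≤ Real.sqrt q * (1 + Real.log q) *
      (‖f N‖ + ∑ n ∈ Ico (M + 1) N, ‖f (n + 1) - f n‖) := by
  obtain ⟨K, rfl⟩ : ∃ K, N = M + K := ⟨N - M, by omega⟩
  have hPV := fun M' N' => polya_vinogradov hq χ hχ M' N'
  have hlog : 0 ≤ Real.log q := Real.log_nonneg (by exact_mod_cast hq.le)
  have hD : 0 ≤ Real.sqrt q * (1 + Real.log q) := by positivity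
  rw [abel_Ioc f (fun n => χ (n : ZMod q)) M K]
  refine (norm_sub_le _ _).trans ?_
  rw [mul_add]
  apply add_le_add
  · rw [norm_mul, mul_comm]
    exact mul_le_mul_of_nonneg_right (hPV _ _) (norm_nonneg _)
  · rw [Finset.sum_eq_sum_Ico_succ_bot hMN]
    rw [Finset.Ioc_self, Finset.sum_empty, mul_zero, zero_add, Finset.mul_sum]
    refine (norm_sum_le _ _).trans (Finset.sum_le_sum fun n _ => ?_)
    rw [norm_mul, mul_comm]
    exact mul_le_mul_of_nonneg_right (hPV _ _) (norm_nonneg _)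

/-- The variation of `n^{iv}`. -/
theorem norm_cpow_sub_le (v : ℝ) {n : ℕ} (hn : 1 ≤ n) :
    ‖((n + 1 : ℕ) : ℂ) ^ ((v : ℂ) * Complex.I) - (n : ℂ) ^ ((v : ℂ) * Complex.I)‖ ≤
      |v| * (Real.log (n + 1 : ℕ) - Real.log n) := by
  have hn0 : (0 : ℝ) < n := by exact_mod_cast hn
  have h1 : ∀ m : ℕ, 1 ≤ m → (m : ℂ) ^ ((v : ℂ) * Complex.I) =
      Complex.exp (Complex.I * ((v * Real.log m : ℝ) : ℂ)) := by
    intro m hm
    have hm0 : (m : ℂ) ≠ 0 := by exact_mod_cast (by omega : m ≠ 0)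
    rw [Complex.cpow_def_of_ne_zero hm0, ← Complex.natCast_log]
    congr 1
    push_cast
    ring
  rw [h1 _ hn, h1 _ (by omega : 1 ≤ n + 1)]
  set a := v * Real.log n with ha
  set b := v * Real.log ((n + 1 : ℕ) : ℝ) with hb
  have h2 : Complex.exp (Complex.I * (b : ℂ)) - Complex.exp (Complex.I * (a : ℂ)) =
      Complex.exp (Complex.I * (a : ℂ)) * (Complex.exp (Complex.I * ((b - a : ℝ) : ℂ)) - 1) := by
    rw [mul_sub, ← Complex.exp_add, mul_one]
    congr 2
    push_cast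
    ring
  rw [h2, norm_mul, Complex.norm_exp_I_mul_ofReal, one_mul]
  refine (Real.norm_exp_I_mul_ofReal_sub_one_le).trans ?_
  rw [Real.norm_eq_abs, ha, hb, ← mul_sub, abs_mul]
  have h3 : 0 ≤ Real.log ((n + 1 : ℕ) : ℝ) - Real.log n := by
    rw [sub_nonneg]
    exact Real.log_le_log hn0 (by push_cast; linarith)
  rw [abs_of_nonneg h3]

theorem norm_natCast_cpow_I (v : ℝ) {n : ℕ} (hn : 1 ≤ n) :
    ‖(n : ℂ) ^ ((v : ℂ) * Complex.I)‖ = 1 := by
  rw [Complex.norm_natCast_cpow_of_pos hn]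
  simp

/-- **Pólya-Vinogradov for `χ(n) n^{iv}`.** -/
theorem pv_pow {q : ℕ} (hq : 1 < q) (χ : DirichletCharacter ℂ q) (hχ : χ.IsPrimitive)
    (v : ℝ) (M N : ℕ) :
    ‖∑ n ∈ Ioc M N, (n : ℂ) ^ ((v : ℂ) * Complex.I) * χ (n : ZMod q)‖ ≤
      Real.sqrt q * (1 + Real.log q) * (1 + |v| * Real.log N) := by
  have hlog : 0 ≤ Real.log q := Real.log_nonneg (by exact_mod_cast hq.le)
  have hD : 0 ≤ Real.sqrt q * (1 + Real.log q) := by positivity
  rcases le_or_gt N M with h | h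
  · rw [Finset.Ioc_eq_empty (by omega), Finset.sum_empty, norm_zero]
    have : 0 ≤ Real.log N := Real.log_natCast_nonneg N
    positivity
  refine (pv_var hq χ hχ _ h).trans ?_
  refine mul_le_mul_of_nonneg_left ?_ hD
  rw [norm_natCast_cpow_I v (by omega)]
  gcongr
  have h1 : ∀ n ∈ Ico (M + 1) N, ‖((n + 1 : ℕ) : ℂ) ^ ((v : ℂ) * Complex.I) -
      (n : ℂ) ^ ((v : ℂ) * Complex.I)‖ ≤ |v| * (Real.log (n + 1 : ℕ) - Real.log n) := by
    intro n hn
    rw [Finset.mem_Ico] at hn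
    exact norm_cpow_sub_le v (by omega)
  refine (Finset.sum_le_sum h1).trans ?_
  rw [← Finset.mul_sum, Finset.sum_Ico_sub (fun n : ℕ => Real.log n) (by omega : M + 1 ≤ N)]
  have h2 : 0 ≤ Real.log ((M + 1 : ℕ) : ℝ) := Real.log_natCast_nonneg _
  gcongr
  linarith

/-- The variation of `log n · n^{iv}`. -/
theorem norm_log_cpow_sub_le (v : ℝ) {n N : ℕ} (hn : 1 ≤ n) (hnN : n < N) :
    ‖(Real.log (n + 1 : ℕ) : ℂ) * ((n + 1 : ℕ) : ℂ) ^ ((v : ℂ) * Complex.I) -
      (Real.log n : ℂ) * (n : ℂ) ^ ((v : ℂ) * Complex.I)‖ ≤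
      (1 + |v| * Real.log N) * (Real.log (n + 1 : ℕ) - Real.log n) := by
  have hn0 : (0 : ℝ) < n := by exact_mod_cast hn
  have h3 : 0 ≤ Real.log ((n + 1 : ℕ) : ℝ) - Real.log n := by
    rw [sub_nonneg]
    exact Real.log_le_log hn0 (by push_cast; linarith)
  have h1 : (Real.log (n + 1 : ℕ) : ℂ) * ((n + 1 : ℕ) : ℂ) ^ ((v : ℂ) * Complex.I) -
      (Real.log n : ℂ) * (n : ℂ) ^ ((v : ℂ) * Complex.I) =
      ((Real.log (n + 1 : ℕ) - Real.log n : ℝ) : ℂ) * ((n + 1 : ℕ) : ℂ) ^ ((v : ℂ) * Complex.I) +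
      (Real.log n : ℂ) * (((n + 1 : ℕ) : ℂ) ^ ((v : ℂ) * Complex.I) -
        (n : ℂ) ^ ((v : ℂ) * Complex.I)) := by
    push_cast
    ring
  rw [h1]
  refine (norm_add_le _ _).trans ?_
  rw [norm_mul, norm_mul, norm_natCast_cpow_I v (by omega), mul_one, Complex.norm_real,
    Complex.norm_real, Real.norm_eq_abs, Real.norm_eq_abs, abs_of_nonneg h3,
    abs_of_nonneg (Real.log_natCast_nonneg n), add_mul, one_mul]
  refine add_le_add le_rfl ?_
  have h4 : Real.log n ≤ Real.log N :=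
    Real.log_le_log hn0 (by exact_mod_cast hnN.le)
  calc Real.log n * ‖((n + 1 : ℕ) : ℂ) ^ ((v : ℂ) * Complex.I) -
        (n : ℂ) ^ ((v : ℂ) * Complex.I)‖
      ≤ Real.log N * (|v| * (Real.log (n + 1 : ℕ) - Real.log n)) :=
        mul_le_mul h4 (norm_cpow_sub_le v hn) (norm_nonneg _) (Real.log_natCast_nonneg N)
    _ = _ := by ring

/-- **Pólya-Vinogradov for `χ(n) log n n^{iv}`.** -/
theorem pv_log {q : ℕ} (hq : 1 < q) (χ : DirichletCharacter ℂ q) (hχ : χ.IsPrimitive)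
    (v : ℝ) (M N : ℕ) :
    ‖∑ n ∈ Ioc M N, (Real.log n : ℂ) * (n : ℂ) ^ ((v : ℂ) * Complex.I) * χ (n : ZMod q)‖ ≤
      Real.sqrt q * (1 + Real.log q) * (2 * Real.log N * (1 + |v| * Real.log N)) := by
  have hlog : 0 ≤ Real.log q := Real.log_nonneg (by exact_mod_cast hq.le)
  have hD : 0 ≤ Real.sqrt q * (1 + Real.log q) := by positivity
  have hN : 0 ≤ Real.log N := Real.log_natCast_nonneg N
  rcases le_or_gt N M with h | h
  · rw [Finset.Ioc_eq_empty (by omega), Finset.sum_empty, norm_zero]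
    positivity
  refine (pv_var hq χ hχ _ h).trans ?_
  refine mul_le_mul_of_nonneg_left ?_ hD
  rw [norm_mul, norm_natCast_cpow_I v (by omega), mul_one, Complex.norm_real, Real.norm_eq_abs,
    abs_of_nonneg hN]
  have h1 : ∀ n ∈ Ico (M + 1) N, ‖(Real.log (n + 1 : ℕ) : ℂ) *
      ((n + 1 : ℕ) : ℂ) ^ ((v : ℂ) * Complex.I) - (Real.log n : ℂ) *
      (n : ℂ) ^ ((v : ℂ) * Complex.I)‖ ≤
      (1 + |v| * Real.log N) * (Real.log (n + 1 : ℕ) - Real.log n) := by
    intro n hn
    rw [Finset.mem_Ico] at hn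
    exact norm_log_cpow_sub_le v (by omega) hn.2
  have h2 := Finset.sum_le_sum h1
  rw [← Finset.mul_sum, Finset.sum_Ico_sub (fun n : ℕ => Real.log n) (by omega : M + 1 ≤ N)] at h2
  have h3 : 0 ≤ Real.log ((M + 1 : ℕ) : ℝ) := Real.log_natCast_nonneg _
  have h4 : (1 + |v| * Real.log N) * (Real.log N - Real.log ((M + 1 : ℕ) : ℝ)) ≤
      (1 + |v| * Real.log N) * Real.log N := by
    gcongr
    linarith
  have h5 : 0 ≤ |v| * Real.log N * Real.log N := by positivity
  nlinarith [h2, h4, h5]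

/-- The coprimality condition through the divisors. -/
theorem sum_coprime_eq (f : ℕ → ℂ) (e M N : ℕ) (he : 0 < e) :
    ∑ n ∈ (Ioc M N).filter (fun n => n.Coprime e), f n =
      ∑ d ∈ e.divisors, (ArithmeticFunction.moebius d : ℂ) *
        ∑ m ∈ Ioc (M / d) (N / d), f (d * m) := by
  have h1 : ∀ n ∈ Ioc M N, (if n.Coprime e then f n else 0) =
      ∑ d ∈ e.divisors, (ArithmeticFunction.moebius d : ℂ) * (if d ∣ n then f n else 0) := by
    intro n hn
    rw [Finset.mem_Ioc] at hn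
    have hn0 : n ≠ 0 := by omega
    have h2 : ∑ d ∈ e.divisors, (ArithmeticFunction.moebius d : ℂ) * (if d ∣ n then f n else 0) =
        (∑ d ∈ (Nat.gcd n e).divisors, (ArithmeticFunction.moebius d : ℂ)) * f n := by
      rw [Finset.sum_mul]
      have h3 : (Nat.gcd n e).divisors = e.divisors.filter (fun d => d ∣ n) := by
        ext d
        rw [Nat.mem_divisors, Finset.mem_filter, Nat.mem_divisors, Nat.dvd_gcd_iff]
        constructor
        · rintro ⟨⟨h4, h5⟩, _⟩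
          exact ⟨⟨h5, by omega⟩, h4⟩
        · rintro ⟨⟨h4, _⟩, h5⟩
          exact ⟨⟨h5, h4⟩, Nat.gcd_ne_zero_right (by omega)⟩
      rw [h3, Finset.sum_filter]
      refine Finset.sum_congr rfl fun d _ => ?_
      split_ifs <;> simp
    rw [h2]
    have h3 : ∑ d ∈ (Nat.gcd n e).divisors, (ArithmeticFunction.moebius d : ℂ) =
        if Nat.gcd n e = 1 then 1 else 0 := by
      have h4 := congrArg (fun f : ArithmeticFunction ℤ => f (Nat.gcd n e))
        ArithmeticFunction.coe_zeta_mul_moebius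
      simp only [ArithmeticFunction.coe_zeta_mul_apply, ArithmeticFunction.one_apply] at h4
      exact_mod_cast h4
    rw [h3]
    by_cases h4 : n.Coprime e
    · rw [if_pos h4, if_pos h4, one_mul]
    · rw [if_neg h4, if_neg h4, zero_mul]
  rw [Finset.sum_filter, Finset.sum_congr rfl h1, Finset.sum_comm]
  refine Finset.sum_congr rfl fun d hd => ?_
  have hd0 : 0 < d := Nat.pos_of_mem_divisors hd
  rw [← Finset.mul_sum]
  congr 1
  rw [← Finset.sum_filter]
  symm
  refine Finset.sum_bij' (fun m _ => d * m) (fun n _ => n / d) ?_ ?_ ?_ ?_ ?_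
  · intro m hm
    rw [Finset.mem_Ioc] at hm
    rw [Finset.mem_filter, Finset.mem_Ioc]
    refine ⟨⟨?_, ?_⟩, Dvd.intro m rfl⟩
    · rw [Nat.div_lt_iff_lt_mul hd0] at hm
      rw [mul_comm]; exact hm.1
    · rw [Nat.le_div_iff_mul_le hd0] at hm
      rw [mul_comm]; exact hm.2
  · intro n hn
    rw [Finset.mem_filter, Finset.mem_Ioc] at hn
    obtain ⟨⟨h1, h2⟩, k, rfl⟩ := hn
    rw [Nat.mul_div_cancel_left _ hd0, Finset.mem_Ioc]
    constructor
    · rw [Nat.div_lt_iff_lt_mul hd0, mul_comm]; exact h1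
    · rw [Nat.le_div_iff_mul_le hd0, mul_comm]; exact h2
  · intro m _
    exact Nat.mul_div_cancel_left _ hd0
  · intro n hn
    rw [Finset.mem_filter] at hn
    exact Nat.mul_div_cancel' hn.2
  · intro m _
    rfl

/-- **Pólya-Vinogradov for `χ(n) n^{iv}` over the `n` coprime to `e`.** -/
theorem pv_coprime {q : ℕ} (hq : 1 < q) (χ : DirichletCharacter ℂ q) (hχ : χ.IsPrimitive)
    (v : ℝ) {e : ℕ} (he : 0 < e) (M N : ℕ) :
    ‖∑ n ∈ (Ioc M N).filter (fun n => n.Coprime e),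
        (n : ℂ) ^ ((v : ℂ) * Complex.I) * χ (n : ZMod q)‖ ≤
      e.divisors.card * (Real.sqrt q * (1 + Real.log q) * (1 + |v| * Real.log N)) := by
  have hlog : 0 ≤ Real.log q := Real.log_nonneg (by exact_mod_cast hq.le)
  have hD : 0 ≤ Real.sqrt q * (1 + Real.log q) := by positivity
  rw [sum_coprime_eq _ e M N he, ← nsmul_eq_mul, ← Finset.sum_const]
  refine (norm_sum_le _ _).trans (Finset.sum_le_sum fun d hd => ?_)
  have hd0 : 0 < d := Nat.pos_of_mem_divisors hd
  have h1 : ∑ m ∈ Ioc (M / d) (N / d), ((d * m : ℕ) : ℂ) ^ ((v : ℂ) * Complex.I) *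
      χ ((d * m : ℕ) : ZMod q) = ((d : ℂ) ^ ((v : ℂ) * Complex.I) * χ (d : ZMod q)) *
      ∑ m ∈ Ioc (M / d) (N / d), (m : ℂ) ^ ((v : ℂ) * Complex.I) * χ (m : ZMod q) := by
    rw [Finset.mul_sum]
    refine Finset.sum_congr rfl fun m _ => ?_
    rw [Nat.cast_mul, Complex.natCast_mul_natCast_cpow, Nat.cast_mul, map_mul]
    ring
  rw [h1, norm_mul, norm_mul, norm_mul, norm_natCast_cpow_I v hd0, one_mul]
  have h2 : ‖(ArithmeticFunction.moebius d : ℂ)‖ ≤ 1 := by
    rw [Complex.norm_intCast]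
    exact_mod_cast ArithmeticFunction.abs_moebius_le_one
  have h3 : ‖χ (d : ZMod q)‖ ≤ 1 := χ.norm_le_one _
  have h4 := pv_pow hq χ hχ v (M / d) (N / d)
  have h5 : Real.log ((N / d : ℕ) : ℝ) ≤ Real.log N := by
    rcases Nat.eq_zero_or_pos (N / d) with h | h
    · rw [h, Nat.cast_zero, Real.log_zero]
      exact Real.log_natCast_nonneg N
    · exact Real.log_le_log (by exact_mod_cast h) (by exact_mod_cast Nat.div_le_self N d)
  have h6 : ‖χ (d : ZMod q)‖ * ‖∑ m ∈ Ioc (M / d) (N / d), (m : ℂ) ^ ((v : ℂ) * Complex.I) *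
      χ (m : ZMod q)‖ ≤ Real.sqrt q * (1 + Real.log q) * (1 + |v| * Real.log N) := by
    calc _ ≤ 1 * ‖∑ m ∈ Ioc (M / d) (N / d), (m : ℂ) ^ ((v : ℂ) * Complex.I) *
          χ (m : ZMod q)‖ := by gcongr
      _ ≤ 1 * (Real.sqrt q * (1 + Real.log q) * (1 + |v| * Real.log ((N / d : ℕ) : ℝ))) := by
          gcongr
      _ ≤ _ := by
          rw [one_mul]
          gcongr
  calc _ ≤ 1 * (‖χ (d : ZMod q)‖ * ‖∑ m ∈ Ioc (M / d) (N / d),
        (m : ℂ) ^ ((v : ℂ) * Complex.I) * χ (m : ZMod q)‖) := by gcongr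
    _ ≤ _ := by rw [one_mul]; exact h6

end Pool.Agent.MP_67227b_nt.Gg
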