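import Mathlib
import Pool.Agent.MP_67227b_nt.Gg.GgErrDefs
import Pool.Agent.MP_67227b_nt.Gg.GgPvLib

set_option autoImplicit false

open Filter Topology Set MeasureTheory Complex
open scoped Real ContDiff ArithmeticFunction ArithmeticFunction.Moebius
open scoped Classical

namespace Pool.Agent.MP_67227b_nt.Gg

open Pool.Agent.BV (tau csum)
open Pool.Agent.LS (prim)

namespace TvAux

theorem pw_eq (U : ℝ) (n : ℕ) : pw U n = (n : ℂ) ^ ((U : ℂ) * Complex.I) := by
  rw [pw, mul_comm]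

theorem log_sub {n : ℕ} (hn : 1 ≤ n) : Real.log (n + 1 : ℕ) - Real.log n ≤ 1 / n := by
  have hn0 : (0 : ℝ) < n := by exact_mod_cast hn
  rw [← Real.log_div (by positivity) hn0.ne']
  have h1 : ((n + 1 : ℕ) : ℝ) / n = 1 + 1 / n := by
    push_cast
    field_simp
  rw [h1]
  have h2 := Real.log_le_sub_one_of_pos (show (0 : ℝ) < 1 + 1 / n by positivity)
  linarith

theorem tv_bx (W : ℕ → ℂ) {Q : ℕ} (hQ : 1 ≤ Q) {M V : ℝ} (hM : ∀ n, Q ≤ n → n < 2 * Q → ‖W n‖ ≤ M)
    (hV : ∀ n, Q ≤ n → n + 1 < 2 * Q → ‖W (n + 1) - W n‖ ≤ V / n) (hV0 : 0 ≤ V) :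
    tv (bx Q W) (2 * Q) ≤ 2 * M + V := by
  have hM0 : 0 ≤ M := (norm_nonneg _).trans (hM Q le_rfl (by omega))
  have hQ0 : (0 : ℝ) < Q := by exact_mod_cast hQ
  unfold tv
  have h0 : bx Q W (2 * Q) = 0 := by
    unfold bx
    rw [if_neg (by omega)]
  rw [h0, norm_zero, zero_add]
  have hb : ∀ n ∈ Finset.Ico 1 (2 * Q), ‖bx Q W (n + 1) - bx Q W n‖ ≤
      (if n + 1 = Q then M else 0) + ((if n + 1 = 2 * Q then M else 0) +
        (if Q ≤ n ∧ n + 1 < 2 * Q then V / Q else 0)) := by
    intro n hn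
    rw [Finset.mem_Ico] at hn
    have hVQ : 0 ≤ V / Q := by positivity
    rcases lt_trichotomy (n + 1) Q with h | h | h
    · have h1 : bx Q W (n + 1) = 0 := by unfold bx; rw [if_neg (by omega)]
      have h2 : bx Q W n = 0 := by unfold bx; rw [if_neg (by omega)]
      rw [h1, h2, sub_zero, norm_zero]
      positivity
    · have h1 : bx Q W (n + 1) = W (n + 1) := by unfold bx; rw [if_pos (by omega)]
      have h2 : bx Q W n = 0 := by unfold bx; rw [if_neg (by omega)]
      rw [h1, h2, sub_zero, if_pos h]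
      have := hM (n + 1) (by omega) (by omega)
      have h3 : 0 ≤ (if n + 1 = 2 * Q then M else 0) +
        (if Q ≤ n ∧ n + 1 < 2 * Q then V / Q else 0) := by positivity
      linarith
    · rcases lt_or_ge (n + 1) (2 * Q) with h' | h'
      · have h1 : bx Q W (n + 1) = W (n + 1) := by unfold bx; rw [if_pos (by omega)]
        have h2 : bx Q W n = W n := by unfold bx; rw [if_pos (by omega)]
        rw [h1, h2, if_neg (by omega), if_neg (by omega), if_pos (by omega)]
        refine (hV n (by omega) h').trans ?_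
        rw [zero_add, zero_add]
        have h4 : (Q : ℝ) ≤ n := by exact_mod_cast (by omega : Q ≤ n)
        exact div_le_div_of_nonneg_left hV0 hQ0 h4
      · have h1 : bx Q W (n + 1) = 0 := by unfold bx; rw [if_neg (by omega)]
        have h2 : bx Q W n = W n := by unfold bx; rw [if_pos (by omega)]
        rw [h1, h2, zero_sub, norm_neg, if_neg (by omega), if_pos (by omega), if_neg (by omega)]
        have := hM n (by omega) (by omega)
        linarith
  refine (Finset.sum_le_sum hb).trans ?_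
  rw [Finset.sum_add_distrib, Finset.sum_add_distrib]
  have s1 : ∑ n ∈ Finset.Ico 1 (2 * Q), (if n + 1 = Q then M else 0) ≤ M := by
    rw [← Finset.sum_filter]
    have : (Finset.Ico 1 (2 * Q)).filter (fun n => n + 1 = Q) ⊆ {Q - 1} := by
      intro n hn
      rw [Finset.mem_filter] at hn
      rw [Finset.mem_singleton]
      omega
    refine (Finset.sum_le_sum_of_subset_of_nonneg this fun _ _ _ => hM0).trans ?_
    simp
  have s2 : ∑ n ∈ Finset.Ico 1 (2 * Q), (if n + 1 = 2 * Q then M else 0) ≤ M := by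
    rw [← Finset.sum_filter]
    have : (Finset.Ico 1 (2 * Q)).filter (fun n => n + 1 = 2 * Q) ⊆ {2 * Q - 1} := by
      intro n hn
      rw [Finset.mem_filter] at hn
      rw [Finset.mem_singleton]
      omega
    refine (Finset.sum_le_sum_of_subset_of_nonneg this fun _ _ _ => hM0).trans ?_
    simp
  have s3 : ∑ n ∈ Finset.Ico 1 (2 * Q), (if Q ≤ n ∧ n + 1 < 2 * Q then V / Q else 0) ≤ V := by
    rw [← Finset.sum_filter]
    have : (Finset.Ico 1 (2 * Q)).filter (fun n => Q ≤ n ∧ n + 1 < 2 * Q) ⊆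
        Finset.Ico Q (2 * Q) := by
      intro n hn
      rw [Finset.mem_filter] at hn
      rw [Finset.mem_Ico]
      omega
    refine (Finset.sum_le_sum_of_subset_of_nonneg this fun _ _ _ => by positivity).trans ?_
    rw [Finset.sum_const, Nat.card_Ico, nsmul_eq_mul]
    have : ((2 * Q - Q : ℕ) : ℝ) = Q := by
      congr 1
      omega
    rw [this, mul_div_cancel₀ _ hQ0.ne']
  linarith

end TvAux

open TvAux

/-- `|(n+1)^{iU} - n^{iU}| ≤ |U|/n` for `n ≥ 1`. -/
theorem pw_sub (U : ℝ) {n : ℕ} (hn : 1 ≤ n) : ‖pw U (n + 1) - pw U n‖ ≤ |U| / n := by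
  rw [pw_eq, pw_eq]
  refine (norm_cpow_sub_le U hn).trans ?_
  rw [div_eq_mul_one_div]
  exact mul_le_mul_of_nonneg_left (log_sub hn) (abs_nonneg _)

theorem norm_pw (U : ℝ) (n : ℕ) : ‖pw U n‖ ≤ 1 := by
  rcases Nat.eq_zero_or_pos n with h | h
  · subst h
    rw [pw, Nat.cast_zero]
    by_cases hU : I * (U : ℂ) = 0
    · rw [hU, Complex.cpow_zero, norm_one]
    · rw [Complex.zero_cpow hU, norm_zero]
      exact zero_le_one
  · rw [pw_eq, norm_natCast_cpow_I U h]

theorem tv_pw (V : ℝ) (Y : ℕ) : tv (pw V) Y ≤ 1 + |V| * (1 + Real.log (Y + 1)) := by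
  unfold tv
  refine add_le_add (norm_pw V Y) ?_
  have h1 : ∀ n ∈ Finset.Ico 1 Y, ‖pw V (n + 1) - pw V n‖ ≤ |V| * (1 / n) := by
    intro n hn
    rw [Finset.mem_Ico] at hn
    refine (pw_sub V hn.1).trans (le_of_eq ?_)
    ring
  refine (Finset.sum_le_sum h1).trans ?_
  rw [← Finset.mul_sum]
  refine mul_le_mul_of_nonneg_left ?_ (abs_nonneg _)
  have h2 : ∑ n ∈ Finset.Ico 1 Y, (1 : ℝ) / n ≤ ∑ n ∈ Finset.Icc 1 (Y + 1), (n : ℝ)⁻¹ := by
    simp only [one_div]
    refine Finset.sum_le_sum_of_subset_of_nonneg ?_ fun _ _ _ => by positivity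
    intro n hn
    rw [Finset.mem_Ico] at hn
    rw [Finset.mem_Icc]
    omega
  refine h2.trans ?_
  have h3 := harmonic_le_one_add_log (Y + 1)
  rw [harmonic_eq_sum_Icc] at h3
  push_cast at h3
  exact h3

theorem tv_bx_one (U : ℝ) {Q : ℕ} (hQ : 1 ≤ Q) : tv (bx Q (pw U)) (2 * Q) ≤ 2 + |U| := by
  have h := tv_bx (pw U) hQ (M := 1) (V := |U|) (fun n _ _ => norm_pw U n)
    (fun n h1 _ => pw_sub U (hQ.trans h1)) (abs_nonneg _)
  linarith

theorem tv_bx_log (U : ℝ) {Q : ℕ} (hQ : 1 ≤ Q) :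
    tv (bx Q fun k => (Real.log k : ℂ) * pw U k) (2 * Q) ≤ (4 + |U|) * (1 + Real.log (2 * Q)) := by
  have hQ0 : (0 : ℝ) < Q := by exact_mod_cast hQ
  have hQ1 : (1 : ℝ) ≤ Q := by exact_mod_cast hQ
  set l := Real.log (2 * Q) with hl
  have hl0 : 0 ≤ l := Real.log_nonneg (by linarith)
  have hlog : ∀ n : ℕ, Q ≤ n → n < 2 * Q → Real.log n ≤ l := by
    intro n h1 h2
    have h3 : (0 : ℝ) < n := by exact_mod_cast (by omega : 0 < n)
    refine Real.log_le_log h3 ?_
    exact_mod_cast h2.le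
  have h := tv_bx (fun k => (Real.log k : ℂ) * pw U k) hQ (M := l) (V := 1 + |U| * l)
    (fun n h1 h2 => by
      rw [norm_mul]
      have h3 : (1 : ℝ) ≤ n := by exact_mod_cast hQ.trans h1
      have h4 : ‖(Real.log n : ℂ)‖ = Real.log n := by
        rw [Complex.norm_real, Real.norm_of_nonneg (Real.log_nonneg h3)]
      rw [h4]
      have h5 := Real.log_nonneg h3
      calc Real.log n * ‖pw U n‖ ≤ l * 1 := mul_le_mul (hlog n h1 h2) (norm_pw U n)
            (norm_nonneg _) hl0
        _ = l := mul_one _)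
    (fun n h1 h2 => by
      have hn1 : 1 ≤ n := hQ.trans h1
      have hn0 : (0 : ℝ) < n := by exact_mod_cast hn1
      have h3 : ((Real.log ((n + 1 : ℕ) : ℝ) : ℝ) : ℂ) * pw U (n + 1) -
          (Real.log n : ℂ) * pw U n =
          ((Real.log ((n + 1 : ℕ) : ℝ) - Real.log n : ℝ) : ℂ) * pw U (n + 1) +
            (Real.log n : ℂ) * (pw U (n + 1) - pw U n) := by
        push_cast
        ring
      show ‖((Real.log ((n + 1 : ℕ) : ℝ) : ℝ) : ℂ) * pw U (n + 1) -
          (Real.log n : ℂ) * pw U n‖ ≤ _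
      rw [h3]
      refine (norm_add_le _ _).trans ?_
      rw [norm_mul, norm_mul, Complex.norm_real, Complex.norm_real]
      have h4 : 0 ≤ Real.log ((n + 1 : ℕ) : ℝ) - Real.log n := by
        rw [sub_nonneg]
        refine Real.log_le_log hn0 ?_
        push_cast
        linarith
      rw [Real.norm_of_nonneg h4, Real.norm_of_nonneg (Real.log_nonneg (by exact_mod_cast hn1))]
      have h5 := log_sub hn1
      have h6 := hlog n h1 (by omega)
      have h7 := pw_sub U hn1
      calc _ ≤ 1 / n * 1 + l * (|U| / n) := by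
            refine add_le_add (mul_le_mul h5 (norm_pw U _) (norm_nonneg _) (by positivity)) ?_
            exact mul_le_mul h6 h7 (norm_nonneg _) hl0
        _ = (1 + |U| * l) / n := by ring)
    (by positivity)
  refine h.trans ?_
  nlinarith [abs_nonneg U, mul_nonneg (abs_nonneg U) hl0]

end Pool.Agent.MP_67227b_nt.Gg
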