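import Mathlib
import Pool.Agent.MP_67227b_nt.Gg.GgOrt
import Pool.Agent.MP_67227b_nt.Gg.GgSepW
import Pool.Agent.MP_67227b_nt.Gg.GgSumA
import Pool.Agent.MP_67227b_nt.Gg.GgTv

set_option autoImplicit false

open Filter Topology Set MeasureTheory Complex
open scoped Real ContDiff ArithmeticFunction ArithmeticFunction.Moebius
open scoped Classical

namespace Pool.Agent.MP_67227b_nt.Gg

open Pool.Agent.BV (tau csum)
open Pool.Agent.LS (prim)

/-- `f` is integrable with the integral `J`. -/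
private def boxlHI (f : ℝ × ℝ → ℂ) (J : ℂ) : Prop := Integrable f ∧ ∫ p, f p = J

private theorem boxlHI_sum {ι : Type} (s : Finset ι) {f : ι → ℝ × ℝ → ℂ} {J : ι → ℂ}
    (h : ∀ i ∈ s, boxlHI (f i) (J i)) :
    boxlHI (fun p => ∑ i ∈ s, f i p) (∑ i ∈ s, J i) := by
  refine ⟨integrable_finsetSum _ fun i hi => (h i hi).1, ?_⟩
  rw [integral_finsetSum _ fun i hi => (h i hi).1]
  exact Finset.sum_congr rfl fun i hi => (h i hi).2

private theorem boxlHI_cmul {f : ℝ × ℝ → ℂ} {J : ℂ} (c : ℂ) (h : boxlHI f J) :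
    boxlHI (fun p => c * f p) (c * J) := by
  refine ⟨h.1.const_mul c, ?_⟩
  rw [integral_const_mul, h.2]

private theorem boxlHI_mulc {f : ℝ × ℝ → ℂ} {J : ℂ} (c : ℂ) (h : boxlHI f J) :
    boxlHI (fun p => f p * c) (J * c) := by
  refine ⟨h.1.mul_const c, ?_⟩
  rw [integral_mul_const, h.2]

private theorem boxlHI_ite {f : ℝ × ℝ → ℂ} {J : ℂ} (q : Prop) [Decidable q]
    (h : q → boxlHI f J) :
    boxlHI (fun p => if q then f p else 0) (if q then J else 0) := by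
  by_cases hq : q
  · simp only [if_pos hq]
    exact h hq
  · simp only [if_neg hq]
    refine ⟨integrable_zero _ _ _, ?_⟩
    simp

private theorem boxl_pw_mul (U : ℝ) (m k : ℕ) : pw U (m * k) = pw U m * pw U k := by
  unfold pw
  rw [Nat.cast_mul, Complex.natCast_mul_natCast_cpow]

private theorem boxl_pw_cont {f : ℝ × ℝ → ℝ} (hf : Continuous f) {n : ℕ} (hn : 1 ≤ n) :
    Continuous fun p : ℝ × ℝ => pw (f p) n := by
  unfold pw
  have hn0 : (n : ℂ) ≠ 0 := by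
    have : n ≠ 0 := by omega
    exact_mod_cast this
  refine Continuous.const_cpow ?_ (Or.inl hn0)
  exact continuous_const.mul (Complex.continuous_ofReal.comp hf)

/-- The sum over the moduli. -/
private theorem boxl_sum (c α T : ℝ) (a g b : ℕ → ℂ) (X₁ X₂ Y K : ℕ)
    (y : ℕ → ℂ) (hy : ∀ A, ‖y A‖ ≤ 1) :
    ‖∑ A ∈ As c α T with (K ≤ A ∧ A < 2 * K), (((μ A : ℝ) / (Nat.totient A : ℝ) : ℝ) : ℂ) *
      (y A * D3 a g b X₁ X₂ Y A)‖ ≤ S3 (Finset.Ioc 1 (2 * K)) a g b X₁ X₂ Y K := by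
  have hT3 : ∀ A, 0 ≤ T3 a g b X₁ X₂ Y A := by
    intro A
    unfold T3
    refine mul_nonneg (by positivity) (Finset.sum_nonneg fun χ _ => by positivity)
  refine (norm_sum_le _ _).trans ?_
  have h1 : ∀ A ∈ (As c α T).filter (fun A => K ≤ A ∧ A < 2 * K),
      ‖(((μ A : ℝ) / (Nat.totient A : ℝ) : ℝ) : ℂ) * (y A * D3 a g b X₁ X₂ Y A)‖ ≤
      if Squarefree A then (1 / (Nat.totient A : ℝ)) * T3 a g b X₁ X₂ Y A else 0 := by
    intro A _
    by_cases hA : Squarefree A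
    · rw [if_pos hA, norm_mul, norm_mul, Complex.norm_real, Real.norm_eq_abs, abs_div]
      have h2 : |(μ A : ℝ)| ≤ 1 := by
        have := ArithmeticFunction.abs_moebius_le_one (n := A)
        exact_mod_cast this
      have h3 : |(Nat.totient A : ℝ)| = (Nat.totient A : ℝ) := abs_of_nonneg (Nat.cast_nonneg _)
      rw [h3]
      have h4 : |(μ A : ℝ)| / (Nat.totient A : ℝ) ≤ 1 / (Nat.totient A : ℝ) :=
        div_le_div_of_nonneg_right h2 (Nat.cast_nonneg _)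
      have h5 : ‖y A‖ * ‖D3 a g b X₁ X₂ Y A‖ ≤ T3 a g b X₁ X₂ Y A := by
        calc ‖y A‖ * ‖D3 a g b X₁ X₂ Y A‖ ≤ 1 * ‖D3 a g b X₁ X₂ Y A‖ :=
              mul_le_mul_of_nonneg_right (hy A) (norm_nonneg _)
          _ = ‖D3 a g b X₁ X₂ Y A‖ := one_mul _
          _ ≤ _ := D3_le a g b X₁ X₂ Y hA
      exact mul_le_mul h4 h5 (by positivity) (by positivity)
    · rw [if_neg hA, ArithmeticFunction.moebius_eq_zero_of_not_squarefree hA]
      simp
  refine (Finset.sum_le_sum h1).trans (le_trans ?_ (sumA_le a g b X₁ X₂ Y K))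
  rw [← Finset.sum_filter]
  refine Finset.sum_le_sum_of_subset_of_nonneg ?_ ?_
  · intro A hA
    rw [Finset.mem_filter, Finset.mem_filter] at hA
    rw [Finset.mem_filter, Finset.mem_Ico]
    exact ⟨hA.1.2, hA.2⟩
  · intro A _ _
    exact mul_nonneg (by positivity) (hT3 A)

/-- PROOF. Insert `sepW` and exchange the finite sums with the two integrals
(`integral_finset_sum`; everything is continuous in `(u,u')` and bounded by
`C'/((1+u²)²(1+u'²)²)`). With `pw (u+u') (m k) = pw (u+u') m * pw (u+u') k`, for each `(u,u')` the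
inner sum over `m, k, B` is, up to a factor of modulus `1`,
`D3 (bx P (a pw)) (bx Q (g pw)) (pw u) (2P) (2Q) Y A`, `pw` for `u + u'`. Its modulus is at most
`T3` (`D3_le`; `μ(A) = 0` unless `A` is squarefree), and `∑_A |μ(A)|/φ(A) T3 ≤ S3` (`sumA_le`,
the `A` in question form a subset of the squarefree ones in `[K, 2K)`, terms nonnegative)
`≤ M (1+|u+u'|)(1+|u|) ≤ M (1+|u|)² (1+|u'|)`. The integral of
`C² (1+|u|)² (1+|u'|)/((1+u²)²(1+u'²)²)` is finite: `(1+|u|)² ≤ 2(1+u²)`. -/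
theorem box_le {X κ : ℝ} {η ρ : ℝ → ℝ} (hκ : 0 < κ) (hη : Eta X η) (hρ : Rho κ ρ) :
    ∃ C : ℝ, 0 ≤ C ∧ ∀ (c α T : ℝ) (a g : ℕ → ℂ) (K P Q : ℕ) (M : ℝ), 1 < T → 1 ≤ K →
      1 ≤ P → 1 ≤ Q →
      (∀ U V : ℝ, S3 (Finset.Ioc 1 (2 * K)) (bx P fun m => a m * pw U m)
        (bx Q fun k => g k * pw U k) (pw V) (2 * P) (2 * Q) (YY X α T K) K ≤
          M * ((1 + |U|) * (1 + |V|))) →
      ‖BX η ρ X c α T a g K P Q‖ ≤ C * M := by
  obtain ⟨F₁, F₂, C, hF₁, hF₂, hC, hb₁, hb₂, hz⟩ := sepW hκ hη hρ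
  -- the majorant
  have hint1 : Integrable (fun u : ℝ => 2 * C * (1 + u ^ 2)⁻¹) :=
    integrable_inv_one_add_sq.const_mul _
  have hint2 : Integrable (fun p : ℝ × ℝ =>
      (2 * C * (1 + p.1 ^ 2)⁻¹) * (2 * C * (1 + p.2 ^ 2)⁻¹)) := hint1.mul_prod hint1
  have hmaj0 : ∀ p : ℝ × ℝ, 0 ≤ (2 * C * (1 + p.1 ^ 2)⁻¹) * (2 * C * (1 + p.2 ^ 2)⁻¹) :=
    fun p => by positivity
  refine ⟨∫ p : ℝ × ℝ, (2 * C * (1 + p.1 ^ 2)⁻¹) * (2 * C * (1 + p.2 ^ 2)⁻¹),
    integral_nonneg hmaj0, ?_⟩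
  intro c α T a g K P Q M hT hK hP hQ hS
  obtain ⟨z, hz1, hzc, hzw⟩ := hz α T hT
  -- the integrand
  have hHI : ∀ n A B : ℕ, 1 ≤ n → 1 ≤ A → 1 ≤ B →
      boxlHI (fun p : ℝ × ℝ => F₁ p.1 * F₂ p.2 *
        (z p.1 p.2 * pw (p.1 + p.2) n * pw p.1 B * (starRingEnd ℂ) (pw p.1 A)))
        (wg η ρ α T n A B : ℂ) := by
    intro n A B hn hA hB
    have hcont : Continuous (fun p : ℝ × ℝ => F₁ p.1 * F₂ p.2 *
        (z p.1 p.2 * pw (p.1 + p.2) n * pw p.1 B * (starRingEnd ℂ) (pw p.1 A))) := by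
      have c1 : Continuous fun p : ℝ × ℝ => F₁ p.1 := hF₁.comp continuous_fst
      have c2 : Continuous fun p : ℝ × ℝ => F₂ p.2 := hF₂.comp continuous_snd
      have c3 : Continuous fun p : ℝ × ℝ => z p.1 p.2 := hzc
      have c4 := boxl_pw_cont (continuous_fst.add continuous_snd) hn
      have c5 := boxl_pw_cont (f := fun p : ℝ × ℝ => p.1) continuous_fst hB
      have c6 := boxl_pw_cont (f := fun p : ℝ × ℝ => p.1) continuous_fst hA
      have c7 : Continuous fun p : ℝ × ℝ => (starRingEnd ℂ) (pw p.1 A) :=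
        Complex.continuous_conj.comp c6
      exact (c1.mul c2).mul (((c3.mul c4).mul c5).mul c7)
    have hint : Integrable (fun p : ℝ × ℝ => F₁ p.1 * F₂ p.2 *
        (z p.1 p.2 * pw (p.1 + p.2) n * pw p.1 B * (starRingEnd ℂ) (pw p.1 A))) := by
      refine Integrable.mono' hint2 hcont.aestronglyMeasurable (Filter.Eventually.of_forall ?_)
      intro p
      have key : ∀ u : ℝ, C / (1 + u ^ 2) ^ 2 ≤ 2 * C * (1 + u ^ 2)⁻¹ := by
        intro u
        have h1 : (1 : ℝ) ≤ 1 + u ^ 2 := by nlinarith [sq_nonneg u]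
        rw [← div_eq_mul_inv, div_le_div_iff₀ (by positivity) (by positivity)]
        nlinarith [mul_nonneg hC (show (0 : ℝ) ≤ 1 + u ^ 2 by linarith), mul_nonneg
          (mul_nonneg hC (show (0 : ℝ) ≤ 1 + u ^ 2 by linarith)) (sq_nonneg u)]
      have h2 : ‖z p.1 p.2 * pw (p.1 + p.2) n * pw p.1 B * (starRingEnd ℂ) (pw p.1 A)‖ ≤ 1 := by
        rw [norm_mul, norm_mul, norm_mul, hz1, RCLike.norm_conj, one_mul]
        have e1 := norm_pw (p.1 + p.2) n
        have e2 := norm_pw p.1 B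
        have e3 := norm_pw p.1 A
        calc ‖pw (p.1 + p.2) n‖ * ‖pw p.1 B‖ * ‖pw p.1 A‖ ≤ 1 * 1 * 1 := by
              gcongr
          _ = 1 := by norm_num
      rw [norm_mul, norm_mul]
      calc ‖F₁ p.1‖ * ‖F₂ p.2‖ *
            ‖z p.1 p.2 * pw (p.1 + p.2) n * pw p.1 B * (starRingEnd ℂ) (pw p.1 A)‖
          ≤ ‖F₁ p.1‖ * ‖F₂ p.2‖ * 1 := mul_le_mul_of_nonneg_left h2 (by positivity)
        _ = ‖F₁ p.1‖ * ‖F₂ p.2‖ := mul_one _
        _ ≤ (2 * C * (1 + p.1 ^ 2)⁻¹) * (2 * C * (1 + p.2 ^ 2)⁻¹) :=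
            mul_le_mul ((hb₁ p.1).trans (key p.1)) ((hb₂ p.2).trans (key p.2)) (norm_nonneg _)
              (by positivity)
    refine ⟨hint, ?_⟩
    rw [hzw n A B hn hA hB, Measure.volume_eq_prod,
      integral_prod _ (by rw [← Measure.volume_eq_prod]; exact hint)]
  -- the whole sum
  have hBX : boxlHI (fun p : ℝ × ℝ => ∑ A ∈ As c α T with (K ≤ A ∧ A < 2 * K),
      (((μ A : ℝ) / (Nat.totient A : ℝ) : ℝ) : ℂ) *
      ∑ m ∈ Finset.Ico P (2 * P), ∑ k ∈ Finset.Ico Q (2 * Q),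
        ∑ B ∈ Finset.Icc 1 (YY X α T K), if (m * k * B).Coprime A then
          a m * g k * (F₁ p.1 * F₂ p.2 *
            (z p.1 p.2 * pw (p.1 + p.2) (m * k) * pw p.1 B * (starRingEnd ℂ) (pw p.1 A))) *
            (ex (-(((m * k : ℕ) : ℝ) * B / A)) - (((μ A : ℝ) / (Nat.totient A : ℝ) : ℝ) : ℂ))
          else 0) (BX η ρ X c α T a g K P Q) := by
    unfold BX
    refine boxlHI_sum _ fun A hA => boxlHI_cmul _ ?_
    rw [Finset.mem_filter] at hA
    refine boxlHI_sum _ fun m hm => boxlHI_sum _ fun k hk => boxlHI_sum _ fun B hB =>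
      boxlHI_ite _ fun _ => boxlHI_mulc _ (boxlHI_cmul _ ?_)
    rw [Finset.mem_Ico] at hm hk
    rw [Finset.mem_Icc] at hB
    have h1 : 1 ≤ m := by omega
    have h2 : 1 ≤ k := by omega
    exact hHI (m * k) A B (Nat.mul_pos h1 h2) (by omega) hB.1
  rw [← hBX.2]
  have hM0 : 0 ≤ M := by
    have h1 := hS 0 0
    rw [abs_zero, add_zero, mul_one, mul_one] at h1
    refine le_trans ?_ h1
    unfold S3
    refine Finset.sum_nonneg fun e _ => mul_nonneg (by positivity)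
      (Finset.sum_nonneg fun q _ => mul_nonneg (by positivity) ?_)
    exact Finset.sum_nonneg fun ψ _ => by positivity
  have hfin : ∫ p : ℝ × ℝ, (2 * C * (1 + p.1 ^ 2)⁻¹) * (2 * C * (1 + p.2 ^ 2)⁻¹) * M =
      (∫ p : ℝ × ℝ, (2 * C * (1 + p.1 ^ 2)⁻¹) * (2 * C * (1 + p.2 ^ 2)⁻¹)) * M :=
    integral_mul_const _ _
  rw [← hfin]
  refine norm_integral_le_of_norm_le (hint2.mul_const M) (Filter.Eventually.of_forall ?_)
  intro p
  -- rewrite as `D3`
  have hD3 : ∀ A : ℕ, ∑ m ∈ Finset.Ico P (2 * P), ∑ k ∈ Finset.Ico Q (2 * Q),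
        ∑ B ∈ Finset.Icc 1 (YY X α T K), (if (m * k * B).Coprime A then
          a m * g k * (F₁ p.1 * F₂ p.2 *
            (z p.1 p.2 * pw (p.1 + p.2) (m * k) * pw p.1 B * (starRingEnd ℂ) (pw p.1 A))) *
            (ex (-(((m * k : ℕ) : ℝ) * B / A)) - (((μ A : ℝ) / (Nat.totient A : ℝ) : ℝ) : ℂ))
          else 0) =
      F₁ p.1 * F₂ p.2 * ((z p.1 p.2 * (starRingEnd ℂ) (pw p.1 A)) *
        D3 (bx P fun m => a m * pw (p.1 + p.2) m) (bx Q fun k => g k * pw (p.1 + p.2) k)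
          (pw p.1) (2 * P) (2 * Q) (YY X α T K) A) := by
    intro A
    have hD : D3 (bx P fun m => a m * pw (p.1 + p.2) m) (bx Q fun k => g k * pw (p.1 + p.2) k)
          (pw p.1) (2 * P) (2 * Q) (YY X α T K) A =
        ∑ m ∈ Finset.Ico P (2 * P), ∑ k ∈ Finset.Ico Q (2 * Q),
        ∑ B ∈ Finset.Icc 1 (YY X α T K), (if (m * k * B).Coprime A then
          (a m * pw (p.1 + p.2) m) * (g k * pw (p.1 + p.2) k) * pw p.1 B *
            (ex (-(((m * k : ℕ) : ℝ) * B / A)) - (((μ A : ℝ) / (Nat.totient A : ℝ) : ℝ) : ℂ))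
          else 0) := by
      unfold D3
      symm
      have hsub1 : Finset.Ico P (2 * P) ⊆ Finset.Icc 1 (2 * P) := by
        intro m hm
        rw [Finset.mem_Ico] at hm
        rw [Finset.mem_Icc]
        omega
      have hsub2 : Finset.Ico Q (2 * Q) ⊆ Finset.Icc 1 (2 * Q) := by
        intro m hm
        rw [Finset.mem_Ico] at hm
        rw [Finset.mem_Icc]
        omega
      rw [← Finset.sum_subset hsub1]
      · refine Finset.sum_congr rfl fun m hm => ?_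
        rw [← Finset.sum_subset hsub2]
        · refine Finset.sum_congr rfl fun k hk => Finset.sum_congr rfl fun B _ => ?_
          rw [Finset.mem_Ico] at hm hk
          unfold bx
          rw [if_pos hm, if_pos hk]
        · intro k _ hk
          rw [Finset.mem_Ico] at hk
          refine Finset.sum_eq_zero fun B _ => ?_
          have h1 : bx Q (fun k => g k * pw (p.1 + p.2) k) k = 0 := by
            unfold bx
            rw [if_neg hk]
          rw [h1]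
          simp
      · intro m _ hm
        rw [Finset.mem_Ico] at hm
        refine Finset.sum_eq_zero fun k _ => Finset.sum_eq_zero fun B _ => ?_
        have h1 : bx P (fun k => a k * pw (p.1 + p.2) k) m = 0 := by
          unfold bx
          rw [if_neg hm]
        rw [h1]
        simp
    rw [hD, Finset.mul_sum, Finset.mul_sum]
    refine Finset.sum_congr rfl fun m _ => ?_
    rw [Finset.mul_sum, Finset.mul_sum]
    refine Finset.sum_congr rfl fun k _ => ?_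
    rw [Finset.mul_sum, Finset.mul_sum]
    refine Finset.sum_congr rfl fun B _ => ?_
    split_ifs
    · rw [boxl_pw_mul]
      ring
    · rw [mul_zero, mul_zero]
  have hsum : ∑ A ∈ As c α T with (K ≤ A ∧ A < 2 * K),
      (((μ A : ℝ) / (Nat.totient A : ℝ) : ℝ) : ℂ) *
      ∑ m ∈ Finset.Ico P (2 * P), ∑ k ∈ Finset.Ico Q (2 * Q),
        ∑ B ∈ Finset.Icc 1 (YY X α T K), (if (m * k * B).Coprime A then
          a m * g k * (F₁ p.1 * F₂ p.2 *
            (z p.1 p.2 * pw (p.1 + p.2) (m * k) * pw p.1 B * (starRingEnd ℂ) (pw p.1 A))) *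
            (ex (-(((m * k : ℕ) : ℝ) * B / A)) - (((μ A : ℝ) / (Nat.totient A : ℝ) : ℝ) : ℂ))
          else 0) =
      F₁ p.1 * F₂ p.2 * ∑ A ∈ As c α T with (K ≤ A ∧ A < 2 * K),
        (((μ A : ℝ) / (Nat.totient A : ℝ) : ℝ) : ℂ) *
        ((z p.1 p.2 * (starRingEnd ℂ) (pw p.1 A)) *
          D3 (bx P fun m => a m * pw (p.1 + p.2) m) (bx Q fun k => g k * pw (p.1 + p.2) k)
          (pw p.1) (2 * P) (2 * Q) (YY X α T K) A) := by
    rw [Finset.mul_sum]
    refine Finset.sum_congr rfl fun A _ => ?_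
    rw [hD3 A]
    ring
  rw [hsum, norm_mul, norm_mul]
  have hnorm := boxl_sum c α T (bx P fun m => a m * pw (p.1 + p.2) m)
    (bx Q fun k => g k * pw (p.1 + p.2) k) (pw p.1) (2 * P) (2 * Q) (YY X α T K) K
    (fun A => z p.1 p.2 * (starRingEnd ℂ) (pw p.1 A)) (by
      intro A
      show ‖z p.1 p.2 * (starRingEnd ℂ) (pw p.1 A)‖ ≤ 1
      rw [norm_mul, hz1, RCLike.norm_conj, one_mul]
      exact norm_pw p.1 A)
  have hS' := hnorm.trans (hS (p.1 + p.2) p.1)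
  have e1 : |p.1 + p.2| ≤ |p.1| + |p.2| := abs_add_le _ _
  have p1 := abs_nonneg p.1
  have p2 := abs_nonneg p.2
  have e2 : (1 + |p.1 + p.2|) * (1 + |p.1|) ≤ (1 + |p.1|) ^ 2 * (1 + |p.2|) ^ 2 := by
    have h3 : 1 + |p.1 + p.2| ≤ (1 + |p.1|) * (1 + |p.2|) := by nlinarith
    have h4 : (1 + |p.2|) ≤ (1 + |p.2|) ^ 2 := by nlinarith
    calc (1 + |p.1 + p.2|) * (1 + |p.1|) ≤ ((1 + |p.1|) * (1 + |p.2|)) * (1 + |p.1|) :=
          mul_le_mul_of_nonneg_right h3 (by linarith)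
      _ = (1 + |p.1|) ^ 2 * (1 + |p.2|) := by ring
      _ ≤ _ := mul_le_mul_of_nonneg_left h4 (by positivity)
  have e3 : ∀ u : ℝ, C / (1 + u ^ 2) ^ 2 * (1 + |u|) ^ 2 ≤ 2 * C * (1 + u ^ 2)⁻¹ := by
    intro u
    have h1 : (1 + |u|) ^ 2 ≤ 2 * (1 + u ^ 2) := by
      nlinarith [sq_nonneg (1 - |u|), sq_abs u]
    have h2 : (0 : ℝ) < 1 + u ^ 2 := by positivity
    calc C / (1 + u ^ 2) ^ 2 * (1 + |u|) ^ 2 ≤ C / (1 + u ^ 2) ^ 2 * (2 * (1 + u ^ 2)) :=
          mul_le_mul_of_nonneg_left h1 (by positivity)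
      _ = 2 * C * (1 + u ^ 2)⁻¹ := by
          field_simp
  calc ‖F₁ p.1‖ * ‖F₂ p.2‖ * _ ≤ ‖F₁ p.1‖ * ‖F₂ p.2‖ *
        (M * ((1 + |p.1 + p.2|) * (1 + |p.1|))) := mul_le_mul_of_nonneg_left hS' (by positivity)
    _ ≤ ‖F₁ p.1‖ * ‖F₂ p.2‖ * (M * ((1 + |p.1|) ^ 2 * (1 + |p.2|) ^ 2)) :=
        mul_le_mul_of_nonneg_left (mul_le_mul_of_nonneg_left e2 hM0) (by positivity)
    _ = (‖F₁ p.1‖ * (1 + |p.1|) ^ 2) * (‖F₂ p.2‖ * (1 + |p.2|) ^ 2) * M := by ring
    _ ≤ (2 * C * (1 + p.1 ^ 2)⁻¹) * (2 * C * (1 + p.2 ^ 2)⁻¹) * M := by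
        refine mul_le_mul_of_nonneg_right ?_ hM0
        refine mul_le_mul ?_ ?_ (by positivity) (by positivity)
        · exact (mul_le_mul_of_nonneg_right (hb₁ p.1) (by positivity)).trans (e3 p.1)
        · exact (mul_le_mul_of_nonneg_right (hb₂ p.2) (by positivity)).trans (e3 p.2)

end Pool.Agent.MP_67227b_nt.Gg
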