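import Mathlib
import Pool.Agent.MP_67227b_nt.Gg.GgDefs
import Pool.Agent.MT.HW

set_option autoImplicit false

open Filter Topology Set MeasureTheory Complex
open scoped Real ContDiff ArithmeticFunction ArithmeticFunction.Moebius

namespace Pool.Agent.MP_67227b_nt.Gg

open Pool.Agent.MT.HWAux

private theorem tau_step (f : ℕ → ℝ) (hf : ∀ n, 0 ≤ f n)
    (hm : ∀ d m : ℕ, d.Coprime m → f (d * m) = f d * f m) (X : ℕ) :
    ∑ A ∈ Q 1 X, (A.divisors.card : ℝ) * f A / (A.totient : ℝ) ≤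
      (∑ d ∈ Q 1 X, f d / (d.totient : ℝ)) ^ 2 := by
  classical
  have e1 : ∑ A ∈ Q 1 X, (A.divisors.card : ℝ) * f A / (A.totient : ℝ) =
      ∑ x ∈ (Q 1 X).sigma fun A => A.divisors, f x.1 / (x.1.totient : ℝ) := by
    rw [Finset.sum_sigma]
    apply Finset.sum_congr rfl
    intro A _
    simp only [Finset.sum_const, nsmul_eq_mul]
    ring
  have e2 : (∑ d ∈ Q 1 X, f d / (d.totient : ℝ)) ^ 2 =
      ∑ x ∈ (Q 1 X) ×ˢ (Q 1 X), f x.1 / (x.1.totient : ℝ) * (f x.2 / (x.2.totient : ℝ)) := by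
    rw [sq, Finset.sum_mul_sum, Finset.sum_product]
  rw [e1, e2]
  set i : (Σ _ : ℕ, ℕ) → ℕ × ℕ := fun x => (x.2, x.1 / x.2) with hi
  have key : ∀ x ∈ (Q 1 X).sigma fun A => A.divisors, x.2 * (x.1 / x.2) = x.1 ∧
      x.2.Coprime (x.1 / x.2) ∧ i x ∈ (Q 1 X) ×ˢ (Q 1 X) := by
    intro x hx
    rw [Finset.mem_sigma] at hx
    obtain ⟨hx1, hx2⟩ := hx
    rw [mem_Q] at hx1
    have hdvd := Nat.dvd_of_mem_divisors hx2
    have hmul := Nat.mul_div_cancel' hdvd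
    have hsq : Squarefree (x.2 * (x.1 / x.2)) := by rw [hmul]; exact hx1.2.1
    have hcop := Nat.coprime_of_squarefree_mul hsq
    refine ⟨hmul, hcop, ?_⟩
    rw [Finset.mem_product]
    have hpos : 0 < x.1 := hx1.1.1
    have h1 : 0 < x.2 := Nat.pos_of_dvd_of_pos hdvd hpos
    have h2 : 0 < x.1 / x.2 := Nat.div_pos (Nat.le_of_dvd hpos hdvd) h1
    constructor
    · rw [mem_Q]
      exact ⟨⟨h1, lt_of_le_of_lt (Nat.le_of_dvd hpos hdvd) hx1.1.2⟩,
        hsq.of_mul_left, Nat.coprime_one_right _⟩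
    · rw [mem_Q]
      exact ⟨⟨h2, lt_of_le_of_lt (Nat.div_le_self _ _) hx1.1.2⟩,
        hsq.of_mul_right, Nat.coprime_one_right _⟩
  have hinj : Set.InjOn i ((Q 1 X).sigma fun A => A.divisors : Finset _) := by
    intro x hx y hy hxy
    have hx' := (key x hx).1
    have hy' := (key y hy).1
    simp only [hi, Prod.mk.injEq] at hxy
    have h1 : x.1 = y.1 := by rw [← hx', hxy.2, hxy.1, hy']
    exact Sigma.ext h1 (heq_of_eq hxy.1)
  have e3 : ∑ x ∈ (Q 1 X).sigma fun A => A.divisors, f x.1 / (x.1.totient : ℝ) =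
      ∑ y ∈ ((Q 1 X).sigma fun A => A.divisors).image i,
        f y.1 / (y.1.totient : ℝ) * (f y.2 / (y.2.totient : ℝ)) := by
    rw [Finset.sum_image hinj]
    apply Finset.sum_congr rfl
    intro x hx
    obtain ⟨h1, h2, _⟩ := key x hx
    simp only [hi]
    have e4 : x.1.totient = x.2.totient * (x.1 / x.2).totient := by
      rw [← Nat.totient_mul h2, h1]
    have e5 : f x.1 = f x.2 * f (x.1 / x.2) := by rw [← hm _ _ h2, h1]
    rw [e5, e4]
    push_cast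
    rw [mul_div_mul_comm]
  rw [e3]
  apply Finset.sum_le_sum_of_subset_of_nonneg
  · intro y hy
    obtain ⟨x, hx, rfl⟩ := Finset.mem_image.1 hy
    exact (key x hx).2.2
  · intro y _ _
    have := hf y.1
    have := hf y.2
    positivity

theorem tau_one (X : ℕ) : ∑ A ∈ Q 1 X, (A.divisors.card : ℝ) / (A.totient : ℝ) ≤ G 1 X ^ 2 := by
  have := tau_step (fun _ => 1) (fun _ => zero_le_one) (fun _ _ _ => by simp) X
  simpa only [mul_one, G] using this

theorem tau_two (X : ℕ) :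
    ∑ A ∈ Q 1 X, (A.divisors.card : ℝ) ^ 2 / (A.totient : ℝ) ≤ G 1 X ^ 4 := by
  have h1 := tau_step (fun n => (n.divisors.card : ℝ)) (fun _ => Nat.cast_nonneg _)
    (fun d m h => by
      have := Nat.Coprime.card_divisors_mul h
      exact_mod_cast this) X
  have h2 := tau_one X
  have h3 : 0 ≤ ∑ A ∈ Q 1 X, (A.divisors.card : ℝ) / (A.totient : ℝ) :=
    Finset.sum_nonneg fun _ _ => by positivity
  calc ∑ A ∈ Q 1 X, (A.divisors.card : ℝ) ^ 2 / (A.totient : ℝ) =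
      ∑ A ∈ Q 1 X, (A.divisors.card : ℝ) * (A.divisors.card : ℝ) / (A.totient : ℝ) := by
        apply Finset.sum_congr rfl
        intro A _
        rw [sq]
    _ ≤ (∑ A ∈ Q 1 X, (A.divisors.card : ℝ) / (A.totient : ℝ)) ^ 2 := h1
    _ ≤ (G 1 X ^ 2) ^ 2 := pow_le_pow_left₀ h3 h2 2
    _ = G 1 X ^ 4 := by ring

theorem div_totient_le {A : ℕ} (hA : A ≠ 0) :
    (A : ℝ) / (A.totient : ℝ) ≤ (A.divisors.card : ℝ) := by
  rw [← sum_SD A hA]
  calc ∑ d ∈ SD A, 1 / (d.totient : ℝ) ≤ ∑ d ∈ SD A, (1 : ℝ) := by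
        apply Finset.sum_le_sum
        intro d hd
        rw [mem_SD] at hd
        have hd0 : 0 < d := Nat.pos_of_dvd_of_pos hd.1.1 (Nat.pos_of_ne_zero hA)
        have : (1 : ℝ) ≤ d.totient := by exact_mod_cast Nat.totient_pos.2 hd0
        rw [div_le_one (by linarith)]
        exact this
    _ = ((SD A).card : ℝ) := by simp
    _ ≤ _ := by
        have : (SD A).card ≤ A.divisors.card := Finset.card_le_card (Finset.filter_subset _ _)
        exact_mod_cast this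

private theorem mu_sq (A : ℕ) : (μ A : ℝ) ^ 2 = if Squarefree A then 1 else 0 := by
  by_cases h : Squarefree A
  · rw [if_pos h]
    have := ArithmeticFunction.moebius_sq_eq_one_of_squarefree h
    exact_mod_cast this
  · rw [if_neg h, ArithmeticFunction.moebius_eq_zero_of_not_squarefree h]
    simp

/-- The bound `G(T^{1/2-c}) ≪ log T`. -/
private theorem G_le : ∃ C : ℝ, 1 ≤ C ∧ ∀ (c T : ℝ), 0 < c → 3 ≤ T →
    G 1 (⌊T ^ (1 / 2 - c)⌋₊ + 1) ≤ C * Real.log T := by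
  obtain ⟨C, hC⟩ := G_upper 1 one_pos
  refine ⟨4 + |C|, by linarith [abs_nonneg C], fun c T hc hT => ?_⟩
  have hT0 : 0 < T := by linarith
  have hL1 : 1 ≤ Real.log T := by
    rw [Real.le_log_iff_exp_le hT0]
    linarith [Real.exp_one_lt_d9]
  have h1 := hC (⌊T ^ (1 / 2 - c)⌋₊ + 1) (by omega)
  have h2 : (((⌊T ^ (1 / 2 - c)⌋₊ + 1 : ℕ)) : ℝ) ≤ T ^ (2 : ℝ) := by
    have h3 : (⌊T ^ (1 / 2 - c)⌋₊ : ℝ) ≤ T ^ (1 / 2 - c) := Nat.floor_le (by positivity)
    have h4 : T ^ (1 / 2 - c) ≤ T ^ (1 : ℝ) :=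
      Real.rpow_le_rpow_of_exponent_le (by linarith) (by linarith)
    rw [Real.rpow_one] at h4
    rw [Real.rpow_two]
    push_cast
    nlinarith
  have h5 : Real.log (((⌊T ^ (1 / 2 - c)⌋₊ + 1 : ℕ)) : ℝ) ≤ 2 * Real.log T := by
    rw [← Real.log_rpow hT0]
    apply Real.log_le_log _ h2
    positivity
  have h6 : |C| ≤ |C| * Real.log T := le_mul_of_one_le_right (abs_nonneg _) hL1
  have h7 := le_abs_self C
  linarith

/-- A weighted sum over the denominators, bounded by the sum over squarefree numbers. -/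
private theorem As_le (f : ℕ → ℝ) (hf : ∀ n, 0 ≤ f n) (c α T : ℝ) :
    ∑ A ∈ As c α T, (μ A : ℝ) ^ 2 * f A ≤ ∑ A ∈ Q 1 (⌊T ^ (1 / 2 - c)⌋₊ + 1), f A := by
  have e1 : ∑ A ∈ As c α T, (μ A : ℝ) ^ 2 * f A = ∑ A ∈ (As c α T).filter Squarefree, f A := by
    rw [Finset.sum_filter]
    apply Finset.sum_congr rfl
    intro A _
    rw [mu_sq]
    split_ifs <;> simp
  rw [e1]
  apply Finset.sum_le_sum_of_subset_of_nonneg
  · intro A hA
    rw [Finset.mem_filter, As, Finset.mem_Ioc] at hA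
    rw [mem_Q]
    exact ⟨⟨by omega, by omega⟩, hA.2, Nat.coprime_one_right _⟩
  · intro A _ _
    exact hf A

theorem coef_A : ∃ C : ℝ, 0 ≤ C ∧ ∀ (c α T : ℝ), 0 < c → 3 ≤ T →
    ∑ A ∈ As c α T, (μ A : ℝ) ^ 2 / (A.totient : ℝ) ^ 2 * A ≤ C * Real.log T ^ 2 := by
  obtain ⟨C, hC1, hC⟩ := G_le
  refine ⟨C ^ 2, by positivity, fun c α T hc hT => ?_⟩
  calc ∑ A ∈ As c α T, (μ A : ℝ) ^ 2 / (A.totient : ℝ) ^ 2 * A =
      ∑ A ∈ As c α T, (μ A : ℝ) ^ 2 * ((A : ℝ) / (A.totient : ℝ) ^ 2) := by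
        apply Finset.sum_congr rfl
        intro A _
        ring
    _ ≤ ∑ A ∈ Q 1 (⌊T ^ (1 / 2 - c)⌋₊ + 1), (A : ℝ) / (A.totient : ℝ) ^ 2 :=
        As_le _ (fun _ => by positivity) c α T
    _ ≤ ∑ A ∈ Q 1 (⌊T ^ (1 / 2 - c)⌋₊ + 1), (A.divisors.card : ℝ) / (A.totient : ℝ) := by
        apply Finset.sum_le_sum
        intro A hA
        rw [mem_Q] at hA
        have h1 := div_totient_le (A := A) (by omega)
        have h2 : (0 : ℝ) < A.totient := by exact_mod_cast Nat.totient_pos.2 (by omega)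
        calc (A : ℝ) / (A.totient : ℝ) ^ 2 = (A : ℝ) / (A.totient : ℝ) / (A.totient : ℝ) := by
              rw [sq, div_div]
          _ ≤ _ := by gcongr
    _ ≤ G 1 (⌊T ^ (1 / 2 - c)⌋₊ + 1) ^ 2 := tau_one _
    _ ≤ (C * Real.log T) ^ 2 := pow_le_pow_left₀ (G_nonneg _ _) (hC c T hc hT) 2
    _ = C ^ 2 * Real.log T ^ 2 := by ring

theorem coef_tau : ∃ C : ℝ, 0 ≤ C ∧ ∀ (c α T : ℝ), 0 < c → 3 ≤ T →
    ∑ A ∈ As c α T, (μ A : ℝ) ^ 2 / (A.totient : ℝ) ^ 2 * (A.divisors.card : ℝ) ≤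
      C * Real.log T ^ 4 * T ^ (-(α - 1 + c)) := by
  obtain ⟨C, hC1, hC⟩ := G_le
  refine ⟨C ^ 4, by positivity, fun c α T hc hT => ?_⟩
  have hT0 : 0 < T := by linarith
  set Z : ℝ := T ^ (α - 1 + c) with hZ
  have hZ0 : 0 < Z := by positivity
  have hA : ∀ A ∈ As c α T, (μ A : ℝ) ^ 2 / (A.totient : ℝ) ^ 2 * (A.divisors.card : ℝ) ≤
      Z⁻¹ * ((μ A : ℝ) ^ 2 * ((A.divisors.card : ℝ) ^ 2 / (A.totient : ℝ))) := by
    intro A hA
    rw [As, Finset.mem_Ioc] at hA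
    have hA0 : A ≠ 0 := by omega
    have hA1 : Z ≤ A := (Nat.lt_of_floor_lt hA.1).le
    have h1 := div_totient_le hA0
    have h2 : (0 : ℝ) < A.totient := by
      exact_mod_cast Nat.totient_pos.2 (Nat.pos_of_ne_zero hA0)
    have hA' : (0 : ℝ) < A := lt_of_lt_of_le hZ0 hA1
    have h3 : (1 : ℝ) / A.totient ≤ Z⁻¹ * (A.divisors.card : ℝ) := by
      calc (1 : ℝ) / A.totient = (A : ℝ)⁻¹ * ((A : ℝ) / A.totient) := by field_simp
        _ ≤ Z⁻¹ * (A.divisors.card : ℝ) := by gcongr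
    calc (μ A : ℝ) ^ 2 / (A.totient : ℝ) ^ 2 * (A.divisors.card : ℝ) =
        (μ A : ℝ) ^ 2 * ((A.divisors.card : ℝ) / A.totient) * ((1 : ℝ) / A.totient) := by
          field_simp
      _ ≤ (μ A : ℝ) ^ 2 * ((A.divisors.card : ℝ) / A.totient) *
          (Z⁻¹ * (A.divisors.card : ℝ)) := by gcongr
      _ = _ := by ring
  calc _ ≤ ∑ A ∈ As c α T, Z⁻¹ * ((μ A : ℝ) ^ 2 *
        ((A.divisors.card : ℝ) ^ 2 / (A.totient : ℝ))) := Finset.sum_le_sum hA
    _ = Z⁻¹ * ∑ A ∈ As c α T, (μ A : ℝ) ^ 2 *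
        ((A.divisors.card : ℝ) ^ 2 / (A.totient : ℝ)) := by rw [Finset.mul_sum]
    _ ≤ Z⁻¹ * ∑ A ∈ Q 1 (⌊T ^ (1 / 2 - c)⌋₊ + 1),
        (A.divisors.card : ℝ) ^ 2 / (A.totient : ℝ) :=
        mul_le_mul_of_nonneg_left (As_le _ (fun _ => by positivity) c α T) (by positivity)
    _ ≤ Z⁻¹ * (C * Real.log T) ^ 4 :=
        mul_le_mul_of_nonneg_left ((tau_two _).trans
          (pow_le_pow_left₀ (G_nonneg _ _) (hC c T hc hT) 4)) (by positivity)
    _ = C ^ 4 * Real.log T ^ 4 * T ^ (-(α - 1 + c)) := by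
        rw [Real.rpow_neg hT0.le, ← hZ]
        ring

theorem coef_main {ε : ℝ} (hε : 0 < ε) : ∃ C : ℝ, ∀ (c α T : ℝ), 0 < c → 3 ≤ T → 1 ≤ α →
    α ≤ 3 / 2 - 4 * c → (3 / 2 - α - 2 * c - ε) * Real.log T - C ≤
      ∑ A ∈ As c α T, (μ A : ℝ) ^ 2 / (A.totient : ℝ) := by
  obtain ⟨C, hC⟩ := G_upper ε hε
  refine ⟨(1 + ε) * Real.log 2 + |C|, fun c α T hc hT h1 h2 => ?_⟩
  have hT0 : 0 < T := by linarith
  have hT1 : 1 ≤ T := by linarith
  have hL0 : 0 < Real.log T := Real.log_pos (by linarith)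
  set M : ℕ := ⌊T ^ (α - 1 + c)⌋₊ with hM
  set N : ℕ := ⌊T ^ (1 / 2 - c)⌋₊ with hN
  have hMN : M ≤ N := Nat.floor_le_floor
    (Real.rpow_le_rpow_of_exponent_le hT1 (by linarith))
  have e1 : ∑ A ∈ As c α T, (μ A : ℝ) ^ 2 / (A.totient : ℝ) = G 1 (N + 1) - G 1 (M + 1) := by
    have e2 : G 1 (N + 1) = ∑ A ∈ Finset.Ico 1 (N + 1), (μ A : ℝ) ^ 2 / (A.totient : ℝ) := by
      rw [G, Q, Finset.sum_filter]
      apply Finset.sum_congr rfl
      intro A _
      rw [mu_sq]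
      by_cases h : Squarefree A
      · rw [if_pos ⟨h, Nat.coprime_one_right _⟩, if_pos h]
      · rw [if_neg (fun h' => h h'.1), if_neg h, zero_div]
    have e3 : G 1 (M + 1) = ∑ A ∈ Finset.Ico 1 (M + 1), (μ A : ℝ) ^ 2 / (A.totient : ℝ) := by
      rw [G, Q, Finset.sum_filter]
      apply Finset.sum_congr rfl
      intro A _
      rw [mu_sq]
      by_cases h : Squarefree A
      · rw [if_pos ⟨h, Nat.coprime_one_right _⟩, if_pos h]
      · rw [if_neg (fun h' => h h'.1), if_neg h, zero_div]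
    have e4 : As c α T = Finset.Ico (M + 1) (N + 1) := by
      ext A
      rw [As, Finset.mem_Ioc, Finset.mem_Ico]
      omega
    rw [e2, e3, e4, eq_sub_iff_add_eq, add_comm,
      Finset.sum_Ico_consecutive _ (by omega) (by omega)]
  rw [e1]
  have h3 : (1 / 2 - c) * Real.log T ≤ G 1 (N + 1) := by
    have h4 := (log_le_harm (N + 1) (by omega)).trans (harm_le_G (N + 1))
    refine le_trans ?_ h4
    rw [← Real.log_rpow hT0]
    apply Real.log_le_log (by positivity)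
    push_cast
    exact (Nat.lt_floor_add_one _).le
  have h5 : G 1 (M + 1) ≤ (1 + ε) * ((α - 1 + c) * Real.log T + Real.log 2) + C := by
    refine (hC (M + 1) (by omega)).trans ?_
    have h6 : Real.log ((M + 1 : ℕ) : ℝ) ≤ (α - 1 + c) * Real.log T + Real.log 2 := by
      have h7 : 1 ≤ T ^ (α - 1 + c) := Real.one_le_rpow hT1 (by linarith)
      have h8 : ((M + 1 : ℕ) : ℝ) ≤ T ^ (α - 1 + c) * 2 := by
        push_cast
        have := Nat.floor_le (by positivity : 0 ≤ T ^ (α - 1 + c))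
        rw [← hM] at this
        linarith
      rw [← Real.log_rpow hT0, ← Real.log_mul (by positivity) (by norm_num)]
      exact Real.log_le_log (by positivity) h8
    have := mul_le_mul_of_nonneg_left h6 (by linarith : 0 ≤ 1 + ε)
    linarith
  have h9 : ε * ((α - 1 + c) * Real.log T) ≤ ε * (1 * Real.log T) := by
    apply mul_le_mul_of_nonneg_left _ hε.le
    apply mul_le_mul_of_nonneg_right _ hL0.le
    linarith
  have h10 := le_abs_self C
  have h11 : (1 + ε) * ((α - 1 + c) * Real.log T + Real.log 2) =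
      (α - 1 + c) * Real.log T + ε * ((α - 1 + c) * Real.log T) + (1 + ε) * Real.log 2 := by ring
  have h12 : (3 / 2 - α - 2 * c - ε) * Real.log T = (1 / 2 - c) * Real.log T -
      (α - 1 + c) * Real.log T - ε * (1 * Real.log T) := by ring
  linarith

end Pool.Agent.MP_67227b_nt.Gg
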