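import Mathlib
import Pool.Agent.MP_67227b_nt.Mo.Arch

set_option autoImplicit false

open Filter Topology Set MeasureTheory Complex
open scoped Real

namespace Pool.Agent.MP_67227b_nt.Gg

open Pool.Agent.MP_67227b_nt.Mo Pool.Agent.Lib.ZetaCount_helper33

/-- Module DG (a). PROOF. As `Mo.deriv_digamma_bound`: `deriv digamma s = deriv digamma (s + N) +
∑_{j<N} 1/(s+j)²` (`deriv_digamma_add_nat`), the first term tends to `0` (`digamma_far`) and
`|s + j| ≥ re s + j ≥ 1`, `∑_{j<N} 1/(re s + j)² ≤ 1/(re s)² + 1/(re s)` (`sum_inv_sq_le`). -/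
theorem deriv_digamma_re {s : ℂ} (hs : 1 ≤ s.re) : ‖deriv digamma s‖ ≤ 2 / s.re := by
  have hs0 : 0 < s.re := by linarith
  have hb : ∀ᶠ N : ℕ in atTop, ‖deriv digamma s‖ ≤ 2048 / (N : ℝ) + 2 / s.re := by
    filter_upwards [eventually_ge_atTop (⌈8 * (‖s‖ + 2)⌉₊ + 1)] with N hN
    have hN1 : 8 * (‖s‖ + 2) ≤ N := by
      refine (Nat.le_ceil _).trans ?_
      exact_mod_cast (Nat.le_succ _).trans hN
    have h1 := (digamma_far hs0 hN1).2
    rw [deriv_digamma_add_nat hs0] at h1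
    obtain ⟨M, rfl⟩ : ∃ M, N = M + 1 := ⟨N - 1, by omega⟩
    have h2 : ‖∑ j ∈ Finset.range (M + 1), ((s + j) ^ 2)⁻¹‖ ≤ 2 / s.re := by
      calc ‖∑ j ∈ Finset.range (M + 1), ((s + j) ^ 2)⁻¹‖
          ≤ ∑ j ∈ Finset.range (M + 1), ‖((s + j) ^ 2)⁻¹‖ := norm_sum_le _ _
        _ ≤ ∑ j ∈ Finset.range (M + 1), 1 / ((j : ℝ) + s.re) ^ 2 := by
            apply Finset.sum_le_sum
            intro j _
            rw [norm_inv, norm_pow, ← one_div]
            have h3 : (j : ℝ) + s.re ≤ ‖s + j‖ := by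
              have h4 := re_le_norm (s + j)
              simp only [add_re, natCast_re] at h4
              linarith
            have h4 : (0 : ℝ) ≤ j := Nat.cast_nonneg j
            have h5 : 0 < (j : ℝ) + s.re := by linarith
            exact one_div_le_one_div_of_le (by positivity) (pow_le_pow_left₀ h5.le h3 2)
        _ ≤ 1 / s.re ^ 2 + 1 / s.re := by
            have h3 := sum_inv_sq_le hs M
            have h4 : 0 ≤ 1 / (s.re + M) := by positivity
            linarith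
        _ ≤ 2 / s.re := by
            have h3 : 1 / s.re ^ 2 ≤ 1 / s.re := by
              apply one_div_le_one_div_of_le hs0
              nlinarith
            have h4 : 2 / s.re = 1 / s.re + 1 / s.re := by ring
            rw [h4]
            linarith
    have h3 : deriv digamma s = (deriv digamma s - ∑ j ∈ Finset.range (M + 1),
        ((s + j) ^ 2)⁻¹) + ∑ j ∈ Finset.range (M + 1), ((s + j) ^ 2)⁻¹ := by ring
    rw [h3]
    exact (norm_add_le _ _).trans (add_le_add h1 h2)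
  have hlim : Tendsto (fun N : ℕ => 2048 / (N : ℝ) + 2 / s.re) atTop (𝓝 (0 + 2 / s.re)) :=
    (tendsto_const_div_atTop_nhds_zero_nat 2048).add tendsto_const_nhds
  rw [zero_add] at hlim
  exact ge_of_tendsto hlim hb

/-- Module DG (b). Mean value inequality on the horizontal... (vertical) segment:
`digamma` is differentiable on `re s > 0`, derivative `≤ 2/N` on `re s = 3/4 + N`. -/
theorem digamma_far_sub (N : ℕ) (hN : 1 ≤ N) (t : ℝ) :
    ‖digamma (pt32 t / 2 + N) - digamma (pt32 0 / 2 + N)‖ ≤ |t| / N := by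
  have hN1 : (1 : ℝ) ≤ N := by exact_mod_cast hN
  have hmem : ∀ u : ℝ, pt32 u / 2 + N ∈ {z : ℂ | (N : ℝ) ≤ z.re} := by
    intro u
    have h1 : (pt32 u / 2 + N).re = 3 / 4 + N := by
      simp [pt32]
      norm_num
    rw [mem_setOf_eq, h1]
    linarith
  have h1 := Convex.norm_image_sub_le_of_norm_deriv_le (𝕜 := ℂ) (f := digamma) (C := 2 / N)
    (s := {z : ℂ | (N : ℝ) ≤ z.re}) (x := pt32 0 / 2 + N) (y := pt32 t / 2 + N)
    (fun z hz => by
      have hz0 : 0 < z.re := by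
        rw [mem_setOf_eq] at hz
        linarith
      have h2 := analyticAt_Gamma hz0
      have h3 : AnalyticAt ℂ digamma z := h2.deriv.div h2 (Gamma_ne_zero_of_re_pos hz0)
      exact h3.differentiableAt)
    (fun z hz => by
      rw [mem_setOf_eq] at hz
      refine (deriv_digamma_re (by linarith)).trans ?_
      exact div_le_div_of_nonneg_left (by norm_num) (by linarith) hz)
    (convex_halfSpace_re_ge _) (hmem 0) (hmem t)
  refine h1.trans (le_of_eq ?_)
  have h2 : pt32 t / 2 + N - (pt32 0 / 2 + N) = ((t / 2 : ℝ) : ℂ) * I := by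
    simp only [pt32]
    push_cast
    ring
  rw [h2, norm_mul, norm_real, norm_I, mul_one, Real.norm_eq_abs, abs_div, abs_two]
  ring

private theorem dg_archF (N : ℕ) (t : ℝ) :
    archF (pt32 t) = (((1 / 2 : ℝ) : ℂ) + t * I)⁻¹ -
      (∑ j ∈ Finset.range N, ((((3 / 2 + 2 * ((j : ℝ) + 1)) : ℝ) : ℂ) + t * I)⁻¹) -
      (Real.log Real.pi : ℂ) / 2 + digamma (pt32 t / 2 + (N + 1 : ℕ)) / 2 := by
  have hs : 0 < (pt32 t / 2).re := half_re (by rw [pt32_re]; norm_num)
  rw [digamma_add_nat hs (N + 1), Finset.sum_range_succ']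
  have h1 : ∑ j ∈ Finset.range N, (pt32 t / 2 + ((j + 1 : ℕ) : ℂ))⁻¹ =
      2 * ∑ j ∈ Finset.range N, ((((3 / 2 + 2 * ((j : ℝ) + 1)) : ℝ) : ℂ) + t * I)⁻¹ := by
    rw [Finset.mul_sum]
    refine Finset.sum_congr rfl fun j _ => ?_
    have h2 : (((3 / 2 + 2 * ((j : ℝ) + 1)) : ℝ) : ℂ) + t * I = 2 * (pt32 t / 2 + ((j + 1 : ℕ) : ℂ)) := by
      simp only [pt32]
      push_cast
      ring
    rw [h2, mul_inv, ← mul_assoc, mul_inv_cancel₀ (two_ne_zero), one_mul]
  rw [h1]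
  have h3 : (pt32 t / 2 + ((0 : ℕ) : ℂ))⁻¹ = 2 * (pt32 t)⁻¹ := by
    rw [Nat.cast_zero, add_zero, inv_div]
    rfl
  have h4 : ((1 / 2 : ℝ) : ℂ) + t * I = pt32 t - 1 := by
    simp only [pt32]
    push_cast
    ring
  rw [h3, h4]
  unfold archF
  ring

/-- Module DG (c). The finite partial fractions of `archF` on the line `re s = 3/2`.
PROOF. `digamma_add_nat` at `s/2` with `N + 1` terms: `digamma (s/2) = digamma (s/2 + N + 1) -
∑_{j ≤ N} 1/(s/2 + j)`, `(1/2)/(s/2 + j) = 1/(s + 2j)`; the term `j = 0` cancels `1/s`, and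
`s - 1 = 1/2 + it`, `s + 2j = 3/2 + 2j + it`. -/
theorem archF_sub (N : ℕ) (t : ℝ) :
    archF (pt32 t) - archF (pt32 0) =
      (((1 / 2 : ℝ) : ℂ) + t * I)⁻¹ - (((1 / 2 : ℝ) : ℂ))⁻¹ -
      (∑ j ∈ Finset.range N, (((((3 / 2 + 2 * ((j : ℝ) + 1)) : ℝ) : ℂ) + t * I)⁻¹ -
        ((((3 / 2 + 2 * ((j : ℝ) + 1)) : ℝ) : ℂ))⁻¹)) +
      (digamma (pt32 t / 2 + (N + 1 : ℕ)) - digamma (pt32 0 / 2 + (N + 1 : ℕ))) / 2 := by
  rw [dg_archF N t, dg_archF N 0, Finset.sum_sub_distrib]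
  simp only [ofReal_zero, zero_mul, add_zero]
  ring

end Pool.Agent.MP_67227b_nt.Gg
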