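import Mathlib
import Pool.Agent.MP_67227b_nt.Fb.FbDefs
import Pool.Agent.MP_67227b_nt.Gg.GgDefs
import Pool.Agent.MP_67227b_nt.Mo.Edge

set_option autoImplicit false

open Filter Topology Set MeasureTheory Complex
open scoped Real ContDiff ArithmeticFunction ArithmeticFunction.Moebius

namespace Pool.Agent.MP_67227b_nt.Gg

open Pool.Agent.MP_67227b_nt.Mo Pool.Agent.MP_67227b_nt.Fb

/-- The profile in the scale of the zeros: `h(v) = 2π η(2πv - αL)`, `L = log T`. -/
noncomputable def hB (η : ℝ → ℝ) (α T : ℝ) (v : ℝ) : ℂ :=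
  ((2 * π * η (2 * π * v - α * Real.log T) : ℝ) : ℂ)

/-- Module HB (a). -/
theorem bump_cf {X : ℝ} {η : ℝ → ℝ} (hη : Eta X η) : Bump X (cf η) where
  smooth := Complex.ofRealCLM.contDiff.comp hη.smooth
  supp := fun v hv => by simp [cf, hη.supp v hv]

/-- Module HB (b). For `0 ≤ αL`, `0 ≤ X`: `h` vanishes for `(X + αL)/(2π) < |v|`. -/
theorem bump_hB {X : ℝ} {η : ℝ → ℝ} (hη : Eta X η) {α T : ℝ} (hT : 1 ≤ T) (hα : 0 ≤ α) :
    Bump ((X + α * Real.log T) / (2 * π)) (hB η α T) where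
  smooth := by
    unfold hB
    apply Complex.ofRealCLM.contDiff.comp (f := fun v : ℝ =>
      2 * π * η (2 * π * v - α * Real.log T))
    apply contDiff_const.mul
    exact hη.smooth.comp ((contDiff_const.mul contDiff_id).sub contDiff_const)
  supp := by
    intro v hv
    have hL : 0 ≤ α * Real.log T := mul_nonneg hα (Real.log_nonneg hT)
    have hpi := Real.pi_pos
    rw [div_lt_iff₀ (by positivity)] at hv
    unfold hB
    rw [hη.supp, mul_zero, Complex.ofReal_zero]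
    have h1 : |2 * π * v| - |α * Real.log T| ≤ |2 * π * v - α * Real.log T| :=
      abs_sub_abs_le_abs_sub _ _
    rw [abs_of_nonneg hL, abs_mul, abs_of_pos (by positivity : 0 < 2 * π)] at h1
    linarith

theorem bump_hB_neg {X : ℝ} {η : ℝ → ℝ} (hη : Eta X η) {α T : ℝ} (hT : 1 ≤ T) (hα : 0 ≤ α) :
    Bump ((X + α * Real.log T) / (2 * π)) (fun v => hB η α T (-v)) where
  smooth := (bump_hB hη hT hα).smooth.comp contDiff_neg
  supp := fun v hv => (bump_hB hη hT hα).supp (-v) (by rwa [abs_neg])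

/-- Module HB (c). `gs h x = e^{iαLx} gs η (x/2π)` for real `x` (substitution `w = 2πv - αL`). -/
theorem gs_hB (η : ℝ → ℝ) (α T x : ℝ) :
    gs (hB η α T) (x : ℂ) =
      Complex.exp (I * ((α * Real.log T * x : ℝ) : ℂ)) * gs (cf η) ((x / (2 * π) : ℝ) : ℂ) := by
  have hpi := Real.pi_pos
  have hpc : (π : ℂ) ≠ 0 := by exact_mod_cast Real.pi_ne_zero
  set F : ℝ → ℂ := fun w => cf η w * Complex.exp (2 * π * I * w * ((x / (2 * π) : ℝ) : ℂ)) with hF
  set G : ℝ → ℂ := fun w => F (w - α * Real.log T) with hG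
  have h1 := Measure.integral_comp_mul_left G (2 * π)
  have h2 : ∫ w : ℝ, G w = ∫ w : ℝ, F w := integral_sub_right_eq_self F _
  rw [h2, abs_of_pos (by positivity)] at h1
  have h3 : ∀ v : ℝ, hB η α T v * Complex.exp (2 * π * I * v * (x : ℂ)) =
      Complex.exp (I * ((α * Real.log T * x : ℝ) : ℂ)) * (((2 * π : ℝ) : ℂ) * G (2 * π * v)) := by
    intro v
    simp only [hG, hF, hB, cf]
    have h4 : Complex.exp (2 * π * I * v * (x : ℂ)) =
        Complex.exp (I * ((α * Real.log T * x : ℝ) : ℂ)) *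
        Complex.exp (2 * π * I * ((2 * π * v - α * Real.log T : ℝ) : ℂ) *
          ((x / (2 * π) : ℝ) : ℂ)) := by
      rw [← Complex.exp_add]
      congr 1
      push_cast
      field_simp
      ring
    rw [h4]
    push_cast
    ring
  unfold gs
  simp only [h3]
  rw [integral_const_mul, integral_const_mul, h1]
  congr 1
  rw [Complex.real_smul, ← mul_assoc, ← Complex.ofReal_mul, mul_inv_cancel₀ (by positivity),
    Complex.ofReal_one, one_mul]

/-- `gs (h(-·)) x = conj (gs h x)` for real `x`, as `h` is real. -/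
theorem gs_hB_neg (η : ℝ → ℝ) (α T x : ℝ) :
    gs (fun v => hB η α T (-v)) (x : ℂ) = (starRingEnd ℂ) (gs (hB η α T) (x : ℂ)) := by
  unfold gs
  rw [← integral_conj, ← integral_neg_eq_self]
  refine integral_congr_ae (Eventually.of_forall fun v => ?_)
  simp only [neg_neg, map_mul]
  congr 1
  · unfold hB
    rw [Complex.conj_ofReal]
  · rw [← Complex.exp_conj]
    congr 1
    simp only [map_mul, Complex.conj_ofReal, Complex.conj_I, map_ofNat]
    push_cast
    ring

/-- Module HB (d). The uniform decay: `gs_real_bound` for `cf η` at `x/(2π)` with `K = 2`, and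
`1 + x² ≤ (2π)² (1 + (x/2π)²)`. -/
theorem DB_hB {X : ℝ} (hX : 0 ≤ X) {η : ℝ → ℝ} (hη : Eta X η) : ∃ C : ℝ, 0 < C ∧
    ∀ α T : ℝ, ED92.DB C (hB η α T) ∧ ED92.DB C (fun v => hB η α T (-v)) := by
  obtain ⟨C, hC, hb⟩ := gs_real_bound hX (bump_cf hη) 2
  have hpi := Real.pi_gt_three
  refine ⟨C * (2 * π) ^ 4, by positivity, fun α T => ?_⟩
  have h1 : ∀ x : ℝ, ‖gs (hB η α T) (x : ℂ)‖ ≤ C * (2 * π) ^ 4 / (1 + x ^ 2) ^ 2 := by
    intro x
    rw [gs_hB, norm_mul]
    have h2 : ‖Complex.exp (I * ((α * Real.log T * x : ℝ) : ℂ))‖ = 1 := by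
      rw [mul_comm]
      exact norm_exp_ofReal_mul_I _
    rw [h2, one_mul]
    refine (hb _).trans ?_
    have h3 : 1 + x ^ 2 ≤ (2 * π) ^ 2 * (1 + (x / (2 * π)) ^ 2) := by
      have h4 : (2 * π) ^ 2 * (1 + (x / (2 * π)) ^ 2) = (2 * π) ^ 2 + x ^ 2 := by
        field_simp
      rw [h4]
      nlinarith
    rw [div_le_div_iff₀ (by positivity) (by positivity)]
    have h5 := pow_le_pow_left₀ (by positivity) h3 2
    calc C * (1 + x ^ 2) ^ 2 ≤ C * ((2 * π) ^ 2 * (1 + (x / (2 * π)) ^ 2)) ^ 2 :=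
          mul_le_mul_of_nonneg_left h5 hC.le
      _ = C * (2 * π) ^ 4 * (1 + (x / (2 * π)) ^ 2) ^ 2 := by ring
  refine ⟨h1, fun x => ?_⟩
  rw [gs_hB_neg, RCLike.norm_conj]
  exact h1 x

end Pool.Agent.MP_67227b_nt.Gg
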