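import Mathlib
import Pool.Agent.MP_67227b_nt.Gg.GgHb

set_option autoImplicit false

open Filter Topology Set MeasureTheory Complex
open scoped Real ContDiff ArithmeticFunction ArithmeticFunction.Moebius

namespace Pool.Agent.MP_67227b_nt.Gg

open Pool.Agent.MP_67227b_nt.Mo Pool.Agent.MP_67227b_nt.Fb Pool.Agent.Lib.ZetaCount_helper33
  Pool.Agent.MP_67227b_nt

/-- Module MWA. The weight as a Fourier transform: `∫ e^{-2|ξ|} cos(ξu) dξ = 4/(4+u²)`
(e.g. twice the integral over `(0, ∞)` of the real part of `e^{-(2 - iu)ξ}`,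
`integral_exp_mul_Ioi` or similar). -/
theorem weight_eq (u : ℝ) :
    ∫ ξ : ℝ, Real.exp (-(2 * |ξ|)) * Real.cos (ξ * u) = 4 / (4 + u ^ 2) := by
  have h1 : ∀ ξ : ℝ, Real.exp (-(2 * |ξ|)) * Real.cos (ξ * u) =
      (fun x : ℝ => Real.exp (-(2 * x)) * Real.cos (x * u)) |ξ| := by
    intro ξ
    show _ = Real.exp (-(2 * |ξ|)) * Real.cos (|ξ| * u)
    congr 1
    rcases abs_cases ξ with ⟨h, -⟩ | ⟨h, -⟩
    · rw [h]
    · rw [h, neg_mul, Real.cos_neg]
  rw [integral_congr_ae (Eventually.of_forall h1),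
    integral_comp_abs (f := fun x : ℝ => Real.exp (-(2 * x)) * Real.cos (x * u))]
  have ha : ((-2 : ℂ) + u * I).re < 0 := by simp
  have h2 := integral_exp_mul_complex_Ioi ha 0
  have h3 : ∀ x : ℝ, (Complex.exp (((-2 : ℂ) + u * I) * x)).re =
      Real.exp (-(2 * x)) * Real.cos (x * u) := by
    intro x
    rw [Complex.exp_re]
    have e1 : (((-2 : ℂ) + u * I) * x).re = -(2 * x) := by simp
    have e2 : (((-2 : ℂ) + u * I) * x).im = x * u := by simp; ring
    rw [e1, e2]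
  have h4 : ∫ x in Ioi (0 : ℝ), Real.exp (-(2 * x)) * Real.cos (x * u) =
      (∫ x in Ioi (0 : ℝ), Complex.exp (((-2 : ℂ) + u * I) * x)).re := by
    have h7 : Integrable (fun x : ℝ => Complex.exp (((-2 : ℂ) + u * I) * x))
      (volume.restrict (Ioi (0 : ℝ))) := integrableOn_exp_mul_complex_Ioi ha 0
    have h5 := integral_re h7
    simp only [RCLike.re_eq_complex_re, h3] at h5
    exact h5
  rw [h4, h2]
  have h6 : (-Complex.exp (((-2 : ℂ) + u * I) * ((0 : ℝ) : ℂ)) / ((-2 : ℂ) + u * I)).re =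
      2 / (4 + u ^ 2) := by
    rw [Complex.ofReal_zero, mul_zero, Complex.exp_zero, Complex.div_re]
    have e1 : Complex.normSq ((-2 : ℂ) + u * I) = 4 + u ^ 2 := by
      rw [Complex.normSq_apply]
      simp
      ring
    rw [e1]
    simp
  rw [h6]
  ring

theorem integrable_weight : Integrable fun ξ : ℝ => Real.exp (-(2 * |ξ|)) := by
  rw [← integrableOn_univ, ← Set.Iic_union_Ioi (a := (0 : ℝ))]
  refine IntegrableOn.union ?_ ?_
  · refine (integrableOn_exp_mul_Iic (by norm_num : (0 : ℝ) < 2) 0).congr_fun ?_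
      measurableSet_Iic
    intro x hx
    show Real.exp (2 * x) = Real.exp (-(2 * |x|))
    rw [abs_of_nonpos (Set.mem_Iic.1 hx)]
    congr 1
    ring
  · refine (integrableOn_exp_mul_Ioi (by norm_num : (-2 : ℝ) < 0) 0).congr_fun ?_
      measurableSet_Ioi
    intro x hx
    show Real.exp (-2 * x) = Real.exp (-(2 * |x|))
    rw [abs_of_pos (Set.mem_Ioi.1 hx)]
    congr 1
    ring

namespace MwAux

theorem supp_eta {X : ℝ} {η : ℝ → ℝ} (hη : Eta X η) : HasCompactSupport η := by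
  refine HasCompactSupport.intro (isCompact_Icc (a := -X) (b := X)) fun x hx => ?_
  refine hη.supp x ?_
  by_contra h
  exact hx (abs_le.1 (not_lt.1 h))

theorem int_wcos (M u : ℝ) :
    Integrable fun ξ : ℝ => Real.exp (-(2 * |ξ|)) * Real.cos ((M + ξ) * u) := by
  refine (integrable_weight.mul_bdd (c := 1) ?_ (Eventually.of_forall fun ξ => ?_))
  · exact (by fun_prop : Continuous fun ξ : ℝ => Real.cos ((M + ξ) * u)).aestronglyMeasurable
  · rw [Real.norm_eq_abs]
    exact Real.abs_cos_le_one _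

theorem int_wsin (u : ℝ) :
    Integrable fun ξ : ℝ => Real.exp (-(2 * |ξ|)) * Real.sin (ξ * u) := by
  refine (integrable_weight.mul_bdd (c := 1) ?_ (Eventually.of_forall fun ξ => ?_))
  · exact (by fun_prop : Continuous fun ξ : ℝ => Real.sin (ξ * u)).aestronglyMeasurable
  · rw [Real.norm_eq_abs]
    exact Real.abs_sin_le_one _

theorem wsin_zero (u : ℝ) : ∫ ξ : ℝ, Real.exp (-(2 * |ξ|)) * Real.sin (ξ * u) = 0 := by
  have h := integral_neg_eq_self (fun ξ : ℝ => Real.exp (-(2 * |ξ|)) * Real.sin (ξ * u)) volume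
  have e : ∀ ξ : ℝ, Real.exp (-(2 * |-ξ|)) * Real.sin (-ξ * u) =
      -(Real.exp (-(2 * |ξ|)) * Real.sin (ξ * u)) := by
    intro ξ
    rw [abs_neg, neg_mul, Real.sin_neg]
    ring
  simp only [e] at h
  rw [integral_neg] at h
  linarith

theorem wcos (M u : ℝ) : ∫ ξ : ℝ, Real.exp (-(2 * |ξ|)) * Real.cos ((M + ξ) * u) =
    Real.cos (M * u) * (4 / (4 + u ^ 2)) := by
  have e : ∀ ξ : ℝ, Real.exp (-(2 * |ξ|)) * Real.cos ((M + ξ) * u) =
      Real.cos (M * u) * (Real.exp (-(2 * |ξ|)) * Real.cos (ξ * u)) -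
        Real.sin (M * u) * (Real.exp (-(2 * |ξ|)) * Real.sin (ξ * u)) := by
    intro ξ
    rw [add_mul, Real.cos_add]
    ring
  simp only [e]
  have h1 : Integrable fun ξ : ℝ => Real.exp (-(2 * |ξ|)) * Real.cos (ξ * u) := by
    have := int_wcos 0 u
    simpa using this
  rw [integral_sub (h1.const_mul _) ((int_wsin u).const_mul _), integral_const_mul,
    integral_const_mul, weight_eq, wsin_zero, mul_zero, sub_zero]

theorem int_eta {X : ℝ} {η : ℝ → ℝ} (hη : Eta X η) (M u : ℝ) :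
    Integrable fun ξ : ℝ => η ξ ^ 2 * Real.cos ((M + ξ) * u) := by
  apply Continuous.integrable_of_hasCompactSupport
  · exact (hη.smooth.continuous.pow 2).mul (by fun_prop)
  · apply HasCompactSupport.mul_right
    exact (supp_eta hη).comp_left (g := fun x : ℝ => x ^ 2) (by simp)

theorem gs_re {X : ℝ} {η : ℝ → ℝ} (hη : Eta X η) (α T u : ℝ) :
    (gs (fun ξ => hB η α T ξ * (fun v => hB η α T (-v)) (-ξ))
      ((u * (2 * π) / (2 * π) : ℝ) : ℂ)).re =
      2 * π * ∫ ξ : ℝ, η ξ ^ 2 * Real.cos ((α * Real.log T + ξ) * u) := by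
  set M := α * Real.log T with hM
  have hpi := Real.pi_pos
  have hu : u * (2 * π) / (2 * π) = u := by field_simp
  rw [hu]
  have e1 : ∀ v : ℝ, (hB η α T v * (fun v => hB η α T (-v)) (-v)) *
      Complex.exp (2 * π * I * v * (u : ℂ)) =
      ((4 * π ^ 2 * η (2 * π * v - M) ^ 2 : ℝ) : ℂ) *
        Complex.exp (((2 * π * v * u : ℝ) : ℂ) * I) := by
    intro v
    simp only [neg_neg, hB]
    have : (2 * π * I * v * (u : ℂ)) = ((2 * π * v * u : ℝ) : ℂ) * I := by
      push_cast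
      ring
    rw [this]
    push_cast
    ring
  have hcont : Continuous fun v : ℝ => 4 * π ^ 2 * η (2 * π * v - M) ^ 2 :=
    continuous_const.mul ((hη.smooth.continuous.comp (by fun_prop)).pow 2)
  have hsupp : HasCompactSupport fun v : ℝ => 4 * π ^ 2 * η (2 * π * v - M) ^ 2 := by
    refine HasCompactSupport.intro (isCompact_Icc (a := (M - X) / (2 * π))
      (b := (M + X) / (2 * π))) fun v hv => ?_
    have h1 : X < |2 * π * v - M| := by
      by_contra h
      rw [not_lt, abs_le] at h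
      apply hv
      rw [mem_Icc, div_le_iff₀ (by positivity), le_div_iff₀ (by positivity)]
      constructor <;> nlinarith [h.1, h.2]
    rw [hη.supp _ h1]
    ring
  have hint : Integrable fun v : ℝ => ((4 * π ^ 2 * η (2 * π * v - M) ^ 2 : ℝ) : ℂ) *
        Complex.exp (((2 * π * v * u : ℝ) : ℂ) * I) := by
    apply Continuous.integrable_of_hasCompactSupport
    · exact (continuous_ofReal.comp hcont).mul (by fun_prop)
    · apply HasCompactSupport.mul_right
      exact hsupp.comp_left (g := fun x : ℝ => (x : ℂ)) (by simp)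
  unfold gs
  rw [integral_congr_ae (Eventually.of_forall e1)]
  have h := integral_re hint
  rw [show (∫ v : ℝ, ((4 * π ^ 2 * η (2 * π * v - M) ^ 2 : ℝ) : ℂ) *
        Complex.exp (((2 * π * v * u : ℝ) : ℂ) * I)).re =
    RCLike.re (∫ v : ℝ, ((4 * π ^ 2 * η (2 * π * v - M) ^ 2 : ℝ) : ℂ) *
        Complex.exp (((2 * π * v * u : ℝ) : ℂ) * I)) from rfl, ← h]
  have e2 : ∀ v : ℝ, RCLike.re (((4 * π ^ 2 * η (2 * π * v - M) ^ 2 : ℝ) : ℂ) *
        Complex.exp (((2 * π * v * u : ℝ) : ℂ) * I)) =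
      (fun s : ℝ => 4 * π ^ 2 * (η (s - M) ^ 2 * Real.cos (s * u))) (2 * π * v) := by
    intro v
    change (((4 * π ^ 2 * η (2 * π * v - M) ^ 2 : ℝ) : ℂ) *
        Complex.exp (((2 * π * v * u : ℝ) : ℂ) * I)).re = _
    rw [Complex.re_ofReal_mul, Complex.exp_ofReal_mul_I_re]
    ring
  rw [integral_congr_ae (Eventually.of_forall e2), Measure.integral_comp_mul_left
    (fun s : ℝ => 4 * π ^ 2 * (η (s - M) ^ 2 * Real.cos (s * u))) (2 * π), integral_const_mul]
  have e3 : ∫ s : ℝ, η (s - M) ^ 2 * Real.cos (s * u) =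
      ∫ ξ : ℝ, η ξ ^ 2 * Real.cos ((M + ξ) * u) := by
    rw [← integral_add_right_eq_self (fun s : ℝ => η (s - M) ^ 2 * Real.cos (s * u)) M]
    refine integral_congr_ae (Eventually.of_forall fun ξ => ?_)
    simp only [add_sub_cancel_right]
    rw [add_comm ξ M]
  rw [e3, abs_of_pos (by positivity), smul_eq_mul]
  generalize (∫ ξ : ℝ, η ξ ^ 2 * Real.cos ((M + ξ) * u)) = J
  field_simp
  ring

theorem Q_nonneg (S : Finset ZetaZeroIdx) (y : ℝ) :
    0 ≤ ∑ i ∈ S, ∑ j ∈ S, Real.cos (y * (zetaOrdinate i - zetaOrdinate j)) := by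
  have e : ∑ i ∈ S, ∑ j ∈ S, Real.cos (y * (zetaOrdinate i - zetaOrdinate j)) =
      (∑ i ∈ S, Real.cos (y * zetaOrdinate i)) ^ 2 + (∑ i ∈ S, Real.sin (y * zetaOrdinate i)) ^ 2 := by
    rw [sq, sq, Finset.sum_mul_sum, Finset.sum_mul_sum, ← Finset.sum_add_distrib]
    refine Finset.sum_congr rfl fun i _ => ?_
    rw [← Finset.sum_add_distrib]
    refine Finset.sum_congr rfl fun j _ => ?_
    rw [mul_sub, Real.cos_sub]
  rw [e]
  positivity

end MwAux

open MwAux

/-- Module MWB. -/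
theorem montF_ge {X : ℝ} {η : ℝ → ℝ} (hη : Eta X η) {T : ℝ} (hT : 1 < T) (α : ℝ) :
    (1 / (2 * π)) * (∑ i ∈ PT goodFamily_zeta T, ∑ j ∈ PT goodFamily_zeta T,
      gs (fun ξ => hB η α T ξ * (fun v => hB η α T (-v)) (-ξ))
        (((zetaOrdinate i - zetaOrdinate j) * (2 * π) / (2 * π) : ℝ) : ℂ)).re ≤
      zeroScale T * montF T α := by
  have hz := zeroScale_pos hT
  have hpi := Real.pi_pos
  set S := PT goodFamily_zeta T with hS
  set M := α * Real.log T with hM
  have e1 : zeroScale T * montF T α = ∑ i ∈ S, ∑ j ∈ S,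
      ∫ ξ : ℝ, Real.exp (-(2 * |ξ|)) * Real.cos ((M + ξ) * (zetaOrdinate i - zetaOrdinate j)) := by
    unfold montF
    rw [mul_div_cancel₀ _ hz.ne']
    refine Finset.sum_congr rfl fun i _ => Finset.sum_congr rfl fun j _ => ?_
    rw [wcos]
    congr 2
    rw [hM]
    ring
  have e2 : (1 / (2 * π)) * (∑ i ∈ S, ∑ j ∈ S,
      gs (fun ξ => hB η α T ξ * (fun v => hB η α T (-v)) (-ξ))
        (((zetaOrdinate i - zetaOrdinate j) * (2 * π) / (2 * π) : ℝ) : ℂ)).re =
      ∑ i ∈ S, ∑ j ∈ S,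
        ∫ ξ : ℝ, η ξ ^ 2 * Real.cos ((M + ξ) * (zetaOrdinate i - zetaOrdinate j)) := by
    rw [Complex.re_sum, Finset.mul_sum]
    refine Finset.sum_congr rfl fun i _ => ?_
    rw [Complex.re_sum, Finset.mul_sum]
    refine Finset.sum_congr rfl fun j _ => ?_
    rw [gs_re hη, ← hM]
    generalize (∫ ξ : ℝ, η ξ ^ 2 *
      Real.cos ((M + ξ) * (zetaOrdinate i - zetaOrdinate j))) = J
    field_simp
  rw [e1, e2]
  have i1 : ∀ i ∈ S, ∀ j ∈ S, Integrable fun ξ : ℝ =>
      η ξ ^ 2 * Real.cos ((M + ξ) * (zetaOrdinate i - zetaOrdinate j)) :=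
    fun i _ j _ => int_eta hη _ _
  have i2 : ∀ i ∈ S, ∀ j ∈ S, Integrable fun ξ : ℝ =>
      Real.exp (-(2 * |ξ|)) * Real.cos ((M + ξ) * (zetaOrdinate i - zetaOrdinate j)) :=
    fun i _ j _ => int_wcos _ _
  have s1 : ∑ i ∈ S, ∑ j ∈ S,
        ∫ ξ : ℝ, η ξ ^ 2 * Real.cos ((M + ξ) * (zetaOrdinate i - zetaOrdinate j)) =
      ∫ ξ : ℝ, ∑ i ∈ S, ∑ j ∈ S,
        η ξ ^ 2 * Real.cos ((M + ξ) * (zetaOrdinate i - zetaOrdinate j)) := by
    rw [integral_finsetSum _ fun i hi => integrable_finsetSum _ fun j hj => i1 i hi j hj]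
    refine Finset.sum_congr rfl fun i hi => ?_
    rw [integral_finsetSum _ fun j hj => i1 i hi j hj]
  have s2 : ∑ i ∈ S, ∑ j ∈ S,
        ∫ ξ : ℝ, Real.exp (-(2 * |ξ|)) * Real.cos ((M + ξ) * (zetaOrdinate i - zetaOrdinate j)) =
      ∫ ξ : ℝ, ∑ i ∈ S, ∑ j ∈ S,
        Real.exp (-(2 * |ξ|)) * Real.cos ((M + ξ) * (zetaOrdinate i - zetaOrdinate j)) := by
    rw [integral_finsetSum _ fun i hi => integrable_finsetSum _ fun j hj => i2 i hi j hj]
    refine Finset.sum_congr rfl fun i hi => ?_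
    rw [integral_finsetSum _ fun j hj => i2 i hi j hj]
  rw [s1, s2]
  refine integral_mono (integrable_finsetSum _ fun i hi => integrable_finsetSum _ fun j hj =>
    i1 i hi j hj) (integrable_finsetSum _ fun i hi => integrable_finsetSum _ fun j hj =>
    i2 i hi j hj) fun ξ => ?_
  have hq := Q_nonneg S (M + ξ)
  have t1 : ∑ i ∈ S, ∑ j ∈ S,
        η ξ ^ 2 * Real.cos ((M + ξ) * (zetaOrdinate i - zetaOrdinate j)) =
      η ξ ^ 2 * ∑ i ∈ S, ∑ j ∈ S, Real.cos ((M + ξ) * (zetaOrdinate i - zetaOrdinate j)) := by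
    rw [Finset.mul_sum]
    refine Finset.sum_congr rfl fun i _ => ?_
    rw [Finset.mul_sum]
  have t2 : ∑ i ∈ S, ∑ j ∈ S,
        Real.exp (-(2 * |ξ|)) * Real.cos ((M + ξ) * (zetaOrdinate i - zetaOrdinate j)) =
      Real.exp (-(2 * |ξ|)) *
        ∑ i ∈ S, ∑ j ∈ S, Real.cos ((M + ξ) * (zetaOrdinate i - zetaOrdinate j)) := by
    rw [Finset.mul_sum]
    refine Finset.sum_congr rfl fun i _ => ?_
    rw [Finset.mul_sum]
  show (∑ i ∈ S, ∑ j ∈ S,
        η ξ ^ 2 * Real.cos ((M + ξ) * (zetaOrdinate i - zetaOrdinate j))) ≤ _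
  rw [t1, t2]
  exact mul_le_mul_of_nonneg_right (hη.sq_le ξ) hq

end Pool.Agent.MP_67227b_nt.Gg
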