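import Mathlib
import Pool.Agent.MP_67227b_nt.Gg.GgMw

set_option autoImplicit false

open Filter Topology Set MeasureTheory Complex
open scoped Real ContDiff ArithmeticFunction ArithmeticFunction.Moebius

namespace Pool.Agent.MP_67227b_nt.Gg

open Pool.Agent.MP_67227b_nt.Mo Pool.Agent.MP_67227b_nt.Fb Pool.Agent.Lib.ZetaCount_helper33
  Pool.Agent.MP_67227b_nt

/-- Module ED (a). The linear statistic of `h(-·)` is the conjugate (`Complex.conj_tsum`,
`gs_hB_neg`, `mu` real). -/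
theorem SZ_hB_neg (η : ℝ → ℝ) (α T t : ℝ) :
    SZ (2 * π) (fun v => hB η α T (-v)) t = (starRingEnd ℂ) (SZ (2 * π) (hB η α T) t) := by
  unfold SZ
  rw [Complex.conj_tsum]
  refine tsum_congr fun u => ?_
  rw [gs_hB_neg, map_mul, Complex.conj_ofReal]

private theorem ed_lim (K : ℝ) {ε : ℝ} (hε : 0 < ε) :
    ∀ᶠ T : ℝ in atTop, K * (Real.log T * T ^ (-(1 / 4) : ℝ)) ≤ ε := by
  have h := (isLittleO_log_rpow_atTop (r := 1 / 4) (by norm_num)).tendsto_div_nhds_zero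
  have h2 : Tendsto (fun T : ℝ => K * (Real.log T * T ^ (-(1 / 4) : ℝ))) atTop (𝓝 (K * 0)) := by
    apply Tendsto.const_mul
    refine h.congr' ?_
    filter_upwards [eventually_gt_atTop 0] with T hT
    rw [Real.rpow_neg hT.le, div_eq_mul_inv]
  rw [mul_zero] at h2
  exact h2.eventually_le_const hε

/-- Module ED (b). PROOF. `ED92.edge_error` with `L = 2π`, `η₁ = h`, `η₂ = h(-·)`,
`C₁ = C₂ = C` of `DB_hB`, `A = T^(3/4)`, `D = D₀ · 2 log T` exactly as in the proof of `Mo.edge`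
(`ED92.exists_wZ`, `ED92.exists_wT`, `ED92.eventually_card`): the integrand
`SZ h t * SZ h(-·) t` is `‖SZ h t‖²` (`SZ_hB_neg`), so with `montF_ge`
`zeroScale T · montF T α ≥ (1/2π) (∫_A^{T-A} ‖SZ h‖² - err)`,
`err ≤ C' (log T)² T^(3/4) + C' (log T)² T^(-3/2) T + .. ≤ ε T log T` for `T` large, uniformly in `α`.
Divide by `zeroScale T = T/(2π) log T`; finally `[κT, T - T^(3/4)] ⊆ [A, T - A]`, integrand `≥ 0`
(if `T - T^(3/4) < κT` the integral is `≤ 0`, fine too). -/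
theorem montF_ge_SZ (hRH : RiemannHypothesis) {X κ ε : ℝ} (hX : 0 ≤ X) {η : ℝ → ℝ}
    (hη : Eta X η) (hκ : 0 < κ) (hε : 0 < ε) : ∀ᶠ T : ℝ in atTop, ∀ α ∈ Icc (1 : ℝ) (3 / 2),
      (1 / (T * Real.log T)) * (∫ t in (κ * T)..(T - T ^ (3 / 4 : ℝ)),
        ‖SZ (2 * π) (hB η α T) t‖ ^ 2) - ε ≤ montF T α := by
  obtain ⟨C, hC, hDB⟩ := DB_hB hX hη
  obtain ⟨D₁, hD₁, hZ⟩ := ED92.exists_wZ hRH
  obtain ⟨D₂, hD₂, hW⟩ := ED92.exists_wT hRH
  set D₀ : ℝ := max D₁ D₂ with hD₀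
  have hD₀pos : 0 < D₀ := lt_max_of_lt_left hD₁
  set K : ℝ := 16 * C ^ 2 * D₀ ^ 2 + (2 * π * C ^ 2 * D₀ + 8 * C ^ 2 * D₀ ^ 2) with hK
  have hK1 : 0 ≤ 2 * π * C ^ 2 * D₀ + 8 * C ^ 2 * D₀ ^ 2 := by positivity
  have hsm : ∀ᶠ T : ℝ in atTop, T ^ (-(1 / 4) : ℝ) ≤ min (1 / 2) κ :=
    (tendsto_rpow_neg_atTop (by norm_num)).eventually_le_const (lt_min (by norm_num) hκ)
  filter_upwards [ed_lim K hε, ED92.eventually_card, eventually_gt_atTop 3, hsm]
    with T hlim hcard hT3 hq α hα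
  have hpi := Real.pi_pos
  have hT0 : 0 < T := by linarith
  have hT1 : 1 < T := by linarith
  have hL0 : 0 < Real.log T := Real.log_pos hT1
  have hz := zeroScale_pos hT1
  have hα0 : 0 ≤ α := by linarith [hα.1]
  have hA : 0 < T ^ (3 / 4 : ℝ) := Real.rpow_pos_of_pos hT0 _
  have e34 : T ^ (3 / 4 : ℝ) = T * T ^ (-(1 / 4) : ℝ) := by
    rw [← Real.rpow_one_add' hT0.le (by norm_num)]; norm_num
  have hA2 : T ^ (3 / 4 : ℝ) ≤ T / 2 := by
    rw [e34]
    have := mul_le_mul_of_nonneg_left (hq.trans (min_le_left _ _)) hT0.le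
    linarith
  have hAk : T ^ (3 / 4 : ℝ) ≤ κ * T := by
    rw [e34]
    have := mul_le_mul_of_nonneg_left (hq.trans (min_le_right _ _)) hT0.le
    linarith
  have hAT : T ^ (3 / 4 : ℝ) ≤ T - T ^ (3 / 4 : ℝ) := by linarith
  have hlog3 : Real.log (T + 3) ≤ 2 * Real.log T := by
    rw [← Real.log_rpow hT0]
    apply Real.log_le_log (by linarith)
    have : T ^ (2 : ℝ) = T ^ 2 := by exact_mod_cast Real.rpow_natCast T 2
    rw [this]
    nlinarith
  have hDZ : ∀ t, 0 ≤ t → t ≤ T → ED92.wZ t ≤ D₀ * (2 * Real.log T) := by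
    intro t ht htT
    refine (hZ T t ht htT).trans ?_
    exact mul_le_mul (le_max_left _ _) hlog3 (Real.log_nonneg (by linarith)) hD₀pos.le
  have hDT : ∀ t, ED92.wT T t ≤ D₀ * (2 * Real.log T) := by
    intro t
    refine (hW T t hT0.le).trans ?_
    exact mul_le_mul (le_max_right _ _) hlog3 (Real.log_nonneg (by linarith)) hD₀pos.le
  have hXL : 0 ≤ X + α * Real.log T := add_nonneg hX (mul_nonneg hα0 hL0.le)
  have hδ : 0 ≤ (X + α * Real.log T) / (2 * π) := by positivity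
  have hb := bump_hB hη hT1.le hα0
  have hb' := bump_hB_neg hη hT1.le hα0
  have hg := continuous_gs hδ hb
  have hg' := continuous_gs hδ hb'
  have herr := ED92.edge_error hRH hC hC (hDB α T).1 (hDB α T).2 hg hg' (le_refl (2 * π)) hA hAT
    hδ hδ hb hb' hDZ hDT
  have hmg := montF_ge hη hT1 α
  set Xs := ∑ i ∈ PT goodFamily_zeta T, ∑ j ∈ PT goodFamily_zeta T,
        gs (fun ξ => hB η α T ξ * (fun v => hB η α T (-v)) (-ξ))
          (((zetaOrdinate i - zetaOrdinate j) * (2 * π) / (2 * π) : ℝ) : ℂ) with hXs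
  set Sf : ℝ → ℝ := fun t => ‖SZ (2 * π) (hB η α T) t‖ ^ 2 with hSf
  have hSc : Continuous (SZ (2 * π) (hB η α T)) :=
    ED92.continuous_SZ hRH hC (hDB α T).1 (le_refl _) hg
  have hSfc : Continuous Sf := by
    rw [hSf]
    fun_prop
  have hI : (∫ t in (T ^ (3 / 4 : ℝ))..(T - T ^ (3 / 4 : ℝ)),
      SZ (2 * π) (hB η α T) t * SZ (2 * π) (fun v => hB η α T (-v)) t) =
      ((∫ t in (T ^ (3 / 4 : ℝ))..(T - T ^ (3 / 4 : ℝ)), Sf t : ℝ) : ℂ) := by
    rw [← intervalIntegral.integral_ofReal]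
    refine intervalIntegral.integral_congr fun t _ => ?_
    simp only [SZ_hB_neg, hSf]
    rw [Complex.mul_conj, Complex.normSq_eq_norm_sq]
  rw [hI] at herr
  set E : ℝ := C * C * (D₀ * (2 * Real.log T)) ^ 2 * (4 * T ^ (3 / 4 : ℝ)) +
    C * C * (D₀ * (2 * Real.log T)) / (T ^ (3 / 4 : ℝ)) ^ 2 *
      (π * (PT goodFamily_zeta T).card) +
    2 * C * C * (D₀ * (2 * Real.log T)) ^ 2 / (T ^ (3 / 4 : ℝ)) ^ 2 * T with hE
  have h1 : (∫ t in (T ^ (3 / 4 : ℝ))..(T - T ^ (3 / 4 : ℝ)), Sf t) - E ≤ Xs.re := by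
    have h2 := Complex.abs_re_le_norm (((2 * π / (2 * π) : ℝ) : ℂ) * Xs -
      ((∫ t in (T ^ (3 / 4 : ℝ))..(T - T ^ (3 / 4 : ℝ)), Sf t : ℝ) : ℂ))
    have h3 := (abs_le.1 (h2.trans herr)).1
    rw [div_self (by positivity), Complex.ofReal_one, one_mul, Complex.sub_re,
      Complex.ofReal_re] at h3
    linarith
  -- the error
  have hA2e : (T ^ (3 / 4 : ℝ)) ^ 2 = T * T ^ (1 / 2 : ℝ) := by
    rw [← Real.rpow_natCast (T ^ (3 / 4 : ℝ)) 2, ← Real.rpow_mul hT0.le,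
      ← Real.rpow_one_add' hT0.le (by norm_num)]
    norm_num
  have hEle : E ≤ ε * (T * Real.log T) := by
    have hh : 1 ≤ T ^ (1 / 2 : ℝ) := Real.one_le_rpow hT1.le (by norm_num)
    have hinv : 1 / (T ^ (3 / 4 : ℝ)) ^ 2 ≤ 1 / T := by
      rw [hA2e]
      exact one_div_le_one_div_of_le hT0 (le_mul_of_one_le_right hT0.le hh)
    have h14 : 1 / T ≤ T ^ (-(1 / 4) : ℝ) := by
      rw [one_div, ← Real.rpow_neg_one]
      exact Real.rpow_le_rpow_of_exponent_le hT1.le (by norm_num)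
    have e1 : C * C * (D₀ * (2 * Real.log T)) / (T ^ (3 / 4 : ℝ)) ^ 2 *
        (π * (PT goodFamily_zeta T).card) ≤
        2 * π * C ^ 2 * D₀ * (Real.log T * T ^ (-(1 / 4) : ℝ)) * (T * Real.log T) := by
      calc C * C * (D₀ * (2 * Real.log T)) / (T ^ (3 / 4 : ℝ)) ^ 2 *
            (π * (PT goodFamily_zeta T).card)
          = C * C * (D₀ * (2 * Real.log T)) * (1 / (T ^ (3 / 4 : ℝ)) ^ 2) *
            (π * (PT goodFamily_zeta T).card) := by ring
        _ ≤ C * C * (D₀ * (2 * Real.log T)) * (T ^ (-(1 / 4) : ℝ)) * (π * (T * Real.log T)) := by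
            gcongr
            exact hinv.trans h14
        _ = _ := by ring
    have e2 : 2 * C * C * (D₀ * (2 * Real.log T)) ^ 2 / (T ^ (3 / 4 : ℝ)) ^ 2 * T ≤
        8 * C ^ 2 * D₀ ^ 2 * (Real.log T * T ^ (-(1 / 4) : ℝ)) * (T * Real.log T) := by
      calc 2 * C * C * (D₀ * (2 * Real.log T)) ^ 2 / (T ^ (3 / 4 : ℝ)) ^ 2 * T
          = 2 * C * C * (D₀ * (2 * Real.log T)) ^ 2 * (1 / (T ^ (3 / 4 : ℝ)) ^ 2) * T := by ring
        _ ≤ 2 * C * C * (D₀ * (2 * Real.log T)) ^ 2 * (T ^ (-(1 / 4) : ℝ)) * T := by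
            gcongr
            exact hinv.trans h14
        _ = _ := by ring
    have e3 : C * C * (D₀ * (2 * Real.log T)) ^ 2 * (4 * T ^ (3 / 4 : ℝ)) =
        16 * C ^ 2 * D₀ ^ 2 * (Real.log T * T ^ (-(1 / 4) : ℝ)) * (T * Real.log T) := by
      rw [e34]; ring
    have h5 := mul_le_mul_of_nonneg_right hlim (mul_pos hT0 hL0).le
    rw [hK] at h5
    rw [hE, e3]
    linarith [e1, e2, h5]
  -- monotonicity of the range
  have hmono : (∫ t in (κ * T)..(T - T ^ (3 / 4 : ℝ)), Sf t) ≤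
      ∫ t in (T ^ (3 / 4 : ℝ))..(T - T ^ (3 / 4 : ℝ)), Sf t := by
    have hnn : ∀ t, 0 ≤ Sf t := fun t => by rw [hSf]; positivity
    rcases le_total (κ * T) (T - T ^ (3 / 4 : ℝ)) with h | h
    · exact intervalIntegral.integral_mono_interval hAk h le_rfl
        (ae_of_all _ fun t => hnn t) (hSfc.intervalIntegrable _ _)
    · rw [intervalIntegral.integral_symm]
      have h6 : 0 ≤ ∫ t in (T - T ^ (3 / 4 : ℝ))..(κ * T), Sf t :=
        intervalIntegral.integral_nonneg h fun t _ => hnn t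
      have h7 : 0 ≤ ∫ t in (T ^ (3 / 4 : ℝ))..(T - T ^ (3 / 4 : ℝ)), Sf t :=
        intervalIntegral.integral_nonneg hAT fun t _ => hnn t
      linarith
  have hTL : 0 < T * Real.log T := mul_pos hT0 hL0
  have hzs : zeroScale T = T * Real.log T / (2 * π) := by
    unfold zeroScale
    ring
  have h8 : (∫ t in (T ^ (3 / 4 : ℝ))..(T - T ^ (3 / 4 : ℝ)), Sf t) - E ≤
      T * Real.log T * montF T α := by
    rw [hzs] at hmg
    have h9 : (1 / (2 * π)) * Xs.re ≤ (1 / (2 * π)) * (T * Real.log T * montF T α) := by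
      refine hmg.trans (le_of_eq ?_)
      ring
    exact h1.trans (le_of_mul_le_mul_left h9 (by positivity))
  have h9 : (1 / (T * Real.log T)) * (∫ t in (κ * T)..(T - T ^ (3 / 4 : ℝ)), Sf t) ≤
      ε + montF T α := by
    rw [one_div, inv_mul_le_iff₀ hTL]
    linarith
  linarith

end Pool.Agent.MP_67227b_nt.Gg
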