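import Mathlib

set_option autoImplicit false

open Filter Topology Set MeasureTheory Complex
open scoped Real ContDiff

namespace Pool.Agent.MP_67227b_nt.Gg

private theorem osc_slice {E : Type*} [NormedAddCommGroup E] [NormedSpace ℝ E] {G : Type*}
    [NormedAddCommGroup G] [NormedSpace ℝ G] {u : ℝ × E → G}
    (hu : ContDiff ℝ ∞ u) (y : E) (p : ℝ) :
    HasDerivAt (fun p : ℝ => u (p, y)) (fderiv ℝ u (p, y) (1, 0)) p := by
  have h1 : HasDerivAt (fun p : ℝ => (p, y)) ((1 : ℝ), (0 : E)) p :=
    (hasDerivAt_id p).prodMk (hasDerivAt_const p y)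
  exact ((hu.differentiable (by simp)) (p, y)).hasFDerivAt.comp_hasDerivAt p h1

private theorem osc_bdd {E : Type*} [NormedAddCommGroup E] [NormedSpace ℝ E] {F : ℝ × E → ℂ}
    (hFc : HasCompactSupport F) : ∃ R : ℝ, 0 ≤ R ∧ ∀ x ∈ tsupport F, |x.1| ≤ R := by
  obtain ⟨R, hR⟩ := hFc.isCompact.isBounded.exists_norm_le
  refine ⟨max R 0, le_max_right _ _, fun x hx => ?_⟩
  exact (norm_fst_le x).trans ((hR x hx).trans (le_max_left _ _))

theorem osc {E : Type*} [NormedAddCommGroup E] [NormedSpace ℝ E] {F : ℝ × E → ℂ} {ψ : ℝ × E → ℝ}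
    (hF : ContDiff ℝ ∞ F) (hFc : HasCompactSupport F) (hψ : ContDiff ℝ ∞ ψ)
    (hd : ∀ x ∈ tsupport F, fderiv ℝ ψ x (1, 0) ≠ 0) (k : ℕ) :
    ∃ C : ℝ, 0 < C ∧ ∀ y : E, ∀ l : ℝ, l ≠ 0 →
      ‖∫ p : ℝ, F (p, y) * Complex.exp (I * ((l * ψ (p, y) : ℝ) : ℂ))‖ ≤ C / |l| ^ k := by
  induction k generalizing F with
  | zero =>
    obtain ⟨M, hM⟩ := hFc.exists_bound_of_continuous hF.continuous
    obtain ⟨R, hR0, hR⟩ := osc_bdd hFc
    refine ⟨|∫ p : ℝ, (Icc (-R) R).indicator (fun _ => M) p| + 1, by positivity, fun y l _ => ?_⟩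
    rw [pow_zero, div_one]
    have h1 : ‖∫ p : ℝ, F (p, y) * Complex.exp (I * ((l * ψ (p, y) : ℝ) : ℂ))‖ ≤
        ∫ p : ℝ, (Icc (-R) R).indicator (fun _ => M) p := by
      refine norm_integral_le_of_norm_le ?_ (Eventually.of_forall fun p => ?_)
      · exact (integrable_indicator_iff measurableSet_Icc).mpr
          (integrableOn_const (by rw [Real.volume_Icc]; exact ENNReal.ofReal_ne_top))
      · rw [norm_mul, mul_comm I, Complex.norm_exp_ofReal_mul_I, mul_one]
        by_cases hp : p ∈ Icc (-R) R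
        · rw [indicator_of_mem hp]
          exact hM _
        · rw [indicator_of_notMem hp]
          have h2 : (p, y) ∉ tsupport F := fun h => hp (abs_le.mp (hR _ h))
          rw [image_eq_zero_of_notMem_tsupport h2, norm_zero]
    refine h1.trans ?_
    have := le_abs_self (∫ p : ℝ, (Icc (-R) R).indicator (fun _ => M) p)
    linarith
  | succ k ih =>
    set D : ℝ × E → ℝ := fun x => fderiv ℝ ψ x (1, 0) with hD
    have hDs : ContDiff ℝ ∞ D := (hψ.fderiv_right (m := ∞) (by simp)).clm_apply contDiff_const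
    set u : ℝ × E → ℂ := fun x => (D x)⁻¹ • F x with hu
    have hus : ContDiff ℝ ∞ u := by
      rw [contDiff_iff_contDiffAt]
      intro x
      by_cases hx : x ∈ tsupport F
      · exact (hDs.contDiffAt.inv (hd x hx)).smul hF.contDiffAt
      · have h1 : u =ᶠ[𝓝 x] fun _ => 0 := by
          filter_upwards [notMem_tsupport_iff_eventuallyEq.mp hx] with z hz
          simp only [hu, hz, Pi.zero_apply, smul_zero]
        exact contDiffAt_const.congr_of_eventuallyEq h1
    have huc : HasCompactSupport u := hFc.smul_left (f := fun x => (D x)⁻¹)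
    have hut : tsupport u ⊆ tsupport F := by
      refine closure_mono fun x hx => ?_
      rw [Function.mem_support] at hx ⊢
      intro h
      exact hx (by simp only [hu, h, smul_zero])
    set F₁ : ℝ × E → ℂ := fun x => fderiv ℝ u x (1, 0) with hF₁
    have hF₁s : ContDiff ℝ ∞ F₁ := (hus.fderiv_right (m := ∞) (by simp)).clm_apply contDiff_const
    have hF₁t : tsupport F₁ ⊆ tsupport u := by
      refine (closure_mono fun x hx => ?_).trans (tsupport_fderiv_subset ℝ (f := u))
      rw [Function.mem_support] at hx ⊢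
      intro h
      exact hx (by simp only [hF₁, h, zero_apply])
    have hF₁c : HasCompactSupport F₁ := huc.of_isClosed_subset (isClosed_tsupport _) hF₁t
    obtain ⟨C, hC, hI⟩ := ih hF₁s hF₁c (fun x hx => hd x (hut (hF₁t hx)))
    obtain ⟨R, hR0, hR⟩ := osc_bdd hFc
    refine ⟨C, hC, fun y l hl => ?_⟩
    have hzero : ∀ (w : ℝ × E → ℂ), tsupport w ⊆ tsupport F → HasCompactSupport (fun p : ℝ => w (p, y)) := by
      intro w hw
      refine HasCompactSupport.intro (isCompact_Icc (a := -R) (b := R)) fun p hp => ?_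
      have h2 : (p, y) ∉ tsupport w := fun h => hp (abs_le.mp (hR _ (hw h)))
      exact image_eq_zero_of_notMem_tsupport h2
    set V : ℝ → ℂ := fun p => Complex.exp (I * ((l * ψ (p, y) : ℝ) : ℂ)) with hV
    set V' : ℝ → ℂ := fun p => I * ((l * D (p, y) : ℝ) : ℂ) * V p with hV'
    have hψy : ∀ p, HasDerivAt (fun p : ℝ => ψ (p, y)) (D (p, y)) p := fun p => osc_slice hψ y p
    have hVd : ∀ p, HasDerivAt V (V' p) p := by
      intro p
      have h1 : HasDerivAt (fun p : ℝ => ((l * ψ (p, y) : ℝ) : ℂ)) ((l * D (p, y) : ℝ) : ℂ) p :=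
        ((hψy p).const_mul l).ofReal_comp
      have h2 := (h1.const_mul I).cexp
      simpa only [hV', hV, mul_comm] using h2
    have hVc : Continuous V := continuous_iff_continuousAt.mpr fun p => (hVd p).continuousAt
    have hUd : ∀ p, HasDerivAt (fun p : ℝ => u (p, y)) (F₁ (p, y)) p := fun p => osc_slice hus y p
    have hpy : Continuous fun p : ℝ => ((p, y) : ℝ × E) := by fun_prop
    have hUc : Continuous fun p : ℝ => u (p, y) := hus.continuous.comp hpy
    have hF₁yc : Continuous fun p : ℝ => F₁ (p, y) := hF₁s.continuous.comp hpy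
    have hDyc : Continuous fun p : ℝ => D (p, y) := hDs.continuous.comp hpy
    have hV'c : Continuous V' := by
      simp only [hV']
      exact (continuous_const.mul (Complex.continuous_ofReal.comp (continuous_const.mul hDyc))).mul hVc
    have hparts := integral_mul_deriv_eq_deriv_mul_of_integrable (u := fun p : ℝ => u (p, y)) (v := V)
      (u' := fun p : ℝ => F₁ (p, y)) (v' := V') (fun p _ => hUd p) (fun p _ => hVd p)
      ((hUc.mul hV'c).integrable_of_hasCompactSupport ((hzero u hut).mul_right))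
      ((hF₁yc.mul hVc).integrable_of_hasCompactSupport ((hzero F₁ (hF₁t.trans hut)).mul_right))
      ((hUc.mul hVc).integrable_of_hasCompactSupport ((hzero u hut).mul_right))
    have hint : ∀ p : ℝ, u (p, y) * V' p = (I * (l : ℂ)) * (F (p, y) * V p) := by
      intro p
      by_cases hx : (p, y) ∈ tsupport F
      · have hne : (D (p, y) : ℂ) ≠ 0 := by
          have := hd _ hx
          exact_mod_cast this
        simp only [hu, hV', Complex.real_smul]
        push_cast
        field_simp
      · have h0 : F (p, y) = 0 := image_eq_zero_of_notMem_tsupport hx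
        simp only [hu, h0, smul_zero, zero_mul, mul_zero]
    have h3 : (I * (l : ℂ)) * ∫ p : ℝ, F (p, y) * V p = - ∫ p : ℝ, F₁ (p, y) * V p := by
      rw [← integral_const_mul, ← hparts]
      exact integral_congr_ae (Eventually.of_forall fun p => (hint p).symm)
    have h4 : |l| * ‖∫ p : ℝ, F (p, y) * V p‖ = ‖∫ p : ℝ, F₁ (p, y) * V p‖ := by
      have h5 := congrArg norm h3
      rw [norm_mul, norm_mul, Complex.norm_I, one_mul, Complex.norm_real, Real.norm_eq_abs, norm_neg] at h5
      exact h5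
    have hl' : 0 < |l| := abs_pos.mpr hl
    have h6 := hI y l hl
    have h7 : ‖∫ p : ℝ, F (p, y) * V p‖ = ‖∫ p : ℝ, F₁ (p, y) * V p‖ / |l| := by
      rw [eq_div_iff hl'.ne', mul_comm]
      exact h4
    change ‖∫ p : ℝ, F (p, y) * V p‖ ≤ _
    rw [h7, pow_succ, div_le_iff₀ hl', div_mul_eq_div_div, div_mul_cancel₀ _ hl'.ne']
    exact h6

end Pool.Agent.MP_67227b_nt.Gg
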