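import Mathlib
import Pool.Agent.MP_67227b_nt.Gg.GgDefs
import Pool.Agent.MP_67227b_nt.Gg.GgOsc

set_option autoImplicit false

open Filter Topology Set MeasureTheory Complex
open scoped Real ContDiff ArithmeticFunction ArithmeticFunction.Moebius

namespace Pool.Agent.MP_67227b_nt.Gg

/-- the amplitude -/
private noncomputable def offG (η ρ : ℝ → ℝ) (x : ℝ × (ℝ × ℝ)) : ℝ :=
  Real.exp x.1 * η x.1 ^ 2 * (ρ (Real.exp (x.1 + x.2.1)) * ρ (Real.exp (x.1 + x.2.2)))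

private theorem off_smooth {X κ : ℝ} {η ρ : ℝ → ℝ} (hη : Eta X η) (hρ : Rho κ ρ) :
    ContDiff ℝ ∞ fun x : ℝ × (ℝ × ℝ) => (offG η ρ x : ℂ) := by
  have h1 : ContDiff ℝ ∞ fun x : ℝ × (ℝ × ℝ) => x.1 := contDiff_fst
  have h2 : ContDiff ℝ ∞ fun x : ℝ × (ℝ × ℝ) => x.2.1 := contDiff_fst.comp contDiff_snd
  have h3 : ContDiff ℝ ∞ fun x : ℝ × (ℝ × ℝ) => x.2.2 := contDiff_snd.comp contDiff_snd
  have h4 : ContDiff ℝ ∞ (offG η ρ) := by
    unfold offG
    exact ((Real.contDiff_exp.comp h1).mul ((hη.smooth.comp h1).pow 2)).mul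
      ((hρ.smooth.comp (Real.contDiff_exp.comp (h1.add h2))).mul
        (hρ.smooth.comp (Real.contDiff_exp.comp (h1.add h3))))
  exact Complex.ofRealCLM.contDiff.comp h4

private theorem off_rho {κ : ℝ} (hκ : 0 < κ) {ρ : ℝ → ℝ} (hρ : Rho κ ρ) {s : ℝ}
    (h : ρ (Real.exp s) ≠ 0) : Real.log (2 * κ) ≤ s ∧ s ≤ 0 := by
  constructor
  · by_contra hcon
    push Not at hcon
    apply h
    apply hρ.left
    have h1 := Real.exp_le_exp.2 hcon.le
    rwa [Real.exp_log (by linarith)] at h1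
  · by_contra hcon
    push Not at hcon
    apply h
    apply hρ.right
    have h1 := Real.one_le_exp hcon.le
    linarith

private theorem off_supp {X κ : ℝ} (hκ : 0 < κ) {η ρ : ℝ → ℝ} (hη : Eta X η) (hρ : Rho κ ρ) :
    HasCompactSupport fun x : ℝ × (ℝ × ℝ) => (offG η ρ x : ℂ) := by
  apply HasCompactSupport.intro (K := Icc (-|X|) |X| ×ˢ
    (Icc (Real.log (2 * κ) - |X|) |X| ×ˢ Icc (Real.log (2 * κ) - |X|) |X|))
    (isCompact_Icc.prod (isCompact_Icc.prod isCompact_Icc))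
  intro x hx
  by_contra hne
  apply hx
  have h0 : offG η ρ x ≠ 0 := fun h => hne (by
    show ((offG η ρ x : ℝ) : ℂ) = 0
    rw [h, Complex.ofReal_zero])
  unfold offG at h0
  have h1 : η x.1 ≠ 0 := fun h => h0 (by rw [h]; ring)
  have h2 : ρ (Real.exp (x.1 + x.2.1)) ≠ 0 := fun h => h0 (by rw [h]; ring)
  have h3 : ρ (Real.exp (x.1 + x.2.2)) ≠ 0 := fun h => h0 (by rw [h]; ring)
  have h4 : |x.1| ≤ |X| := by
    by_contra hcon
    push Not at hcon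
    exact h1 (hη.supp _ (lt_of_le_of_lt (le_abs_self X) hcon))
  rw [abs_le] at h4
  obtain ⟨h5, h6⟩ := off_rho hκ hρ h2
  obtain ⟨h7, h8⟩ := off_rho hκ hρ h3
  refine ⟨⟨h4.1, h4.2⟩, ⟨?_, ?_⟩, ⟨?_, ?_⟩⟩ <;> linarith [h4.1, h4.2]

/-- Module OFF. One off-diagonal integral.

PROOF. Substitute `v = p + αL` (`integral_add_right_eq_self`): `exp v = T^α exp p`,
`wt ρ T A B (exp v) = ρ (exp (p + r))` with `r = log (2π T^α B/(AT))`, same for `A', B'` with `r'`. So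
the integral is `T^α ∫ F (p, (r, r')) exp (I l exp p) dp` with
`F (p, (r, r')) = exp p · η p ^ 2 · ρ (exp (p + r)) · ρ (exp (p + r'))`, `l = 2π ξ T^α`. `F` is smooth
on `ℝ × ℝ × ℝ` and has compact support: `F ≠ 0` implies `|p| ≤ |X|` and
`log (2κ) ≤ p + r ≤ 0`, `log (2κ) ≤ p + r' ≤ 0` (`HasCompactSupport.intro` with a product of
closed intervals; if `1 < 2κ`, still fine: then `ρ = 0`). Apply `osc` with `ψ (p, y) = exp p`
(`fderiv ℝ ψ x (1, 0) = exp x.1 ≠ 0`), `|l| ≥ T^α |ξ|`. -/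
theorem off_int {X κ : ℝ} (hκ : 0 < κ) {η ρ : ℝ → ℝ} (hη : Eta X η) (hρ : Rho κ ρ) (k : ℕ) :
    ∃ C : ℝ, 0 < C ∧ ∀ α T : ℝ, 1 < T → ∀ A B A' B' : ℕ, 0 < A → 0 < B → 0 < A' → 0 < B' →
      ∀ ξ : ℝ, ξ ≠ 0 →
      ‖∫ v : ℝ, ((Real.exp v * η (v - α * Real.log T) ^ 2 * (wt ρ T A B (Real.exp v) *
        wt ρ T A' B' (Real.exp v)) : ℝ) : ℂ) * ex (Real.exp v * ξ)‖ ≤
        C * T ^ α / (T ^ α * |ξ|) ^ k := by
  have hψ : ContDiff ℝ ∞ fun x : ℝ × (ℝ × ℝ) => Real.exp x.1 :=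
    Real.contDiff_exp.comp contDiff_fst
  have hd : ∀ x ∈ tsupport (fun x : ℝ × (ℝ × ℝ) => (offG η ρ x : ℂ)),
      fderiv ℝ (fun x : ℝ × (ℝ × ℝ) => Real.exp x.1) x (1, 0) ≠ 0 := by
    intro x _
    have h1 : HasFDerivAt (fun x : ℝ × (ℝ × ℝ) => Real.exp x.1)
        (Real.exp x.1 • ContinuousLinearMap.fst ℝ ℝ (ℝ × ℝ)) x := hasFDerivAt_fst.exp
    rw [h1.fderiv]
    show Real.exp x.1 * 1 ≠ 0
    rw [mul_one]
    exact (Real.exp_pos _).ne'
  obtain ⟨C, hC, hosc⟩ := osc (off_smooth hη hρ) (off_supp hκ hη hρ) hψ hd k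
  refine ⟨C, hC, ?_⟩
  intro α T hT A B A' B' hA hB hA' hB' ξ hξ
  have hT0 : 0 < T := by linarith
  have hTα : 0 < T ^ α := Real.rpow_pos_of_pos hT0 _
  have hA0 : (0 : ℝ) < A := by exact_mod_cast hA
  have hB0 : (0 : ℝ) < B := by exact_mod_cast hB
  have hA0' : (0 : ℝ) < A' := by exact_mod_cast hA'
  have hB0' : (0 : ℝ) < B' := by exact_mod_cast hB'
  have hexp : ∀ p : ℝ, Real.exp (p + α * Real.log T) = T ^ α * Real.exp p := by
    intro p
    rw [Real.exp_add, Real.rpow_def_of_pos hT0, mul_comm α, mul_comm]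
  have hwt : ∀ (a b : ℕ), (0 : ℝ) < a → (0 : ℝ) < b → ∀ p : ℝ,
      wt ρ T a b (Real.exp (p + α * Real.log T)) =
        ρ (Real.exp (p + Real.log (2 * π * T ^ α * b / (a * T)))) := by
    intro a b ha hb p
    unfold wt
    congr 1
    rw [hexp, Real.exp_add, Real.exp_log (by positivity)]
    ring
  have key : ∫ v : ℝ, ((Real.exp v * η (v - α * Real.log T) ^ 2 * (wt ρ T A B (Real.exp v) *
        wt ρ T A' B' (Real.exp v)) : ℝ) : ℂ) * ex (Real.exp v * ξ) =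
      ((T ^ α : ℝ) : ℂ) * ∫ p : ℝ, (offG η ρ (p, (Real.log (2 * π * T ^ α * B / (A * T)),
        Real.log (2 * π * T ^ α * B' / (A' * T)))) : ℂ) *
        Complex.exp (I * (((2 * π * ξ * T ^ α) * Real.exp p : ℝ) : ℂ)) := by
    rw [← integral_const_mul, ← integral_add_right_eq_self _ (α * Real.log T)]
    refine integral_congr_ae (Filter.Eventually.of_forall fun p => ?_)
    show ((Real.exp (p + α * Real.log T) * η (p + α * Real.log T - α * Real.log T) ^ 2 *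
        (wt ρ T A B (Real.exp (p + α * Real.log T)) *
        wt ρ T A' B' (Real.exp (p + α * Real.log T))) : ℝ) : ℂ) *
        ex (Real.exp (p + α * Real.log T) * ξ) =
      ((T ^ α : ℝ) : ℂ) * ((offG η ρ (p, (Real.log (2 * π * T ^ α * B / (A * T)),
        Real.log (2 * π * T ^ α * B' / (A' * T)))) : ℂ) *
        Complex.exp (I * (((2 * π * ξ * T ^ α) * Real.exp p : ℝ) : ℂ)))
    rw [hwt A B hA0 hB0, hwt A' B' hA0' hB0', add_sub_cancel_right, hexp]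
    unfold ex offG
    rw [← mul_assoc ((T ^ α : ℝ) : ℂ), ← Complex.ofReal_mul]
    congr 1
    · congr 1
      ring
    · congr 1
      push_cast
      ring
  rw [key, norm_mul, Complex.norm_real, Real.norm_of_nonneg hTα.le]
  have hl : 2 * π * ξ * T ^ α ≠ 0 := by positivity
  have h1 := hosc (Real.log (2 * π * T ^ α * B / (A * T)),
        Real.log (2 * π * T ^ α * B' / (A' * T))) (2 * π * ξ * T ^ α) hl
  have h2 : (T ^ α * |ξ|) ^ k ≤ |2 * π * ξ * T ^ α| ^ k := by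
    apply pow_le_pow_left₀ (by positivity)
    rw [abs_mul, abs_mul, abs_of_pos hTα, abs_of_pos (by positivity : (0 : ℝ) < 2 * π)]
    have h3 : 1 ≤ 2 * π := by linarith [Real.pi_gt_three]
    have h4 : 0 ≤ |ξ| * T ^ α := by positivity
    nlinarith
  have h3 : 0 < (T ^ α * |ξ|) ^ k := by positivity
  calc T ^ α * _ ≤ T ^ α * (C / |2 * π * ξ * T ^ α| ^ k) :=
        mul_le_mul_of_nonneg_left h1 hTα.le
    _ ≤ T ^ α * (C / (T ^ α * |ξ|) ^ k) :=
        mul_le_mul_of_nonneg_left (div_le_div_of_nonneg_left hC.le h3 h2) hTα.le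
    _ = _ := by ring

end Pool.Agent.MP_67227b_nt.Gg
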