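import Mathlib
import Pool.Agent.MP_67227b_nt.Gg.GgOff

set_option autoImplicit false

open Filter Topology Set MeasureTheory Complex
open scoped Real ContDiff ArithmeticFunction ArithmeticFunction.Moebius

namespace Pool.Agent.MP_67227b_nt.Gg

private theorem en_ex_conj (x y : ℝ) : ex x * (starRingEnd ℂ) (ex y) = ex (x - y) := by
  unfold ex
  rw [← Complex.exp_conj, ← Complex.exp_add]
  congr 1
  simp only [map_mul, Complex.conj_ofReal, Complex.conj_I, map_ofNat]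
  push_cast
  ring

/-- Module EN (a). The square of the model as a double sum over pairs of fractions. Write
`|EE|² = EE · conj EE`, `ex x · conj (ex y) = ex (x - y)`. -/
theorem norm_fV_sq (η ρ : ℝ → ℝ) (c α T v : ℝ) :
    ((‖fV η ρ c α T v‖ ^ 2 : ℝ) : ℂ) =
      ∑ A ∈ As c α T, ∑ B ∈ Bs T A, ∑ A' ∈ As c α T, ∑ B' ∈ Bs T A',
        (((μ A : ℝ) / (Nat.totient A : ℝ) * ((μ A' : ℝ) / (Nat.totient A' : ℝ)) : ℝ) : ℂ) *
          (((Real.exp v * η (v - α * Real.log T) ^ 2 * (wt ρ T A B (Real.exp v) *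
            wt ρ T A' B' (Real.exp v)) : ℝ) : ℂ) *
              ex (Real.exp v * ((B : ℝ) / A - (B' : ℝ) / A'))) := by
  have h1 : ((‖fV η ρ c α T v‖ ^ 2 : ℝ) : ℂ) =
      fV η ρ c α T v * (starRingEnd ℂ) (fV η ρ c α T v) := by
    rw [Complex.mul_conj, Complex.normSq_eq_norm_sq]
  have hexp : Real.exp v = Real.exp (v / 2) * Real.exp (v / 2) := by
    rw [← Real.exp_add]
    congr 1
    ring
  rw [h1]
  unfold fV EE
  rw [map_mul, Complex.conj_ofReal, map_sum, mul_mul_mul_comm, Finset.sum_mul, Finset.mul_sum]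
  refine Finset.sum_congr rfl fun A _ => ?_
  rw [Finset.sum_mul, Finset.mul_sum]
  refine Finset.sum_congr rfl fun B _ => ?_
  rw [Finset.mul_sum, Finset.mul_sum]
  refine Finset.sum_congr rfl fun A' _ => ?_
  rw [map_sum, Finset.mul_sum, Finset.mul_sum]
  refine Finset.sum_congr rfl fun B' _ => ?_
  rw [map_mul, Complex.conj_ofReal]
  have h2 : ex (Real.exp v * ((B : ℝ) / A - (B' : ℝ) / A')) =
      ex (Real.exp v * B / A) * (starRingEnd ℂ) (ex (Real.exp v * B' / A')) := by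
    rw [en_ex_conj]
    congr 1
    ring
  have h3 : ((Real.exp v * η (v - α * Real.log T) ^ 2 * (wt ρ T A B (Real.exp v) *
      wt ρ T A' B' (Real.exp v)) : ℝ) : ℂ) =
      ((Real.exp (v / 2) * η (v - α * Real.log T) : ℝ) : ℂ) *
      ((Real.exp (v / 2) * η (v - α * Real.log T) : ℝ) : ℂ) *
      ((wt ρ T A B (Real.exp v) : ℝ) : ℂ) * ((wt ρ T A' B' (Real.exp v) : ℝ) : ℂ) := by
    rw [← Complex.ofReal_mul, ← Complex.ofReal_mul, ← Complex.ofReal_mul]
    congr 1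
    have h4 : ∀ e h a b s : ℝ, e = s * s → e * h ^ 2 * (a * b) = s * h * (s * h) * a * b := by
      intro e h a b s hs
      rw [hs]
      ring
    exact h4 _ _ _ _ _ hexp
  rw [h2, h3]
  push_cast
  ring

/-- Module EN (b). Distinct reduced fractions: if `(A, B) ≠ (A', B')`, both reduced with
`0 < A, A' ≤ K`, then `1 / K ^ 2 ≤ |B/A - B'/A'|`. -/
theorem frac_gap {A B A' B' : ℕ} {K : ℝ} (hA : 0 < A) (hA' : 0 < A') (hAK : (A : ℝ) ≤ K)
    (hAK' : (A' : ℝ) ≤ K) (hB : B.Coprime A) (hB' : B'.Coprime A')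
    (hne : ¬ (A = A' ∧ B = B')) :
    1 / K ^ 2 ≤ |(B : ℝ) / A - (B' : ℝ) / A'| := by
  have hA0 : (0 : ℝ) < A := by exact_mod_cast hA
  have hA0' : (0 : ℝ) < A' := by exact_mod_cast hA'
  have hneq : (B : ℤ) * A' - B' * A ≠ 0 := by
    intro h
    have h1 : B * A' = B' * A := by
      have h2 : (B : ℤ) * A' = B' * A := by linarith
      exact_mod_cast h2
    apply hne
    have h2 : A ∣ A' := hB.symm.dvd_of_dvd_mul_left (Dvd.intro_left B' h1.symm)
    have h3 : A' ∣ A := hB'.symm.dvd_of_dvd_mul_left (Dvd.intro_left B h1)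
    have h4 : A = A' := Nat.dvd_antisymm h2 h3
    refine ⟨h4, ?_⟩
    rw [h4] at h1
    exact Nat.eq_of_mul_eq_mul_right hA' h1
  have h1 : (B : ℝ) / A - (B' : ℝ) / A' = (((B : ℤ) * A' - B' * A : ℤ) : ℝ) / (A * A') := by
    push_cast
    field_simp
  have h2 : (1 : ℝ) ≤ |(((B : ℤ) * A' - B' * A : ℤ) : ℝ)| := by
    rw [← Int.cast_abs]
    exact_mod_cast Int.one_le_abs hneq
  rw [h1, abs_div, abs_of_pos (mul_pos hA0 hA0')]
  have h3 : (A : ℝ) * A' ≤ K ^ 2 := by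
    rw [pow_two]
    exact mul_le_mul hAK hAK' hA0'.le (hA0.le.trans hAK)
  calc 1 / K ^ 2 ≤ 1 / ((A : ℝ) * A') := one_div_le_one_div_of_le (mul_pos hA0 hA0') h3
    _ ≤ _ := div_le_div_of_nonneg_right h2 (mul_pos hA0 hA0').le

private theorem en_int {X κ : ℝ} {η ρ : ℝ → ℝ} (hη : Eta X η) (hρ : Rho κ ρ) (α T : ℝ)
    (A B A' B' : ℕ) (ξ : ℝ) : Integrable (fun v : ℝ =>
      ((Real.exp v * η (v - α * Real.log T) ^ 2 * (wt ρ T A B (Real.exp v) *
        wt ρ T A' B' (Real.exp v)) : ℝ) : ℂ) * ex (Real.exp v * ξ)) := by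
  have hηc := hη.smooth.continuous
  have hρc := hρ.smooth.continuous
  apply Continuous.integrable_of_hasCompactSupport
  · unfold wt ex
    fun_prop
  · apply HasCompactSupport.intro (K := Icc (-(|X|) + α * Real.log T) (|X| + α * Real.log T))
      isCompact_Icc
    intro v hv
    have h1 : η (v - α * Real.log T) = 0 := by
      apply hη.supp
      by_contra hcon
      push Not at hcon
      apply hv
      have h2 := hcon.trans (le_abs_self X)
      rw [abs_le] at h2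
      exact ⟨by linarith [h2.1], by linarith [h2.2]⟩
    rw [h1]
    simp

/-- Module EN (c). The energy of the model.

PROOF. Integrate `norm_fV_sq` over `v` (each term is continuous with compact support in `v`, so
integrable). The diagonal terms `A = A'`, `B = B'` give exactly `JJ 2`. For an off-diagonal term
`ξ = B/A - B'/A'` satisfies `|ξ| ≥ T^(-1+2c)` (`frac_gap`, `K = T^(1/2-c)`), so `T^α |ξ| ≥ T^(2c)`
(`α ≥ 1`), and by `off_int` with `k ≥ 5/c` the integral is at most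
`C T^(3/2) T^(-2ck) ≤ C T^(3/2) T^(-10)`; the coefficients are at most `1` in absolute value
(`|μ| ≤ 1`, `φ ≥ 1`), the number of terms is at most `(T^(1/2) · T)^2 = T^3`. Total
`≤ C T^(9/2 - 10) ≤ 1` for large `T`. -/
theorem energy_fV {X κ c : ℝ} (hκ : 0 < κ) (hc : 0 < c) {η ρ : ℝ → ℝ} (hη : Eta X η)
    (hρ : Rho κ ρ) : ∀ᶠ T : ℝ in atTop, ∀ α ∈ Icc (1 : ℝ) (3 / 2),
      ∫ v : ℝ, ‖fV η ρ c α T v‖ ^ 2 ≤ JJ 2 η ρ c α T + 1 := by
  classical
  obtain ⟨C, hC, hoff⟩ := off_int hκ hη hρ ⌈5 / c⌉₊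
  filter_upwards [eventually_ge_atTop (max C 2)] with T hT α hα
  have hTC : C ≤ T := (le_max_left _ _).trans hT
  have hT2 : 2 ≤ T := (le_max_right _ _).trans hT
  have hT1 : 1 < T := by linarith
  have hT0 : 0 < T := by linarith
  set S : Finset ((_ : ℕ) × ℕ) := (As c α T).sigma (Bs T) with hS
  set co : (_ : ℕ) × ℕ → ℝ := fun x => (μ x.1 : ℝ) / (Nat.totient x.1 : ℝ) with hco
  set I : (_ : ℕ) × ℕ → (_ : ℕ) × ℕ → ℂ := fun x y => ∫ v : ℝ,
    ((Real.exp v * η (v - α * Real.log T) ^ 2 * (wt ρ T x.1 x.2 (Real.exp v) *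
        wt ρ T y.1 y.2 (Real.exp v)) : ℝ) : ℂ) *
          ex (Real.exp v * ((x.2 : ℝ) / x.1 - (y.2 : ℝ) / y.1)) with hI
  -- the integral as a double sum
  have h1 : ((∫ v : ℝ, ‖fV η ρ c α T v‖ ^ 2 : ℝ) : ℂ) =
      ∑ x ∈ S, ∑ y ∈ S, ((co x * co y : ℝ) : ℂ) * I x y := by
    rw [← integral_complex_ofReal]
    have h2 : ∀ v : ℝ, ((‖fV η ρ c α T v‖ ^ 2 : ℝ) : ℂ) = ∑ x ∈ S, ∑ y ∈ S,
        ((co x * co y : ℝ) : ℂ) *
        (((Real.exp v * η (v - α * Real.log T) ^ 2 * (wt ρ T x.1 x.2 (Real.exp v) *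
        wt ρ T y.1 y.2 (Real.exp v)) : ℝ) : ℂ) *
          ex (Real.exp v * ((x.2 : ℝ) / x.1 - (y.2 : ℝ) / y.1))) := by
      intro v
      rw [norm_fV_sq, hS, Finset.sum_sigma]
      refine Finset.sum_congr rfl fun A _ => Finset.sum_congr rfl fun B _ => ?_
      rw [Finset.sum_sigma]
    have h3 : (fun v : ℝ => ((‖fV η ρ c α T v‖ ^ 2 : ℝ) : ℂ)) = fun v => ∑ x ∈ S, ∑ y ∈ S,
        ((co x * co y : ℝ) : ℂ) *
        (((Real.exp v * η (v - α * Real.log T) ^ 2 * (wt ρ T x.1 x.2 (Real.exp v) *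
        wt ρ T y.1 y.2 (Real.exp v)) : ℝ) : ℂ) *
          ex (Real.exp v * ((x.2 : ℝ) / x.1 - (y.2 : ℝ) / y.1))) := funext h2
    rw [h3, integral_finsetSum]
    · refine Finset.sum_congr rfl fun x _ => ?_
      rw [integral_finsetSum]
      · refine Finset.sum_congr rfl fun y _ => ?_
        rw [integral_const_mul]
      · intro y _
        exact (en_int hη hρ α T _ _ _ _ _).const_mul _
    · intro x _
      refine integrable_finsetSum _ fun y _ => ?_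
      exact (en_int hη hρ α T _ _ _ _ _).const_mul _
  -- the diagonal
  have hdiag : ∑ x ∈ S, ((co x * co x : ℝ) : ℂ) * I x x = ((JJ 2 η ρ c α T : ℝ) : ℂ) := by
    have h2 : JJ 2 η ρ c α T = ∑ x ∈ S, (μ x.1 : ℝ) ^ 2 / (Nat.totient x.1 : ℝ) ^ 2 *
        ∫ v : ℝ, Real.exp v * η (v - α * Real.log T) ^ 2 * wt ρ T x.1 x.2 (Real.exp v) ^ 2 := by
      rw [JJ, hS, Finset.sum_sigma]
    rw [h2, Complex.ofReal_sum]
    refine Finset.sum_congr rfl fun x _ => ?_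
    rw [Complex.ofReal_mul ((μ x.1 : ℝ) ^ 2 / (Nat.totient x.1 : ℝ) ^ 2),
      ← integral_complex_ofReal]
    congr 1
    · congr 1
      rw [hco]
      ring
    · rw [hI]
      refine integral_congr_ae (Filter.Eventually.of_forall fun v => ?_)
      show ((Real.exp v * η (v - α * Real.log T) ^ 2 * (wt ρ T x.1 x.2 (Real.exp v) *
        wt ρ T x.1 x.2 (Real.exp v)) : ℝ) : ℂ) *
          ex (Real.exp v * ((x.2 : ℝ) / x.1 - (x.2 : ℝ) / x.1)) =
        ((Real.exp v * η (v - α * Real.log T) ^ 2 * wt ρ T x.1 x.2 (Real.exp v) ^ 2 : ℝ) : ℂ)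
      rw [sub_self, mul_zero]
      have h4 : ex 0 = 1 := by
        unfold ex
        simp
      rw [h4, mul_one, pow_two (wt ρ T x.1 x.2 (Real.exp v))]
  -- the rest
  have hsplit : ∑ x ∈ S, ∑ y ∈ S, ((co x * co y : ℝ) : ℂ) * I x y =
      ∑ x ∈ S, ((co x * co x : ℝ) : ℂ) * I x x +
      ∑ x ∈ S, ∑ y ∈ S.erase x, ((co x * co y : ℝ) : ℂ) * I x y := by
    rw [← Finset.sum_add_distrib]
    refine Finset.sum_congr rfl fun x hx => ?_
    rw [Finset.add_sum_erase S (fun y => ((co x * co y : ℝ) : ℂ) * I x y) hx]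
  have hmem : ∀ x ∈ S, 0 < x.1 ∧ (x.1 : ℝ) ≤ T ^ (1 / 2 - c) ∧ 0 < x.2 ∧ x.2.Coprime x.1 := by
    intro x hx
    rw [hS, Finset.mem_sigma] at hx
    obtain ⟨h2, h3⟩ := hx
    unfold As at h2
    unfold Bs at h3
    rw [Finset.mem_Ioc] at h2
    rw [Finset.mem_filter, Finset.mem_Icc] at h3
    refine ⟨by omega, ?_, h3.1.1, h3.2⟩
    exact (Nat.le_floor_iff (Real.rpow_nonneg hT0.le _)).1 h2.2
  have hco1 : ∀ x, |co x| ≤ 1 := by
    intro x
    rw [hco]
    show |(μ x.1 : ℝ) / (Nat.totient x.1 : ℝ)| ≤ 1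
    rw [abs_div]
    have h2 : |(μ x.1 : ℝ)| ≤ 1 := by
      have := ArithmeticFunction.abs_moebius_le_one (n := x.1)
      exact_mod_cast this
    by_cases h3 : Nat.totient x.1 = 0
    · rw [h3]
      simp
    · have h4 : (1 : ℝ) ≤ |(Nat.totient x.1 : ℝ)| := by
        rw [abs_of_nonneg (Nat.cast_nonneg _)]
        exact_mod_cast Nat.one_le_iff_ne_zero.2 h3
      rw [div_le_one (by linarith)]
      linarith
  have hterm : ∀ x ∈ S, ∀ y ∈ S.erase x, ‖((co x * co y : ℝ) : ℂ) * I x y‖ ≤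
      T ^ (5 / 2 : ℝ) / T ^ (10 : ℝ) := by
    intro x hx y hy
    obtain ⟨hyx, hy⟩ := Finset.mem_erase.1 hy
    obtain ⟨a1, a2, a3, a4⟩ := hmem x hx
    obtain ⟨b1, b2, b3, b4⟩ := hmem y hy
    have hne : ¬ (x.1 = y.1 ∧ x.2 = y.2) := by
      rintro ⟨h5, h6⟩
      apply hyx
      rcases x with ⟨x1, x2⟩
      rcases y with ⟨y1, y2⟩
      simp only at h5 h6
      rw [h5, h6]
    have hgap := frac_gap a1 b1 a2 b2 a4 b4 hne
    have hK : 1 / (T ^ (1 / 2 - c)) ^ 2 = T ^ (-1 + 2 * c) := by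
      rw [← Real.rpow_natCast, ← Real.rpow_mul hT0.le, one_div, ← Real.rpow_neg hT0.le]
      congr 1
      push_cast
      ring
    rw [hK] at hgap
    have hgap0 : 0 < T ^ (-1 + 2 * c) := Real.rpow_pos_of_pos hT0 _
    have hξ : (x.2 : ℝ) / x.1 - (y.2 : ℝ) / y.1 ≠ 0 := by
      intro h5
      rw [h5, abs_zero] at hgap
      linarith
    have h5 := hoff α T hT1 x.1 x.2 y.1 y.2 a1 a3 b1 b3 _ hξ
    have h6 : T ^ (2 * c) ≤ T ^ α * |(x.2 : ℝ) / x.1 - (y.2 : ℝ) / y.1| := by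
      have h7 : T ^ α * T ^ (-1 + 2 * c) ≤ T ^ α * |(x.2 : ℝ) / x.1 - (y.2 : ℝ) / y.1| :=
        mul_le_mul_of_nonneg_left hgap (Real.rpow_nonneg hT0.le _)
      refine le_trans ?_ h7
      rw [← Real.rpow_add hT0]
      exact Real.rpow_le_rpow_of_exponent_le hT1.le (by linarith [hα.1])
    have h7 : T ^ (10 : ℝ) ≤ (T ^ α * |(x.2 : ℝ) / x.1 - (y.2 : ℝ) / y.1|) ^ ⌈5 / c⌉₊ := by
      have h8 : (T ^ (2 * c)) ^ ⌈5 / c⌉₊ ≤
          (T ^ α * |(x.2 : ℝ) / x.1 - (y.2 : ℝ) / y.1|) ^ ⌈5 / c⌉₊ :=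
        pow_le_pow_left₀ (Real.rpow_nonneg hT0.le _) h6 _
      refine le_trans ?_ h8
      rw [← Real.rpow_natCast, ← Real.rpow_mul hT0.le]
      apply Real.rpow_le_rpow_of_exponent_le hT1.le
      have h9 : 5 / c ≤ (⌈5 / c⌉₊ : ℝ) := Nat.le_ceil _
      rw [div_le_iff₀ hc] at h9
      linarith
    have h8 : ‖I x y‖ ≤ C * T ^ α / T ^ (10 : ℝ) := by
      refine h5.trans ?_
      exact div_le_div_of_nonneg_left (by positivity) (Real.rpow_pos_of_pos hT0 _) h7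
    have h9 : C * T ^ α ≤ T ^ (5 / 2 : ℝ) := by
      have h10 : T ^ α ≤ T ^ (3 / 2 : ℝ) := Real.rpow_le_rpow_of_exponent_le hT1.le hα.2
      have h11 : T ^ (5 / 2 : ℝ) = T * T ^ (3 / 2 : ℝ) := by
        nth_rewrite 2 [← Real.rpow_one T]
        rw [← Real.rpow_add hT0]
        norm_num
      rw [h11]
      exact mul_le_mul hTC h10 (Real.rpow_nonneg hT0.le _) hT0.le
    rw [norm_mul, Complex.norm_real, Real.norm_eq_abs, abs_mul]
    calc |co x| * |co y| * ‖I x y‖ ≤ 1 * 1 * ‖I x y‖ := by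
          have := hco1 x
          have := hco1 y
          gcongr
      _ = ‖I x y‖ := by ring
      _ ≤ C * T ^ α / T ^ (10 : ℝ) := h8
      _ ≤ T ^ (5 / 2 : ℝ) / T ^ (10 : ℝ) :=
          div_le_div_of_nonneg_right h9 (Real.rpow_nonneg hT0.le _)
  have hcard : (S.card : ℝ) ≤ T ^ (3 / 2 : ℝ) := by
    rw [hS, Finset.card_sigma, Nat.cast_sum]
    have h2 : ∀ A ∈ As c α T, ((Bs T A).card : ℝ) ≤ T := by
      intro A _
      unfold Bs
      have h3 : (((Finset.Icc 1 ⌊T⌋₊).filter fun B => B.Coprime A).card : ℝ) ≤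
          ((Finset.Icc 1 ⌊T⌋₊).card : ℝ) := by exact_mod_cast Finset.card_filter_le _ _
      refine h3.trans ?_
      rw [Nat.card_Icc, Nat.add_sub_cancel]
      exact Nat.floor_le hT0.le
    refine (Finset.sum_le_sum h2).trans ?_
    rw [Finset.sum_const, nsmul_eq_mul]
    have h3 : ((As c α T).card : ℝ) ≤ T ^ (1 / 2 : ℝ) := by
      unfold As
      rw [Nat.card_Ioc]
      have h4 : ((⌊T ^ (1 / 2 - c)⌋₊ - ⌊T ^ (α - 1 + c)⌋₊ : ℕ) : ℝ) ≤
          (⌊T ^ (1 / 2 - c)⌋₊ : ℝ) := by exact_mod_cast Nat.sub_le _ _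
      refine h4.trans ((Nat.floor_le (Real.rpow_nonneg hT0.le _)).trans ?_)
      exact Real.rpow_le_rpow_of_exponent_le hT1.le (by linarith)
    have h5 : T ^ (3 / 2 : ℝ) = T ^ (1 / 2 : ℝ) * T := by
      nth_rewrite 3 [← Real.rpow_one T]
      rw [← Real.rpow_add hT0]
      norm_num
    rw [h5]
    exact mul_le_mul_of_nonneg_right h3 hT0.le
  have hrest : ‖∑ x ∈ S, ∑ y ∈ S.erase x, ((co x * co y : ℝ) : ℂ) * I x y‖ ≤ 1 := by
    have hnn : 0 ≤ T ^ (5 / 2 : ℝ) / T ^ (10 : ℝ) := by positivity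
    have h2 : ‖∑ x ∈ S, ∑ y ∈ S.erase x, ((co x * co y : ℝ) : ℂ) * I x y‖ ≤
        ∑ x ∈ S, (S.card : ℝ) * (T ^ (5 / 2 : ℝ) / T ^ (10 : ℝ)) := by
      refine norm_sum_le_of_le _ fun x hx => ?_
      refine (norm_sum_le_of_le _ (hterm x hx)).trans ?_
      rw [Finset.sum_const, nsmul_eq_mul]
      refine mul_le_mul_of_nonneg_right ?_ hnn
      exact_mod_cast Finset.card_le_card (Finset.erase_subset x S)
    refine h2.trans ?_
    rw [Finset.sum_const, nsmul_eq_mul]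
    have h3 : (S.card : ℝ) * ((S.card : ℝ) * (T ^ (5 / 2 : ℝ) / T ^ (10 : ℝ))) ≤
        T ^ (3 / 2 : ℝ) * (T ^ (3 / 2 : ℝ) * (T ^ (5 / 2 : ℝ) / T ^ (10 : ℝ))) := by
      gcongr
    refine h3.trans ?_
    rw [div_eq_mul_inv (T ^ (5 / 2 : ℝ)), ← Real.rpow_neg hT0.le, ← Real.rpow_add hT0, ← Real.rpow_add hT0,
      ← Real.rpow_add hT0]
    exact Real.rpow_le_one_of_one_le_of_nonpos hT1.le (by norm_num)
  rw [hsplit, hdiag] at h1
  have h2 := congrArg Complex.re h1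
  rw [Complex.add_re, Complex.ofReal_re, Complex.ofReal_re] at h2
  have h3 := (Complex.re_le_norm (∑ x ∈ S, ∑ y ∈ S.erase x, ((co x * co y : ℝ) : ℂ) * I x y)).trans
    hrest
  linarith

end Pool.Agent.MP_67227b_nt.Gg
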