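import Mathlib
import Pool.Agent.MP_67227b_nt.Gg.GgErrDefs

set_option autoImplicit false

open Filter Topology Set MeasureTheory Complex
open scoped Real ContDiff ArithmeticFunction ArithmeticFunction.Moebius
open scoped Classical

namespace Pool.Agent.MP_67227b_nt.Gg

open Pool.Agent.BV (tau csum)
open Pool.Agent.LS (prim)

section Tau

open Finset

private theorem eps_prime (ε : ℝ) (hε : 0 < ε) (p a : ℕ) (hp : 2 ≤ p) :
    ((a + 1 : ℕ) : ℝ) ≤ (if p < ⌈(2 : ℝ) ^ (1 / ε)⌉₊ then 1 + 1 / (ε * Real.log 2) else 1) *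
      ((p : ℝ) ^ a) ^ ε := by
  have hp0 : (0 : ℝ) < p := by positivity
  have hp2 : (2 : ℝ) ≤ p := by exact_mod_cast hp
  have hl2 : 0 < Real.log 2 := Real.log_pos (by norm_num)
  have hpow : ((p : ℝ) ^ a) ^ ε = ((p : ℝ) ^ ε) ^ a := by
    rw [← Real.rpow_natCast, ← Real.rpow_natCast, ← Real.rpow_mul hp0.le,
      ← Real.rpow_mul hp0.le, mul_comm]
  split_ifs with h
  · have h1 : (2 : ℝ) ^ (ε * a) ≤ ((p : ℝ) ^ a) ^ ε := by
      rw [← Real.rpow_natCast, ← Real.rpow_mul hp0.le, mul_comm ε]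
      exact Real.rpow_le_rpow (by norm_num) hp2 (by positivity)
    have h2 : 1 + ε * Real.log 2 * a ≤ (2 : ℝ) ^ (ε * a) := by
      rw [Real.rpow_def_of_pos (by norm_num)]
      have := Real.add_one_le_exp (Real.log 2 * (ε * a))
      linarith
    have h3 : (0 : ℝ) < ε * Real.log 2 := by positivity
    have h4 : (a + 1 : ℝ) ≤ (1 + 1 / (ε * Real.log 2)) * (1 + ε * Real.log 2 * a) := by
      have h5 : (1 + 1 / (ε * Real.log 2)) * (1 + ε * Real.log 2 * a) =
          1 + ε * Real.log 2 * a + 1 / (ε * Real.log 2) + a := by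
        field_simp
        ring
      rw [h5]
      have h6 : 0 ≤ ε * Real.log 2 * a := by positivity
      have h7 : 0 ≤ 1 / (ε * Real.log 2) := by positivity
      linarith
    push_cast
    refine h4.trans ?_
    exact mul_le_mul_of_nonneg_left (h2.trans h1) (by positivity)
  · push Not at h
    rw [one_mul, hpow]
    have h1 : (2 : ℝ) ^ (1 / ε) ≤ p := (Nat.le_ceil _).trans (by exact_mod_cast h)
    have h2 : (2 : ℝ) ≤ (p : ℝ) ^ ε := by
      calc (2 : ℝ) = ((2 : ℝ) ^ (1 / ε)) ^ ε := by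
            rw [← Real.rpow_mul (by norm_num), one_div, inv_mul_cancel₀ hε.ne', Real.rpow_one]
        _ ≤ (p : ℝ) ^ ε := Real.rpow_le_rpow (by positivity) h1 hε.le
    have h3 : ((a + 1 : ℕ) : ℝ) ≤ 2 ^ a := by
      exact_mod_cast Nat.lt_two_pow_self (n := a)
    exact h3.trans (pow_le_pow_left₀ (by norm_num) h2 a)

private theorem eps_tau (ε : ℝ) (hε : 0 < ε) :
    ∃ C : ℝ, 1 ≤ C ∧ ∀ n : ℕ, 1 ≤ n → (n.divisors.card : ℝ) ≤ C * (n : ℝ) ^ ε := by
  classical
  set K : ℕ := ⌈(2 : ℝ) ^ (1 / ε)⌉₊ with hK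
  have hl2 : 0 < Real.log 2 := Real.log_pos (by norm_num)
  set E : ℝ := 1 + 1 / (ε * Real.log 2) with hE
  have hE1 : 1 ≤ E := by
    have : 0 ≤ 1 / (ε * Real.log 2) := by positivity
    linarith
  refine ⟨E ^ K, one_le_pow₀ hE1, fun n hn => ?_⟩
  have hn0 : n ≠ 0 := by omega
  have h1 : (n.divisors.card : ℝ) = ∏ p ∈ n.primeFactors, ((n.factorization p + 1 : ℕ) : ℝ) := by
    rw [Nat.card_divisors hn0]
    push_cast
    rfl
  have h2 : (n : ℝ) ^ ε = ∏ p ∈ n.primeFactors, ((p : ℝ) ^ (n.factorization p)) ^ ε := by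
    rw [Real.finsetProd_rpow _ _ (fun p _ => by positivity)]
    congr 1
    have h3 := Nat.prod_factorization_pow_eq_self hn0
    conv_lhs => rw [← h3]
    rw [Finsupp.prod, Nat.support_factorization]
    push_cast
    rfl
  have h4 : ∏ p ∈ n.primeFactors, (if p < K then E else 1) ≤ E ^ K := by
    rw [Finset.prod_ite, Finset.prod_const, Finset.prod_const_one, mul_one]
    refine pow_le_pow_right₀ hE1 ?_
    calc (n.primeFactors.filter fun p => p < K).card ≤ (Finset.range K).card :=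
          Finset.card_le_card fun p hp => Finset.mem_range.2 (Finset.mem_filter.1 hp).2
      _ = K := Finset.card_range K
  rw [h1, h2]
  calc ∏ p ∈ n.primeFactors, ((n.factorization p + 1 : ℕ) : ℝ)
      ≤ ∏ p ∈ n.primeFactors, ((if p < K then E else 1) *
          ((p : ℝ) ^ (n.factorization p)) ^ ε) :=
        Finset.prod_le_prod (fun p _ => by positivity) fun p hp =>
          eps_prime ε hε p _ (Nat.prime_of_mem_primeFactors hp).two_le
    _ = (∏ p ∈ n.primeFactors, (if p < K then E else 1)) *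
          ∏ p ∈ n.primeFactors, ((p : ℝ) ^ (n.factorization p)) ^ ε := Finset.prod_mul_distrib
    _ ≤ E ^ K * ∏ p ∈ n.primeFactors, ((p : ℝ) ^ (n.factorization p)) ^ ε :=
        mul_le_mul_of_nonneg_right h4 (Finset.prod_nonneg fun p _ => by positivity)

end Tau

/-- The divisor bound. PROOF. `tau n ≤ C n^ε`: see `tau_le_small` in `BV/TauB.lean` (and
`TauB_decomp`), or the product over primes: `tau n / n^ε = ∏ (v+1)/p^{εv}`, where the factor is at
most `1` if `p^ε ≥ 2` (then `(v+1) ≤ 2^v ≤ p^{εv}`) and at most `1 + 1/(ε log 2)` otherwise; there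
are at most `2^{1/ε}` primes of the second kind. -/
theorem tau_eps {ε : ℝ} (hε : 0 < ε) : ∃ C : ℝ, 1 ≤ C ∧ ∀ n : ℕ, 1 ≤ n → tau n ≤ C * (n : ℝ) ^ ε :=
  eps_tau ε hε

/-- All `T^{o(1)}` together: `tau n ≤ D` for all `n ≤ T⁵` and `D⁹ (log T)⁶ ≤ T^ε`. PROOF.
`tau_eps` with `ε/100`: `D = C T^{5ε/100}`, and `(log T)⁶ C⁹ ≤ T^{ε/2}` for large `T`. -/
theorem all_eps {ε : ℝ} (hε : 0 < ε) : ∀ᶠ T : ℝ in atTop, ∃ D : ℝ, 1 ≤ D ∧
    (∀ n : ℕ, 1 ≤ n → (n : ℝ) ≤ T ^ (5 : ℝ) → tau n ≤ D) ∧ D ^ 9 * Real.log T ^ 6 ≤ T ^ ε := by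
  obtain ⟨C, hC, hτ⟩ := tau_eps (ε := ε / 100) (by positivity)
  have hC0 : 0 < C := by linarith
  have h1 : ∀ᶠ T : ℝ in atTop, ‖Real.log T ^ (6 : ℝ)‖ ≤ (C ^ 9)⁻¹ * ‖T ^ (ε / 2)‖ :=
    (isLittleO_log_rpow_rpow_atTop (6 : ℝ) (by positivity : 0 < ε / 2)).bound (by positivity)
  filter_upwards [h1, eventually_ge_atTop (1 : ℝ)] with T h2 hT
  have hT0 : 0 < T := by linarith
  refine ⟨C * T ^ (5 * ε / 100), ?_, ?_, ?_⟩
  · have h3 : 1 ≤ T ^ (5 * ε / 100) := Real.one_le_rpow hT (by positivity)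
    nlinarith
  · intro n hn hnT
    refine (hτ n hn).trans (mul_le_mul_of_nonneg_left ?_ hC0.le)
    calc (n : ℝ) ^ (ε / 100) ≤ (T ^ (5 : ℝ)) ^ (ε / 100) :=
          Real.rpow_le_rpow (by positivity) hnT (by positivity)
      _ = T ^ (5 * ε / 100) := by
          rw [← Real.rpow_mul hT0.le]
          congr 1
          ring
  · have hlog : 0 ≤ Real.log T := Real.log_nonneg hT
    rw [Real.norm_of_nonneg (by positivity), Real.norm_of_nonneg (by positivity)] at h2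
    have h3 : Real.log T ^ 6 ≤ (C ^ 9)⁻¹ * T ^ (ε / 2) := by
      have h4 : Real.log T ^ (6 : ℝ) = Real.log T ^ 6 := by
        rw [← Real.rpow_natCast]
        norm_num
      rw [← h4]
      exact h2
    have h5 : (C * T ^ (5 * ε / 100)) ^ 9 = C ^ 9 * T ^ (45 * ε / 100) := by
      rw [mul_pow, ← Real.rpow_natCast (T ^ (5 * ε / 100)) 9, ← Real.rpow_mul hT0.le]
      congr 2
      push_cast
      ring
    rw [h5]
    calc C ^ 9 * T ^ (45 * ε / 100) * Real.log T ^ 6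
        ≤ C ^ 9 * T ^ (45 * ε / 100) * ((C ^ 9)⁻¹ * T ^ (ε / 2)) :=
          mul_le_mul_of_nonneg_left h3 (by positivity)
      _ = T ^ (45 * ε / 100) * T ^ (ε / 2) := by field_simp
      _ = T ^ (45 * ε / 100 + ε / 2) := (Real.rpow_add hT0 _ _).symm
      _ ≤ T ^ ε := Real.rpow_le_rpow_of_exponent_le hT (by linarith)

end Pool.Agent.MP_67227b_nt.Gg
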