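import Mathlib
import Pool.Agent.MP_67227b_nt.Gg.GgErrDefs
import Pool.Agent.MP_67227b_nt.Gg.GgPvLib

set_option autoImplicit false

open Filter Topology Set MeasureTheory Complex
open scoped Real ContDiff ArithmeticFunction ArithmeticFunction.Moebius
open scoped Classical

namespace Pool.Agent.MP_67227b_nt.Gg

open Pool.Agent.BV (tau csum)
open Pool.Agent.LS (prim)

/-- **Pólya-Vinogradov.** -/
theorem pv {q : ℕ} (hq : 1 < q) (ψ : DirichletCharacter ℂ q) (hψ : ψ.IsPrimitive) (a b : ℕ) :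
    ‖∑ n ∈ Finset.Ioc a b, ψ (n : ZMod q)‖ ≤ Real.sqrt q * (1 + Real.log q) :=
  polya_vinogradov hq ψ hψ a b

end Pool.Agent.MP_67227b_nt.Gg
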