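import Mathlib
import Pool.Agent.BV.Defs
import Pool.Agent.MP_67227b_nt.Gg.GgPv

set_option autoImplicit false

open Filter Topology Set MeasureTheory Complex
open scoped Real ContDiff ArithmeticFunction ArithmeticFunction.Moebius
open scoped Classical

namespace Pool.Agent.MP_67227b_nt.Gg

open Pool.Agent.BV (tau csum)
open Pool.Agent.LS (prim)

/-- Pólya-Vinogradov with a coprimality condition. -/
theorem pv_cop {q : ℕ} (hq : 1 < q) (ψ : DirichletCharacter ℂ q) (hψ : ψ.IsPrimitive) (s : ℕ)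
    (hs : s ≠ 0) (b : ℕ) :
    ‖∑ n ∈ Finset.Icc 1 b, if n.Coprime s then ψ (n : ZMod q) else 0‖ ≤
      tau s * (Real.sqrt q * (1 + Real.log q)) := by
  have hlog : 0 ≤ Real.log q := Real.log_nonneg (by exact_mod_cast hq.le)
  have hD : 0 ≤ Real.sqrt q * (1 + Real.log q) := by positivity
  have e1 : ∑ n ∈ Finset.Icc 1 b, (if n.Coprime s then ψ (n : ZMod q) else 0) =
      ∑ n ∈ (Finset.Ioc 0 b).filter (fun n => n.Coprime s), ψ (n : ZMod q) := by
    rw [Finset.sum_filter]
    refine Finset.sum_congr ?_ fun _ _ => by congr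
    ext n
    simp only [Finset.mem_Icc, Finset.mem_Ioc]
    omega
  rw [e1, sum_coprime_eq (fun n => ψ (n : ZMod q)) s 0 b (Nat.pos_of_ne_zero hs)]
  refine (norm_sum_le _ _).trans ?_
  have h2 : ∀ d ∈ s.divisors, ‖(ArithmeticFunction.moebius d : ℂ) *
      ∑ m ∈ Finset.Ioc (0 / d) (b / d), ψ ((d * m : ℕ) : ZMod q)‖ ≤
        Real.sqrt q * (1 + Real.log q) := by
    intro d _
    have h3 : ∑ m ∈ Finset.Ioc (0 / d) (b / d), ψ ((d * m : ℕ) : ZMod q) =
        ψ (d : ZMod q) * ∑ m ∈ Finset.Ioc (0 / d) (b / d), ψ (m : ZMod q) := by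
      rw [Finset.mul_sum]
      refine Finset.sum_congr rfl fun m _ => ?_
      rw [Nat.cast_mul, map_mul]
    rw [h3, norm_mul, norm_mul]
    have h4 : ‖((ArithmeticFunction.moebius d : ℤ) : ℂ)‖ ≤ 1 := by
      rw [Complex.norm_intCast]
      have := ArithmeticFunction.abs_moebius_le_one (n := d)
      exact_mod_cast this
    have h5 : ‖ψ (d : ZMod q)‖ ≤ 1 := DirichletCharacter.norm_le_one ψ _
    have h6 := pv hq ψ hψ (0 / d) (b / d)
    calc _ ≤ 1 * (1 * (Real.sqrt q * (1 + Real.log q))) := by gcongr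
      _ = _ := by ring
  refine (Finset.sum_le_sum h2).trans ?_
  rw [Finset.sum_const, nsmul_eq_mul]
  rfl

end Pool.Agent.MP_67227b_nt.Gg
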