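import Mathlib
import Pool.Agent.MP_67227b_nt.Gg.GgErrDefs
import Pool.Agent.MP_67227b_nt.Gg.GgPvC

set_option autoImplicit false

open Filter Topology Set MeasureTheory Complex
open scoped Real ContDiff ArithmeticFunction ArithmeticFunction.Moebius
open scoped Classical

namespace Pool.Agent.MP_67227b_nt.Gg

open Pool.Agent.BV (tau csum)
open Pool.Agent.LS (prim)

/-- Pólya-Vinogradov with a weight of bounded variation. -/
theorem pv_tv {q : ℕ} (hq : 1 < q) (ψ : DirichletCharacter ℂ q) (hψ : ψ.IsPrimitive) (s : ℕ)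
    (hs : s ≠ 0) (W : ℕ → ℂ) (X : ℕ) :
    ‖csum W X ψ s‖ ≤ tv W X * (tau s * (Real.sqrt q * (1 + Real.log q))) := by
  have hlog : 0 ≤ Real.log q := Real.log_nonneg (by exact_mod_cast hq.le)
  set D := tau s * (Real.sqrt q * (1 + Real.log q)) with hDd
  have hD : 0 ≤ D := by
    have : 0 ≤ tau s := Nat.cast_nonneg _
    positivity
  set c : ℕ → ℂ := fun n => if n.Coprime s then ψ (n : ZMod q) else 0 with hc
  have hC : ∀ b : ℕ, ‖∑ n ∈ Finset.Icc 1 b, c n‖ ≤ D := fun b => pv_cop hq ψ hψ s hs b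
  have e1 : csum W X ψ s = ∑ n ∈ Finset.Ioc 0 (0 + X), W n * c n := by
    unfold csum
    refine Finset.sum_congr ?_ fun n _ => ?_
    · ext n
      simp only [Finset.mem_Icc, Finset.mem_Ioc]
      omega
    · simp only [hc, mul_ite, mul_zero]
  have e2 : ∀ b : ℕ, ∑ k ∈ Finset.Ioc 0 b, c k = ∑ k ∈ Finset.Icc 1 b, c k := by
    intro b
    refine Finset.sum_congr ?_ fun n _ => rfl
    ext n
    simp only [Finset.mem_Icc, Finset.mem_Ioc]
    omega
  rw [e1, abel_Ioc]
  rw [zero_add]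
  refine (norm_sub_le _ _).trans ?_
  unfold tv
  rw [add_mul, Finset.sum_mul]
  refine add_le_add ?_ ?_
  · rw [norm_mul, e2]
    exact mul_le_mul_of_nonneg_left (hC X) (norm_nonneg _)
  · refine (norm_sum_le _ _).trans ?_
    have h0 : ∑ n ∈ Finset.Ico 0 X, ‖(W (n + 1) - W n) * ∑ k ∈ Finset.Ioc 0 n, c k‖ =
        ∑ n ∈ Finset.Ico 1 X, ‖(W (n + 1) - W n) * ∑ k ∈ Finset.Ioc 0 n, c k‖ := by
      rcases Nat.eq_zero_or_pos X with h | h
      · subst h
        simp
      · rw [Finset.sum_eq_sum_Ico_succ_bot h]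
        simp
    rw [h0]
    refine Finset.sum_le_sum fun n _ => ?_
    rw [norm_mul, e2]
    exact mul_le_mul_of_nonneg_left (hC n) (norm_nonneg _)

end Pool.Agent.MP_67227b_nt.Gg
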