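import Mathlib
import Pool.Agent.MP_67227b_nt.Gg.GgPvT

set_option autoImplicit false

open Filter Topology Set MeasureTheory Complex
open scoped Real ContDiff ArithmeticFunction ArithmeticFunction.Moebius
open scoped Classical

namespace Pool.Agent.MP_67227b_nt.Gg

open Pool.Agent.BV (tau csum)
open Pool.Agent.LS (prim)

/-- The number of primitive characters. PROOF. There are `φ(q)` characters modulo `q`
(`DirichletCharacter.card_eq_totient_of_hasEnoughRootsOfUnity`, see `card_char_le` in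
`BV/Small.lean`). -/
theorem card_prim (q : ℕ) (hq : 1 ≤ q) : ((prim q).card : ℝ) ≤ (Nat.totient q : ℝ) := by
  have : NeZero q := ⟨by omega⟩
  have h1 : Fintype.card (DirichletCharacter ℂ q) = q.totient := by
    rw [← Nat.card_eq_fintype_card]
    exact DirichletCharacter.card_eq_totient_of_hasEnoughRootsOfUnity ℂ q
  have h2 := Finset.card_le_univ (prim q)
  rw [h1] at h2
  exact_mod_cast h2

/-- PROOF. Triangle inequality. -/
theorem csum_triv {q : ℕ} (f : ℕ → ℂ) (X : ℕ) (χ : DirichletCharacter ℂ q) (s : ℕ) {G : ℝ}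
    (h : ∀ n, ‖f n‖ ≤ G) : ‖csum f X χ s‖ ≤ G * X := by
  have hG : 0 ≤ G := (norm_nonneg _).trans (h 0)
  unfold Pool.Agent.BV.csum
  refine (norm_sum_le _ _).trans ?_
  calc ∑ n ∈ Finset.Icc 1 X, ‖(if n.Coprime s then f n * χ (n : ZMod q) else 0 : ℂ)‖
      ≤ ∑ n ∈ Finset.Icc 1 X, G := by
        refine Finset.sum_le_sum fun n _ => ?_
        split_ifs
        · rw [norm_mul]
          calc ‖f n‖ * ‖χ (n : ZMod q)‖ ≤ G * 1 :=
                mul_le_mul (h n) (DirichletCharacter.norm_le_one χ _) (norm_nonneg _) hG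
            _ = G := mul_one _
        · rw [norm_zero]
          exact hG
    _ = G * X := by
        rw [Finset.sum_const, Nat.card_Icc, nsmul_eq_mul, Nat.add_sub_cancel, mul_comm]

private theorem sml_P3 {a g b : ℕ → ℂ} {X₁ X₂ Y q e : ℕ} (hq : 1 ≤ q) {Z : ℝ} (hZ0 : 0 ≤ Z)
    (hZ : ∀ ψ ∈ prim q, ‖csum a X₁ ψ e‖ * ‖csum g X₂ ψ e‖ * ‖csum b Y ψ e‖ ≤ Z) :
    P3 a g b X₁ X₂ Y q e ≤ (Nat.totient q : ℝ) * Z := by
  unfold P3
  calc ∑ ψ ∈ prim q, ‖csum a X₁ ψ e‖ * ‖csum g X₂ ψ e‖ * ‖csum b Y ψ e‖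
      ≤ ∑ _ψ ∈ prim q, Z := Finset.sum_le_sum hZ
    _ = ((prim q).card : ℝ) * Z := by rw [Finset.sum_const, nsmul_eq_mul]
    _ ≤ _ := mul_le_mul_of_nonneg_right (card_prim q hq) hZ0

private theorem sml_num {q e : ℕ} (hq : 1 ≤ q) (he : 1 ≤ e) {N l D : ℝ} (hN : 0 ≤ N)
    (hl : 0 ≤ l) (hDq : tau q ≤ D) (hDe : tau e ≤ D) (hD1 : 1 ≤ D) :
    1 / (Nat.totient e : ℝ) ^ 2 * (Real.sqrt (q : ℝ) / (Nat.totient q : ℝ) ^ 2 *
      ((Nat.totient q : ℝ) * (N * (tau e * (Real.sqrt q * l))))) ≤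
      N * l * D ^ 4 * (1 / (e : ℝ) ^ 2) := by
  have hq1 : (0 : ℝ) < Nat.totient q := by exact_mod_cast Nat.totient_pos.2 hq
  have he1 : (0 : ℝ) < Nat.totient e := by exact_mod_cast Nat.totient_pos.2 he
  have hq0 : (0 : ℝ) < q := by exact_mod_cast hq
  have he0 : (0 : ℝ) < e := by exact_mod_cast he
  have h1 : (q : ℝ) / Nat.totient q ≤ D :=
    (Pool.Agent.BV.div_totient_le q (by omega)).trans hDq
  have h2 : (e : ℝ) / Nat.totient e ≤ D :=
    (Pool.Agent.BV.div_totient_le e (by omega)).trans hDe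
  have h3 : Real.sqrt (q : ℝ) * Real.sqrt q = q := Real.mul_self_sqrt hq0.le
  have ht : 0 ≤ tau e := Nat.cast_nonneg _
  have hD0 : 0 ≤ D := by linarith
  calc 1 / (Nat.totient e : ℝ) ^ 2 * (Real.sqrt (q : ℝ) / (Nat.totient q : ℝ) ^ 2 *
      ((Nat.totient q : ℝ) * (N * (tau e * (Real.sqrt q * l)))))
      = N * l * (((q : ℝ) / Nat.totient q) * tau e * ((e : ℝ) / Nat.totient e) ^ 2) *
          (1 / (e : ℝ) ^ 2) := by
        have h4 : 1 / (Nat.totient e : ℝ) ^ 2 * (Real.sqrt (q : ℝ) / (Nat.totient q : ℝ) ^ 2 *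
            ((Nat.totient q : ℝ) * (N * (tau e * (Real.sqrt q * l))))) =
            1 / (Nat.totient e : ℝ) ^ 2 * ((Real.sqrt (q : ℝ) * Real.sqrt q) /
              (Nat.totient q : ℝ) ^ 2 * ((Nat.totient q : ℝ) * (N * (tau e * l)))) := by ring
        rw [h4, h3]
        field_simp
    _ ≤ N * l * (D * D * D ^ 2) * (1 / (e : ℝ) ^ 2) := by
        apply mul_le_mul_of_nonneg_right _ (by positivity)
        apply mul_le_mul_of_nonneg_left _ (by positivity)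
        apply mul_le_mul
        · exact mul_le_mul h1 hDe ht hD0
        · exact pow_le_pow_left₀ (by positivity) h2 2
        · positivity
        · positivity
    _ = _ := by ring

theorem SmlAux.cnt {K : ℕ} (q : ℕ) (hq : 1 ≤ q) :
    (((Finset.Icc 1 (2 * K)).filter fun e => q * e < 2 * K).card : ℝ) ≤ 2 * K / q := by
  have h1 : ((Finset.Icc 1 (2 * K)).filter fun e => q * e < 2 * K) ⊆
      Finset.Icc 1 (2 * K / q) := by
    intro e he
    rw [Finset.mem_filter, Finset.mem_Icc] at he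
    rw [Finset.mem_Icc]
    refine ⟨he.1.1, (Nat.le_div_iff_mul_le (by omega)).2 ?_⟩
    rw [mul_comm]
    exact he.2.le
  have h2 := Finset.card_le_card h1
  rw [Nat.card_Icc, Nat.add_sub_cancel] at h2
  calc (((Finset.Icc 1 (2 * K)).filter fun e => q * e < 2 * K).card : ℝ)
      ≤ ((2 * K / q : ℕ) : ℝ) := by exact_mod_cast h2
    _ ≤ ((2 * K : ℕ) : ℝ) / q := Nat.cast_div_le
    _ = 2 * K / q := by push_cast; ring

theorem SmlAux.tv_nonneg (W : ℕ → ℂ) (X : ℕ) : 0 ≤ tv W X := by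
  unfold tv
  positivity

theorem SmlAux.S3_le (S : Finset ℕ) (hS : ∀ q ∈ S, 1 < q) {a g b : ℕ → ℂ} {X₁ X₂ Y K : ℕ}
    {N l D : ℝ} (hN : 0 ≤ N) (hl : 0 ≤ l)
    (hD : ∀ n : ℕ, 1 ≤ n → n ≤ 2 * K → tau n ≤ D) (hD1 : 1 ≤ D)
    (h : ∀ q ∈ S, ∀ e, 1 ≤ e → q * e < 2 * K → ∀ ψ ∈ prim q,
      ‖csum a X₁ ψ e‖ * ‖csum g X₂ ψ e‖ * ‖csum b Y ψ e‖ ≤
        N * (tau e * (Real.sqrt q * l))) :
    S3 S a g b X₁ X₂ Y K ≤ ∑ e ∈ Finset.Icc 1 (2 * K),
      ∑ q ∈ S with (K ≤ q * e ∧ q * e < 2 * K), N * l * D ^ 4 * (1 / (e : ℝ) ^ 2) := by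
  unfold S3
  refine Finset.sum_le_sum fun e he => ?_
  rw [Finset.mem_Icc] at he
  rw [Finset.mul_sum]
  refine Finset.sum_le_sum fun q hq => ?_
  rw [Finset.mem_filter] at hq
  have hq1 := hS q hq.1
  have hqK : q ≤ 2 * K := by
    have : q * 1 ≤ q * e := Nat.mul_le_mul_left q he.1
    omega
  have h1 := sml_P3 (a := a) (g := g) (b := b) (X₁ := X₁) (X₂ := X₂) (Y := Y) (e := e)
    (Z := N * (tau e * (Real.sqrt q * l))) (by omega : 1 ≤ q)
    (mul_nonneg hN (mul_nonneg (Nat.cast_nonneg _) (mul_nonneg (Real.sqrt_nonneg _) hl)))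
    (h q hq.1 e he.1 hq.2.2)
  refine le_trans ?_ (sml_num (by omega : 1 ≤ q) he.1 hN hl (hD q (by omega) hqK)
    (hD e he.1 he.2) hD1)
  apply mul_le_mul_of_nonneg_left _ (by positivity)
  exact mul_le_mul_of_nonneg_left h1 (by positivity)

/-- Small conductors: Polya-Vinogradov for the sum over `B`. PROOF. By `csum_triv` (twice), `pv_tv`
and `card_prim`: `P3 q e ≤ φ(q) (G₁X₁) (G₂X₂) M tau(e) √q (1 + log R)`. So the term `(q,e)` is at
most `(G₁X₁)(G₂X₂) M (1 + log R) (q/φ(q)) tau(e)/φ(e)² ≤ (..) D⁴/e²`. For fixed `q` the `e` with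
`K/q ≤ e < 2K/q` give `∑ 1/e² ≤ 2q/K` (if `q ≤ K`: at most `K/q + 1 ≤ 2K/q` terms, each
`≤ (q/K)²`; if `q > K`: only `e = 1`, and `1 ≤ q/K`), and `∑_{q ≤ R} q ≤ R²`. -/
theorem S3_small {a g b : ℕ → ℂ} {X₁ X₂ Y K R : ℕ} {G₁ G₂ D M : ℝ} (hK : 1 ≤ K) (hR : 1 ≤ R)
    (h₁ : ∀ m, ‖a m‖ ≤ G₁) (h₂ : ∀ k, ‖g k‖ ≤ G₂) (hM : tv b Y ≤ M)
    (hD : ∀ n : ℕ, 1 ≤ n → n ≤ 2 * K → tau n ≤ D) (hD1 : 1 ≤ D) :
    S3 (Finset.Ioc 1 R) a g b X₁ X₂ Y K ≤
      2 * (G₁ * X₁) * (G₂ * X₂) * M * (1 + Real.log R) * D ^ 4 * ((R : ℝ) ^ 2 / K) := by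
  have hG1 : 0 ≤ G₁ := (norm_nonneg _).trans (h₁ 0)
  have hG2 : 0 ≤ G₂ := (norm_nonneg _).trans (h₂ 0)
  have hM0 : 0 ≤ M := (SmlAux.tv_nonneg b Y).trans hM
  have hlR : 0 ≤ Real.log R := Real.log_nonneg (by exact_mod_cast hR)
  have hK0 : (0 : ℝ) < K := by exact_mod_cast hK
  have hN : 0 ≤ (G₁ * X₁) * (G₂ * X₂) * M := by positivity
  refine (SmlAux.S3_le (Finset.Ioc 1 R) (fun q hq => (Finset.mem_Ioc.1 hq).1) hN
    (add_nonneg zero_le_one hlR) hD hD1 ?_).trans ?_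
  · intro q hq e he _ ψ hψ
    rw [Finset.mem_Ioc] at hq
    have h3 := pv_tv hq.1 ψ (Pool.Agent.LS.mem_prim.1 hψ) e (by omega) b Y
    have hlq : Real.log q ≤ Real.log R :=
      Real.log_le_log (by exact_mod_cast (by omega : 0 < q)) (by exact_mod_cast hq.2)
    have hlq0 : 0 ≤ Real.log q := Real.log_nonneg (by exact_mod_cast (by omega : 1 ≤ q))
    have ht : 0 ≤ tau e := Nat.cast_nonneg _
    have h4 : ‖csum b Y ψ e‖ ≤ M * (tau e * (Real.sqrt q * (1 + Real.log R))) := by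
      refine h3.trans (mul_le_mul hM ?_ ?_ hM0)
      · apply mul_le_mul_of_nonneg_left _ ht
        apply mul_le_mul_of_nonneg_left _ (Real.sqrt_nonneg _)
        linarith
      · exact mul_nonneg ht (mul_nonneg (Real.sqrt_nonneg _) (by linarith))
    calc ‖csum a X₁ ψ e‖ * ‖csum g X₂ ψ e‖ * ‖csum b Y ψ e‖
        ≤ (G₁ * X₁) * (G₂ * X₂) * (M * (tau e * (Real.sqrt q * (1 + Real.log R)))) := by
          apply mul_le_mul _ h4 (norm_nonneg _) (by positivity)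
          exact mul_le_mul (csum_triv a X₁ ψ e h₁) (csum_triv g X₂ ψ e h₂) (norm_nonneg _)
            (by positivity)
      _ = _ := by ring
  · have h5 : ∑ e ∈ Finset.Icc 1 (2 * K), ∑ q ∈ Finset.Ioc 1 R with
        (K ≤ q * e ∧ q * e < 2 * K), (1 / (e : ℝ) ^ 2) ≤ 2 * ((R : ℝ) ^ 2 / K) := by
      have h6 : ∑ e ∈ Finset.Icc 1 (2 * K), ∑ q ∈ Finset.Ioc 1 R with
          (K ≤ q * e ∧ q * e < 2 * K), (1 / (e : ℝ) ^ 2) =
          ∑ q ∈ Finset.Ioc 1 R, ∑ e ∈ Finset.Icc 1 (2 * K) with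
            (K ≤ q * e ∧ q * e < 2 * K), (1 / (e : ℝ) ^ 2) := by
        simp only [Finset.sum_filter]
        rw [Finset.sum_comm]
      rw [h6]
      have h7 : ∀ q ∈ Finset.Ioc 1 R, ∑ e ∈ Finset.Icc 1 (2 * K) with
          (K ≤ q * e ∧ q * e < 2 * K), (1 / (e : ℝ) ^ 2) ≤ 2 * (R : ℝ) / K := by
        intro q hq
        rw [Finset.mem_Ioc] at hq
        have hq0 : (0 : ℝ) < q := by exact_mod_cast (by omega : 0 < q)
        have hqR : (q : ℝ) ≤ R := by exact_mod_cast hq.2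
        calc ∑ e ∈ Finset.Icc 1 (2 * K) with (K ≤ q * e ∧ q * e < 2 * K), (1 / (e : ℝ) ^ 2)
            ≤ ∑ e ∈ Finset.Icc 1 (2 * K) with (K ≤ q * e ∧ q * e < 2 * K),
                ((q : ℝ) / K) ^ 2 := by
              refine Finset.sum_le_sum fun e he => ?_
              rw [Finset.mem_filter, Finset.mem_Icc] at he
              have he0 : (0 : ℝ) < e := by exact_mod_cast he.1.1
              have hKe : (K : ℝ) ≤ q * e := by exact_mod_cast he.2.1
              rw [← one_div_pow]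
              apply pow_le_pow_left₀ (by positivity)
              rw [div_le_div_iff₀ he0 hK0, one_mul]
              exact hKe
          _ = (((Finset.Icc 1 (2 * K)).filter fun e => K ≤ q * e ∧ q * e < 2 * K).card : ℝ) *
                ((q : ℝ) / K) ^ 2 := by rw [Finset.sum_const, nsmul_eq_mul]
          _ ≤ (((Finset.Icc 1 (2 * K)).filter fun e => q * e < 2 * K).card : ℝ) *
                ((q : ℝ) / K) ^ 2 := by
              apply mul_le_mul_of_nonneg_right _ (by positivity)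
              have h9 : ((Finset.Icc 1 (2 * K)).filter fun e => K ≤ q * e ∧ q * e < 2 * K) ⊆
                  ((Finset.Icc 1 (2 * K)).filter fun e => q * e < 2 * K) := by
                intro e he
                rw [Finset.mem_filter] at he ⊢
                exact ⟨he.1, he.2.2⟩
              exact_mod_cast Finset.card_le_card h9
          _ ≤ (2 * K / q) * ((q : ℝ) / K) ^ 2 :=
              mul_le_mul_of_nonneg_right (SmlAux.cnt q (by omega)) (by positivity)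
          _ = 2 * q / K := by field_simp
          _ ≤ 2 * (R : ℝ) / K := by gcongr
      calc ∑ q ∈ Finset.Ioc 1 R, ∑ e ∈ Finset.Icc 1 (2 * K) with
            (K ≤ q * e ∧ q * e < 2 * K), (1 / (e : ℝ) ^ 2)
          ≤ ∑ _q ∈ Finset.Ioc 1 R, 2 * (R : ℝ) / K := Finset.sum_le_sum h7
        _ = ((R - 1 : ℕ) : ℝ) * (2 * (R : ℝ) / K) := by
            rw [Finset.sum_const, nsmul_eq_mul, Nat.card_Ioc]
        _ ≤ (R : ℝ) * (2 * (R : ℝ) / K) := by
            apply mul_le_mul_of_nonneg_right _ (by positivity)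
            exact_mod_cast Nat.sub_le R 1
        _ = 2 * ((R : ℝ) ^ 2 / K) := by ring
    have h8 : ∑ e ∈ Finset.Icc 1 (2 * K), ∑ q ∈ Finset.Ioc 1 R with
        (K ≤ q * e ∧ q * e < 2 * K), (G₁ * X₁) * (G₂ * X₂) * M * (1 + Real.log R) * D ^ 4 *
          (1 / (e : ℝ) ^ 2) = (G₁ * X₁) * (G₂ * X₂) * M * (1 + Real.log R) * D ^ 4 *
        ∑ e ∈ Finset.Icc 1 (2 * K), ∑ q ∈ Finset.Ioc 1 R with
          (K ≤ q * e ∧ q * e < 2 * K), (1 / (e : ℝ) ^ 2) := by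
      simp only [Finset.mul_sum]
    rw [h8]
    calc (G₁ * X₁) * (G₂ * X₂) * M * (1 + Real.log R) * D ^ 4 *
        ∑ e ∈ Finset.Icc 1 (2 * K), ∑ q ∈ Finset.Ioc 1 R with
          (K ≤ q * e ∧ q * e < 2 * K), (1 / (e : ℝ) ^ 2)
        ≤ (G₁ * X₁) * (G₂ * X₂) * M * (1 + Real.log R) * D ^ 4 * (2 * ((R : ℝ) ^ 2 / K)) :=
          mul_le_mul_of_nonneg_left h5 (by positivity)
      _ = _ := by ring

end Pool.Agent.MP_67227b_nt.Gg
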