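import Mathlib
import Pool.Agent.MP_67227b_nt.Gg.GgSml

set_option autoImplicit false

open Filter Topology Set MeasureTheory Complex
open scoped Real ContDiff ArithmeticFunction ArithmeticFunction.Moebius
open scoped Classical

namespace Pool.Agent.MP_67227b_nt.Gg

open Pool.Agent.BV (tau csum)
open Pool.Agent.LS (prim)

private theorem tyI_sum (N : ℕ) (hN : 1 ≤ N) :
    ∑ e ∈ Finset.Icc 1 N, (1 / (e : ℝ) ^ 2 : ℝ) ≤ 2 - 1 / (N : ℝ) := by
  induction N, hN using Nat.le_induction with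
  | base => norm_num
  | succ n hn ih =>
    rw [Finset.sum_Icc_succ_top (by omega)]
    have hn0 : (0 : ℝ) < n := by exact_mod_cast hn
    have h1 : 1 / ((n : ℝ) + 1) ^ 2 ≤ 1 / n - 1 / ((n : ℝ) + 1) := by
      rw [div_sub_div _ _ hn0.ne' (by positivity), div_le_div_iff₀ (by positivity)
        (by positivity)]
      nlinarith
    push_cast
    linarith

/-- Type I: Polya-Vinogradov for the smooth variable `k`. PROOF. `csum_triv` for `a` and for `b`,
`pv_tv` for `g`, `card_prim`: `P3 q e ≤ φ(q) (G₁X₁) Y M tau(e) √q (1 + log(2K))`, so the term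
`(q,e)` is at most `(G₁X₁) Y M (1 + log(2K)) D⁴/e²`; for fixed `e` there are at most `2K/e` values
of `q`, and `∑ 1/e³ ≤ 2`. -/
theorem S3_typeI {a g b : ℕ → ℂ} {X₁ X₂ Y K : ℕ} {G₁ D M : ℝ} (hK : 1 ≤ K)
    (h₁ : ∀ m, ‖a m‖ ≤ G₁) (h₃ : ∀ B, ‖b B‖ ≤ 1) (hM : tv g X₂ ≤ M)
    (hD : ∀ n : ℕ, 1 ≤ n → n ≤ 2 * K → tau n ≤ D) (hD1 : 1 ≤ D) :
    S3 (Finset.Ioc 1 (2 * K)) a g b X₁ X₂ Y K ≤
      8 * (G₁ * X₁) * Y * M * (1 + Real.log (2 * K)) * D ^ 4 * K := by
  have hG1 : 0 ≤ G₁ := (norm_nonneg _).trans (h₁ 0)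
  have hM0 : 0 ≤ M := (SmlAux.tv_nonneg g X₂).trans hM
  have hK0 : (0 : ℝ) < K := by exact_mod_cast hK
  have hK1 : (1 : ℝ) ≤ K := by exact_mod_cast hK
  have hlR : 0 ≤ Real.log (2 * K) := Real.log_nonneg (by linarith)
  have hN : 0 ≤ (G₁ * X₁) * Y * M := by positivity
  refine (SmlAux.S3_le (Finset.Ioc 1 (2 * K)) (fun q hq => (Finset.mem_Ioc.1 hq).1) hN
    (add_nonneg zero_le_one hlR) hD hD1 ?_).trans ?_
  · intro q hq e he _ ψ hψ
    rw [Finset.mem_Ioc] at hq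
    have h3 := pv_tv hq.1 ψ (Pool.Agent.LS.mem_prim.1 hψ) e (by omega) g X₂
    have hlq : Real.log q ≤ Real.log (2 * K) :=
      Real.log_le_log (by exact_mod_cast (by omega : 0 < q)) (by exact_mod_cast hq.2)
    have hlq0 : 0 ≤ Real.log q := Real.log_nonneg (by exact_mod_cast (by omega : 1 ≤ q))
    have ht : 0 ≤ tau e := Nat.cast_nonneg _
    have h4 : ‖csum g X₂ ψ e‖ ≤ M * (tau e * (Real.sqrt q * (1 + Real.log (2 * K)))) := by
      refine h3.trans (mul_le_mul hM ?_ ?_ hM0)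
      · apply mul_le_mul_of_nonneg_left _ ht
        apply mul_le_mul_of_nonneg_left _ (Real.sqrt_nonneg _)
        linarith
      · exact mul_nonneg ht (mul_nonneg (Real.sqrt_nonneg _) (by linarith))
    have h5 : ‖csum b Y ψ e‖ ≤ 1 * Y := csum_triv b Y ψ e h₃
    have h6 : 0 ≤ M * (tau e * (Real.sqrt q * (1 + Real.log (2 * K)))) := by positivity
    calc ‖csum a X₁ ψ e‖ * ‖csum g X₂ ψ e‖ * ‖csum b Y ψ e‖
        ≤ (G₁ * X₁) * (M * (tau e * (Real.sqrt q * (1 + Real.log (2 * K))))) * (1 * Y) := by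
          apply mul_le_mul _ h5 (norm_nonneg _) (by positivity)
          exact mul_le_mul (csum_triv a X₁ ψ e h₁) h4 (norm_nonneg _) (by positivity)
      _ = _ := by ring
  · have h5 : ∑ e ∈ Finset.Icc 1 (2 * K), ∑ q ∈ Finset.Ioc 1 (2 * K) with
        (K ≤ q * e ∧ q * e < 2 * K), (1 / (e : ℝ) ^ 2 : ℝ) ≤ 4 * (K : ℝ) := by
      have h7 : ∀ e ∈ Finset.Icc 1 (2 * K), ∑ q ∈ Finset.Ioc 1 (2 * K) with
          (K ≤ q * e ∧ q * e < 2 * K), (1 / (e : ℝ) ^ 2 : ℝ) ≤ 2 * (K : ℝ) * (1 / (e : ℝ) ^ 2) := by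
        intro e he
        rw [Finset.mem_Icc] at he
        have he0 : (0 : ℝ) < e := by exact_mod_cast he.1
        have he1 : (1 : ℝ) ≤ e := by exact_mod_cast he.1
        rw [Finset.sum_const, nsmul_eq_mul]
        apply mul_le_mul_of_nonneg_right _ (by positivity)
        calc (((Finset.Ioc 1 (2 * K)).filter fun q => K ≤ q * e ∧ q * e < 2 * K).card : ℝ)
            ≤ (((Finset.Icc 1 (2 * K)).filter fun q => e * q < 2 * K).card : ℝ) := by
              have h8 : ((Finset.Ioc 1 (2 * K)).filter fun q => K ≤ q * e ∧ q * e < 2 * K) ⊆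
                  ((Finset.Icc 1 (2 * K)).filter fun q => e * q < 2 * K) := by
                intro q hq
                rw [Finset.mem_filter, Finset.mem_Ioc] at hq
                rw [Finset.mem_filter, Finset.mem_Icc, mul_comm e q]
                exact ⟨⟨by omega, hq.1.2⟩, hq.2.2⟩
              exact_mod_cast Finset.card_le_card h8
          _ ≤ 2 * K / e := SmlAux.cnt e he.1
          _ ≤ 2 * K := by
              rw [div_le_iff₀ he0]
              nlinarith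
      refine (Finset.sum_le_sum h7).trans ?_
      rw [← Finset.mul_sum]
      have h9 := tyI_sum (2 * K) (by omega)
      have h10 : (0 : ℝ) ≤ 1 / ((2 * K : ℕ) : ℝ) := by positivity
      have h11 : ∑ e ∈ Finset.Icc 1 (2 * K), 1 / (e : ℝ) ^ 2 ≤ 2 := by linarith
      calc 2 * (K : ℝ) * ∑ e ∈ Finset.Icc 1 (2 * K), 1 / (e : ℝ) ^ 2 ≤ 2 * K * 2 :=
            mul_le_mul_of_nonneg_left h11 (by positivity)
        _ = 4 * K := by ring
    have h8 : ∑ e ∈ Finset.Icc 1 (2 * K), ∑ q ∈ Finset.Ioc 1 (2 * K) with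
        (K ≤ q * e ∧ q * e < 2 * K), (G₁ * X₁) * Y * M * (1 + Real.log (2 * K)) * D ^ 4 *
          (1 / (e : ℝ) ^ 2) = (G₁ * X₁) * Y * M * (1 + Real.log (2 * K)) * D ^ 4 *
        ∑ e ∈ Finset.Icc 1 (2 * K), ∑ q ∈ Finset.Ioc 1 (2 * K) with
          (K ≤ q * e ∧ q * e < 2 * K), (1 / (e : ℝ) ^ 2) := by
      simp only [Finset.mul_sum]
    rw [h8]
    have h12 : 0 ≤ (G₁ * X₁) * Y * M * (1 + Real.log (2 * K)) * D ^ 4 := by positivity
    calc (G₁ * X₁) * Y * M * (1 + Real.log (2 * K)) * D ^ 4 *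
        ∑ e ∈ Finset.Icc 1 (2 * K), ∑ q ∈ Finset.Ioc 1 (2 * K) with
          (K ≤ q * e ∧ q * e < 2 * K), (1 / (e : ℝ) ^ 2)
        ≤ (G₁ * X₁) * Y * M * (1 + Real.log (2 * K)) * D ^ 4 * (4 * K) :=
          mul_le_mul_of_nonneg_left h5 h12
      _ ≤ (G₁ * X₁) * Y * M * (1 + Real.log (2 * K)) * D ^ 4 * (8 * K) :=
          mul_le_mul_of_nonneg_left (by linarith) h12
      _ = _ := by ring

end Pool.Agent.MP_67227b_nt.Gg
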