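import Mathlib
import Pool.Agent.MP_67227b_nt.Gg.GgEps
import Pool.Agent.MP_67227b_nt.Gg.GgTv
import Pool.Agent.MP_67227b_nt.Gg.GgTyI

set_option autoImplicit false

open Filter Topology Set MeasureTheory Complex
open scoped Real ContDiff ArithmeticFunction ArithmeticFunction.Moebius
open scoped Classical

namespace Pool.Agent.MP_67227b_nt.Gg

open Pool.Agent.BV (tau csum)
open Pool.Agent.LS (prim)

private theorem num1_half {T : ℝ} (hT : 4 ≤ T) : 2 * T ^ (1 / 2 : ℝ) ≤ T := by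
  have h0 : 0 ≤ T := by linarith
  rw [← Real.sqrt_eq_rpow]
  have h2 : 2 ≤ Real.sqrt T := by
    apply Real.le_sqrt_of_sq_le
    linarith
  have h3 := Real.mul_self_sqrt h0
  nlinarith [Real.sqrt_nonneg T]

private theorem num1_bx {P : ℕ} {a : ℕ → ℂ} {G : ℝ} (hG : 0 ≤ G)
    (ha : ∀ m, P ≤ m → m < 2 * P → ‖a m‖ ≤ G) (m : ℕ) : ‖bx P a m‖ ≤ G := by
  unfold bx
  split_ifs with h
  · exact ha m h.1 h.2
  · rw [norm_zero]
    exact hG

/-- PROOF. `S3_typeI` with `G₁ = 3 log T`, `X₁ = 2P`, `b = pw V` (`norm_pw`), `Y = YY`,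
`(Y : ℝ) ≤ K T^{1-α} e^X`, `D` from `all_eps` with `ε = c/2` (`2K ≤ T⁵`), `1 + log(2K) ≤ 2 log T`:
the bound is `≤ 96 e^X (log T)² D⁴ P K² T^{1-α} M` and `P K² T^{1-α} ≤ T^{α-1+c} T^{1-2c} T^{1-α} =
T^{1-c}`. (`‖bx P a m‖ ≤ 3 log T`.) -/
theorem typeI_num (X c : ℝ) (hc : 0 < c) : ∃ C : ℝ, 0 ≤ C ∧ ∀ᶠ T : ℝ in atTop,
    ∀ α ∈ Icc (1 : ℝ) (3 / 2 - 4 * c), ∀ K P Q : ℕ, 1 ≤ K → 1 ≤ P → 1 ≤ Q →
      (K : ℝ) ≤ T ^ (1 / 2 - c) → (P : ℝ) ≤ T ^ (α - 1 + c) →
      ∀ (a g : ℕ → ℂ) (M V : ℝ), (∀ m, P ≤ m → m < 2 * P → ‖a m‖ ≤ 3 * Real.log T) →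
        tv (bx Q g) (2 * Q) ≤ M →
        S3 (Finset.Ioc 1 (2 * K)) (bx P a) (bx Q g) (pw V) (2 * P) (2 * Q) (YY X α T K) K ≤
          C * T ^ (1 - c / 2) * M := by
  refine ⟨96 * Real.exp X, by positivity, ?_⟩
  filter_upwards [all_eps (show 0 < c / 2 by linarith),
    eventually_ge_atTop (Real.exp 2)] with T hTD hT2
  intro α hα K P Q hK hP hQ hKT hPT a g M V ha hM
  obtain ⟨D, hD1, hD, hDT⟩ := hTD
  have hT4 : 4 ≤ T := by
    have h1 := Real.add_one_lt_exp (show (1 : ℝ) ≠ 0 by norm_num)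
    have h2 : Real.exp 2 = Real.exp 1 * Real.exp 1 := by
      rw [← Real.exp_add]
      norm_num
    have h3 : (4 : ℝ) ≤ Real.exp 2 := by
      rw [h2]
      nlinarith
    linarith
  have hT0 : 0 < T := by linarith
  have hT1 : 1 ≤ T := by linarith
  have hlog : 2 ≤ Real.log T := by
    rw [Real.le_log_iff_exp_le hT0]
    exact hT2
  have hKR : (1 : ℝ) ≤ K := by exact_mod_cast hK
  have hPR : (1 : ℝ) ≤ P := by exact_mod_cast hP
  have hD0 : 0 ≤ D := by linarith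
  have h2K : 2 * (K : ℝ) ≤ T := by
    calc 2 * (K : ℝ) ≤ 2 * T ^ (1 / 2 - c) := by linarith
      _ ≤ 2 * T ^ (1 / 2 : ℝ) := by
          have := Real.rpow_le_rpow_of_exponent_le hT1 (show 1 / 2 - c ≤ 1 / 2 by linarith)
          linarith
      _ ≤ T := num1_half hT4
  have hM0 : 0 ≤ M := by
    refine le_trans ?_ hM
    unfold tv
    positivity
  have hmain := S3_typeI (a := bx P a) (g := bx Q g) (b := pw V) (X₁ := 2 * P) (X₂ := 2 * Q)
    (Y := YY X α T K) (K := K) (G₁ := 3 * Real.log T) (D := D) (M := M) hK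
    (num1_bx (by linarith) ha) (norm_pw V) hM (by
      intro n hn hn'
      refine hD n hn ?_
      have h1 : (n : ℝ) ≤ 2 * K := by exact_mod_cast hn'
      have h2 : T ^ (1 : ℝ) ≤ T ^ (5 : ℝ) :=
        Real.rpow_le_rpow_of_exponent_le hT1 (by norm_num)
      rw [Real.rpow_one] at h2
      linarith) hD1
  refine hmain.trans ?_
  have hY : ((YY X α T K : ℕ) : ℝ) ≤ (K : ℝ) * T ^ (1 - α) * Real.exp X :=
    Nat.floor_le (by positivity)
  have hl2 : 1 + Real.log (2 * K) ≤ 2 * Real.log T := by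
    have : Real.log (2 * K) ≤ Real.log T := Real.log_le_log (by positivity) h2K
    linarith
  have hl0 : 0 ≤ 1 + Real.log (2 * K) := by
    have : 0 ≤ Real.log (2 * (K : ℝ)) := Real.log_nonneg (by linarith)
    linarith
  have hlogD : D ^ 4 * Real.log T ^ 2 ≤ T ^ (c / 2) := by
    refine le_trans ?_ hDT
    have h1 : D ^ 4 ≤ D ^ 9 := pow_le_pow_right₀ hD1 (by norm_num)
    have h2 : Real.log T ^ 2 ≤ Real.log T ^ 6 := pow_le_pow_right₀ (by linarith) (by norm_num)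
    exact mul_le_mul h1 h2 (by positivity) (by positivity)
  have hpow : (P : ℝ) * ((K : ℝ) * K) * T ^ (1 - α) ≤ T ^ (1 - c) := by
    calc (P : ℝ) * ((K : ℝ) * K) * T ^ (1 - α)
        ≤ T ^ (α - 1 + c) * (T ^ (1 / 2 - c) * T ^ (1 / 2 - c)) * T ^ (1 - α) := by
          refine mul_le_mul_of_nonneg_right ?_ (by positivity)
          refine mul_le_mul hPT (mul_le_mul hKT hKT (by positivity) (by positivity))
            (by positivity) (by positivity)
      _ = T ^ (1 - c) := by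
          rw [← Real.rpow_add hT0, ← Real.rpow_add hT0, ← Real.rpow_add hT0]
          congr 1
          ring
  calc 8 * (3 * Real.log T * ((2 * P : ℕ) : ℝ)) * (YY X α T K : ℕ) * M *
        (1 + Real.log (2 * K)) * D ^ 4 * K
      ≤ 8 * (3 * Real.log T * ((2 * P : ℕ) : ℝ)) * ((K : ℝ) * T ^ (1 - α) * Real.exp X) * M *
        (2 * Real.log T) * D ^ 4 * K := by
        have hlp : 0 ≤ Real.log T := by linarith
        gcongr
    _ = 96 * Real.exp X * (D ^ 4 * Real.log T ^ 2) *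
        ((P : ℝ) * ((K : ℝ) * K) * T ^ (1 - α)) * M := by
        push_cast
        ring
    _ ≤ 96 * Real.exp X * T ^ (c / 2) * T ^ (1 - c) * M := by
        have hlp : 0 ≤ Real.log T := by linarith
        gcongr
    _ = 96 * Real.exp X * T ^ (1 - c / 2) * M := by
        rw [mul_assoc (96 * Real.exp X), ← Real.rpow_add hT0]
        congr 3
        ring

end Pool.Agent.MP_67227b_nt.Gg
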