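import Mathlib
import Pool.Agent.MP_67227b_nt.Gg.GgEps
import Pool.Agent.MP_67227b_nt.Gg.GgErrDefs

set_option autoImplicit false

open Filter Topology Set MeasureTheory Complex
open scoped Real ContDiff ArithmeticFunction ArithmeticFunction.Moebius
open scoped Classical

namespace Pool.Agent.MP_67227b_nt.Gg

open Pool.Agent.BV (tau csum)
open Pool.Agent.LS (prim)

/-- PROOF. `Λ(n) ≠ 0` and `(n,A) > 1` means `n = p^k`, `p ∣ A`; for each prime `p ∣ A` the powers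
`p^k ≤ N` give `∑ log p ≤ log N`, and `A` has at most `tau A` prime divisors. -/
theorem lam_noncop {A : ℕ} (hA : 1 ≤ A) (N : ℕ) :
    ∑ n ∈ Finset.Icc 1 N with ¬ n.Coprime A, Λ n ≤ tau A * Real.log N := by
  rcases Nat.eq_zero_or_pos N with rfl | hN
  · simp
  have hA0 : A ≠ 0 := by omega
  set S := (Finset.Icc 1 N).filter fun n => ¬ n.Coprime A with hS
  have h1 : ∑ n ∈ S, Λ n = ∑ n ∈ S.filter IsPrimePow, Λ n := by
    refine (Finset.sum_filter_of_ne fun n _ hn => ?_).symm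
    by_contra hpp
    rw [ArithmeticFunction.vonMangoldt_apply, if_neg hpp] at hn
    exact hn rfl
  have hmaps : ∀ n ∈ S.filter IsPrimePow, n.minFac ∈ A.primeFactors := by
    intro n hn
    rw [Finset.mem_filter, hS, Finset.mem_filter] at hn
    obtain ⟨⟨-, hnc⟩, hpp⟩ := hn
    obtain ⟨p, k, hp, hk, rfl⟩ := (isPrimePow_nat_iff n).1 hpp
    rw [hp.pow_minFac hk.ne']
    rw [Nat.mem_primeFactors]
    refine ⟨hp, ?_, hA0⟩
    by_contra hpA
    exact hnc (Nat.Coprime.pow_left k ((Nat.Prime.coprime_iff_not_dvd hp).2 hpA))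
  rw [h1, ← Finset.sum_fiberwise_of_maps_to hmaps]
  have h2 : ∀ p ∈ A.primeFactors, ∑ n ∈ S.filter IsPrimePow with n.minFac = p, Λ n ≤
      Real.log N := by
    intro p hp
    have hpp : p.Prime := (Nat.mem_primeFactors.1 hp).1
    have h3 : (S.filter IsPrimePow).filter (fun n => n.minFac = p) ⊆
        (Finset.Icc 1 (Nat.log p N)).image (p ^ ·) := by
      intro n hn
      rw [Finset.mem_filter, Finset.mem_filter, hS, Finset.mem_filter, Finset.mem_Icc] at hn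
      obtain ⟨⟨⟨⟨-, hnN⟩, -⟩, hpn⟩, hmin⟩ := hn
      obtain ⟨q, k, hq, hk, rfl⟩ := (isPrimePow_nat_iff n).1 hpn
      rw [hq.pow_minFac hk.ne'] at hmin
      subst hmin
      rw [Finset.mem_image]
      exact ⟨k, Finset.mem_Icc.2 ⟨hk, Nat.le_log_of_pow_le hq.one_lt hnN⟩, rfl⟩
    have h4 : ∀ n ∈ (S.filter IsPrimePow).filter (fun n => n.minFac = p), Λ n = Real.log p := by
      intro n hn
      rw [Finset.mem_filter, Finset.mem_filter] at hn
      rw [ArithmeticFunction.vonMangoldt_apply, if_pos hn.1.2, hn.2]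
    rw [Finset.sum_congr rfl h4, Finset.sum_const, nsmul_eq_mul]
    have hlp : 0 ≤ Real.log p := Real.log_natCast_nonneg p
    have h5 : (((S.filter IsPrimePow).filter (fun n => n.minFac = p)).card : ℝ) ≤
        Nat.log p N := by
      have h6 := (Finset.card_le_card h3).trans Finset.card_image_le
      rw [Nat.card_Icc, Nat.add_sub_cancel] at h6
      exact_mod_cast h6
    refine (mul_le_mul_of_nonneg_right h5 hlp).trans ?_
    rw [← Real.log_pow]
    refine Real.log_le_log (by have := hpp.pos; positivity) ?_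
    exact_mod_cast Nat.pow_log_le_self p hN.ne'
  refine (Finset.sum_le_sum h2).trans ?_
  rw [Finset.sum_const, nsmul_eq_mul]
  refine mul_le_mul_of_nonneg_right ?_ (Real.log_natCast_nonneg N)
  unfold Pool.Agent.BV.tau
  have h3 : A.primeFactors ⊆ A.divisors := fun p hp =>
    Nat.mem_divisors.2 ⟨Nat.dvd_of_mem_primeFactors hp, hA0⟩
  exact_mod_cast Finset.card_le_card h3

/-- If the weight is not `0` then `T^α e^{-X} ≤ n ≤ T^α e^X` and `2 κ A T ≤ 2πnB ≤ AT`. PROOF.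
`Eta.supp`, `Rho.left`, `Rho.right` (`κ > 0`). -/
theorem wg_supp {X κ : ℝ} {η ρ : ℝ → ℝ} (hκ : 0 < κ) (hη : Eta X η) (hρ : Rho κ ρ) {α T : ℝ}
    (hT : 1 < T) {n A B : ℕ} (hn : 1 ≤ n) (hA : 1 ≤ A) (h : wg η ρ α T n A B ≠ 0) :
    T ^ α * Real.exp (-X) ≤ n ∧ (n : ℝ) ≤ T ^ α * Real.exp X ∧
      2 * π * n * B ≤ A * T := by
  have hn' : (0 : ℝ) < n := by exact_mod_cast hn
  have hA' : (0 : ℝ) < A := by exact_mod_cast hA
  have hT' : 0 < T := by linarith
  unfold wg at h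
  obtain ⟨h1, h2⟩ := mul_ne_zero_iff.1 h
  have h3 : |Real.log n - α * Real.log T| ≤ X := by
    by_contra hcon
    apply h1
    rw [hη.supp _ (not_le.1 hcon)]
    norm_num
  have h4 : 2 * π * n * B / (A * T) < 1 - κ := by
    by_contra hcon
    exact h2 (hρ.right _ (not_lt.1 hcon))
  have hTα : T ^ α = Real.exp (α * Real.log T) := by
    rw [Real.rpow_def_of_pos hT', mul_comm]
  rw [abs_le] at h3
  refine ⟨?_, ?_, ?_⟩
  · rw [hTα, ← Real.exp_add, ← Real.exp_log hn']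
    exact Real.exp_le_exp.2 (by linarith)
  · rw [hTα, ← Real.exp_add, ← Real.exp_log hn']
    exact Real.exp_le_exp.2 (by linarith)
  · rw [div_lt_iff₀ (by positivity)] at h4
    have h5 : (1 - κ) * (A * T) ≤ 1 * (A * T) :=
      mul_le_mul_of_nonneg_right (by linarith) (by positivity)
    linarith

theorem wg_le {X κ : ℝ} {η ρ : ℝ → ℝ} (hη : Eta X η) (hρ : Rho κ ρ) (α T : ℝ) (n A B : ℕ) :
    0 ≤ wg η ρ α T n A B ∧ wg η ρ α T n A B ≤ 1 := by
  unfold wg wt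
  have h1 := hη.sq_le (Real.log n - α * Real.log T)
  have h2 : Real.exp (-(2 * |Real.log n - α * Real.log T|)) ≤ 1 := by
    rw [Real.exp_le_one_iff]
    have := abs_nonneg (Real.log n - α * Real.log T)
    linarith
  have h3 := sq_nonneg (η (Real.log n - α * Real.log T))
  have h4 := hρ.nonneg (2 * π * n * B / (A * T))
  have h5 := hρ.le_one (2 * π * n * B / (A * T))
  exact ⟨mul_nonneg h3 h4, mul_le_one₀ (h1.trans h2) h4 h5⟩

private theorem nonc_sumB {X κ : ℝ} {η ρ : ℝ → ℝ} (hκ : 0 < κ) (hη : Eta X η) (hρ : Rho κ ρ)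
    {α T : ℝ} (hT : 1 < T) (hα : 1 ≤ α) {n A : ℕ} (hn : 1 ≤ n) (hA : 1 ≤ A) :
    ∑ B ∈ Bs T A, wg η ρ α T n A B ≤ A * Real.exp X := by
  have hT' : 0 < T := by linarith
  have hA' : (0 : ℝ) < A := by exact_mod_cast hA
  have h1 : ∑ B ∈ Bs T A, wg η ρ α T n A B =
      ∑ B ∈ (Bs T A).filter (fun B => wg η ρ α T n A B ≠ 0), wg η ρ α T n A B := by
    rw [Finset.sum_filter]
    refine Finset.sum_congr rfl fun B _ => ?_
    by_cases h : wg η ρ α T n A B = 0
    · rw [if_neg (not_not.2 h), h]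
    · rw [if_pos h]
  have h2 : (Bs T A).filter (fun B => wg η ρ α T n A B ≠ 0) ⊆
      Finset.Icc 1 ⌊(A : ℝ) * Real.exp X⌋₊ := by
    intro B hB
    rw [Finset.mem_filter, Bs, Finset.mem_filter, Finset.mem_Icc] at hB
    obtain ⟨⟨⟨hB1, -⟩, -⟩, hw⟩ := hB
    rw [Finset.mem_Icc]
    refine ⟨hB1, Nat.le_floor ?_⟩
    obtain ⟨h3, -, h4⟩ := wg_supp hκ hη hρ hT hn hA hw
    have hTα : T ≤ T ^ α := by
      calc T = T ^ (1 : ℝ) := (Real.rpow_one T).symm
        _ ≤ T ^ α := Real.rpow_le_rpow_of_exponent_le hT.le hα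
    have hB0 : (0 : ℝ) ≤ B := Nat.cast_nonneg B
    have hpi : (1 : ℝ) ≤ 2 * π := by
      have := Real.pi_gt_three
      linarith
    have h5 : T * Real.exp (-X) * B ≤ A * T := by
      calc T * Real.exp (-X) * B ≤ T ^ α * Real.exp (-X) * B := by gcongr
        _ ≤ n * B := mul_le_mul_of_nonneg_right h3 hB0
        _ = 1 * (n * B) := (one_mul _).symm
        _ ≤ 2 * π * (n * B) := mul_le_mul_of_nonneg_right hpi (by positivity)
        _ = 2 * π * n * B := by ring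
        _ ≤ A * T := h4
    have h6 : Real.exp (-X) * B ≤ A := by
      have h7 : T * (Real.exp (-X) * B) ≤ T * A := by linarith
      exact le_of_mul_le_mul_left h7 hT'
    calc (B : ℝ) = Real.exp X * (Real.exp (-X) * B) := by
          rw [← mul_assoc, ← Real.exp_add, add_neg_cancel, Real.exp_zero, one_mul]
      _ ≤ Real.exp X * A := mul_le_mul_of_nonneg_left h6 (Real.exp_pos X).le
      _ = A * Real.exp X := mul_comm _ _
  rw [h1]
  calc ∑ B ∈ (Bs T A).filter (fun B => wg η ρ α T n A B ≠ 0), wg η ρ α T n A B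
      ≤ ∑ B ∈ (Bs T A).filter (fun B => wg η ρ α T n A B ≠ 0), (1 : ℝ) :=
        Finset.sum_le_sum fun B _ => (wg_le hη hρ α T n A B).2
    _ = (((Bs T A).filter (fun B => wg η ρ α T n A B ≠ 0)).card : ℝ) := by
        rw [Finset.sum_const, nsmul_eq_mul, mul_one]
    _ ≤ ((Finset.Icc 1 ⌊(A : ℝ) * Real.exp X⌋₊).card : ℝ) := by
        exact_mod_cast Finset.card_le_card h2
    _ = (⌊(A : ℝ) * Real.exp X⌋₊ : ℝ) := by
        rw [Nat.card_Icc, Nat.add_sub_cancel]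
    _ ≤ A * Real.exp X := Nat.floor_le (by positivity)

/-- the term of the triple sum -/
private noncomputable def nonc_t (η ρ : ℝ → ℝ) (α T : ℝ) (A n B : ℕ) : ℂ :=
  (((μ A : ℝ) / (Nat.totient A : ℝ) : ℝ) : ℂ) * (((Λ n : ℝ) : ℂ) * (wg η ρ α T n A B : ℂ) *
    (ex (-((n : ℝ) * B / A)) - (((μ A : ℝ) / (Nat.totient A : ℝ) : ℝ) : ℂ)))

private theorem nonc_conj_ex (x : ℝ) : (starRingEnd ℂ) (ex x) = ex (-x) := by
  unfold ex
  rw [← Complex.exp_conj]
  congr 1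
  have h1 : (2 * π * I * x : ℂ) = ((2 * π * x : ℝ) : ℂ) * I := by
    push_cast
    ring
  rw [h1, map_mul, Complex.conj_I, Complex.conj_ofReal]
  push_cast
  ring

private theorem nonc_norm_ex (x : ℝ) : ‖ex x‖ = 1 := by
  unfold ex
  have h1 : (2 * π * I * x : ℂ) = ((2 * π * x : ℝ) : ℂ) * I := by
    push_cast
    ring
  rw [h1, Complex.norm_exp_ofReal_mul_I]

private theorem nonc_XX (η ρ : ℝ → ℝ) (c α T : ℝ) :
    XX η ρ c α T - (X0 η ρ c α T : ℂ) = ∑ A ∈ As c α T, ∑ n ∈ Finset.Icc 1 ⌊T ^ (2 : ℝ)⌋₊,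
      ∑ B ∈ Bs T A, nonc_t η ρ α T A n B := by
  have h1 : XX η ρ c α T = ∑ A ∈ As c α T, ∑ n ∈ Finset.Icc 1 ⌊T ^ (2 : ℝ)⌋₊,
      ∑ B ∈ Bs T A, ((((μ A : ℝ) / (Nat.totient A : ℝ) : ℝ) : ℂ) * (((Λ n : ℝ) : ℂ) *
        (wg η ρ α T n A B : ℂ) * ex (-((n : ℝ) * B / A)))) := by
    unfold XX
    rw [Finset.sum_comm]
    refine Finset.sum_congr rfl fun n _ => ?_
    unfold EE
    rw [map_sum, Finset.mul_sum]
    refine Finset.sum_congr rfl fun A _ => ?_
    rw [map_sum, Finset.mul_sum]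
    refine Finset.sum_congr rfl fun B _ => ?_
    rw [map_mul, Complex.conj_ofReal, nonc_conj_ex]
    unfold wg
    push_cast
    ring
  have h2 : (X0 η ρ c α T : ℂ) = ∑ A ∈ As c α T, ∑ n ∈ Finset.Icc 1 ⌊T ^ (2 : ℝ)⌋₊,
      ∑ B ∈ Bs T A, ((((μ A : ℝ) / (Nat.totient A : ℝ) : ℝ) : ℂ) * (((Λ n : ℝ) : ℂ) *
        (wg η ρ α T n A B : ℂ) * (((μ A : ℝ) / (Nat.totient A : ℝ) : ℝ) : ℂ))) := by
    unfold X0
    rw [Complex.ofReal_sum]
    refine Finset.sum_congr rfl fun A _ => ?_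
    rw [Complex.ofReal_sum, Finset.sum_comm]
    refine Finset.sum_congr rfl fun B _ => ?_
    rw [Complex.ofReal_mul, Complex.ofReal_sum, Finset.mul_sum]
    refine Finset.sum_congr rfl fun n _ => ?_
    unfold wg
    push_cast
    ring
  rw [h1, h2, ← Finset.sum_sub_distrib]
  refine Finset.sum_congr rfl fun A _ => ?_
  rw [← Finset.sum_sub_distrib]
  refine Finset.sum_congr rfl fun n _ => ?_
  rw [← Finset.sum_sub_distrib]
  refine Finset.sum_congr rfl fun B _ => ?_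
  unfold nonc_t
  ring

private theorem nonc_diff (η ρ : ℝ → ℝ) (c α T : ℝ) :
    XX η ρ c α T - (X0 η ρ c α T : ℂ) - ZZ η ρ c α T (fun n => Λ n) =
      ∑ A ∈ As c α T, ∑ n ∈ Finset.Icc 1 ⌊T ^ (2 : ℝ)⌋₊ with ¬ n.Coprime A,
        ∑ B ∈ Bs T A, nonc_t η ρ α T A n B := by
  rw [nonc_XX]
  unfold ZZ
  rw [← Finset.sum_sub_distrib]
  refine Finset.sum_congr rfl fun A _ => ?_
  rw [Finset.mul_sum, ← Finset.sum_sub_distrib, Finset.sum_filter]
  refine Finset.sum_congr rfl fun n _ => ?_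
  rw [Finset.mul_sum, ← Finset.sum_sub_distrib]
  by_cases h : n.Coprime A
  · rw [if_neg (not_not.2 h)]
    refine Finset.sum_eq_zero fun B _ => ?_
    rw [if_pos h]
    unfold nonc_t
    ring
  · rw [if_pos h]
    refine Finset.sum_congr rfl fun B _ => ?_
    rw [if_neg h, mul_zero, sub_zero]

private theorem nonc_mu (A : ℕ) : ‖(((μ A : ℝ) / (Nat.totient A : ℝ) : ℝ) : ℂ)‖ ≤ 1 := by
  rw [Complex.norm_real, Real.norm_eq_abs, abs_div]
  have h1 : |(μ A : ℝ)| ≤ 1 := by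
    have h2 := ArithmeticFunction.abs_moebius_le_one (n := A)
    have h3 : ((|μ A| : ℤ) : ℝ) ≤ ((1 : ℤ) : ℝ) := by exact_mod_cast h2
    rwa [Int.cast_abs, Int.cast_one] at h3
  rcases Nat.eq_zero_or_pos (Nat.totient A) with h | h
  · rw [h]
    simp
  · have h4 : (1 : ℝ) ≤ |(Nat.totient A : ℝ)| := by
      rw [Nat.abs_cast]
      exact_mod_cast h
    exact (div_le_one₀ (by linarith)).2 (h1.trans h4)

private theorem nonc_inner {X κ : ℝ} {η ρ : ℝ → ℝ} (hκ : 0 < κ) (hη : Eta X η) (hρ : Rho κ ρ)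
    {α T : ℝ} (hT : 1 < T) (hα : 1 ≤ α) {n A : ℕ} (hn : 1 ≤ n) (hA : 1 ≤ A) :
    ‖∑ B ∈ Bs T A, nonc_t η ρ α T A n B‖ ≤ Λ n * (2 * (A * Real.exp X)) := by
  have h1 : ∀ B ∈ Bs T A, ‖nonc_t η ρ α T A n B‖ ≤ Λ n * 2 * wg η ρ α T n A B := by
    intro B _
    unfold nonc_t
    have e1 : ‖((Λ n : ℝ) : ℂ)‖ = Λ n := by
      rw [Complex.norm_real, Real.norm_of_nonneg ArithmeticFunction.vonMangoldt_nonneg]
    have e2 : ‖(wg η ρ α T n A B : ℂ)‖ = wg η ρ α T n A B := by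
      rw [Complex.norm_real, Real.norm_of_nonneg (wg_le hη hρ α T n A B).1]
    rw [norm_mul, norm_mul, norm_mul, e1, e2]
    have h2 : ‖ex (-((n : ℝ) * B / A)) - (((μ A : ℝ) / (Nat.totient A : ℝ) : ℝ) : ℂ)‖ ≤ 2 := by
      refine (norm_sub_le _ _).trans ?_
      rw [nonc_norm_ex]
      have := nonc_mu A
      linarith
    have h3 : 0 ≤ Λ n * wg η ρ α T n A B :=
      mul_nonneg ArithmeticFunction.vonMangoldt_nonneg (wg_le hη hρ α T n A B).1
    calc _ ≤ 1 * (Λ n * wg η ρ α T n A B * 2) :=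
          mul_le_mul (nonc_mu A) (mul_le_mul_of_nonneg_left h2 h3) (by positivity) zero_le_one
      _ = _ := by ring
  refine (norm_sum_le _ _).trans ((Finset.sum_le_sum h1).trans ?_)
  rw [← Finset.mul_sum, mul_assoc]
  refine mul_le_mul_of_nonneg_left ?_ ArithmeticFunction.vonMangoldt_nonneg
  exact mul_le_mul_of_nonneg_left (nonc_sumB hκ hη hρ hT hα hn hA) (by norm_num)

/-- PROOF. By definition
`XX - X0 = ∑_A (μ(A)/φ(A)) ∑_n ∑_{B ∈ Bs} Λ(n) wg (ex(-nB/A) - μ(A)/φ(A))` over all `n`, so the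
difference is the sum over the `n` not coprime to `A`. For each `n` the `B` with `wg ≠ 0` satisfy
`B ≤ AT/(2πn) ≤ A T^{1-α} e^X ≤ A e^X` (`wg_supp`), each term is at most `2Λ(n)/φ(A)` (`wg_le`,
`φ(A) ≥ 1`), so the total is `≤ ∑_A (2/φ(A)) A e^X tau(A) log(T²)` (`lam_noncop`)
`≤ 4 e^X D² T^{1/2-c} log T ≤ T` (`A/φ(A) ≤ tau A ≤ D`, `all_eps`). -/
theorem nonC {X κ : ℝ} {η ρ : ℝ → ℝ} (hκ : 0 < κ) (hη : Eta X η) (hρ : Rho κ ρ) (c : ℝ)
    (hc : 0 < c) : ∀ᶠ T : ℝ in atTop, ∀ α ∈ Icc (1 : ℝ) (3 / 2 - 4 * c),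
      ‖XX η ρ c α T - (X0 η ρ c α T : ℂ) - ZZ η ρ c α T (fun n => Λ n)‖ ≤ T := by
  filter_upwards [all_eps hc, eventually_ge_atTop (Real.exp 1),
    (tendsto_rpow_atTop hc).eventually_ge_atTop (4 * Real.exp X)] with T hD hTe hTc α hα
  obtain ⟨D, hD1, hDt, hDl⟩ := hD
  have hT : 1 < T := lt_of_lt_of_le (Real.one_lt_exp_iff.2 one_pos) hTe
  have hT0 : 0 < T := by linarith
  have hL : 1 ≤ Real.log T := by
    rw [← Real.log_exp 1]
    exact Real.log_le_log (Real.exp_pos 1) hTe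
  have hDL : D * Real.log T ≤ T ^ c := by
    refine le_trans ?_ hDl
    have h1 : D ≤ D ^ 9 := le_self_pow₀ hD1 (by norm_num)
    have h2 : Real.log T ≤ Real.log T ^ 6 := le_self_pow₀ hL (by norm_num)
    exact mul_le_mul h1 h2 (by linarith) (by positivity)
  set N := ⌊T ^ (2 : ℝ)⌋₊ with hN
  have hlogN : Real.log N ≤ 2 * Real.log T := by
    rcases Nat.eq_zero_or_pos N with h | h
    · rw [h]
      simp only [CharP.cast_eq_zero, Real.log_zero]
      linarith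
    · rw [← Real.log_rpow hT0]
      exact Real.log_le_log (by exact_mod_cast h) (Nat.floor_le (by positivity))
  rw [nonc_diff]
  have hAs : ∀ A ∈ As c α T, ‖∑ n ∈ Finset.Icc 1 N with ¬ n.Coprime A,
      ∑ B ∈ Bs T A, nonc_t η ρ α T A n B‖ ≤ 4 * Real.exp X * (T ^ (1 / 2 - c) * T ^ c) := by
    intro A hAm
    rw [As, Finset.mem_Ioc] at hAm
    have hA : 1 ≤ A := by omega
    have hA2 : (A : ℝ) ≤ T ^ (1 / 2 - c) :=
      (Nat.le_floor_iff' (by omega)).1 hAm.2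
    have hA5 : (A : ℝ) ≤ T ^ (5 : ℝ) :=
      hA2.trans (Real.rpow_le_rpow_of_exponent_le hT.le (by linarith))
    have ht := hDt A hA hA5
    have hA0 : (0 : ℝ) ≤ A := Nat.cast_nonneg A
    calc ‖∑ n ∈ Finset.Icc 1 N with ¬ n.Coprime A, ∑ B ∈ Bs T A, nonc_t η ρ α T A n B‖
        ≤ ∑ n ∈ Finset.Icc 1 N with ¬ n.Coprime A, Λ n * (2 * (A * Real.exp X)) := by
          refine (norm_sum_le _ _).trans (Finset.sum_le_sum fun n hn => ?_)
          have hn1 : 1 ≤ n := (Finset.mem_Icc.1 (Finset.mem_filter.1 hn).1).1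
          exact nonc_inner hκ hη hρ hT hα.1 hn1 hA
      _ = (∑ n ∈ Finset.Icc 1 N with ¬ n.Coprime A, Λ n) * (2 * (A * Real.exp X)) := by
          rw [Finset.sum_mul]
      _ ≤ (tau A * Real.log N) * (2 * (A * Real.exp X)) :=
          mul_le_mul_of_nonneg_right (lam_noncop hA N) (by positivity)
      _ ≤ (D * (2 * Real.log T)) * (2 * (A * Real.exp X)) := by
          refine mul_le_mul_of_nonneg_right ?_ (by positivity)
          exact mul_le_mul ht hlogN (Real.log_natCast_nonneg N) (by linarith)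
      _ = 4 * Real.exp X * (A * (D * Real.log T)) := by ring
      _ ≤ 4 * Real.exp X * (T ^ (1 / 2 - c) * T ^ c) := by
          refine mul_le_mul_of_nonneg_left ?_ (by positivity)
          exact mul_le_mul hA2 hDL (by positivity) (by positivity)
  refine (norm_sum_le _ _).trans ((Finset.sum_le_sum hAs).trans ?_)
  rw [Finset.sum_const, nsmul_eq_mul]
  have hcard : ((As c α T).card : ℝ) ≤ T ^ (1 / 2 - c) := by
    rw [As, Nat.card_Ioc]
    have h1 : ((⌊T ^ (1 / 2 - c)⌋₊ - ⌊T ^ (α - 1 + c)⌋₊ : ℕ) : ℝ) ≤ (⌊T ^ (1 / 2 - c)⌋₊ : ℝ) := by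
      exact_mod_cast Nat.sub_le _ _
    exact h1.trans (Nat.floor_le (by positivity))
  calc ((As c α T).card : ℝ) * (4 * Real.exp X * (T ^ (1 / 2 - c) * T ^ c))
      ≤ T ^ (1 / 2 - c) * (T ^ c * (T ^ (1 / 2 - c) * T ^ c)) := by
        refine mul_le_mul hcard ?_ (by positivity) (by positivity)
        exact mul_le_mul_of_nonneg_right hTc (by positivity)
    _ = T := by
        rw [← Real.rpow_add hT0, ← Real.rpow_add hT0, ← Real.rpow_add hT0]
        have h2 : 1 / 2 - c + (c + (1 / 2 - c + c)) = 1 := by ring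
        rw [h2, Real.rpow_one]

end Pool.Agent.MP_67227b_nt.Gg
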