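import Mathlib
import Pool.Agent.MP_67227b_nt.Gg.GgNonC

set_option autoImplicit false

open Filter Topology Set MeasureTheory Complex
open scoped Real ContDiff ArithmeticFunction ArithmeticFunction.Moebius
open scoped Classical

namespace Pool.Agent.MP_67227b_nt.Gg

open Pool.Agent.BV (tau csum)
open Pool.Agent.LS (prim)

/-- A box sum vanishes unless the box meets the support of the weight. -/
theorem BX_zero {X κ : ℝ} {η ρ : ℝ → ℝ} (hκ : 0 < κ) (hη : Eta X η) (hρ : Rho κ ρ) {c α T : ℝ}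
    (hT : 1 < T) (a g : ℕ → ℂ) {K P Q : ℕ} (hP : 1 ≤ P) (hQ : 1 ≤ Q)
    (h : ¬ (T ^ (α - 1 + c) ≤ 2 * K ∧ (K : ℝ) ≤ T ^ (1 / 2 - c) ∧
      T ^ α ≤ 4 * P * Q * Real.exp X ∧ (P : ℝ) * Q ≤ T ^ α * Real.exp X)) :
    BX η ρ X c α T a g K P Q = 0 := by
  unfold BX
  refine Finset.sum_eq_zero fun A hA => ?_
  rw [Finset.mem_filter, As, Finset.mem_Ioc] at hA
  obtain ⟨⟨hA1, hA2⟩, hA3, hA4⟩ := hA
  have hT0 : 0 < T := by linarith
  have b1 : T ^ (α - 1 + c) < A := (Nat.floor_lt (by positivity)).1 hA1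
  have b2 : (A : ℝ) ≤ T ^ (1 / 2 - c) := (Nat.le_floor_iff (by positivity)).1 hA2
  have b3 : (A : ℝ) < 2 * K := by exact_mod_cast hA4
  have b4 : (K : ℝ) ≤ A := by exact_mod_cast hA3
  have hA0 : 1 ≤ A := by omega
  refine mul_eq_zero_of_right _ (Finset.sum_eq_zero fun m hm => Finset.sum_eq_zero fun k hk =>
    Finset.sum_eq_zero fun B _ => ?_)
  rw [Finset.mem_Ico] at hm hk
  split_ifs
  · have hw : wg η ρ α T (m * k) A B = 0 := by
      by_contra hne
      have hmk : 1 ≤ m * k := Nat.one_le_iff_ne_zero.2 (Nat.mul_ne_zero (by omega) (by omega))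
      obtain ⟨w1, w2, _⟩ := wg_supp hκ hη hρ hT hmk hA0 hne
      apply h
      have c1 : ((m * k : ℕ) : ℝ) ≤ 4 * P * Q := by
        have : m * k ≤ (2 * P) * (2 * Q) := Nat.mul_le_mul hm.2.le hk.2.le
        calc ((m * k : ℕ) : ℝ) ≤ ((2 * P * (2 * Q) : ℕ) : ℝ) := by exact_mod_cast this
          _ = 4 * P * Q := by push_cast; ring
      have c2 : (P : ℝ) * Q ≤ ((m * k : ℕ) : ℝ) := by
        have : P * Q ≤ m * k := Nat.mul_le_mul hm.1 hk.1
        exact_mod_cast this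
      refine ⟨by linarith, by linarith, ?_, by linarith⟩
      have c3 : T ^ α * Real.exp (-X) ≤ 4 * P * Q := w1.trans c1
      rw [Real.exp_neg, ← div_eq_mul_inv, div_le_iff₀ (Real.exp_pos X)] at c3
      exact c3
    rw [hw]
    simp
  · rfl

namespace ZbAux

theorem dyad (J : ℕ) (f : ℕ → ℂ) : ∑ m ∈ Finset.Ico 1 (2 ^ J), f m =
    ∑ j ∈ Finset.range J, ∑ m ∈ Finset.Ico (2 ^ j) (2 * 2 ^ j), f m := by
  induction J with
  | zero => simp
  | succ J ih =>
    rw [Finset.sum_range_succ, ← ih, ← pow_succ']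
    exact (Finset.sum_Ico_consecutive f Nat.one_le_two_pow
      (Nat.pow_le_pow_right (by norm_num) (by omega))).symm

theorem conv_sum {N M : ℕ} (hNM : N < M) (a g : ℕ → ℝ) (Ψ : ℕ → ℂ) (h : ∀ n, N < n → Ψ n = 0) :
    ∑ n ∈ Finset.Icc 1 N, (cv a g n : ℂ) * Ψ n =
      ∑ m ∈ Finset.Ico 1 M, ∑ k ∈ Finset.Ico 1 M, (a m : ℂ) * (g k : ℂ) * Ψ (m * k) := by
  set F : ℕ × ℕ → ℂ := fun p => (a p.1 : ℂ) * (g p.2 : ℂ) * Ψ (p.1 * p.2) with hF
  have e1 : ∑ m ∈ Finset.Ico 1 M, ∑ k ∈ Finset.Ico 1 M, (a m : ℂ) * (g k : ℂ) * Ψ (m * k) =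
      ∑ p ∈ Finset.Ico 1 M ×ˢ Finset.Ico 1 M, F p := by
    rw [Finset.sum_product]
  have e2 : ∑ p ∈ Finset.Ico 1 M ×ˢ Finset.Ico 1 M, F p =
      ∑ p ∈ (Finset.Ico 1 M ×ˢ Finset.Ico 1 M).filter (fun p => p.1 * p.2 ≤ N), F p := by
    rw [Finset.sum_filter_of_ne]
    intro p _ hp
    by_contra hlt
    rw [not_le] at hlt
    exact hp (by simp only [hF]; rw [h _ hlt, mul_zero])
  have e3 : ∑ p ∈ (Finset.Ico 1 M ×ˢ Finset.Ico 1 M).filter (fun p => p.1 * p.2 ≤ N), F p =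
      ∑ n ∈ Finset.Icc 1 N, ∑ p ∈ ((Finset.Ico 1 M ×ˢ Finset.Ico 1 M).filter
        (fun p => p.1 * p.2 ≤ N)) with p.1 * p.2 = n, F p := by
    symm
    apply Finset.sum_fiberwise_of_maps_to
    intro p hp
    rw [Finset.mem_filter, Finset.mem_product, Finset.mem_Ico, Finset.mem_Ico] at hp
    rw [Finset.mem_Icc]
    exact ⟨Nat.one_le_iff_ne_zero.2 (Nat.mul_ne_zero (by omega) (by omega)), hp.2⟩
  rw [e1, e2, e3]
  refine Finset.sum_congr rfl fun n hn => ?_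
  rw [Finset.mem_Icc] at hn
  have e4 : (((Finset.Ico 1 M ×ˢ Finset.Ico 1 M).filter
        (fun p => p.1 * p.2 ≤ N)).filter fun p => p.1 * p.2 = n) = n.divisorsAntidiagonal := by
    ext p
    rw [Finset.mem_filter, Finset.mem_filter, Finset.mem_product, Finset.mem_Ico, Finset.mem_Ico,
      Nat.mem_divisorsAntidiagonal]
    constructor
    · rintro ⟨⟨_, _⟩, h3⟩
      exact ⟨h3, by omega⟩
    · rintro ⟨h3, _⟩
      have h4 : p.1 ≠ 0 := by
        rintro h0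
        rw [h0, zero_mul] at h3
        omega
      have h5 : p.2 ≠ 0 := by
        rintro h0
        rw [h0, mul_zero] at h3
        omega
      have h6 : p.1 ≤ p.1 * p.2 := Nat.le_mul_of_pos_right _ (by omega)
      have h7 : p.2 ≤ p.1 * p.2 := Nat.le_mul_of_pos_left _ (by omega)
      refine ⟨⟨⟨⟨by omega, by omega⟩, by omega, by omega⟩, by omega⟩, h3⟩
  rw [e4]
  unfold cv
  push_cast
  rw [Finset.sum_mul]
  refine Finset.sum_congr rfl fun p hp => ?_
  simp only [hF]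
  rw [(Nat.mem_divisorsAntidiagonal.1 hp).1]

end ZbAux

open ZbAux

/-- The decomposition into boxes. -/
theorem ZZ_box {X κ : ℝ} {η ρ : ℝ → ℝ} (hX : 0 ≤ X) (hκ : 0 < κ) (hη : Eta X η) (hρ : Rho κ ρ)
    (c : ℝ) (hc : 0 < c) : ∀ᶠ T : ℝ in atTop, ∀ α ∈ Icc (1 : ℝ) (3 / 2 - 4 * c), ∀ a g : ℕ → ℝ,
      ZZ η ρ c α T (cv a g) = ∑ i ∈ Finset.range (Jd T), ∑ j ∈ Finset.range (Jd T),
        ∑ l ∈ Finset.range (Jd T), BX η ρ X c α T (cs a) (cs g) (2 ^ i) (2 ^ j) (2 ^ l) := by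
  have hev : ∀ᶠ T : ℝ in atTop, Real.exp X ≤ T ^ (1 / 2 : ℝ) :=
    (tendsto_rpow_atTop (by norm_num : (0 : ℝ) < 1 / 2)).eventually_ge_atTop _
  filter_upwards [hev, eventually_gt_atTop 1] with T hTX hT α hα a g
  obtain ⟨hα1, hα2⟩ := hα
  have hT0 : 0 < T := by linarith
  set N := ⌊T ^ (2 : ℝ)⌋₊ with hN
  set J := Jd T with hJ
  have hN1 : 1 ≤ N := by
    rw [hN, Nat.one_le_floor_iff]
    exact Real.one_le_rpow hT.le (by norm_num)
  have hNJ : N < 2 ^ J := by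
    rw [hJ, Jd]
    exact Nat.lt_pow_succ_log_self (by norm_num) _
  -- the size of the weights
  have hsup : ∀ n A B : ℕ, 1 ≤ A → N < n → wg η ρ α T n A B = 0 := by
    intro n A B hA hn
    by_contra hne
    obtain ⟨_, w2, _⟩ := wg_supp hκ hη hρ hT (by omega) hA hne
    have h1 : T ^ α * Real.exp X ≤ T ^ (2 : ℝ) := by
      calc T ^ α * Real.exp X ≤ T ^ (3 / 2 : ℝ) * T ^ (1 / 2 : ℝ) := by
            refine mul_le_mul (Real.rpow_le_rpow_of_exponent_le hT.le (by linarith)) hTX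
              (Real.exp_pos _).le (by positivity)
        _ = T ^ (2 : ℝ) := by
            rw [← Real.rpow_add hT0]
            norm_num
    have h2 : T ^ (2 : ℝ) < n := by
      rw [hN] at hn
      exact (Nat.floor_lt (by positivity)).1 hn
    linarith
  have hAs : ∀ A ∈ As c α T, 1 ≤ A ∧ (A : ℝ) ≤ T ^ (1 / 2 : ℝ) ∧ A < 2 ^ J := by
    intro A hA
    rw [As, Finset.mem_Ioc] at hA
    have b2 : (A : ℝ) ≤ T ^ (1 / 2 - c) := (Nat.le_floor_iff (by positivity)).1 hA.2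
    have b3 : (A : ℝ) ≤ T ^ (1 / 2 : ℝ) :=
      b2.trans (Real.rpow_le_rpow_of_exponent_le hT.le (by linarith))
    refine ⟨by omega, b3, ?_⟩
    refine lt_of_le_of_lt ?_ hNJ
    rw [hN]
    refine (Nat.le_floor_iff (by positivity)).2 ?_
    exact b3.trans (Real.rpow_le_rpow_of_exponent_le hT.le (by norm_num))
  -- the inner function
  set Φ : ℕ → ℕ → ℕ → ℂ := fun A n B => (wg η ρ α T n A B : ℂ) *
    (ex (-((n : ℝ) * B / A)) - (((μ A : ℝ) / (Nat.totient A : ℝ) : ℝ) : ℂ)) with hΦ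
  set Ψ : ℕ → ℕ → ℂ := fun A n => ∑ B ∈ Bs T A, if n.Coprime A then Φ A n B else 0 with hΨ
  have hΨ0 : ∀ A n : ℕ, 1 ≤ A → N < n → Ψ A n = 0 := by
    intro A n hA hn
    simp only [hΨ, hΦ]
    refine Finset.sum_eq_zero fun B _ => ?_
    rw [hsup n A B hA hn]
    simp
  -- the sum over B in a box
  have hB : ∀ i A n : ℕ, A ∈ As c α T → 2 ^ i ≤ A → A < 2 * 2 ^ i → 1 ≤ n →
      Ψ A n = ∑ B ∈ Finset.Icc 1 (YY X α T (2 ^ i)), if (n * B).Coprime A then Φ A n B else 0 := by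
    intro i A n hA h1 h2 hn
    obtain ⟨hA1, hA2, _⟩ := hAs A hA
    have hYT : YY X α T (2 ^ i) ≤ ⌊T⌋₊ := by
      unfold YY
      refine Nat.floor_le_floor ?_
      have h3 : (((2 ^ i : ℕ)) : ℝ) ≤ T ^ (1 / 2 : ℝ) :=
        le_trans (by exact_mod_cast h1) hA2
      have h4 : T ^ (1 - α) ≤ 1 := Real.rpow_le_one_of_one_le_of_nonpos hT.le (by linarith)
      calc (((2 ^ i : ℕ)) : ℝ) * T ^ (1 - α) * Real.exp X
          ≤ T ^ (1 / 2 : ℝ) * 1 * T ^ (1 / 2 : ℝ) := by gcongr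
        _ = T := by
            rw [mul_one, ← Real.rpow_add hT0]
            norm_num
    have hlarge : ∀ B : ℕ, YY X α T (2 ^ i) < B → wg η ρ α T n A B = 0 := by
      intro B hBY
      by_contra hne
      obtain ⟨w1, _, w3⟩ := wg_supp hκ hη hρ hT hn hA1 hne
      have h5 : ((2 ^ i : ℕ) : ℝ) * T ^ (1 - α) * Real.exp X < B := by
        unfold YY at hBY
        exact (Nat.floor_lt (by positivity)).1 hBY
      have h6 : (A : ℝ) ≤ 2 * ((2 ^ i : ℕ) : ℝ) := by exact_mod_cast h2.le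
      have h7 : 2 * π * (T ^ α * Real.exp (-X)) * B ≤ 2 * ((2 ^ i : ℕ) : ℝ) * T := by
        calc 2 * π * (T ^ α * Real.exp (-X)) * B ≤ 2 * π * n * B := by gcongr
          _ ≤ A * T := w3
          _ ≤ 2 * ((2 ^ i : ℕ) : ℝ) * T := by gcongr
      have h8 : T ^ α * Real.exp (-X) * (((2 ^ i : ℕ) : ℝ) * T ^ (1 - α) * Real.exp X) =
          ((2 ^ i : ℕ) : ℝ) * T := by
        have h9 : T ^ α * T ^ (1 - α) = T := by
          rw [← Real.rpow_add hT0]
          norm_num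
        have h10 : Real.exp (-X) * Real.exp X = 1 := by
          rw [← Real.exp_add]
          simp
        calc _ = (T ^ α * T ^ (1 - α)) * (Real.exp (-X) * Real.exp X) * ((2 ^ i : ℕ) : ℝ) := by
              ring
          _ = _ := by rw [h9, h10]; ring
      have h11 : 0 < T ^ α * Real.exp (-X) := by positivity
      have h12 : T ^ α * Real.exp (-X) * (((2 ^ i : ℕ) : ℝ) * T ^ (1 - α) * Real.exp X) <
          T ^ α * Real.exp (-X) * B := mul_lt_mul_of_pos_left h5 h11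
      rw [h8] at h12
      have hpi := Real.pi_gt_three
      have h13 : 0 < ((2 ^ i : ℕ) : ℝ) * T := by positivity
      nlinarith
    have hΦ0 : ∀ B : ℕ, YY X α T (2 ^ i) < B → Φ A n B = 0 := by
      intro B hBY
      simp only [hΦ]
      rw [hlarge B hBY]
      simp
    simp only [hΨ]
    rw [Bs, Finset.sum_filter]
    have e5 : ∀ B : ℕ, (if B.Coprime A then (if n.Coprime A then Φ A n B else 0) else 0) =
        if (n * B).Coprime A then Φ A n B else 0 := by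
      intro B
      by_cases h4 : B.Coprime A
      · rw [if_pos h4]
        by_cases h3 : n.Coprime A
        · rw [if_pos h3, if_pos (Nat.coprime_mul_iff_left.2 ⟨h3, h4⟩)]
        · rw [if_neg h3, if_neg fun h => h3 (Nat.coprime_mul_iff_left.1 h).1]
      · rw [if_neg h4, if_neg fun h => h4 (Nat.coprime_mul_iff_left.1 h).2]
    simp only [e5]
    symm
    refine Finset.sum_subset (Finset.Icc_subset_Icc le_rfl hYT) fun B hB1 hB2 => ?_
    rw [Finset.mem_Icc] at hB1 hB2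
    rw [hΦ0 B (by omega)]
    simp
  -- ZZ in terms of Ψ
  have e1 : ZZ η ρ c α T (cv a g) = ∑ A ∈ As c α T,
      (((μ A : ℝ) / (Nat.totient A : ℝ) : ℝ) : ℂ) *
        ∑ m ∈ Finset.Ico 1 (2 ^ J), ∑ k ∈ Finset.Ico 1 (2 ^ J),
          (a m : ℂ) * (g k : ℂ) * Ψ A (m * k) := by
    unfold ZZ
    refine Finset.sum_congr rfl fun A hA => ?_
    congr 1
    rw [← conv_sum hNJ a g (Ψ A) (hΨ0 A · (hAs A hA).1)]
    refine Finset.sum_congr rfl fun n _ => ?_
    simp only [hΨ, hΦ, Finset.mul_sum]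
    refine Finset.sum_congr rfl fun B _ => ?_
    split_ifs
    · ring
    · simp
  have e2 : ∀ A, ∑ m ∈ Finset.Ico 1 (2 ^ J), ∑ k ∈ Finset.Ico 1 (2 ^ J),
      (a m : ℂ) * (g k : ℂ) * Ψ A (m * k) = ∑ j ∈ Finset.range J, ∑ l ∈ Finset.range J,
        ∑ m ∈ Finset.Ico (2 ^ j) (2 * 2 ^ j), ∑ k ∈ Finset.Ico (2 ^ l) (2 * 2 ^ l),
          (a m : ℂ) * (g k : ℂ) * Ψ A (m * k) := by
    intro A
    rw [dyad]
    refine Finset.sum_congr rfl fun j _ => ?_
    rw [Finset.sum_comm]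
    rw [dyad]
    refine Finset.sum_congr rfl fun l _ => ?_
    rw [Finset.sum_comm]
  have e3 : ∀ f : ℕ → ℂ, ∑ A ∈ As c α T, f A = ∑ i ∈ Finset.range J,
      ∑ A ∈ As c α T with (2 ^ i ≤ A ∧ A < 2 * 2 ^ i), f A := by
    intro f
    have h1 : ∑ A ∈ As c α T, f A = ∑ A ∈ Finset.Ico 1 (2 ^ J), if A ∈ As c α T then f A else 0 := by
      rw [← Finset.sum_filter]
      refine Finset.sum_congr ?_ fun _ _ => rfl
      ext A
      rw [Finset.mem_filter, Finset.mem_Ico]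
      constructor
      · intro hA
        exact ⟨⟨(hAs A hA).1, (hAs A hA).2.2⟩, hA⟩
      · exact fun h => h.2
    rw [h1, dyad]
    refine Finset.sum_congr rfl fun i _ => ?_
    rw [← Finset.sum_filter]
    refine Finset.sum_congr ?_ fun _ _ => rfl
    ext A
    rw [Finset.mem_filter, Finset.mem_filter, Finset.mem_Ico]
    tauto
  rw [e1, e3]
  refine Finset.sum_congr rfl fun i _ => ?_
  simp only [e2, Finset.mul_sum]
  rw [Finset.sum_comm]
  refine Finset.sum_congr rfl fun j _ => ?_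
  rw [Finset.sum_comm]
  refine Finset.sum_congr rfl fun l _ => ?_
  unfold BX
  refine Finset.sum_congr rfl fun A hA => ?_
  rw [Finset.mem_filter] at hA
  rw [Finset.mul_sum]
  refine Finset.sum_congr rfl fun m hm => ?_
  rw [Finset.mul_sum]
  refine Finset.sum_congr rfl fun k hk => ?_
  rw [Finset.mem_Ico] at hm hk
  have hm1 : 1 ≤ m := le_trans Nat.one_le_two_pow hm.1
  have hk1 : 1 ≤ k := le_trans Nat.one_le_two_pow hk.1
  have hmk : 1 ≤ m * k := Nat.one_le_iff_ne_zero.2 (Nat.mul_ne_zero (by omega) (by omega))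
  rw [hB i A (m * k) hA.1 hA.2.1 hA.2.2 hmk]
  congr 1
  rw [Finset.mul_sum]
  refine Finset.sum_congr rfl fun B _ => ?_
  simp only [hΦ, cs]
  split_ifs
  · ring
  · simp

end Pool.Agent.MP_67227b_nt.Gg
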