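import Mathlib
import Pool.Agent.MP_67227b_nt.Gg.GgBoxL
import Pool.Agent.MP_67227b_nt.Gg.GgNum1
import Pool.Agent.MP_67227b_nt.Gg.GgZb

set_option autoImplicit false

open Filter Topology Set MeasureTheory Complex
open scoped Real ContDiff ArithmeticFunction ArithmeticFunction.Moebius
open scoped Classical

namespace Pool.Agent.MP_67227b_nt.Gg

open Pool.Agent.BV (tau csum)
open Pool.Agent.LS (prim)

/-- The box sum vanishes if the first sequence vanishes on `[P, 2P)`. -/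
private theorem ka_zero {η ρ : ℝ → ℝ} {X c α T : ℝ} {a g : ℕ → ℂ} {K P Q : ℕ}
    (h : ∀ m, P ≤ m → m < 2 * P → a m = 0) : BX η ρ X c α T a g K P Q = 0 := by
  unfold BX
  refine Finset.sum_eq_zero fun A _ => ?_
  rw [Finset.sum_eq_zero, mul_zero]
  intro m hm
  rw [Finset.mem_Ico] at hm
  refine Finset.sum_eq_zero fun k _ => Finset.sum_eq_zero fun B _ => ?_
  rw [h m hm.1 hm.2]
  simp

/-- The logarithms. -/
private theorem ka_log (X c : ℝ) (hc : 0 < c) : ∀ᶠ T : ℝ in atTop,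
    ∀ α ∈ Icc (1 : ℝ) (3 / 2 - 4 * c), ∀ x : ℝ, 1 ≤ x → x ≤ T ^ α * Real.exp X →
      1 + Real.log (2 * x) ≤ 3 * Real.log T := by
  have h1 : ∀ᶠ T : ℝ in atTop, 1 + Real.log 2 + X ≤ (3 / 2) * Real.log T := by
    have h2 : Tendsto (fun T : ℝ => (3 / 2) * Real.log T) atTop atTop :=
      Tendsto.const_mul_atTop (by norm_num) Real.tendsto_log_atTop
    exact h2.eventually_ge_atTop _
  filter_upwards [h1, eventually_ge_atTop (1 : ℝ)] with T hT hT1 α hα x hx hxT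
  have hT0 : 0 < T := by linarith
  have hlog : 0 ≤ Real.log T := Real.log_nonneg hT1
  have h2 : Real.log x ≤ α * Real.log T + X := by
    have h3 := Real.log_le_log (by linarith) hxT
    rw [Real.log_mul (Real.rpow_pos_of_pos hT0 _).ne' (Real.exp_pos X).ne', Real.log_rpow hT0,
      Real.log_exp] at h3
    exact h3
  have h3 : α * Real.log T ≤ (3 / 2) * Real.log T :=
    mul_le_mul_of_nonneg_right (by linarith [hα.2]) hlog
  rw [Real.log_mul (by norm_num) (by linarith)]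
  linarith

/-- Type I with `g = log`. PROOF. We may assume `T^{α-1+c} ≤ 2K`, `K ≤ T^{1/2-c}`,
`PQ ≤ T^α e^X` (`BX_zero`), and `P ≤ u` (else `a1 = 0` on `[P,2P)`, so `BX = 0`), so
`P ≤ T^{α-1+c}`. `box_le` with `M = C T^{1-c/2} 12 log T`: by `typeI_num` with
`a := a1 pw`, `g := log pw`, and `tv_bx_log`: `(4+|U|)(1 + log(2Q)) ≤ 12 (1+|U|) log T`
(`2Q ≤ 2T^{3/2} e^X`, so `1 + log(2Q) ≤ 3 log T`). `log T ≤ T^{c/4}` at the end. (`cs` and the casts:
`cs g1 k * pw U k = (log k : ℂ) * pw U k`.) -/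
theorem kind1 {X κ : ℝ} {η ρ : ℝ → ℝ} (hX : 0 ≤ X) (hκ : 0 < κ) (hη : Eta X η) (hρ : Rho κ ρ)
    (c : ℝ) (hc : 0 < c) : ∃ C : ℝ, 0 ≤ C ∧ ∀ᶠ T : ℝ in atTop,
      ∀ α ∈ Icc (1 : ℝ) (3 / 2 - 4 * c), ∀ K P Q : ℕ, 1 ≤ K → 1 ≤ P → 1 ≤ Q →
      ‖BX η ρ X c α T (cs (a1 (uV c α T))) (cs g1) K P Q‖ ≤ C * T ^ (1 - c / 16) := by
  obtain ⟨C₁, hC₁, h1⟩ := typeI_num X c hc
  obtain ⟨C₂, hC₂, h2⟩ := box_le hκ hη hρ
  refine ⟨C₂ * (C₁ * 12), by positivity, ?_⟩
  have hlogT : ∀ᶠ T : ℝ in atTop, Real.log T ≤ T ^ (c / 4) := by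
    have h3 := (isLittleO_log_rpow_atTop (show 0 < c / 4 by linarith)).bound
      (show (0 : ℝ) < 1 by norm_num)
    filter_upwards [h3, eventually_ge_atTop (1 : ℝ)] with T hT hT1
    rw [one_mul, Real.norm_eq_abs, Real.norm_eq_abs,
      abs_of_nonneg (Real.rpow_nonneg (by linarith) _)] at hT
    exact (le_abs_self _).trans hT
  filter_upwards [h1, ka_log X c hc, hlogT, eventually_gt_atTop (1 : ℝ),
    Real.tendsto_log_atTop.eventually_ge_atTop 1] with T hT1 hT2 hT3 hT4 hT5 α hα K P Q hK hP hQ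
  have hT0 : 0 < T := by linarith
  have hRHS : 0 ≤ C₂ * (C₁ * 12) * T ^ (1 - c / 16) := by positivity
  by_cases hcond : T ^ (α - 1 + c) ≤ 2 * K ∧ (K : ℝ) ≤ T ^ (1 / 2 - c) ∧
      T ^ α ≤ 4 * P * Q * Real.exp X ∧ (P : ℝ) * Q ≤ T ^ α * Real.exp X
  swap
  · rw [BX_zero hκ hη hρ hT4 _ _ hP hQ hcond, norm_zero]
    exact hRHS
  obtain ⟨-, hK2, -, hPQ⟩ := hcond
  have hP1 : (1 : ℝ) ≤ P := by exact_mod_cast hP
  have hQ1 : (1 : ℝ) ≤ Q := by exact_mod_cast hQ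
  by_cases hPu : P ≤ uV c α T
  swap
  · rw [ka_zero, norm_zero]
    · exact hRHS
    · intro m hm _
      have h3 : a1 (uV c α T) m = 0 := by
        unfold a1
        rw [if_neg (by omega)]
      show ((a1 (uV c α T) m : ℝ) : ℂ) = 0
      rw [h3, Complex.ofReal_zero]
  have hPT : (P : ℝ) ≤ T ^ (α - 1 + c) := by
    have h3 : (P : ℝ) ≤ (uV c α T : ℝ) := by exact_mod_cast hPu
    exact h3.trans (Nat.floor_le (Real.rpow_nonneg hT0.le _))
  have hQT : (Q : ℝ) ≤ T ^ α * Real.exp X := by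
    refine le_trans ?_ hPQ
    nlinarith
  have hlQ : 1 + Real.log (2 * Q) ≤ 3 * Real.log T := hT2 α hα Q hQ1 hQT
  have hM : ∀ U V : ℝ, S3 (Finset.Ioc 1 (2 * K)) (bx P fun m => cs (a1 (uV c α T)) m * pw U m)
      (bx Q fun k => cs g1 k * pw U k) (pw V) (2 * P) (2 * Q) (YY X α T K) K ≤
        (C₁ * T ^ (1 - c / 2) * (12 * Real.log T)) * ((1 + |U|) * (1 + |V|)) := by
    intro U V
    have h3 : ∀ m, P ≤ m → m < 2 * P →
        ‖cs (a1 (uV c α T)) m * pw U m‖ ≤ 3 * Real.log T := by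
      intro m _ _
      have h4 : ‖cs (a1 (uV c α T)) m‖ ≤ 1 := by
        show ‖((a1 (uV c α T) m : ℝ) : ℂ)‖ ≤ 1
        rw [Complex.norm_real, Real.norm_eq_abs]
        unfold a1
        split_ifs
        · exact Pool.Agent.BGV.abs_mu_le m
        · rw [abs_zero]; exact zero_le_one
      rw [norm_mul]
      calc ‖cs (a1 (uV c α T)) m‖ * ‖pw U m‖ ≤ 1 * 1 :=
            mul_le_mul h4 (norm_pw U m) (norm_nonneg _) zero_le_one
        _ ≤ 3 * Real.log T := by linarith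
    have h4 := hT1 α hα K P Q hK hP hQ hK2 hPT (fun m => cs (a1 (uV c α T)) m * pw U m)
      (fun k => cs g1 k * pw U k) _ V h3 (tv_bx_log U hQ)
    refine h4.trans ?_
    have h5 : (4 + |U|) * (1 + Real.log (2 * Q)) ≤ (12 * Real.log T) * ((1 + |U|) * (1 + |V|)) := by
      have hU := abs_nonneg U
      have hV := abs_nonneg V
      have h6 : (4 + |U|) ≤ 4 * ((1 + |U|) * (1 + |V|)) := by nlinarith
      have h7 : 0 ≤ Real.log T := by linarith
      calc (4 + |U|) * (1 + Real.log (2 * Q)) ≤ (4 + |U|) * (3 * Real.log T) :=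
            mul_le_mul_of_nonneg_left hlQ (by linarith)
        _ ≤ 4 * ((1 + |U|) * (1 + |V|)) * (3 * Real.log T) :=
            mul_le_mul_of_nonneg_right h6 (by linarith)
        _ = _ := by ring
    calc C₁ * T ^ (1 - c / 2) * ((4 + |U|) * (1 + Real.log (2 * Q)))
        ≤ C₁ * T ^ (1 - c / 2) * ((12 * Real.log T) * ((1 + |U|) * (1 + |V|))) :=
          mul_le_mul_of_nonneg_left h5 (by positivity)
      _ = _ := by ring
  have h3 := h2 c α T (cs (a1 (uV c α T))) (cs g1) K P Q _ hT4 hK hP hQ hM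
  refine h3.trans ?_
  have h4 : T ^ (1 - c / 2) * Real.log T ≤ T ^ (1 - c / 16) := by
    calc T ^ (1 - c / 2) * Real.log T ≤ T ^ (1 - c / 2) * T ^ (c / 4) :=
          mul_le_mul_of_nonneg_left hT3 (Real.rpow_nonneg hT0.le _)
      _ = T ^ (1 - c / 4) := by
          rw [← Real.rpow_add hT0]
          congr 1
          ring
      _ ≤ T ^ (1 - c / 16) := Real.rpow_le_rpow_of_exponent_le hT4.le (by linarith)
  calc C₂ * (C₁ * T ^ (1 - c / 2) * (12 * Real.log T))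
      = C₂ * (C₁ * 12) * (T ^ (1 - c / 2) * Real.log T) := by ring
    _ ≤ C₂ * (C₁ * 12) * T ^ (1 - c / 16) := mul_le_mul_of_nonneg_left h4 (by positivity)

end Pool.Agent.MP_67227b_nt.Gg
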