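import Mathlib
import Pool.Agent.MP_67227b_nt.Gg.GgErrDefs

set_option autoImplicit false

open Filter Topology Set MeasureTheory Complex
open scoped Real ContDiff ArithmeticFunction ArithmeticFunction.Moebius
open scoped Classical

namespace Pool.Agent.MP_67227b_nt.Gg

open Pool.Agent.BV (tau csum)
open Pool.Agent.LS (prim)

/-- The convolution of the last two sequences. -/
private noncomputable def ls2_h (g b : ℕ → ℂ) (X₂ Y e l : ℕ) : ℂ :=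
  ∑ p ∈ (Finset.Icc 1 X₂ ×ˢ Finset.Icc 1 Y) with (p.1 * p.2 = l ∧ l.Coprime e), g p.1 * b p.2

private theorem ls2_conv {q : ℕ} (g b : ℕ → ℂ) (X₂ Y e : ℕ) (ψ : DirichletCharacter ℂ q) :
    csum g X₂ ψ e * csum b Y ψ e =
      ∑ l ∈ Finset.Ioc 0 (0 + X₂ * Y), ls2_h g b X₂ Y e l * ψ (l : ZMod q) := by
  unfold csum ls2_h
  rw [Finset.sum_mul_sum, ← Finset.sum_product']
  have h1 : ∀ l ∈ Finset.Ioc 0 (0 + X₂ * Y),
      (∑ p ∈ (Finset.Icc 1 X₂ ×ˢ Finset.Icc 1 Y) with (p.1 * p.2 = l ∧ l.Coprime e),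
        g p.1 * b p.2) * ψ (l : ZMod q) =
      ∑ p ∈ (Finset.Icc 1 X₂ ×ˢ Finset.Icc 1 Y) with (p.1 * p.2 = l),
        (if p.1.Coprime e then g p.1 * ψ (p.1 : ZMod q) else 0) *
          (if p.2.Coprime e then b p.2 * ψ (p.2 : ZMod q) else 0) := by
    intro l _
    rw [Finset.sum_mul, Finset.sum_filter, Finset.sum_filter]
    refine Finset.sum_congr rfl fun p _ => ?_
    by_cases hl : p.1 * p.2 = l
    · rw [if_pos hl]
      by_cases hc : l.Coprime e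
      · rw [if_pos ⟨hl, hc⟩]
        rw [← hl] at hc
        rw [if_pos (Nat.Coprime.coprime_mul_right hc), if_pos (Nat.Coprime.coprime_mul_left hc),
          ← hl, Nat.cast_mul, map_mul]
        ring
      · rw [if_neg (fun h => hc h.2)]
        have hc' : ¬ (p.1.Coprime e ∧ p.2.Coprime e) := by
          rintro ⟨h1, h2⟩
          exact hc (hl ▸ Nat.Coprime.mul_left h1 h2)
        by_cases h3 : p.1.Coprime e
        · rw [if_neg (fun h4 => hc' ⟨h3, h4⟩), mul_zero]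
        · rw [if_neg h3, zero_mul]
    · rw [if_neg hl, if_neg (fun h => hl h.1)]
  rw [Finset.sum_congr rfl h1]
  rw [Finset.sum_fiberwise_of_maps_to]
  rintro ⟨x, y⟩ hxy
  rw [Finset.mem_product, Finset.mem_Icc, Finset.mem_Icc] at hxy
  rw [Finset.mem_Ioc, zero_add]
  exact ⟨Nat.mul_pos hxy.1.1 hxy.2.1, Nat.mul_le_mul hxy.1.2 hxy.2.2⟩

private theorem ls2_norm {g b : ℕ → ℂ} {X₂ Y : ℕ} (e : ℕ) {G₂ D : ℝ} (h₂ : ∀ k, ‖g k‖ ≤ G₂)
    (h₃ : ∀ B, ‖b B‖ ≤ 1) (hD : ∀ n : ℕ, 1 ≤ n → n ≤ X₂ * Y → tau n ≤ D) (l : ℕ) (hl : 1 ≤ l)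
    (hl' : l ≤ X₂ * Y) : ‖ls2_h g b X₂ Y e l‖ ≤ G₂ * D := by
  have hG : 0 ≤ G₂ := (norm_nonneg _).trans (h₂ 0)
  unfold ls2_h
  refine (norm_sum_le _ _).trans ?_
  have h4 : ∀ p ∈ (Finset.Icc 1 X₂ ×ˢ Finset.Icc 1 Y).filter
      (fun p => p.1 * p.2 = l ∧ l.Coprime e), ‖g p.1 * b p.2‖ ≤ G₂ := by
    intro p _
    rw [norm_mul]
    calc ‖g p.1‖ * ‖b p.2‖ ≤ G₂ * 1 := mul_le_mul (h₂ _) (h₃ _) (norm_nonneg _) hG
      _ = G₂ := mul_one _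
  refine (Finset.sum_le_card_nsmul _ _ _ h4).trans ?_
  rw [nsmul_eq_mul, mul_comm]
  refine mul_le_mul_of_nonneg_left ?_ hG
  refine le_trans ?_ (hD l hl hl')
  unfold tau
  have h5 : ((Finset.Icc 1 X₂ ×ˢ Finset.Icc 1 Y).filter
      (fun p => p.1 * p.2 = l ∧ l.Coprime e)).card ≤ l.divisors.card := by
    refine Finset.card_le_card_of_injOn (fun p => p.1) ?_ ?_
    · intro p hp
      have hp' := (Finset.mem_filter.1 (Finset.mem_coe.1 hp)).2.1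
      rw [Finset.mem_coe, Nat.mem_divisors]
      exact ⟨Dvd.intro _ hp', by omega⟩
    · intro p hp p' hp' hpp
      have h6 := (Finset.mem_filter.1 (Finset.mem_coe.1 hp)).2.1
      have h7 := (Finset.mem_filter.1 (Finset.mem_coe.1 hp')).2.1
      have hpp' : p.1 = p'.1 := hpp
      have h8 : 0 < p.1 := by
        have h9 := (Finset.mem_product.1 (Finset.mem_filter.1 (Finset.mem_coe.1 hp)).1).1
        rw [Finset.mem_Icc] at h9
        exact h9.1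
      refine Prod.ext hpp' ?_
      rw [← hpp', ← h6] at h7
      exact (Nat.eq_of_mul_eq_mul_left h8 h7).symm
  exact_mod_cast h5

/-- PROOF. For each `ψ`: `csum g X₂ ψ e * csum b Y ψ e = csum h (X₂ Y) ψ e` with
`h(l) = ∑_{k B = l, k ≤ X₂, B ≤ Y} g(k) b(B)` (both coprimality conditions: `(k,e) = (B,e) = 1` iff
`(kB,e) = 1`), `‖h l‖ ≤ G₂ tau l ≤ G₂ D`. Now `LS.bilinear_large_sieve` with `M = M' = 0`,
`N = X₁`, `N' = X₂ Y` and the sequences restricted to `(n,e) = 1`; `q/φ(q) ≥ 1`;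
`∑ ‖a‖² ≤ G₁² X₁`, `∑ ‖h‖² ≤ G₂² D² X₂ Y`. -/
theorem ls2 {a g b : ℕ → ℂ} {X₁ X₂ Y Q e : ℕ} {G₁ G₂ D : ℝ} (h₁ : ∀ m, ‖a m‖ ≤ G₁)
    (h₂ : ∀ k, ‖g k‖ ≤ G₂) (h₃ : ∀ B, ‖b B‖ ≤ 1)
    (hD : ∀ n : ℕ, 1 ≤ n → n ≤ X₂ * Y → tau n ≤ D) (hD1 : 1 ≤ D) :
    ∑ q ∈ Finset.Icc 1 Q, P3 a g b X₁ X₂ Y q e ≤
      G₁ * G₂ * D * (Real.sqrt (((Q : ℝ) ^ 2 + 7 * X₁) * ((Q : ℝ) ^ 2 + 7 * (X₂ * Y))) *
        Real.sqrt (X₁ * (X₂ * Y))) := by
  have hG₁ : 0 ≤ G₁ := (norm_nonneg _).trans (h₁ 0)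
  have hG₂ : 0 ≤ G₂ := (norm_nonneg _).trans (h₂ 0)
  have hD0 : 0 ≤ D := by linarith
  let a' : ℕ → ℂ := fun m => if m.Coprime e then a m else 0
  have ha' : ∀ m, ‖a' m‖ ≤ G₁ := by
    intro m
    show ‖if m.Coprime e then a m else 0‖ ≤ G₁
    split_ifs
    · exact h₁ m
    · rw [norm_zero]
      exact hG₁
  have hcs : ∀ (q : ℕ) (ψ : DirichletCharacter ℂ q),
      csum a X₁ ψ e = ∑ m ∈ Finset.Ioc 0 (0 + X₁), a' m * ψ (m : ZMod q) := by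
    intro q ψ
    unfold csum
    have e1 : Finset.Icc 1 X₁ = Finset.Ioc 0 (0 + X₁) := by
      ext n
      rw [Finset.mem_Icc, Finset.mem_Ioc, zero_add]
      omega
    rw [e1]
    refine Finset.sum_congr rfl fun m _ => ?_
    show _ = (if m.Coprime e then a m else 0) * _
    split_ifs
    · rfl
    · rw [zero_mul]
  have hb := Pool.Agent.LS.bilinear_large_sieve Q 0 X₁ 0 (X₂ * Y) a' (ls2_h g b X₂ Y e)
  refine le_trans ?_ (hb.trans ?_)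
  · refine Finset.sum_le_sum fun q hq => ?_
    rw [Finset.mem_Icc] at hq
    have hφ : 0 < Nat.totient q := Nat.totient_pos.2 hq.1
    have h4 : (1 : ℝ) ≤ (q : ℝ) / q.totient := by
      rw [le_div_iff₀ (by exact_mod_cast hφ), one_mul]
      exact_mod_cast Nat.totient_le q
    have h5 : P3 a g b X₁ X₂ Y q e = ∑ χ ∈ prim q,
        ‖∑ m ∈ Finset.Ioc 0 (0 + X₁), a' m * χ (m : ZMod q)‖ *
          ‖∑ n ∈ Finset.Ioc 0 (0 + X₂ * Y), ls2_h g b X₂ Y e n * χ (n : ZMod q)‖ := by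
      unfold P3
      refine Finset.sum_congr rfl fun ψ _ => ?_
      rw [← ls2_conv, ← hcs, norm_mul, mul_assoc]
    rw [h5]
    refine le_mul_of_one_le_left ?_ h4
    exact Finset.sum_nonneg fun χ _ => by positivity
  · have hA : ∑ n ∈ Finset.Ioc 0 (0 + X₁), ‖a' n‖ ^ 2 ≤ G₁ ^ 2 * X₁ := by
      have h6 : ∀ n ∈ Finset.Ioc 0 (0 + X₁), ‖a' n‖ ^ 2 ≤ G₁ ^ 2 := fun n _ =>
        pow_le_pow_left₀ (norm_nonneg _) (ha' n) 2
      refine (Finset.sum_le_card_nsmul _ _ _ h6).trans ?_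
      rw [nsmul_eq_mul, Nat.card_Ioc, zero_add, Nat.sub_zero, mul_comm]
    have hH : ∑ n ∈ Finset.Ioc 0 (0 + X₂ * Y), ‖ls2_h g b X₂ Y e n‖ ^ 2 ≤
        (G₂ * D) ^ 2 * (X₂ * Y) := by
      have h6 : ∀ n ∈ Finset.Ioc 0 (0 + X₂ * Y), ‖ls2_h g b X₂ Y e n‖ ^ 2 ≤ (G₂ * D) ^ 2 := by
        intro n hn
        rw [Finset.mem_Ioc, zero_add] at hn
        exact pow_le_pow_left₀ (norm_nonneg _) (ls2_norm e h₂ h₃ hD n hn.1 hn.2) 2
      refine (Finset.sum_le_card_nsmul _ _ _ h6).trans ?_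
      rw [nsmul_eq_mul, Nat.card_Ioc, zero_add, Nat.sub_zero, mul_comm, Nat.cast_mul]
    have s1 : Real.sqrt (((Q : ℝ) ^ 2 + 7 * X₁) * ∑ n ∈ Finset.Ioc 0 (0 + X₁), ‖a' n‖ ^ 2) ≤
        G₁ * (Real.sqrt ((Q : ℝ) ^ 2 + 7 * X₁) * Real.sqrt X₁) := by
      refine (Real.sqrt_le_sqrt (mul_le_mul_of_nonneg_left hA (by positivity))).trans ?_
      rw [Real.sqrt_mul (by positivity), Real.sqrt_mul (by positivity), Real.sqrt_sq hG₁]
      apply le_of_eq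
      ring
    have s2 : Real.sqrt (((Q : ℝ) ^ 2 + 7 * ((X₂ * Y : ℕ) : ℝ)) *
        ∑ n ∈ Finset.Ioc 0 (0 + X₂ * Y), ‖ls2_h g b X₂ Y e n‖ ^ 2) ≤
        G₂ * D * (Real.sqrt ((Q : ℝ) ^ 2 + 7 * (X₂ * Y)) * Real.sqrt (X₂ * Y)) := by
      rw [Nat.cast_mul]
      refine (Real.sqrt_le_sqrt (mul_le_mul_of_nonneg_left hH (by positivity))).trans ?_
      rw [Real.sqrt_mul (by positivity), Real.sqrt_mul (by positivity),
        Real.sqrt_sq (by positivity)]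
      apply le_of_eq
      ring
    refine (mul_le_mul s1 s2 (Real.sqrt_nonneg _) (by positivity)).trans ?_
    have e1 : Real.sqrt (((Q : ℝ) ^ 2 + 7 * X₁) * ((Q : ℝ) ^ 2 + 7 * (X₂ * Y))) =
        Real.sqrt ((Q : ℝ) ^ 2 + 7 * X₁) * Real.sqrt ((Q : ℝ) ^ 2 + 7 * (X₂ * Y)) :=
      Real.sqrt_mul (by positivity) _
    have e2 : Real.sqrt ((X₁ : ℝ) * (X₂ * Y)) = Real.sqrt X₁ * Real.sqrt (X₂ * Y) :=
      Real.sqrt_mul (by positivity) _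
    rw [e1, e2]
    apply le_of_eq
    ring

end Pool.Agent.MP_67227b_nt.Gg
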