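import Mathlib
import Pool.Agent.MP_67227b_nt.Gg.GgLs2

set_option autoImplicit false

open Filter Topology Set MeasureTheory Complex
open scoped Real ContDiff ArithmeticFunction ArithmeticFunction.Moebius
open scoped Classical

namespace Pool.Agent.MP_67227b_nt.Gg

open Pool.Agent.BV (tau csum)
open Pool.Agent.LS (prim)

private theorem large_P3 (a g b : ℕ → ℂ) (X₁ X₂ Y q e : ℕ) : 0 ≤ P3 a g b X₁ X₂ Y q e := by
  unfold P3
  exact Finset.sum_nonneg fun ψ _ => by positivity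

private theorem large_phi {n : ℕ} {D : ℝ} (hn : 1 ≤ n) (h : tau n ≤ D) :
    (n : ℝ) ≤ D * (Nat.totient n : ℝ) := by
  have h1 := Pool.Agent.BV.div_totient_le n (by omega)
  have h2 : (0 : ℝ) < Nat.totient n := by exact_mod_cast Nat.totient_pos.2 hn
  rw [div_le_iff₀ h2] at h1
  exact h1.trans (mul_le_mul_of_nonneg_right h h2.le)

private theorem large_sqrt {Q x y r : ℝ} (hQ : 0 ≤ Q) (hx : 0 ≤ x) (hy : 0 ≤ y) (hr : Q ≤ 2 * r) :
    Real.sqrt ((Q ^ 2 + 7 * x) * (Q ^ 2 + 7 * y)) ≤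
      4 * r ^ 2 + 6 * r * (Real.sqrt x + Real.sqrt y) + 7 * Real.sqrt (x * y) := by
  have hr0 : 0 ≤ r := by linarith
  have hsx := Real.sq_sqrt hx
  have hsy := Real.sq_sqrt hy
  have h1 : ∀ z : ℝ, 0 ≤ z → Real.sqrt (Q ^ 2 + 7 * z) ≤ Q + Real.sqrt 7 * Real.sqrt z := by
    intro z hz
    apply Real.sqrt_le_iff.2
    refine ⟨by positivity, ?_⟩
    have h7 := Real.sq_sqrt (show (0 : ℝ) ≤ 7 by norm_num)
    have hz2 := Real.sq_sqrt hz
    have h8 : (Q + Real.sqrt 7 * Real.sqrt z) ^ 2 =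
        Q ^ 2 + 2 * Q * (Real.sqrt 7 * Real.sqrt z) + Real.sqrt 7 ^ 2 * Real.sqrt z ^ 2 := by ring
    rw [h8, h7, hz2]
    have : 0 ≤ 2 * Q * (Real.sqrt 7 * Real.sqrt z) := by positivity
    linarith
  have h7 : Real.sqrt 7 ≤ 3 := by
    apply Real.sqrt_le_iff.2
    norm_num
  have h77 := Real.mul_self_sqrt (show (0 : ℝ) ≤ 7 by norm_num)
  have e1 : Real.sqrt ((Q ^ 2 + 7 * x) * (Q ^ 2 + 7 * y)) =
      Real.sqrt (Q ^ 2 + 7 * x) * Real.sqrt (Q ^ 2 + 7 * y) := Real.sqrt_mul (by positivity) _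
  have e2 : Real.sqrt (x * y) = Real.sqrt x * Real.sqrt y := Real.sqrt_mul hx _
  rw [e1, e2]
  calc Real.sqrt (Q ^ 2 + 7 * x) * Real.sqrt (Q ^ 2 + 7 * y)
      ≤ (Q + Real.sqrt 7 * Real.sqrt x) * (Q + Real.sqrt 7 * Real.sqrt y) :=
        mul_le_mul (h1 x hx) (h1 y hy) (Real.sqrt_nonneg _) (by positivity)
    _ = Q ^ 2 + Q * Real.sqrt 7 * (Real.sqrt x + Real.sqrt y) +
        (Real.sqrt 7 * Real.sqrt 7) * (Real.sqrt x * Real.sqrt y) := by ring
    _ ≤ 4 * r ^ 2 + 6 * r * (Real.sqrt x + Real.sqrt y) + 7 * (Real.sqrt x * Real.sqrt y) := by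
        rw [h77]
        have a1 : Q ^ 2 ≤ 4 * r ^ 2 := by nlinarith
        have a2 : Q * Real.sqrt 7 ≤ 6 * r := by
          calc Q * Real.sqrt 7 ≤ (2 * r) * 3 := mul_le_mul hr h7 (Real.sqrt_nonneg _) (by positivity)
            _ = 6 * r := by ring
        have a3 : Q * Real.sqrt 7 * (Real.sqrt x + Real.sqrt y) ≤
            6 * r * (Real.sqrt x + Real.sqrt y) := mul_le_mul_of_nonneg_right a2 (by positivity)
        linarith

/-- The weight of one pair. -/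
private theorem large_weight {q e K : ℕ} {D : ℝ} (hq : 1 ≤ q) (he : 1 ≤ e) (hD0 : 0 ≤ D)
    (hDq : (q : ℝ) ≤ D * (Nat.totient q : ℝ)) (hDe : (e : ℝ) ≤ D * (Nat.totient e : ℝ))
    (hK : 1 ≤ K) (hKq : K ≤ q * e) :
    (1 / (Nat.totient e : ℝ) ^ 2) * (Real.sqrt (q : ℝ) / (Nat.totient q : ℝ) ^ 2) ≤
      D ^ 4 * ((1 / (e : ℝ)) * (1 / (K : ℝ)) * (1 / Real.sqrt ((K : ℝ) / e))) := by
  have heR : (0 : ℝ) < e := by exact_mod_cast he
  have hqR : (0 : ℝ) < q := by exact_mod_cast hq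
  have hKR : (0 : ℝ) < K := by exact_mod_cast hK
  have hφq : (0 : ℝ) < Nat.totient q := by exact_mod_cast Nat.totient_pos.2 hq
  have hφe : (0 : ℝ) < Nat.totient e := by exact_mod_cast Nat.totient_pos.2 he
  set r : ℝ := (K : ℝ) / e with hr
  have hr0 : 0 < r := by positivity
  have hrq : r ≤ q := by
    rw [hr, div_le_iff₀ heR]
    exact_mod_cast hKq
  have hs0 : 0 < Real.sqrt r := Real.sqrt_pos.2 hr0
  have hsq : Real.sqrt r ≤ Real.sqrt q := Real.sqrt_le_sqrt hrq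
  have hqs : Real.sqrt (q : ℝ) * Real.sqrt q = q := Real.mul_self_sqrt hqR.le
  have h1 : 1 / (Nat.totient e : ℝ) ^ 2 ≤ D ^ 2 / (e : ℝ) ^ 2 := by
    rw [div_le_div_iff₀ (by positivity) (by positivity), one_mul, ← mul_pow]
    exact pow_le_pow_left₀ heR.le hDe 2
  have h2 : Real.sqrt (q : ℝ) / (Nat.totient q : ℝ) ^ 2 ≤ D ^ 2 / (r * Real.sqrt r) := by
    have h3 : Real.sqrt (q : ℝ) / (Nat.totient q : ℝ) ^ 2 ≤ D ^ 2 / (q * Real.sqrt q) := by
      rw [div_le_div_iff₀ (by positivity) (by positivity)]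
      calc Real.sqrt (q : ℝ) * (q * Real.sqrt q) = (q : ℝ) ^ 2 := by
            rw [mul_left_comm, hqs]
            ring
        _ ≤ (D * (Nat.totient q : ℝ)) ^ 2 := pow_le_pow_left₀ hqR.le hDq 2
        _ = D ^ 2 * (Nat.totient q : ℝ) ^ 2 := by ring
    refine h3.trans (div_le_div_of_nonneg_left (by positivity) (by positivity) ?_)
    exact mul_le_mul hrq hsq hs0.le hqR.le
  calc (1 / (Nat.totient e : ℝ) ^ 2) * (Real.sqrt (q : ℝ) / (Nat.totient q : ℝ) ^ 2)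
      ≤ (D ^ 2 / (e : ℝ) ^ 2) * (D ^ 2 / (r * Real.sqrt r)) :=
        mul_le_mul h1 h2 (by positivity) (by positivity)
    _ = D ^ 4 * ((1 / (e : ℝ)) * (1 / (K : ℝ)) * (1 / Real.sqrt r)) := by
        have hrK : r * e = K := by
          rw [hr]
          field_simp
        rw [← hrK]
        field_simp

private theorem large_one {K R : ℕ} {r : ℝ} (hr0 : 0 < r) (hrK : r ≤ K) (hR : 1 ≤ R)
    (hRr : (R : ℝ) ≤ 2 * r) {u w : ℝ} (hu : 0 ≤ u) (hw : 0 ≤ w) :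
    (1 / Real.sqrt r) * (4 * r ^ 2 + 6 * r * u + 7 * w) ≤
      4 * K * Real.sqrt K + 6 * Real.sqrt K * u + 10 / Real.sqrt R * w := by
  have hs0 : 0 < Real.sqrt r := Real.sqrt_pos.2 hr0
  have hss : Real.sqrt r * Real.sqrt r = r := Real.mul_self_sqrt hr0.le
  have hsK : Real.sqrt r ≤ Real.sqrt K := Real.sqrt_le_sqrt hrK
  have hRR : (0 : ℝ) < R := by exact_mod_cast hR
  have hsR : 0 < Real.sqrt (R : ℝ) := Real.sqrt_pos.2 hRR
  have h1 : (1 / Real.sqrt r) * (4 * r ^ 2 + 6 * r * u + 7 * w) =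
      4 * (r * Real.sqrt r) + 6 * Real.sqrt r * u + 7 / Real.sqrt r * w := by
    have e1 : (1 / Real.sqrt r) * r = Real.sqrt r := by
      rw [one_div, inv_mul_eq_iff_eq_mul₀ hs0.ne']
      exact hss.symm
    calc (1 / Real.sqrt r) * (4 * r ^ 2 + 6 * r * u + 7 * w) =
        4 * r * ((1 / Real.sqrt r) * r) + 6 * ((1 / Real.sqrt r) * r) * u +
          7 / Real.sqrt r * w := by ring
      _ = _ := by rw [e1]; ring
  rw [h1]
  have h2 : r * Real.sqrt r ≤ K * Real.sqrt K :=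
    mul_le_mul hrK hsK hs0.le (hr0.le.trans hrK)
  have h3 : 6 * Real.sqrt r * u ≤ 6 * Real.sqrt K * u :=
    mul_le_mul_of_nonneg_right (by linarith) hu
  have h4 : 7 / Real.sqrt r ≤ 10 / Real.sqrt R := by
    rw [div_le_div_iff₀ hs0 hsR]
    have h5 : 7 * Real.sqrt (R : ℝ) = Real.sqrt (49 * R) := by
      rw [Real.sqrt_mul (by norm_num), show (49 : ℝ) = 7 ^ 2 by norm_num,
        Real.sqrt_sq (by norm_num)]
    have h6 : 10 * Real.sqrt r = Real.sqrt (100 * r) := by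
      rw [Real.sqrt_mul (by norm_num), show (100 : ℝ) = 10 ^ 2 by norm_num,
        Real.sqrt_sq (by norm_num)]
    rw [h5, h6]
    exact Real.sqrt_le_sqrt (by linarith)
  have h5 : 7 / Real.sqrt r * w ≤ 10 / Real.sqrt R * w := mul_le_mul_of_nonneg_right h4 hw
  linarith

/-- PROOF. For fixed `e` put `r = K/e`, `Q = ⌊2K/e⌋`, `x = X₁`, `y = X₂ Y`. In the inner sum
`r ≤ q ≤ 2r`, so `√q/φ(q)² ≤ D² q^{-3/2} ≤ D² r^{-3/2}` (`q/φ(q) ≤ tau q ≤ D`,
`BV.div_totient_le`), and `1/φ(e)² ≤ D²/e²`. By `ls2` (nonnegative terms, all `q` in `Icc 1 Q`) and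
`√((Q²+7x)(Q²+7y)) ≤ Q² + 3Q(√x+√y) + 7√(xy)`, `Q ≤ 2r`:
term `e` is at most `G₁ G₂ D⁵ (1/e²) r^{-3/2} √(xy) (4r² + 6r(√x+√y) + 7√(xy))`, and
`(1/e²) r^{-3/2} = (1/(eK)) r^{-1/2}`. It is `0` unless some `q > R` has `qe < 2K`, that is
`r > R/2`, and then `7 r^{-1/2} ≤ 10/√R`; also `r ≤ K`. So each term is at most
`(1/e) (1/K) G₁ G₂ D⁵ √(xy) (4K√K + 6√K(√x+√y) + (10/√R)√(xy))`, and
`∑_{e ≤ 2K} 1/e ≤ 1 + log(2K)`. -/
theorem S3_large {a g b : ℕ → ℂ} {X₁ X₂ Y K R : ℕ} {G₁ G₂ D : ℝ} (hK : 1 ≤ K) (hR : 1 ≤ R)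
    (h₁ : ∀ m, ‖a m‖ ≤ G₁) (h₂ : ∀ k, ‖g k‖ ≤ G₂) (h₃ : ∀ B, ‖b B‖ ≤ 1)
    (hD : ∀ n : ℕ, 1 ≤ n → n ≤ max (2 * K) (X₂ * Y) → tau n ≤ D) (hD1 : 1 ≤ D) :
    S3 (Finset.Ioc R (2 * K)) a g b X₁ X₂ Y K ≤
      G₁ * G₂ * D ^ 5 * (1 + Real.log (2 * K)) * ((1 / K) * Real.sqrt (X₁ * (X₂ * Y)) *
        (4 * K * Real.sqrt K + 6 * Real.sqrt K * (Real.sqrt X₁ + Real.sqrt (X₂ * Y)) +
          10 / Real.sqrt R * Real.sqrt (X₁ * (X₂ * Y)))) := by
  have hG₁ : 0 ≤ G₁ := (norm_nonneg _).trans (h₁ 0)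
  have hG₂ : 0 ≤ G₂ := (norm_nonneg _).trans (h₂ 0)
  have hD0 : 0 ≤ D := by linarith
  have hKR : (0 : ℝ) < K := by exact_mod_cast hK
  set u : ℝ := Real.sqrt X₁ + Real.sqrt (X₂ * Y) with hu
  set w : ℝ := Real.sqrt (X₁ * (X₂ * Y)) with hw
  have hu0 : 0 ≤ u := by positivity
  have hw0 : 0 ≤ w := by positivity
  set Z : ℝ := G₁ * G₂ * D ^ 5 * ((1 / K) * w *
    (4 * K * Real.sqrt K + 6 * Real.sqrt K * u + 10 / Real.sqrt R * w)) with hZ
  have hZ0 : 0 ≤ Z := by positivity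
  have key : ∀ e ∈ Finset.Icc 1 (2 * K), (1 / (Nat.totient e : ℝ) ^ 2) *
      ∑ q ∈ Finset.Ioc R (2 * K) with (K ≤ q * e ∧ q * e < 2 * K),
        (Real.sqrt (q : ℝ) / (Nat.totient q : ℝ) ^ 2) * P3 a g b X₁ X₂ Y q e ≤
      Z * (1 / (e : ℝ)) := by
    intro e he
    rw [Finset.mem_Icc] at he
    have heR : (0 : ℝ) < e := by exact_mod_cast he.1
    rcases ((Finset.Ioc R (2 * K)).filter
      (fun q => K ≤ q * e ∧ q * e < 2 * K)).eq_empty_or_nonempty with hE | ⟨q₀, hq₀⟩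
    · rw [hE, Finset.sum_empty, mul_zero]
      positivity
    · rw [Finset.mem_filter, Finset.mem_Ioc] at hq₀
      set r : ℝ := (K : ℝ) / e with hr
      have hr0 : 0 < r := by positivity
      have hrK : r ≤ K := by
        rw [hr, div_le_iff₀ heR]
        have : (1 : ℝ) ≤ e := by exact_mod_cast he.1
        nlinarith
      have hRr : (R : ℝ) ≤ 2 * r := by
        have h1 : R * e ≤ 2 * K := by
          calc R * e ≤ q₀ * e := Nat.mul_le_mul_right _ hq₀.1.1.le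
            _ ≤ 2 * K := hq₀.2.2.le
        have h2 : (R : ℝ) * e ≤ 2 * K := by exact_mod_cast h1
        rw [hr, ← mul_div_assoc, le_div_iff₀ heR]
        exact h2
      have hsum : ∀ q ∈ (Finset.Ioc R (2 * K)).filter (fun q => K ≤ q * e ∧ q * e < 2 * K),
          (1 / (Nat.totient e : ℝ) ^ 2) * ((Real.sqrt (q : ℝ) / (Nat.totient q : ℝ) ^ 2) *
            P3 a g b X₁ X₂ Y q e) ≤
          D ^ 4 * ((1 / (e : ℝ)) * (1 / (K : ℝ)) * (1 / Real.sqrt r)) *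
            P3 a g b X₁ X₂ Y q e := by
        intro q hq
        rw [Finset.mem_filter, Finset.mem_Ioc] at hq
        have hq1 : 1 ≤ q := by omega
        rw [← mul_assoc]
        refine mul_le_mul_of_nonneg_right ?_ (large_P3 _ _ _ _ _ _ _ _)
        exact large_weight hq1 he.1 hD0
          (large_phi hq1 (hD q hq1 (le_max_of_le_left hq.1.2)))
          (large_phi he.1 (hD e he.1 (le_max_of_le_left he.2))) hK hq.2.1
      rw [Finset.mul_sum]
      refine (Finset.sum_le_sum hsum).trans ?_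
      rw [← Finset.mul_sum]
      have hsub : ∑ q ∈ (Finset.Ioc R (2 * K)).filter (fun q => K ≤ q * e ∧ q * e < 2 * K),
          P3 a g b X₁ X₂ Y q e ≤ ∑ q ∈ Finset.Icc 1 (2 * K / e), P3 a g b X₁ X₂ Y q e := by
        refine Finset.sum_le_sum_of_subset_of_nonneg ?_ (fun q _ _ => large_P3 _ _ _ _ _ _ _ _)
        intro q hq
        rw [Finset.mem_filter, Finset.mem_Ioc] at hq
        rw [Finset.mem_Icc]
        refine ⟨by omega, ?_⟩
        rw [Nat.le_div_iff_mul_le he.1]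
        exact hq.2.2.le
      have hls := ls2 (e := e) (Q := 2 * K / e) (X₁ := X₁) h₁ h₂ h₃
        (fun n h h' => hD n h (h'.trans (le_max_right _ _))) hD1
      have hQr : ((2 * K / e : ℕ) : ℝ) ≤ 2 * r := by
        have h3 : ((2 * K / e : ℕ) : ℝ) ≤ ((2 * K : ℕ) : ℝ) / e := Nat.cast_div_le
        rw [hr, ← mul_div_assoc]
        push_cast at h3
        exact h3
      have hsq := large_sqrt (Q := ((2 * K / e : ℕ) : ℝ)) (x := X₁) (y := X₂ * Y)
        (by positivity) (by positivity) (by positivity) hQr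
      have hbig : ∑ q ∈ (Finset.Ioc R (2 * K)).filter (fun q => K ≤ q * e ∧ q * e < 2 * K),
          P3 a g b X₁ X₂ Y q e ≤
          G₁ * G₂ * D * ((4 * r ^ 2 + 6 * r * u + 7 * w) * w) := by
        refine hsub.trans (hls.trans ?_)
        refine mul_le_mul_of_nonneg_left ?_ (by positivity)
        exact mul_le_mul_of_nonneg_right hsq hw0
      calc D ^ 4 * ((1 / (e : ℝ)) * (1 / (K : ℝ)) * (1 / Real.sqrt r)) *
            ∑ q ∈ (Finset.Ioc R (2 * K)).filter (fun q => K ≤ q * e ∧ q * e < 2 * K),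
              P3 a g b X₁ X₂ Y q e
          ≤ D ^ 4 * ((1 / (e : ℝ)) * (1 / (K : ℝ)) * (1 / Real.sqrt r)) *
            (G₁ * G₂ * D * ((4 * r ^ 2 + 6 * r * u + 7 * w) * w)) :=
            mul_le_mul_of_nonneg_left hbig (by positivity)
        _ = G₁ * G₂ * D ^ 5 * ((1 / K) * w * ((1 / Real.sqrt r) *
            (4 * r ^ 2 + 6 * r * u + 7 * w))) * (1 / (e : ℝ)) := by ring
        _ ≤ Z * (1 / (e : ℝ)) := by
            rw [hZ]
            refine mul_le_mul_of_nonneg_right ?_ (by positivity)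
            refine mul_le_mul_of_nonneg_left ?_ (by positivity)
            refine mul_le_mul_of_nonneg_left ?_ (by positivity)
            exact large_one hr0 hrK hR hRr hu0 hw0
  have hharm : ∑ e ∈ Finset.Icc 1 (2 * K), (1 / (e : ℝ)) ≤ 1 + Real.log (2 * K) := by
    have h4 := Pool.Agent.BV.tau_pow_sum_div 0 (2 * K)
    simp only [pow_zero, pow_one] at h4
    push_cast at h4
    exact h4
  unfold S3
  refine (Finset.sum_le_sum key).trans ?_
  rw [← Finset.mul_sum]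
  calc Z * ∑ e ∈ Finset.Icc 1 (2 * K), (1 / (e : ℝ)) ≤ Z * (1 + Real.log (2 * K)) :=
        mul_le_mul_of_nonneg_left hharm hZ0
    _ = _ := by
        rw [hZ]
        ring

end Pool.Agent.MP_67227b_nt.Gg
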