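import Mathlib

set_option autoImplicit false

open Filter Topology Set MeasureTheory Complex
open scoped Real ContDiff

namespace Pool.Agent.MP_67227b_nt.Gg

/-- The small conductors. -/
theorem num2_small {E c α T L D K P Q R Y V M lY lR : ℝ} (hE : 1 ≤ E) (hT : 1 < T)
    (hc : 0 < c) (hL : 1 ≤ L) (hD : 1 ≤ D) (hDT : D ^ 9 * L ^ 6 ≤ T ^ (c / 32)) (hK0 : 0 < K)
    (hK : T ^ (α - 1 + c) ≤ 2 * K) (hP : 0 ≤ P) (hQ : 0 ≤ Q) (hPQ : P * Q ≤ T ^ α * E)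
    (hR0 : 0 ≤ R) (hR : R ≤ T ^ (c / 4)) (hM : M = 1 + |V| * lY) (hlY : lY ≤ 3 * L)
    (hlY0 : 0 ≤ lY) (hlR : lR ≤ 2 * L) (hlR0 : 0 ≤ lR) :
    2 * (3 * L * (2 * P)) * (3 * L * (2 * Q)) * M * lR * D ^ 4 * (R ^ 2 / K) ≤
      864 * E * T ^ (1 - c / 16) * (1 + |V|) := by
  have hT0 : 0 < T := by linarith
  have hV : 0 ≤ |V| := abs_nonneg V
  have hM' : M ≤ 3 * L * (1 + |V|) := by
    rw [hM]
    nlinarith
  have hM0 : 0 ≤ M := by
    rw [hM]
    positivity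
  have hR2 : R ^ 2 ≤ T ^ (c / 2) := by
    calc R ^ 2 ≤ (T ^ (c / 4)) ^ 2 := pow_le_pow_left₀ hR0 hR 2
      _ = T ^ (c / 2) := by
          rw [pow_two, ← Real.rpow_add hT0]
          congr 1
          ring
  have hKinv : 1 / K ≤ 2 * T ^ (-(α - 1 + c)) := by
    rw [Real.rpow_neg hT0.le, div_le_iff₀ hK0]
    have h1 : 0 < T ^ (α - 1 + c) := by positivity
    rw [mul_assoc, inv_mul_eq_div, ← mul_div_assoc, le_div_iff₀ h1, one_mul]
    exact hK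
  have hcore : P * Q * (R ^ 2 / K) ≤ 2 * E * T ^ (1 - c / 2) := by
    calc P * Q * (R ^ 2 / K) = (P * Q) * (R ^ 2) * (1 / K) := by ring
      _ ≤ (T ^ α * E) * (T ^ (c / 2)) * (2 * T ^ (-(α - 1 + c))) := by
          have : 0 ≤ P * Q := mul_nonneg hP hQ
          gcongr
      _ = 2 * E * (T ^ α * T ^ (c / 2) * T ^ (-(α - 1 + c))) := by ring
      _ = 2 * E * T ^ (1 - c / 2) := by
          rw [← Real.rpow_add hT0, ← Real.rpow_add hT0]
          congr 2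
          ring
  have hLD : L ^ 4 * D ^ 4 ≤ T ^ (c / 32) := by
    refine le_trans ?_ hDT
    rw [mul_comm]
    exact mul_le_mul (pow_le_pow_right₀ hD (by norm_num)) (pow_le_pow_right₀ hL (by norm_num))
      (by positivity) (by positivity)
  have hexp : T ^ (c / 32) * T ^ (1 - c / 2) ≤ T ^ (1 - c / 16) := by
    rw [← Real.rpow_add hT0]
    exact Real.rpow_le_rpow_of_exponent_le hT.le (by linarith)
  calc 2 * (3 * L * (2 * P)) * (3 * L * (2 * Q)) * M * lR * D ^ 4 * (R ^ 2 / K)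
      = 72 * (L ^ 2 * D ^ 4) * M * lR * (P * Q * (R ^ 2 / K)) := by ring
    _ ≤ 72 * (L ^ 2 * D ^ 4) * (3 * L * (1 + |V|)) * (2 * L) * (2 * E * T ^ (1 - c / 2)) := by
        have h0 : 0 ≤ P * Q * (R ^ 2 / K) := by positivity
        gcongr
    _ = 864 * E * ((L ^ 4 * D ^ 4) * T ^ (1 - c / 2)) * (1 + |V|) := by ring
    _ ≤ 864 * E * (T ^ (c / 32) * T ^ (1 - c / 2)) * (1 + |V|) := by gcongr
    _ ≤ 864 * E * T ^ (1 - c / 16) * (1 + |V|) := by gcongr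

end Pool.Agent.MP_67227b_nt.Gg
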