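import Mathlib

set_option autoImplicit false

open Filter Topology Set MeasureTheory Complex
open scoped Real ContDiff

namespace Pool.Agent.MP_67227b_nt.Gg

/-- The large conductors. `E = e^X`. -/
theorem num2_large {E c α T L D K P Q R Y lK : ℝ} (hE : 1 ≤ E) (hT : 1 < T)
    (hc : 0 < c) (hL : 1 ≤ L) (hD : 1 ≤ D) (hDT : D ^ 9 * L ^ 6 ≤ T ^ (c / 32)) (hK1 : 1 ≤ K)
    (hK : K ≤ T ^ (1 / 2 - c)) (hα : 1 ≤ α) (hP : 1 ≤ P) (hQ : 1 ≤ Q) (hQP : Q ≤ P)
    (hPQ' : T ^ α ≤ 4 * P * Q * E) (hPQ : P * Q ≤ T ^ α * E) (hP' : P ≤ 4 * E * T ^ (1 - c))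
    (hY0 : 0 ≤ Y) (hY : Y ≤ K * T ^ (1 - α) * E)
    (hR0 : 1 ≤ R) (hR : T ^ (c / 4) ≤ 2 * R) (hlK : lK ≤ 2 * L) (hlK0 : 0 ≤ lK) :
    (3 * L) * (3 * L) * D ^ 5 * lK * ((1 / K) * Real.sqrt ((2 * P) * ((2 * Q) * Y)) *
      (4 * K * Real.sqrt K + 6 * Real.sqrt K * (Real.sqrt (2 * P) + Real.sqrt ((2 * Q) * Y)) +
        10 / Real.sqrt R * Real.sqrt ((2 * P) * ((2 * Q) * Y)))) ≤
      2880 * E ^ 3 * T ^ (1 - c / 16) := by
  have hT0 : 0 < T := by linarith
  have hK0 : 0 < K := by linarith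
  have hE0 : 0 < E := by linarith
  have hsE := Real.mul_self_sqrt hE0.le
  -- `x y ≤ 4 E² T K`
  have hxy : (2 * P) * ((2 * Q) * Y) ≤ 4 * E ^ 2 * (T * K) := by
    calc (2 * P) * ((2 * Q) * Y) = 4 * (P * Q) * Y := by ring
      _ ≤ 4 * (T ^ α * E) * (K * T ^ (1 - α) * E) := by
          have : 0 ≤ P * Q := by positivity
          gcongr
      _ = 4 * E ^ 2 * (T ^ α * T ^ (1 - α) * K) := by ring
      _ = 4 * E ^ 2 * (T * K) := by
          rw [← Real.rpow_add hT0, show α + (1 - α) = 1 by ring, Real.rpow_one]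
  have hxy0 : 0 ≤ (2 * P) * ((2 * Q) * Y) := by positivity
  have hw : Real.sqrt ((2 * P) * ((2 * Q) * Y)) ≤ 2 * E * (Real.sqrt T * Real.sqrt K) := by
    refine (Real.sqrt_le_sqrt hxy).trans (le_of_eq ?_)
    rw [Real.sqrt_mul (by positivity), Real.sqrt_mul hT0.le,
      show 4 * E ^ 2 = (2 * E) ^ 2 by ring, Real.sqrt_sq (by positivity)]
  have hww := Real.mul_self_sqrt hxy0
  -- `x`, `y`
  have hTc0 : 0 < T ^ (1 - c) := by positivity
  have hx : 2 * P ≤ (3 * E ^ 2) ^ 2 * T ^ (1 - c) := by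
    calc 2 * P ≤ 2 * (4 * E * T ^ (1 - c)) := by linarith
      _ = (8 * E) * T ^ (1 - c) := by ring
      _ ≤ (3 * E ^ 2) ^ 2 * T ^ (1 - c) := by
          refine mul_le_mul_of_nonneg_right ?_ hTc0.le
          have h1 : E ≤ E ^ 4 := by
            calc E = E ^ 1 := (pow_one E).symm
              _ ≤ E ^ 4 := pow_le_pow_right₀ hE (by norm_num)
          nlinarith
  have hy : (2 * Q) * Y ≤ (3 * E ^ 2) ^ 2 * T ^ (1 - c) := by
    -- `(2P)² ≥ T / E`
    have h1 : T ≤ (2 * P) ^ 2 * E := by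
      calc T = T ^ (1 : ℝ) := (Real.rpow_one T).symm
        _ ≤ T ^ α := Real.rpow_le_rpow_of_exponent_le hT.le hα
        _ ≤ 4 * P * Q * E := hPQ'
        _ ≤ 4 * P * P * E := by gcongr
        _ = (2 * P) ^ 2 * E := by ring
    have hsT := Real.mul_self_sqrt hT0.le
    have h2 : Real.sqrt T ≤ (2 * P) * Real.sqrt E := by
      apply Real.sqrt_le_iff.2
      refine ⟨by positivity, ?_⟩
      rw [mul_pow, Real.sq_sqrt hE0.le]
      exact h1
    have h2' : Real.sqrt T ≤ (2 * P) * E := by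
      refine h2.trans (mul_le_mul_of_nonneg_left ?_ (by positivity))
      apply Real.sqrt_le_iff.2
      exact ⟨by linarith, by nlinarith⟩
    have h3 : (2 * Q) * Y ≤ 4 * E ^ 3 * (Real.sqrt T * K) := by
      have hP0 : 0 < 2 * P := by linarith
      have h4 : (2 * P) * ((2 * Q) * Y) ≤ (2 * P) * (4 * E ^ 3 * (Real.sqrt T * K)) := by
        calc (2 * P) * ((2 * Q) * Y) ≤ 4 * E ^ 2 * (T * K) := hxy
          _ = 4 * E ^ 2 * (Real.sqrt T * (Real.sqrt T * K)) := by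
              rw [← mul_assoc (Real.sqrt T), hsT]
          _ ≤ 4 * E ^ 2 * (((2 * P) * E) * (Real.sqrt T * K)) := by gcongr
          _ = (2 * P) * (4 * E ^ 3 * (Real.sqrt T * K)) := by ring
      exact le_of_mul_le_mul_left h4 hP0
    refine h3.trans ?_
    have h5 : Real.sqrt T * K ≤ T ^ (1 - c) := by
      calc Real.sqrt T * K ≤ T ^ (1 / 2 : ℝ) * T ^ (1 / 2 - c) := by
            rw [Real.sqrt_eq_rpow]
            gcongr
        _ = T ^ (1 - c) := by
            rw [← Real.rpow_add hT0]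
            congr 1
            ring
    have h6 : 4 * E ^ 3 ≤ (3 * E ^ 2) ^ 2 := by
      have h7 : E ^ 3 ≤ E ^ 4 := pow_le_pow_right₀ hE (by norm_num)
      nlinarith [show 0 ≤ E ^ 3 by positivity]
    exact mul_le_mul h6 h5 (by positivity) (by positivity)
  have hsTc : Real.sqrt (T ^ (1 - c)) = T ^ ((1 - c) / 2) := by
    rw [Real.sqrt_eq_rpow, ← Real.rpow_mul hT0.le]
    congr 1
    ring
  have hroot : ∀ z : ℝ, z ≤ (3 * E ^ 2) ^ 2 * T ^ (1 - c) →
      Real.sqrt z ≤ 3 * E ^ 2 * T ^ ((1 - c) / 2) := by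
    intro z hz
    refine (Real.sqrt_le_sqrt hz).trans (le_of_eq ?_)
    rw [Real.sqrt_mul (by positivity), Real.sqrt_sq (by positivity), hsTc]
  have hu : Real.sqrt (2 * P) + Real.sqrt ((2 * Q) * Y) ≤ 6 * E ^ 2 * T ^ ((1 - c) / 2) := by
    have h1 := hroot _ hx
    have h2 := hroot _ hy
    linarith
  set w := Real.sqrt ((2 * P) * ((2 * Q) * Y)) with hwdef
  set u := Real.sqrt (2 * P) + Real.sqrt ((2 * Q) * Y) with hudef
  have hw0 : 0 ≤ w := Real.sqrt_nonneg _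
  have hu0 : 0 ≤ u := by positivity
  have hsK := Real.mul_self_sqrt hK0.le
  have hsK0 : 0 < Real.sqrt K := Real.sqrt_pos.2 hK0
  have hE23 : E ^ 2 ≤ E ^ 3 := pow_le_pow_right₀ hE (by norm_num)
  have hE13 : E ≤ E ^ 3 := by
    calc E = E ^ 1 := (pow_one E).symm
      _ ≤ E ^ 3 := pow_le_pow_right₀ hE (by norm_num)
  have hS := Real.sqrt_nonneg T
  -- the three terms
  have t1 : (1 / K) * w * (4 * K * Real.sqrt K) ≤ 8 * E ^ 3 * T ^ (1 - c / 8) := by
    calc (1 / K) * w * (4 * K * Real.sqrt K) = 4 * (w * Real.sqrt K) := by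
          field_simp
      _ ≤ 4 * ((2 * E * (Real.sqrt T * Real.sqrt K)) * Real.sqrt K) := by gcongr
      _ = 8 * E * (Real.sqrt T * (Real.sqrt K * Real.sqrt K)) := by ring
      _ = 8 * E * (Real.sqrt T * K) := by rw [hsK]
      _ ≤ 8 * E * (T ^ (1 / 2 : ℝ) * T ^ (1 / 2 - c)) := by
          rw [Real.sqrt_eq_rpow]
          gcongr
      _ = 8 * E * T ^ (1 - c) := by
          rw [← Real.rpow_add hT0]
          congr 2
          ring
      _ ≤ 8 * E ^ 3 * T ^ (1 - c / 8) := by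
          have : T ^ (1 - c) ≤ T ^ (1 - c / 8) :=
            Real.rpow_le_rpow_of_exponent_le hT.le (by linarith)
          gcongr
  have t2 : (1 / K) * w * (6 * Real.sqrt K * u) ≤ 72 * E ^ 3 * T ^ (1 - c / 8) := by
    calc (1 / K) * w * (6 * Real.sqrt K * u)
        ≤ (1 / K) * (2 * E * (Real.sqrt T * Real.sqrt K)) *
          (6 * Real.sqrt K * (6 * E ^ 2 * T ^ ((1 - c) / 2))) := by gcongr
      _ = 72 * E ^ 3 * ((1 / K) * (Real.sqrt K * Real.sqrt K)) *
          (Real.sqrt T * T ^ ((1 - c) / 2)) := by ring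
      _ = 72 * E ^ 3 * (T ^ (1 / 2 : ℝ) * T ^ ((1 - c) / 2)) := by
          rw [hsK, one_div, inv_mul_cancel₀ hK0.ne', mul_one, Real.sqrt_eq_rpow]
      _ = 72 * E ^ 3 * T ^ (1 - c / 2) := by
          rw [← Real.rpow_add hT0]
          congr 2
          ring
      _ ≤ 72 * E ^ 3 * T ^ (1 - c / 8) := by
          have : T ^ (1 - c / 2) ≤ T ^ (1 - c / 8) :=
            Real.rpow_le_rpow_of_exponent_le hT.le (by linarith)
          gcongr
  have hsR : T ^ (c / 8) ≤ 2 * Real.sqrt R := by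
    have h1 : T ^ (c / 8) = Real.sqrt (T ^ (c / 4)) := by
      rw [Real.sqrt_eq_rpow, ← Real.rpow_mul hT0.le]
      congr 1
      ring
    rw [h1]
    apply Real.sqrt_le_iff.2
    refine ⟨by positivity, ?_⟩
    rw [mul_pow, Real.sq_sqrt (by linarith)]
    linarith
  have hsR0 : 0 < Real.sqrt R := Real.sqrt_pos.2 (by linarith)
  have t3 : (1 / K) * w * (10 / Real.sqrt R * w) ≤ 80 * E ^ 3 * T ^ (1 - c / 8) := by
    have h1 : 1 / Real.sqrt R ≤ 2 * T ^ (-(c / 8)) := by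
      rw [Real.rpow_neg hT0.le, div_le_iff₀ hsR0]
      have h2 : 0 < T ^ (c / 8) := by positivity
      rw [mul_assoc, inv_mul_eq_div, ← mul_div_assoc, le_div_iff₀ h2, one_mul]
      exact hsR
    calc (1 / K) * w * (10 / Real.sqrt R * w) = 10 * (1 / Real.sqrt R) * ((w * w) * (1 / K)) := by
          ring
      _ ≤ 10 * (2 * T ^ (-(c / 8))) * ((4 * E ^ 2 * (T * K)) * (1 / K)) := by
          rw [hww]
          gcongr
      _ = 80 * E ^ 2 * (T * T ^ (-(c / 8))) := by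
          field_simp
          ring
      _ = 80 * E ^ 2 * T ^ (1 - c / 8) := by
          congr 1
          nth_rewrite 1 [← Real.rpow_one T]
          rw [← Real.rpow_add hT0]
          congr 1
      _ ≤ 80 * E ^ 3 * T ^ (1 - c / 8) := by gcongr
  have hLD : L ^ 3 * D ^ 5 ≤ T ^ (c / 32) := by
    refine le_trans ?_ hDT
    rw [mul_comm]
    exact mul_le_mul (pow_le_pow_right₀ hD (by norm_num)) (pow_le_pow_right₀ hL (by norm_num))
      (by positivity) (by positivity)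
  have hexp : T ^ (c / 32) * T ^ (1 - c / 8) ≤ T ^ (1 - c / 16) := by
    rw [← Real.rpow_add hT0]
    exact Real.rpow_le_rpow_of_exponent_le hT.le (by linarith)
  have hsum : (1 / K) * w * (4 * K * Real.sqrt K + 6 * Real.sqrt K * u + 10 / Real.sqrt R * w) ≤
      160 * E ^ 3 * T ^ (1 - c / 8) := by
    have h1 : (1 / K) * w * (4 * K * Real.sqrt K + 6 * Real.sqrt K * u + 10 / Real.sqrt R * w) =
        (1 / K) * w * (4 * K * Real.sqrt K) + (1 / K) * w * (6 * Real.sqrt K * u) +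
          (1 / K) * w * (10 / Real.sqrt R * w) := by ring
    rw [h1]
    linarith
  have hsum0 : 0 ≤ (1 / K) * w *
      (4 * K * Real.sqrt K + 6 * Real.sqrt K * u + 10 / Real.sqrt R * w) := by positivity
  calc (3 * L) * (3 * L) * D ^ 5 * lK * ((1 / K) * w *
        (4 * K * Real.sqrt K + 6 * Real.sqrt K * u + 10 / Real.sqrt R * w))
      ≤ (3 * L) * (3 * L) * D ^ 5 * (2 * L) * (160 * E ^ 3 * T ^ (1 - c / 8)) := by gcongr
    _ = 2880 * E ^ 3 * ((L ^ 3 * D ^ 5) * T ^ (1 - c / 8)) := by ring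
    _ ≤ 2880 * E ^ 3 * (T ^ (c / 32) * T ^ (1 - c / 8)) := by gcongr
    _ ≤ 2880 * E ^ 3 * T ^ (1 - c / 16) := by gcongr

end Pool.Agent.MP_67227b_nt.Gg
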