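import Mathlib
import Pool.Agent.MP_67227b_nt.Gg.GgErrDefs

set_option autoImplicit false

open Filter Topology Set MeasureTheory Complex
open scoped Real ContDiff ArithmeticFunction ArithmeticFunction.Moebius
open scoped Classical

namespace Pool.Agent.MP_67227b_nt.Gg

open Pool.Agent.BV (tau csum)
open Pool.Agent.LS (prim)

/-- `S3` is symmetric in its first two sequences. -/
theorem S3_swap (S : Finset ℕ) (a g b : ℕ → ℂ) (X₁ X₂ Y K : ℕ) :
    S3 S a g b X₁ X₂ Y K = S3 S g a b X₂ X₁ Y K := by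
  unfold S3 P3
  refine Finset.sum_congr rfl fun e _ => ?_
  congr 1
  refine Finset.sum_congr rfl fun q _ => ?_
  congr 1
  refine Finset.sum_congr rfl fun ψ _ => ?_
  ring

/-- PROOF. The terms are nonnegative. -/
theorem S3_split (a g b : ℕ → ℂ) (X₁ X₂ Y K R : ℕ) :
    S3 (Finset.Ioc 1 (2 * K)) a g b X₁ X₂ Y K ≤
      S3 (Finset.Ioc 1 R) a g b X₁ X₂ Y K + S3 (Finset.Ioc R (2 * K)) a g b X₁ X₂ Y K := by
  unfold S3
  rw [← Finset.sum_add_distrib]
  refine Finset.sum_le_sum fun e _ => ?_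
  rw [← mul_add]
  refine mul_le_mul_of_nonneg_left ?_ (by positivity)
  have hP : ∀ q : ℕ, 0 ≤ (Real.sqrt (q : ℝ) / (Nat.totient q : ℝ) ^ 2) * P3 a g b X₁ X₂ Y q e := by
    intro q
    refine mul_nonneg (by positivity) ?_
    unfold P3
    exact Finset.sum_nonneg fun ψ _ => by positivity
  have hsub : (Finset.Ioc 1 (2 * K)).filter (fun q => K ≤ q * e ∧ q * e < 2 * K) ⊆
      (Finset.Ioc 1 R).filter (fun q => K ≤ q * e ∧ q * e < 2 * K) ∪
        (Finset.Ioc R (2 * K)).filter (fun q => K ≤ q * e ∧ q * e < 2 * K) := by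
    intro q hq
    rw [Finset.mem_filter, Finset.mem_Ioc] at hq
    rw [Finset.mem_union, Finset.mem_filter, Finset.mem_filter, Finset.mem_Ioc, Finset.mem_Ioc]
    by_cases h : q ≤ R
    · exact Or.inl ⟨⟨hq.1.1, h⟩, hq.2⟩
    · exact Or.inr ⟨⟨by omega, hq.1.2⟩, hq.2⟩
  refine (Finset.sum_le_sum_of_subset_of_nonneg hsub (fun q _ _ => hP q)).trans ?_
  have := Finset.sum_union_inter
    (s₁ := (Finset.Ioc 1 R).filter (fun q => K ≤ q * e ∧ q * e < 2 * K))
    (s₂ := (Finset.Ioc R (2 * K)).filter (fun q => K ≤ q * e ∧ q * e < 2 * K))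
    (f := fun q => (Real.sqrt (q : ℝ) / (Nat.totient q : ℝ) ^ 2) * P3 a g b X₁ X₂ Y q e)
  rw [← this]
  exact le_add_of_nonneg_right (Finset.sum_nonneg fun q _ => hP q)

end Pool.Agent.MP_67227b_nt.Gg
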