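import Mathlib
import Pool.Agent.MP_67227b_nt.Gg.GgEps
import Pool.Agent.MP_67227b_nt.Gg.GgLarge
import Pool.Agent.MP_67227b_nt.Gg.GgNumA
import Pool.Agent.MP_67227b_nt.Gg.GgNumB
import Pool.Agent.MP_67227b_nt.Gg.GgSml
import Pool.Agent.MP_67227b_nt.Gg.GgSs
import Pool.Agent.MP_67227b_nt.Gg.GgTv

set_option autoImplicit false

open Filter Topology Set MeasureTheory Complex
open scoped Real ContDiff ArithmeticFunction ArithmeticFunction.Moebius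
open scoped Classical

namespace Pool.Agent.MP_67227b_nt.Gg

open Pool.Agent.BV (tau csum)
open Pool.Agent.LS (prim)

private theorem num2_half {T : ℝ} (hT : 4 ≤ T) : 2 * T ^ (1 / 2 : ℝ) ≤ T := by
  have h0 : 0 ≤ T := by linarith
  rw [← Real.sqrt_eq_rpow]
  have h2 : 2 ≤ Real.sqrt T := by
    apply Real.le_sqrt_of_sq_le
    linarith
  have h3 := Real.mul_self_sqrt h0
  nlinarith [Real.sqrt_nonneg T]

private theorem num2_bx {P : ℕ} {a : ℕ → ℂ} {G : ℝ} (hG : 0 ≤ G)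
    (ha : ∀ m, P ≤ m → m < 2 * P → ‖a m‖ ≤ G) (m : ℕ) : ‖bx P a m‖ ≤ G := by
  unfold bx
  split_ifs with h
  · exact ha m h.1 h.2
  · rw [norm_zero]
    exact hG

private theorem num2_core (X c : ℝ) (hX : 0 ≤ X) (hc : 0 < c) : ∀ᶠ T : ℝ in atTop,
    ∀ α ∈ Icc (1 : ℝ) (3 / 2 - 4 * c), ∀ K P Q : ℕ, 1 ≤ K → 1 ≤ P → 1 ≤ Q → Q ≤ P →
      T ^ (α - 1 + c) ≤ 2 * K → (K : ℝ) ≤ T ^ (1 / 2 - c) →
      T ^ α ≤ 4 * P * Q * Real.exp X → (P : ℝ) * Q ≤ T ^ α * Real.exp X →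
      (P : ℝ) ≤ 4 * Real.exp X * T ^ (1 - c) →
      ∀ (a g : ℕ → ℂ) (V : ℝ), (∀ m, P ≤ m → m < 2 * P → ‖a m‖ ≤ 3 * Real.log T) →
        (∀ k, Q ≤ k → k < 2 * Q → ‖g k‖ ≤ 3 * Real.log T) →
        S3 (Finset.Ioc 1 (2 * K)) (bx P a) (bx Q g) (pw V) (2 * P) (2 * Q) (YY X α T K) K ≤
          4000 * Real.exp X ^ 3 * T ^ (1 - c / 16) * (1 + |V|) := by
  filter_upwards [all_eps (show 0 < c / 32 by linarith),
    eventually_ge_atTop (Real.exp 2), eventually_ge_atTop (8 * Real.exp X ^ 2)]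
    with T hTD hT2 hTX
  intro α hα K P Q hK hP hQ hQP hKT' hKT hPQ' hPQ hPT a g V ha hg
  obtain ⟨D, hD1, hD, hDT⟩ := hTD
  set E := Real.exp X with hEdef
  have hE : 1 ≤ E := Real.one_le_exp hX
  have hT4 : 4 ≤ T := by
    have h1 := Real.add_one_lt_exp (show (1 : ℝ) ≠ 0 by norm_num)
    have h2 : Real.exp 2 = Real.exp 1 * Real.exp 1 := by
      rw [← Real.exp_add]
      norm_num
    have h3 : (4 : ℝ) ≤ Real.exp 2 := by
      rw [h2]
      have h4 : (2 : ℝ) ≤ Real.exp 1 := by linarith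
      have h5 := mul_le_mul h4 h4 (by norm_num) (Real.exp_pos 1).le
      linarith
    linarith
  have hT0 : 0 < T := by linarith
  have hT1 : 1 ≤ T := by linarith
  have hlog : 2 ≤ Real.log T := by
    rw [Real.le_log_iff_exp_le hT0]
    exact hT2
  have hc8 : c ≤ 1 / 8 := by
    have := hα.1.trans hα.2
    linarith
  have hKR : (1 : ℝ) ≤ K := by exact_mod_cast hK
  have hPR : (1 : ℝ) ≤ P := by exact_mod_cast hP
  have hQR : (1 : ℝ) ≤ Q := by exact_mod_cast hQ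
  have hQPR : (Q : ℝ) ≤ P := by exact_mod_cast hQP
  have h2K : 2 * (K : ℝ) ≤ T := by
    calc 2 * (K : ℝ) ≤ 2 * T ^ (1 / 2 - c) := by linarith
      _ ≤ 2 * T ^ (1 / 2 : ℝ) := by
          have := Real.rpow_le_rpow_of_exponent_le hT1 (show 1 / 2 - c ≤ 1 / 2 by linarith)
          linarith
      _ ≤ T := num2_half hT4
  have hT5 : T ≤ T ^ (5 : ℝ) := by
    have h2 : T ^ (1 : ℝ) ≤ T ^ (5 : ℝ) :=
      Real.rpow_le_rpow_of_exponent_le hT1 (by norm_num)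
    rwa [Real.rpow_one] at h2
  have hY : ((YY X α T K : ℕ) : ℝ) ≤ (K : ℝ) * T ^ (1 - α) * E :=
    Nat.floor_le (by positivity)
  have hTα : T ^ (1 - α) ≤ 1 := by
    have h2 : T ^ (1 - α) ≤ T ^ (0 : ℝ) :=
      Real.rpow_le_rpow_of_exponent_le hT1 (by linarith [hα.1])
    rwa [Real.rpow_zero] at h2
  have hYT : ((YY X α T K : ℕ) : ℝ) ≤ T * E := by
    refine hY.trans ?_
    have h1 : (K : ℝ) * T ^ (1 - α) ≤ T * 1 :=
      mul_le_mul (by linarith) hTα (by positivity) (by positivity)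
    rw [mul_one] at h1
    exact mul_le_mul_of_nonneg_right h1 (by positivity)
  have hEE : E ≤ E ^ 2 := le_self_pow₀ hE (by norm_num)
  have hET : E ≤ T := by linarith [sq_nonneg E]
  -- the parameter `R`
  have hTc1 : 1 ≤ T ^ (c / 4) := Real.one_le_rpow hT1 (by linarith)
  set R : ℕ := ⌊T ^ (c / 4)⌋₊ with hRdef
  have hR1 : 1 ≤ R := by
    rw [hRdef, Nat.le_floor_iff (by positivity)]
    exact_mod_cast hTc1
  have hR1R : (1 : ℝ) ≤ R := by exact_mod_cast hR1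
  have hRle : (R : ℝ) ≤ T ^ (c / 4) := Nat.floor_le (by positivity)
  have hRge : T ^ (c / 4) ≤ 2 * R := by
    have h1 := Nat.lt_floor_add_one (T ^ (c / 4))
    rw [← hRdef] at h1
    linarith
  have hRT : (R : ℝ) ≤ T := by
    refine hRle.trans ?_
    have h2 : T ^ (c / 4) ≤ T ^ (1 : ℝ) :=
      Real.rpow_le_rpow_of_exponent_le hT1 (by linarith)
    rwa [Real.rpow_one] at h2
  have hlR : 1 + Real.log R ≤ 2 * Real.log T := by
    have : Real.log R ≤ Real.log T := Real.log_le_log (by linarith) hRT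
    linarith
  have hlR0 : 0 ≤ 1 + Real.log (R : ℝ) := by
    have : 0 ≤ Real.log (R : ℝ) := Real.log_nonneg hR1R
    linarith
  have hlK : 1 + Real.log (2 * K) ≤ 2 * Real.log T := by
    have : Real.log (2 * K) ≤ Real.log T := Real.log_le_log (by positivity) h2K
    linarith
  have hlK0 : 0 ≤ 1 + Real.log (2 * K) := by
    have : 0 ≤ Real.log (2 * (K : ℝ)) := Real.log_nonneg (by linarith)
    linarith
  have hY0 : (0 : ℝ) ≤ ((YY X α T K : ℕ) : ℝ) := Nat.cast_nonneg _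
  have hlY : 1 + Real.log ((YY X α T K : ℕ) + 1) ≤ 3 * Real.log T := by
    have h1 : ((YY X α T K : ℕ) : ℝ) + 1 ≤ T ^ 2 := by
      have h2 : T * E ≤ T * (T / 8) := by
        refine mul_le_mul_of_nonneg_left ?_ hT0.le
        linarith
      have h5 := mul_le_mul hT4 hT4 (by norm_num) hT0.le
      have h6 : T * (T / 8) = T ^ 2 / 8 := by ring
      have h7 : T ^ 2 = T * T := by ring
      linarith
    have h3 : Real.log ((YY X α T K : ℕ) + 1) ≤ Real.log (T ^ 2) :=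
      Real.log_le_log (by positivity) h1
    rw [Real.log_pow] at h3
    push_cast at h3
    linarith
  have hlY0 : 0 ≤ 1 + Real.log ((YY X α T K : ℕ) + 1) := by
    have : 0 ≤ Real.log (((YY X α T K : ℕ) : ℝ) + 1) := Real.log_nonneg (by linarith)
    linarith
  have hDn : ∀ n : ℕ, 1 ≤ n → n ≤ 2 * K → tau n ≤ D := by
    intro n hn hn'
    refine hD n hn ?_
    have h1 : (n : ℝ) ≤ 2 * K := by exact_mod_cast hn'
    linarith
  have hDm : ∀ n : ℕ, 1 ≤ n → n ≤ max (2 * K) ((2 * Q) * YY X α T K) → tau n ≤ D := by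
    intro n hn hn'
    rcases le_max_iff.1 hn' with h | h
    · exact hDn n hn h
    · refine hD n hn ?_
      have h1 : (n : ℝ) ≤ (2 * Q) * (YY X α T K : ℕ) := by exact_mod_cast h
      have hTc : T ^ (1 - c) ≤ T := by
        have h2 : T ^ (1 - c) ≤ T ^ (1 : ℝ) :=
          Real.rpow_le_rpow_of_exponent_le hT1 (by linarith)
        rwa [Real.rpow_one] at h2
      have hQT : (Q : ℝ) ≤ 4 * E * T := by
        calc (Q : ℝ) ≤ P := hQPR
          _ ≤ 4 * E * T ^ (1 - c) := hPT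
          _ ≤ 4 * E * T := by gcongr
      calc (n : ℝ) ≤ (2 * Q) * (YY X α T K : ℕ) := h1
        _ ≤ (2 * (4 * E * T)) * (T * E) := by gcongr
        _ = (8 * E ^ 2) * T ^ 2 := by ring
        _ ≤ T * T ^ 2 := by gcongr
        _ = T ^ (3 : ℕ) := by ring
        _ ≤ T ^ (5 : ℕ) := pow_le_pow_right₀ hT1 (by norm_num)
        _ = T ^ (5 : ℝ) := by norm_cast
  have hL0 : 0 ≤ 3 * Real.log T := by linarith
  have hsmall := S3_small (a := bx P a) (g := bx Q g) (b := pw V) (X₁ := 2 * P) (X₂ := 2 * Q)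
    (Y := YY X α T K) (K := K) (R := R) (G₁ := 3 * Real.log T) (G₂ := 3 * Real.log T)
    (D := D) (M := 1 + |V| * (1 + Real.log ((YY X α T K : ℕ) + 1))) hK hR1
    (num2_bx hL0 ha) (num2_bx hL0 hg) (tv_pw V _) hDn hD1
  have hlarge := S3_large (a := bx P a) (g := bx Q g) (b := pw V) (X₁ := 2 * P) (X₂ := 2 * Q)
    (Y := YY X α T K) (K := K) (R := R) (G₁ := 3 * Real.log T) (G₂ := 3 * Real.log T)
    (D := D) hK hR1 (num2_bx hL0 ha) (num2_bx hL0 hg) (norm_pw V) hDm hD1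
  have hs := num2_small (Y := 0) (E := E) (c := c) (α := α) (T := T) (L := Real.log T) (D := D)
    (K := K) (P := P) (Q := Q) (R := R) (V := V)
    (M := 1 + |V| * (1 + Real.log ((YY X α T K : ℕ) + 1)))
    (lY := 1 + Real.log ((YY X α T K : ℕ) + 1)) (lR := 1 + Real.log (R : ℝ)) hE
    (by linarith) hc (by linarith) hD1 hDT (by linarith) hKT' (by linarith) (by linarith) hPQ
    (by linarith) hRle rfl hlY hlY0 hlR hlR0
  have hl := num2_large (E := E) (c := c) (α := α) (T := T) (L := Real.log T) (D := D)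
    (K := K) (P := P) (Q := Q) (R := R) (Y := (YY X α T K : ℕ))
    (lK := 1 + Real.log (2 * (K : ℝ))) hE
    (by linarith) hc (by linarith) hD1 hDT hKR hKT hα.1 hPR hQR hQPR hPQ' hPQ hPT hY0 hY hR1R
    hRge hlK hlK0
  push_cast at hsmall hlarge
  have h1 := S3_split (bx P a) (bx Q g) (pw V) (2 * P) (2 * Q) (YY X α T K) K R
  have hE3 : E ≤ E ^ 3 := by
    calc E = E ^ 1 := (pow_one E).symm
      _ ≤ E ^ 3 := pow_le_pow_right₀ hE (by norm_num)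
  have hV : 0 ≤ |V| := abs_nonneg V
  have hTp : 0 < T ^ (1 - c / 16) := by positivity
  calc S3 (Finset.Ioc 1 (2 * K)) (bx P a) (bx Q g) (pw V) (2 * P) (2 * Q) (YY X α T K) K
      ≤ 864 * E * T ^ (1 - c / 16) * (1 + |V|) + 2880 * E ^ 3 * T ^ (1 - c / 16) := by
        refine h1.trans (add_le_add (hsmall.trans hs) (hlarge.trans hl))
    _ ≤ 864 * E ^ 3 * T ^ (1 - c / 16) * (1 + |V|) +
        2880 * E ^ 3 * T ^ (1 - c / 16) * (1 + |V|) := by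
        have h2 : 864 * E * T ^ (1 - c / 16) * (1 + |V|) ≤
            864 * E ^ 3 * T ^ (1 - c / 16) * (1 + |V|) := by gcongr
        have h3 : 2880 * E ^ 3 * T ^ (1 - c / 16) ≤
            2880 * E ^ 3 * T ^ (1 - c / 16) * (1 + |V|) :=
          le_mul_of_one_le_right (by positivity) (by linarith)
        linarith
    _ ≤ 4000 * E ^ 3 * T ^ (1 - c / 16) * (1 + |V|) := by
        have h4 : 0 ≤ E ^ 3 * T ^ (1 - c / 16) * (1 + |V|) := by positivity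
        linarith

/-- Type II. PROOF. By `S3_swap` assume `Q ≤ P`. `S3_split` with `R = ⌊T^{c/4}⌋` (`≥ 1`).
`G₁ = G₂ = 3 log T`, `x = X₁ = 2P`, `y = X₂ Y ≤ 2Q K T^{1-α} e^X`, so `x y ≤ 4 e^{2X} T K`;
`x ≤ 8 e^X T^{1-c}`; `P² ≥ PQ ≥ T^α e^{-X}/4`, so `P ≥ T^{1/2} e^{-X/2}/2` and
`y ≤ x y/(2P) ≤ 4 e^{3X} T^{1/2} K ≤ 4 e^{3X} T^{1-c}` (take `X ≥ 0`). `D` from `all_eps` with
`ε = c/32` (`X₂ Y ≤ T⁵`, `2K ≤ T⁵` for large `T`); `1 + log(2K)`, `1 + log R ≤ 2 log T`.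
SMALL (`S3_small`, `M = 1 + |V|(1 + log(Y+1)) ≤ 3 log T (1+|V|)`, `tv_pw`):
`≤ C (log T)⁴ D⁴ (1+|V|) PQ R²/K`, `PQ ≤ T^α e^X`, `K ≥ T^{α-1+c}/2`: `PQ R²/K ≤ C T^{1-c+c/2}`.
LARGE (`S3_large`): `≤ C (log T)³ D⁵ (1/K) √(TK) (K^{3/2} + K^{1/2} T^{1/2-c/2} + R^{-1/2} √(TK))
≤ C (log T)³ D⁵ (K T^{1/2} + T^{1-c/2} + T R^{-1/2})`, with `K ≤ T^{1/2-c}` and
`R ≥ T^{c/4}/2`: `T R^{-1/2} ≤ C T^{1-c/8}`. Altogether `≤ C T^{1-c/8+c/32} (1+|V|)`. -/
theorem typeII_num (X c : ℝ) (hX : 0 ≤ X) (hc : 0 < c) : ∃ C : ℝ, 0 ≤ C ∧ ∀ᶠ T : ℝ in atTop,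
    ∀ α ∈ Icc (1 : ℝ) (3 / 2 - 4 * c), ∀ K P Q : ℕ, 1 ≤ K → 1 ≤ P → 1 ≤ Q →
      T ^ (α - 1 + c) ≤ 2 * K → (K : ℝ) ≤ T ^ (1 / 2 - c) →
      T ^ α ≤ 4 * P * Q * Real.exp X → (P : ℝ) * Q ≤ T ^ α * Real.exp X →
      (P : ℝ) ≤ 4 * Real.exp X * T ^ (1 - c) → (Q : ℝ) ≤ 4 * Real.exp X * T ^ (1 - c) →
      ∀ (a g : ℕ → ℂ) (V : ℝ), (∀ m, P ≤ m → m < 2 * P → ‖a m‖ ≤ 3 * Real.log T) →
        (∀ k, Q ≤ k → k < 2 * Q → ‖g k‖ ≤ 3 * Real.log T) →
        S3 (Finset.Ioc 1 (2 * K)) (bx P a) (bx Q g) (pw V) (2 * P) (2 * Q) (YY X α T K) K ≤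
          C * T ^ (1 - c / 16) * (1 + |V|) := by
  refine ⟨4000 * Real.exp X ^ 3, by positivity, ?_⟩
  filter_upwards [num2_core X c hX hc] with T hT
  intro α hα K P Q hK hP hQ hKT' hKT hPQ' hPQ hPT hQT a g V ha hg
  rcases le_total Q P with h | h
  · exact hT α hα K P Q hK hP hQ h hKT' hKT hPQ' hPQ hPT a g V ha hg
  · rw [S3_swap]
    refine hT α hα K Q P hK hQ hP h hKT' hKT ?_ ?_ hQT g a V hg ha
    · calc T ^ α ≤ 4 * P * Q * Real.exp X := hPQ'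
        _ = 4 * Q * P * Real.exp X := by ring
    · rw [mul_comm]
      exact hPQ

end Pool.Agent.MP_67227b_nt.Gg
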