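import Mathlib
import Pool.Agent.MP_67227b_nt.Gg.GgBoxL
import Pool.Agent.MP_67227b_nt.Gg.GgNum1
import Pool.Agent.MP_67227b_nt.Gg.GgNum2
import Pool.Agent.MP_67227b_nt.Gg.GgZb

set_option autoImplicit false

open Filter Topology Set MeasureTheory Complex
open scoped Real ContDiff ArithmeticFunction ArithmeticFunction.Moebius
open scoped Classical

namespace Pool.Agent.MP_67227b_nt.Gg

open Pool.Agent.BV (tau csum)
open Pool.Agent.LS (prim)

/-- The box sum vanishes if the first sequence vanishes on `[P, 2P)`. -/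
private theorem kb_zero {η ρ : ℝ → ℝ} {X c α T : ℝ} {a g : ℕ → ℂ} {K P Q : ℕ}
    (h : ∀ m, P ≤ m → m < 2 * P → a m = 0) : BX η ρ X c α T a g K P Q = 0 := by
  unfold BX
  refine Finset.sum_eq_zero fun A _ => ?_
  rw [Finset.sum_eq_zero, mul_zero]
  intro m hm
  rw [Finset.mem_Ico] at hm
  refine Finset.sum_eq_zero fun k _ => Finset.sum_eq_zero fun B _ => ?_
  rw [h m hm.1 hm.2]
  simp

/-- The logarithms. -/
private theorem kb_log (X c : ℝ) (hc : 0 < c) : ∀ᶠ T : ℝ in atTop,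
    ∀ α ∈ Icc (1 : ℝ) (3 / 2 - 4 * c), ∀ x : ℝ, 1 ≤ x → x ≤ T ^ α * Real.exp X →
      1 + Real.log (2 * x) ≤ 3 * Real.log T := by
  have h1 : ∀ᶠ T : ℝ in atTop, 1 + Real.log 2 + X ≤ (3 / 2) * Real.log T := by
    have h2 : Tendsto (fun T : ℝ => (3 / 2) * Real.log T) atTop atTop :=
      Tendsto.const_mul_atTop (by norm_num) Real.tendsto_log_atTop
    exact h2.eventually_ge_atTop _
  filter_upwards [h1, eventually_ge_atTop (1 : ℝ)] with T hT hT1 α hα x hx hxT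
  have hT0 : 0 < T := by linarith
  have hlog : 0 ≤ Real.log T := Real.log_nonneg hT1
  have h2 : Real.log x ≤ α * Real.log T + X := by
    have h3 := Real.log_le_log (by linarith) hxT
    rw [Real.log_mul (Real.rpow_pos_of_pos hT0 _).ne' (Real.exp_pos X).ne', Real.log_rpow hT0,
      Real.log_exp] at h3
    exact h3
  have h3 : α * Real.log T ≤ (3 / 2) * Real.log T :=
    mul_le_mul_of_nonneg_right (by linarith [hα.2]) hlog
  rw [Real.log_mul (by norm_num) (by linarith)]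
  linarith

/-- The second term of Vaughan's identity: type I for `P ≤ T^{α-1+c}`, type II otherwise. PROOF. As
`kind1`, assume the four conditions of `BX_zero`. `|al2 u m| ≤ log m ≤ 3 log T` for `m < 2P`
(`BGV.abs_al2_le`; `2P ≤ 2 T^{3/2} e^X`). If `P ≤ T^{α-1+c}`: `typeI_num` with `tv_bx_one`
(`2 + |U| ≤ 2(1+|U|)`). Otherwise, if `P > u²` then `al2 u = 0` on `[P,2P)` (`BGV.al2_zero`), so
`BX = 0`; and if `T^{α-1+c} < P ≤ u² ≤ T^{2(α-1)+2c} ≤ T^{1-c}` (`2(α-1) ≤ 1 - 8c`), then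
`Q ≤ T^α e^X/P ≤ e^X T^{1-c}` and `typeII_num` applies (`|g| ≤ 1 ≤ 3 log T`). -/
theorem kind2 {X κ : ℝ} {η ρ : ℝ → ℝ} (hX : 0 ≤ X) (hκ : 0 < κ) (hη : Eta X η) (hρ : Rho κ ρ)
    (c : ℝ) (hc : 0 < c) : ∃ C : ℝ, 0 ≤ C ∧ ∀ᶠ T : ℝ in atTop,
      ∀ α ∈ Icc (1 : ℝ) (3 / 2 - 4 * c), ∀ K P Q : ℕ, 1 ≤ K → 1 ≤ P → 1 ≤ Q →
      ‖BX η ρ X c α T (cs (a2 (uV c α T))) (cs g2) K P Q‖ ≤ C * T ^ (1 - c / 16) := by
  obtain ⟨C₁, hC₁, h1⟩ := typeI_num X c hc
  obtain ⟨C₂, hC₂, h2⟩ := box_le hκ hη hρ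
  obtain ⟨C₃, hC₃, h3⟩ := typeII_num X c hX hc
  refine ⟨C₂ * (C₁ * 2 + C₃), by positivity, ?_⟩
  filter_upwards [h1, h3, kb_log X c hc, eventually_gt_atTop (1 : ℝ),
    Real.tendsto_log_atTop.eventually_ge_atTop 1] with T hT1 hT2 hT3 hT4 hT5 α hα K P Q hK hP hQ
  have hT0 : 0 < T := by linarith
  have hRHS : 0 ≤ C₂ * (C₁ * 2 + C₃) * T ^ (1 - c / 16) := by positivity
  by_cases hcond : T ^ (α - 1 + c) ≤ 2 * K ∧ (K : ℝ) ≤ T ^ (1 / 2 - c) ∧
      T ^ α ≤ 4 * P * Q * Real.exp X ∧ (P : ℝ) * Q ≤ T ^ α * Real.exp X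
  swap
  · rw [BX_zero hκ hη hρ hT4 _ _ hP hQ hcond, norm_zero]
    exact hRHS
  obtain ⟨hK1, hK2, hPQ1, hPQ⟩ := hcond
  have hP1 : (1 : ℝ) ≤ P := by exact_mod_cast hP
  have hQ1 : (1 : ℝ) ≤ Q := by exact_mod_cast hQ
  have hPT : (P : ℝ) ≤ T ^ α * Real.exp X := by
    refine le_trans ?_ hPQ
    nlinarith
  have hlP : 1 + Real.log (2 * P) ≤ 3 * Real.log T := hT3 α hα P hP1 hPT
  have ha : ∀ U : ℝ, ∀ m, P ≤ m → m < 2 * P →
      ‖cs (a2 (uV c α T)) m * pw U m‖ ≤ 3 * Real.log T := by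
    intro U m hm hm2
    have hm0 : (0 : ℝ) < m := by
      have : 0 < m := by omega
      exact_mod_cast this
    have h4 : ‖cs (a2 (uV c α T)) m‖ ≤ 3 * Real.log T := by
      show ‖((a2 (uV c α T) m : ℝ) : ℂ)‖ ≤ _
      rw [Complex.norm_real, Real.norm_eq_abs]
      unfold a2
      refine (Pool.Agent.BGV.abs_al2_le _ m).trans ?_
      have h5 : Real.log m ≤ Real.log (2 * P) := by
        apply Real.log_le_log hm0
        exact_mod_cast hm2.le
      linarith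
    rw [norm_mul]
    calc ‖cs (a2 (uV c α T)) m‖ * ‖pw U m‖ ≤ (3 * Real.log T) * 1 :=
          mul_le_mul h4 (norm_pw U m) (norm_nonneg _) (by linarith)
      _ = 3 * Real.log T := mul_one _
  have hg : ∀ U : ℝ, (fun k : ℕ => cs g2 k * pw U k) = pw U := by
    intro U
    funext k
    show ((g2 k : ℝ) : ℂ) * pw U k = pw U k
    unfold g2
    rw [Complex.ofReal_one, one_mul]
  by_cases hPu : (P : ℝ) ≤ T ^ (α - 1 + c)
  · -- type I
    have hM : ∀ U V : ℝ, S3 (Finset.Ioc 1 (2 * K)) (bx P fun m => cs (a2 (uV c α T)) m * pw U m)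
        (bx Q fun k => cs g2 k * pw U k) (pw V) (2 * P) (2 * Q) (YY X α T K) K ≤
          (C₁ * T ^ (1 - c / 2) * 2) * ((1 + |U|) * (1 + |V|)) := by
      intro U V
      rw [hg U]
      have h4 := hT1 α hα K P Q hK hP hQ hK2 hPu (fun m => cs (a2 (uV c α T)) m * pw U m)
        (pw U) _ V (ha U) (tv_bx_one U hQ)
      refine h4.trans ?_
      have hU := abs_nonneg U
      have hV := abs_nonneg V
      have h5 : 2 + |U| ≤ 2 * ((1 + |U|) * (1 + |V|)) := by nlinarith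
      calc C₁ * T ^ (1 - c / 2) * (2 + |U|)
          ≤ C₁ * T ^ (1 - c / 2) * (2 * ((1 + |U|) * (1 + |V|))) :=
            mul_le_mul_of_nonneg_left h5 (by positivity)
        _ = _ := by ring
    have h4 := h2 c α T (cs (a2 (uV c α T))) (cs g2) K P Q _ hT4 hK hP hQ hM
    refine h4.trans ?_
    have h5 : T ^ (1 - c / 2) ≤ T ^ (1 - c / 16) :=
      Real.rpow_le_rpow_of_exponent_le hT4.le (by linarith)
    calc C₂ * (C₁ * T ^ (1 - c / 2) * 2) = C₂ * (C₁ * 2) * T ^ (1 - c / 2) := by ring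
      _ ≤ C₂ * (C₁ * 2) * T ^ (1 - c / 16) := mul_le_mul_of_nonneg_left h5 (by positivity)
      _ ≤ C₂ * (C₁ * 2 + C₃) * T ^ (1 - c / 16) :=
          mul_le_mul_of_nonneg_right (mul_le_mul_of_nonneg_left (by linarith) hC₂)
            (Real.rpow_nonneg hT0.le _)
  · push Not at hPu
    by_cases hPu2 : P ≤ uV c α T * uV c α T
    swap
    · rw [kb_zero, norm_zero]
      · exact hRHS
      · intro m hm _
        have h4 : a2 (uV c α T) m = 0 := by
          unfold a2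
          exact Pool.Agent.BGV.al2_zero _ m (by omega)
        show ((a2 (uV c α T) m : ℝ) : ℂ) = 0
        rw [h4, Complex.ofReal_zero]
    -- type II
    have hx0 : 0 < T ^ (1 - c) := Real.rpow_pos_of_pos hT0 _
    have hexp : (1 : ℝ) ≤ Real.exp X := Real.one_le_exp hX
    have hPle : (P : ℝ) ≤ T ^ (1 - c) := by
      have h4 : (P : ℝ) ≤ (uV c α T : ℝ) * (uV c α T : ℝ) := by exact_mod_cast hPu2
      have h5 : (uV c α T : ℝ) ≤ T ^ (α - 1 + c) := Nat.floor_le (Real.rpow_nonneg hT0.le _)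
      have h6 : (uV c α T : ℝ) * (uV c α T : ℝ) ≤ T ^ (α - 1 + c) * T ^ (α - 1 + c) :=
        mul_le_mul h5 h5 (Nat.cast_nonneg _) (Real.rpow_nonneg hT0.le _)
      rw [← Real.rpow_add hT0] at h6
      refine h4.trans (h6.trans (Real.rpow_le_rpow_of_exponent_le hT4.le ?_))
      linarith [hα.2]
    have hP3 : (P : ℝ) ≤ 4 * Real.exp X * T ^ (1 - c) := by nlinarith
    have hQ3 : (Q : ℝ) ≤ 4 * Real.exp X * T ^ (1 - c) := by
      have h4 : T ^ (α - 1 + c) * (Q : ℝ) ≤ T ^ α * Real.exp X :=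
        le_trans (mul_le_mul_of_nonneg_right hPu.le (by linarith)) hPQ
      have h5 : T ^ α = T ^ (α - 1 + c) * T ^ (1 - c) := by
        rw [← Real.rpow_add hT0]
        congr 1
        ring
      rw [h5, mul_assoc] at h4
      have h6 := le_of_mul_le_mul_left h4 (Real.rpow_pos_of_pos hT0 _)
      nlinarith [Real.exp_pos X]
    have hM : ∀ U V : ℝ, S3 (Finset.Ioc 1 (2 * K)) (bx P fun m => cs (a2 (uV c α T)) m * pw U m)
        (bx Q fun k => cs g2 k * pw U k) (pw V) (2 * P) (2 * Q) (YY X α T K) K ≤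
          (C₃ * T ^ (1 - c / 16)) * ((1 + |U|) * (1 + |V|)) := by
      intro U V
      have hgb : ∀ k, Q ≤ k → k < 2 * Q → ‖cs g2 k * pw U k‖ ≤ 3 * Real.log T := by
        intro k _ _
        have h5 : cs g2 k * pw U k = pw U k := congrFun (hg U) k
        rw [h5]
        exact (norm_pw U k).trans (by linarith)
      have h4 := hT2 α hα K P Q hK hP hQ hK1 hK2 hPQ1 hPQ hP3 hQ3
        (fun m => cs (a2 (uV c α T)) m * pw U m) (fun k => cs g2 k * pw U k) V (ha U) hgb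
      refine h4.trans ?_
      have hU := abs_nonneg U
      have hV := abs_nonneg V
      have h5 : 1 + |V| ≤ (1 + |U|) * (1 + |V|) := by nlinarith
      exact mul_le_mul_of_nonneg_left h5 (by positivity)
    have h4 := h2 c α T (cs (a2 (uV c α T))) (cs g2) K P Q _ hT4 hK hP hQ hM
    refine h4.trans ?_
    calc C₂ * (C₃ * T ^ (1 - c / 16)) = C₂ * C₃ * T ^ (1 - c / 16) := by ring
      _ ≤ C₂ * (C₁ * 2 + C₃) * T ^ (1 - c / 16) :=
          mul_le_mul_of_nonneg_right (mul_le_mul_of_nonneg_left (by linarith) hC₂)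
            (Real.rpow_nonneg hT0.le _)

end Pool.Agent.MP_67227b_nt.Gg
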