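import Mathlib
import Pool.Agent.MP_67227b_nt.Gg.GgBoxL
import Pool.Agent.MP_67227b_nt.Gg.GgNum2
import Pool.Agent.MP_67227b_nt.Gg.GgZb

set_option autoImplicit false

open Filter Topology Set MeasureTheory Complex
open scoped Real ContDiff ArithmeticFunction ArithmeticFunction.Moebius
open scoped Classical

namespace Pool.Agent.MP_67227b_nt.Gg

open Pool.Agent.BV (tau csum)
open Pool.Agent.LS (prim)

/-- The box sum vanishes if the first sequence vanishes on `[P, 2P)`. -/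
private theorem kc_zero {η ρ : ℝ → ℝ} {X c α T : ℝ} {a g : ℕ → ℂ} {K P Q : ℕ}
    (h : ∀ m, P ≤ m → m < 2 * P → a m = 0) : BX η ρ X c α T a g K P Q = 0 := by
  unfold BX
  refine Finset.sum_eq_zero fun A _ => ?_
  rw [Finset.sum_eq_zero, mul_zero]
  intro m hm
  rw [Finset.mem_Ico] at hm
  refine Finset.sum_eq_zero fun k _ => Finset.sum_eq_zero fun B _ => ?_
  rw [h m hm.1 hm.2]
  simp

/-- The same for the second sequence. -/
private theorem kc_zero' {η ρ : ℝ → ℝ} {X c α T : ℝ} {a g : ℕ → ℂ} {K P Q : ℕ}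
    (h : ∀ k, Q ≤ k → k < 2 * Q → g k = 0) : BX η ρ X c α T a g K P Q = 0 := by
  unfold BX
  refine Finset.sum_eq_zero fun A _ => ?_
  rw [Finset.sum_eq_zero, mul_zero]
  intro m _
  refine Finset.sum_eq_zero fun k hk => Finset.sum_eq_zero fun B _ => ?_
  rw [Finset.mem_Ico] at hk
  rw [h k hk.1 hk.2]
  simp

/-- The logarithms. -/
private theorem kc_log (X c : ℝ) (hc : 0 < c) : ∀ᶠ T : ℝ in atTop,
    ∀ α ∈ Icc (1 : ℝ) (3 / 2 - 4 * c), ∀ x : ℝ, 1 ≤ x → x ≤ T ^ α * Real.exp X →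
      1 + Real.log (2 * x) ≤ 3 * Real.log T := by
  have h1 : ∀ᶠ T : ℝ in atTop, 1 + Real.log 2 + X ≤ (3 / 2) * Real.log T := by
    have h2 : Tendsto (fun T : ℝ => (3 / 2) * Real.log T) atTop atTop :=
      Tendsto.const_mul_atTop (by norm_num) Real.tendsto_log_atTop
    exact h2.eventually_ge_atTop _
  filter_upwards [h1, eventually_ge_atTop (1 : ℝ)] with T hT hT1 α hα x hx hxT
  have hT0 : 0 < T := by linarith
  have hlog : 0 ≤ Real.log T := Real.log_nonneg hT1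
  have h2 : Real.log x ≤ α * Real.log T + X := by
    have h3 := Real.log_le_log (by linarith) hxT
    rw [Real.log_mul (Real.rpow_pos_of_pos hT0 _).ne' (Real.exp_pos X).ne', Real.log_rpow hT0,
      Real.log_exp] at h3
    exact h3
  have h3 : α * Real.log T ≤ (3 / 2) * Real.log T :=
    mul_le_mul_of_nonneg_right (by linarith [hα.2]) hlog
  rw [Real.log_mul (by norm_num) (by linarith)]
  linarith

/-- If `2x > T^{α-1+c}` and `x y ≤ T^α e^X` then `y` is small. -/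
private theorem kc_small {X c α T x y : ℝ} (hT0 : 0 < T) (hy : 0 ≤ y)
    (hx : T ^ (α - 1 + c) ≤ 2 * x) (hxy : x * y ≤ T ^ α * Real.exp X) :
    y ≤ 4 * Real.exp X * T ^ (1 - c) := by
  have h4 : T ^ (α - 1 + c) * y ≤ 2 * (T ^ α * Real.exp X) := by
    calc T ^ (α - 1 + c) * y ≤ (2 * x) * y := mul_le_mul_of_nonneg_right hx hy
      _ = 2 * (x * y) := by ring
      _ ≤ _ := by linarith
  have h5 : T ^ α = T ^ (α - 1 + c) * T ^ (1 - c) := by
    rw [← Real.rpow_add hT0]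
    congr 1
    ring
  have h6 : 2 * (T ^ α * Real.exp X) = T ^ (α - 1 + c) * (2 * (T ^ (1 - c) * Real.exp X)) := by
    rw [h5]
    ring
  rw [h6] at h4
  have h7 := le_of_mul_le_mul_left h4 (Real.rpow_pos_of_pos hT0 _)
  have h8 : 0 < T ^ (1 - c) * Real.exp X :=
    mul_pos (Real.rpow_pos_of_pos hT0 _) (Real.exp_pos X)
  linarith

/-- The third term of Vaughan's identity: type II. PROOF. As `kind2`, assume the four conditions of
`BX_zero`. `al4 u m = 0` for `m ≤ u` (`BGV.al4_zero`) and `g3 u k = 0` for `k ≤ u`, so `BX = 0` if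
`2P ≤ u + 1` or `2Q ≤ u + 1`; otherwise `2P ≥ u + 1 ≥ T^{α-1+c}` and `Q ≤ T^α e^X/P ≤
2 e^X T^{1-c}`, the same for `P`. `|al4 u m| ≤ log m ≤ 3 log T` (`BGV.abs_al4_le`), `|g3| ≤ 1`
(`BGV.abs_mu_le`). `typeII_num` and `box_le`. -/
theorem kind3 {X κ : ℝ} {η ρ : ℝ → ℝ} (hX : 0 ≤ X) (hκ : 0 < κ) (hη : Eta X η) (hρ : Rho κ ρ)
    (c : ℝ) (hc : 0 < c) : ∃ C : ℝ, 0 ≤ C ∧ ∀ᶠ T : ℝ in atTop,
      ∀ α ∈ Icc (1 : ℝ) (3 / 2 - 4 * c), ∀ K P Q : ℕ, 1 ≤ K → 1 ≤ P → 1 ≤ Q →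
      ‖BX η ρ X c α T (cs (a3 (uV c α T))) (cs (g3 (uV c α T))) K P Q‖ ≤
        C * T ^ (1 - c / 16) := by
  obtain ⟨C₂, hC₂, h2⟩ := box_le hκ hη hρ
  obtain ⟨C₃, hC₃, h3⟩ := typeII_num X c hX hc
  refine ⟨C₂ * C₃, by positivity, ?_⟩
  filter_upwards [h3, kc_log X c hc, eventually_gt_atTop (1 : ℝ),
    Real.tendsto_log_atTop.eventually_ge_atTop 1] with T hT2 hT3 hT4 hT5 α hα K P Q hK hP hQ
  have hT0 : 0 < T := by linarith
  have hRHS : 0 ≤ C₂ * C₃ * T ^ (1 - c / 16) := by positivity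
  by_cases hcond : T ^ (α - 1 + c) ≤ 2 * K ∧ (K : ℝ) ≤ T ^ (1 / 2 - c) ∧
      T ^ α ≤ 4 * P * Q * Real.exp X ∧ (P : ℝ) * Q ≤ T ^ α * Real.exp X
  swap
  · rw [BX_zero hκ hη hρ hT4 _ _ hP hQ hcond, norm_zero]
    exact hRHS
  obtain ⟨hK1, hK2, hPQ1, hPQ⟩ := hcond
  have hP1 : (1 : ℝ) ≤ P := by exact_mod_cast hP
  have hQ1 : (1 : ℝ) ≤ Q := by exact_mod_cast hQ
  have hPT : (P : ℝ) ≤ T ^ α * Real.exp X := by
    refine le_trans ?_ hPQ
    nlinarith
  have hlP : 1 + Real.log (2 * P) ≤ 3 * Real.log T := hT3 α hα P hP1 hPT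
  by_cases hPu : 2 * P ≤ uV c α T + 1
  · rw [kc_zero, norm_zero]
    · exact hRHS
    · intro m _ hm
      have h4 : a3 (uV c α T) m = 0 := by
        unfold a3
        exact Pool.Agent.BGV.al4_zero _ m (by omega)
      show ((a3 (uV c α T) m : ℝ) : ℂ) = 0
      rw [h4, Complex.ofReal_zero]
  by_cases hQu : 2 * Q ≤ uV c α T + 1
  · rw [kc_zero', norm_zero]
    · exact hRHS
    · intro k _ hk
      have h4 : g3 (uV c α T) k = 0 := by
        unfold g3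
        rw [if_neg (by omega)]
      show ((g3 (uV c α T) k : ℝ) : ℂ) = 0
      rw [h4, Complex.ofReal_zero]
  push Not at hPu hQu
  have hfl : T ^ (α - 1 + c) < (uV c α T : ℝ) + 1 := Nat.lt_floor_add_one _
  have hP2 : T ^ (α - 1 + c) ≤ 2 * (P : ℝ) := by
    have h4 : (uV c α T : ℝ) + 1 ≤ 2 * (P : ℝ) := by exact_mod_cast hPu.le
    linarith
  have hQ2 : T ^ (α - 1 + c) ≤ 2 * (Q : ℝ) := by
    have h4 : (uV c α T : ℝ) + 1 ≤ 2 * (Q : ℝ) := by exact_mod_cast hQu.le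
    linarith
  have hQ3 : (Q : ℝ) ≤ 4 * Real.exp X * T ^ (1 - c) := kc_small hT0 (by linarith) hP2 hPQ
  have hP3 : (P : ℝ) ≤ 4 * Real.exp X * T ^ (1 - c) :=
    kc_small hT0 (by linarith) hQ2 (by rw [mul_comm]; exact hPQ)
  have ha : ∀ U : ℝ, ∀ m, P ≤ m → m < 2 * P →
      ‖cs (a3 (uV c α T)) m * pw U m‖ ≤ 3 * Real.log T := by
    intro U m hm hm2
    have hm0 : (0 : ℝ) < m := by
      have : 0 < m := by omega
      exact_mod_cast this
    have h4 : ‖cs (a3 (uV c α T)) m‖ ≤ 3 * Real.log T := by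
      show ‖((a3 (uV c α T) m : ℝ) : ℂ)‖ ≤ _
      rw [Complex.norm_real, Real.norm_eq_abs]
      unfold a3
      refine (Pool.Agent.BGV.abs_al4_le _ m).trans ?_
      have h5 : Real.log m ≤ Real.log (2 * P) := by
        apply Real.log_le_log hm0
        exact_mod_cast hm2.le
      linarith
    rw [norm_mul]
    calc ‖cs (a3 (uV c α T)) m‖ * ‖pw U m‖ ≤ (3 * Real.log T) * 1 :=
          mul_le_mul h4 (norm_pw U m) (norm_nonneg _) (by linarith)
      _ = 3 * Real.log T := mul_one _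
  have hg : ∀ U : ℝ, ∀ k, Q ≤ k → k < 2 * Q →
      ‖cs (g3 (uV c α T)) k * pw U k‖ ≤ 3 * Real.log T := by
    intro U k _ _
    have h4 : ‖cs (g3 (uV c α T)) k‖ ≤ 1 := by
      show ‖((g3 (uV c α T) k : ℝ) : ℂ)‖ ≤ 1
      rw [Complex.norm_real, Real.norm_eq_abs]
      unfold g3
      split_ifs
      · exact Pool.Agent.BGV.abs_mu_le k
      · rw [abs_zero]; exact zero_le_one
    rw [norm_mul]
    calc ‖cs (g3 (uV c α T)) k‖ * ‖pw U k‖ ≤ 1 * 1 :=
          mul_le_mul h4 (norm_pw U k) (norm_nonneg _) zero_le_one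
      _ ≤ 3 * Real.log T := by linarith
  have hM : ∀ U V : ℝ, S3 (Finset.Ioc 1 (2 * K)) (bx P fun m => cs (a3 (uV c α T)) m * pw U m)
      (bx Q fun k => cs (g3 (uV c α T)) k * pw U k) (pw V) (2 * P) (2 * Q) (YY X α T K) K ≤
        (C₃ * T ^ (1 - c / 16)) * ((1 + |U|) * (1 + |V|)) := by
    intro U V
    have h4 := hT2 α hα K P Q hK hP hQ hK1 hK2 hPQ1 hPQ hP3 hQ3
      (fun m => cs (a3 (uV c α T)) m * pw U m) (fun k => cs (g3 (uV c α T)) k * pw U k) V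
      (ha U) (hg U)
    refine h4.trans ?_
    have hU := abs_nonneg U
    have hV := abs_nonneg V
    have h5 : 1 + |V| ≤ (1 + |U|) * (1 + |V|) := by nlinarith
    exact mul_le_mul_of_nonneg_left h5 (by positivity)
  have h4 := h2 c α T (cs (a3 (uV c α T))) (cs (g3 (uV c α T))) K P Q _ hT4 hK hP hQ hM
  refine h4.trans (le_of_eq ?_)
  ring

end Pool.Agent.MP_67227b_nt.Gg
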