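import Mathlib
import Pool.Agent.MP_67227b_nt.Gg.GgNonC

set_option autoImplicit false

open Filter Topology Set MeasureTheory Complex
open scoped Real ContDiff ArithmeticFunction ArithmeticFunction.Moebius
open scoped Classical

namespace Pool.Agent.MP_67227b_nt.Gg

open Pool.Agent.BV (tau csum)
open Pool.Agent.LS (prim)

private theorem zv_id {u n : ℕ} (hn : u < n) :
    Λ n = cv (a1 u) g1 n - cv (a2 u) g2 n + cv (a3 u) (g3 u) n := by
  have h := Pool.Agent.BGV.vaughan u n hn
  unfold cv a1 g1 a2 g2 a3 g3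
  simp only [mul_one]
  exact h

private theorem zv_T (X c : ℝ) (hc : c ≤ 1 / 8) :
    ∀ᶠ T : ℝ in atTop, 1 < T ∧ Real.exp X < T ^ (1 - c) := by
  have h1 : Tendsto (fun T : ℝ => T ^ (1 - c)) atTop atTop :=
    tendsto_rpow_atTop (by linarith)
  exact (eventually_gt_atTop 1).and (h1.eventually_gt_atTop _)

/-- Vaughan's identity. PROOF. `BGV.vaughan` for `n > u = uV`; for `n ≤ u ≤ T^{α-1+c}` one has
`wg = 0` (`wg_supp`: `n ≥ T^α e^{-X} > T^{α-1+c}` for large `T`, as `c ≤ 1/8`). `ZZ` is linear in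
`f` and depends only on the `f n` with `wg ≠ 0`. -/
theorem ZZ_vau {X κ : ℝ} {η ρ : ℝ → ℝ} (hκ : 0 < κ) (hη : Eta X η) (hρ : Rho κ ρ)
    (c : ℝ) (hc : 0 < c) : ∀ᶠ T : ℝ in atTop, ∀ α ∈ Icc (1 : ℝ) (3 / 2 - 4 * c),
      ZZ η ρ c α T (fun n => Λ n) = ZZ η ρ c α T (cv (a1 (uV c α T)) g1) -
        ZZ η ρ c α T (cv (a2 (uV c α T)) g2) + ZZ η ρ c α T (cv (a3 (uV c α T)) (g3 (uV c α T))) := by
  by_cases hc8 : c ≤ 1 / 8
  · filter_upwards [zv_T X c hc8] with T hT α hα
    obtain ⟨hT1, hT2⟩ := hT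
    have hT0 : 0 < T := by linarith
    unfold ZZ
    rw [← Finset.sum_sub_distrib, ← Finset.sum_add_distrib]
    refine Finset.sum_congr rfl fun A hA => ?_
    have hA1 : 1 ≤ A := by
      unfold As at hA
      have := (Finset.mem_Ioc.1 hA).1
      omega
    rw [← mul_sub, ← mul_add, ← Finset.sum_sub_distrib, ← Finset.sum_add_distrib]
    congr 1
    refine Finset.sum_congr rfl fun n hn => ?_
    rw [Finset.mem_Icc] at hn
    rw [← Finset.sum_sub_distrib, ← Finset.sum_add_distrib]
    refine Finset.sum_congr rfl fun B _ => ?_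
    by_cases hcop : n.Coprime A
    · rw [if_pos hcop, if_pos hcop, if_pos hcop, if_pos hcop]
      by_cases hw : wg η ρ α T n A B = 0
      · rw [hw]
        simp
      · obtain ⟨h1, -, -⟩ := wg_supp hκ hη hρ hT1 hn.1 hA1 hw
        have h2 : T ^ (α - 1 + c) < n := by
          refine lt_of_lt_of_le ?_ h1
          rw [Real.exp_neg, ← div_eq_mul_inv, lt_div_iff₀ (Real.exp_pos X)]
          calc T ^ (α - 1 + c) * Real.exp X < T ^ (α - 1 + c) * T ^ (1 - c) :=
                mul_lt_mul_of_pos_left hT2 (Real.rpow_pos_of_pos hT0 _)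
            _ = T ^ α := by
                rw [← Real.rpow_add hT0]
                congr 1
                ring
        have h3 : uV c α T < n := by
          unfold uV
          exact (Nat.floor_lt (Real.rpow_nonneg hT0.le _)).2 h2
        have h4 : (fun n => Λ n : ℕ → ℝ) n = cv (a1 (uV c α T)) g1 n - cv (a2 (uV c α T)) g2 n +
            cv (a3 (uV c α T)) (g3 (uV c α T)) n := zv_id h3
        rw [h4]
        push_cast
        ring
    · rw [if_neg hcop, if_neg hcop, if_neg hcop, if_neg hcop]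
      ring
  · filter_upwards with T α hα
    exfalso
    have h1 := hα.1.trans hα.2
    linarith [not_le.1 hc8]

end Pool.Agent.MP_67227b_nt.Gg
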