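import Mathlib
import Pool.Agent.MP_67227b_nt.Gg.GgKa
import Pool.Agent.MP_67227b_nt.Gg.GgKb
import Pool.Agent.MP_67227b_nt.Gg.GgKc
import Pool.Agent.MP_67227b_nt.Gg.GgZv

set_option autoImplicit false

open Filter Topology Set MeasureTheory Complex
open scoped Real ContDiff ArithmeticFunction ArithmeticFunction.Moebius
open scoped Classical

namespace Pool.Agent.MP_67227b_nt.Gg

open Pool.Agent.BV (tau csum)
open Pool.Agent.LS (prim)

namespace ErrAux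

theorem triple_le (J : ℕ) (f : ℕ → ℕ → ℕ → ℂ) {M : ℝ} (h : ∀ i j l, ‖f i j l‖ ≤ M) :
    ‖∑ i ∈ Finset.range J, ∑ j ∈ Finset.range J, ∑ l ∈ Finset.range J, f i j l‖ ≤
      (J : ℝ) ^ 3 * M := by
  have h1 : ∀ i j, ‖∑ l ∈ Finset.range J, f i j l‖ ≤ (J : ℝ) * M := by
    intro i j
    refine (norm_sum_le _ _).trans ((Finset.sum_le_sum fun l _ => h i j l).trans (le_of_eq ?_))
    rw [Finset.sum_const, Finset.card_range, nsmul_eq_mul]
  have h2 : ∀ i, ‖∑ j ∈ Finset.range J, ∑ l ∈ Finset.range J, f i j l‖ ≤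
      (J : ℝ) * ((J : ℝ) * M) := by
    intro i
    refine (norm_sum_le _ _).trans ((Finset.sum_le_sum fun j _ => h1 i j).trans (le_of_eq ?_))
    rw [Finset.sum_const, Finset.card_range, nsmul_eq_mul]
  refine (norm_sum_le _ _).trans ((Finset.sum_le_sum fun i _ => h2 i).trans (le_of_eq ?_))
  rw [Finset.sum_const, Finset.card_range, nsmul_eq_mul]
  ring

theorem Jd_le {T : ℝ} (hT : Real.exp 1 ≤ T) : (Jd T : ℝ) ≤ 4 * Real.log T := by
  have he : 1 < Real.exp 1 := by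
    have := Real.add_one_lt_exp (x := 1) one_ne_zero
    linarith
  have hT0 : 0 < T := by linarith
  have hL : 1 ≤ Real.log T := by
    rw [Real.le_log_iff_exp_le hT0]
    exact hT
  have hN : 1 ≤ ⌊T ^ (2 : ℝ)⌋₊ := by
    rw [Nat.one_le_floor_iff]
    exact Real.one_le_rpow (by linarith) (by norm_num)
  have h1 : ((2 ^ Nat.log 2 ⌊T ^ (2 : ℝ)⌋₊ : ℕ) : ℝ) ≤ T ^ (2 : ℝ) := by
    have h2 := Nat.pow_log_le_self 2 (by omega : ⌊T ^ (2 : ℝ)⌋₊ ≠ 0)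
    have h3 : ((2 ^ Nat.log 2 ⌊T ^ (2 : ℝ)⌋₊ : ℕ) : ℝ) ≤ (⌊T ^ (2 : ℝ)⌋₊ : ℝ) := by exact_mod_cast h2
    exact h3.trans (Nat.floor_le (by positivity))
  have h4 := Real.log_le_log (by positivity) h1
  rw [Real.log_rpow hT0] at h4
  push_cast at h4
  rw [Real.log_pow] at h4
  have h5 : (1 : ℝ) / 1.5 ≤ Real.log 2 := by
    have := Real.log_two_gt_d9
    norm_num
    linarith
  have h6 : (Nat.log 2 ⌊T ^ (2 : ℝ)⌋₊ : ℝ) ≤ 3 * Real.log T := by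
    have h7 : (0 : ℝ) ≤ (Nat.log 2 ⌊T ^ (2 : ℝ)⌋₊ : ℝ) := Nat.cast_nonneg _
    nlinarith
  unfold Jd
  push_cast
  linarith

end ErrAux

open ErrAux

/-- ERR: the twist by `e(-nB/A)` may be replaced by its mean value `μ(A)/φ(A)`. -/
theorem err (X κ c : ℝ) (hκ : 0 < κ) (hc : 0 < c) {η ρ : ℝ → ℝ} (hη : Eta X η) (hρ : Rho κ ρ) :
    ∃ C : ℝ, ∀ᶠ T : ℝ in atTop, ∀ α ∈ Icc (1 : ℝ) (3 / 2 - 4 * c),
      ‖XX η ρ c α T - (X0 η ρ c α T : ℂ)‖ ≤ C * T := by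
  have hη' : Eta (max X 0) η :=
    ⟨hη.smooth, fun v hv => hη.supp v ((le_max_left _ _).trans_lt hv), hη.sq_le⟩
  have hX' : 0 ≤ max X 0 := le_max_right _ _
  obtain ⟨C1, hC1, h1⟩ := kind1 hX' hκ hη' hρ c hc
  obtain ⟨C2, hC2, h2⟩ := kind2 hX' hκ hη' hρ c hc
  obtain ⟨C3, hC3, h3⟩ := kind3 hX' hκ hη' hρ c hc
  refine ⟨1 + (C1 + C2 + C3), ?_⟩
  have hlog : ∀ᶠ T : ℝ in atTop, (4 * Real.log T) ^ 3 ≤ T ^ (c / 16) := by
    have h := (isLittleO_log_rpow_atTop (r := c / 64) (by positivity)).bound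
      (show (0 : ℝ) < 1 / 4 by norm_num)
    filter_upwards [h, eventually_ge_atTop (1 : ℝ)] with T hT hT1
    have hT0 : 0 < T := by linarith
    rw [Real.norm_of_nonneg (Real.log_nonneg hT1), Real.norm_of_nonneg (by positivity)] at hT
    have h4 : 4 * Real.log T ≤ T ^ (c / 64) := by linarith
    have h5 : 0 ≤ 4 * Real.log T := by
      have := Real.log_nonneg hT1
      positivity
    calc (4 * Real.log T) ^ 3 ≤ (T ^ (c / 64)) ^ 3 := pow_le_pow_left₀ h5 h4 3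
      _ = T ^ (c / 64 * 3) := by
          rw [← Real.rpow_natCast, ← Real.rpow_mul hT0.le]
          norm_num
      _ ≤ T ^ (c / 16) := Real.rpow_le_rpow_of_exponent_le hT1 (by linarith)
  filter_upwards [nonC hκ hη' hρ c hc, ZZ_vau hκ hη' hρ c hc, ZZ_box hX' hκ hη' hρ c hc, h1, h2, h3,
    hlog, eventually_ge_atTop (Real.exp 1)] with T hn hv hb k1 k2 k3 hl hTe α hα
  have he : 1 < Real.exp 1 := by
    have := Real.add_one_lt_exp (x := 1) one_ne_zero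
    linarith
  have hT0 : 0 < T := by linarith
  have hJ := Jd_le hTe
  have hp : ∀ i : ℕ, 1 ≤ 2 ^ i := fun i => Nat.one_le_two_pow
  have hM : (Jd T : ℝ) ^ 3 * T ^ (1 - c / 16) ≤ T := by
    have h4 : (Jd T : ℝ) ^ 3 ≤ T ^ (c / 16) :=
      (pow_le_pow_left₀ (Nat.cast_nonneg _) hJ 3).trans hl
    calc (Jd T : ℝ) ^ 3 * T ^ (1 - c / 16) ≤ T ^ (c / 16) * T ^ (1 - c / 16) :=
          mul_le_mul_of_nonneg_right h4 (by positivity)
      _ = T := by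
          rw [← Real.rpow_add hT0]
          norm_num
  have hbox : ∀ (a g : ℕ → ℝ) (C : ℝ), 0 ≤ C → (∀ K P Q : ℕ, 1 ≤ K → 1 ≤ P → 1 ≤ Q →
      ‖BX η ρ (max X 0) c α T (cs a) (cs g) K P Q‖ ≤ C * T ^ (1 - c / 16)) →
      ‖ZZ η ρ c α T (cv a g)‖ ≤ C * T := by
    intro a g C hC h
    rw [hb α hα a g]
    refine (triple_le (Jd T) _ fun i j l => h _ _ _ (hp i) (hp j) (hp l)).trans ?_
    calc (Jd T : ℝ) ^ 3 * (C * T ^ (1 - c / 16)) = C * ((Jd T : ℝ) ^ 3 * T ^ (1 - c / 16)) := by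
          ring
      _ ≤ C * T := mul_le_mul_of_nonneg_left hM hC
  have z1 := hbox _ _ C1 hC1 (k1 α hα)
  have z2 := hbox _ _ C2 hC2 (k2 α hα)
  have z3 := hbox _ _ C3 hC3 (k3 α hα)
  have e1 : XX η ρ c α T - (X0 η ρ c α T : ℂ) =
      (XX η ρ c α T - (X0 η ρ c α T : ℂ) - ZZ η ρ c α T (fun n => Λ n)) +
        (ZZ η ρ c α T (cv (a1 (uV c α T)) g1) - ZZ η ρ c α T (cv (a2 (uV c α T)) g2) +
          ZZ η ρ c α T (cv (a3 (uV c α T)) (g3 (uV c α T)))) := by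
    rw [← hv α hα]
    ring
  rw [e1]
  refine (norm_add_le _ _).trans ?_
  have h6 := hn α hα
  have h7 := norm_add_le (ZZ η ρ c α T (cv (a1 (uV c α T)) g1) -
    ZZ η ρ c α T (cv (a2 (uV c α T)) g2)) (ZZ η ρ c α T (cv (a3 (uV c α T)) (g3 (uV c α T))))
  have h8 := norm_sub_le (ZZ η ρ c α T (cv (a1 (uV c α T)) g1))
    (ZZ η ρ c α T (cv (a2 (uV c α T)) g2))
  linarith

end Pool.Agent.MP_67227b_nt.Gg
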