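import Mathlib
import Pool.Agent.MP_67227b_nt.Gg.GgDg
import Pool.Agent.MP_67227b_nt.Mo.ExplicitL

set_option autoImplicit false

open Filter Topology Set MeasureTheory Complex
open scoped Real ContDiff

namespace Pool.Agent.MP_67227b_nt.Gg

open Pool.Agent.MP_67227b_nt.Mo Pool.Agent.Lib.ZetaCount_helper33

/-- The Laplace transform which replaces the residue at `s = -(a - 3/2)`: `σ = ±1`. -/
noncomputable def Ja (h : ℝ → ℂ) (σ a : ℝ) : ℂ :=
  ∫ y in Ioi (0 : ℝ), ((Real.exp (-((a - 1) * y)) : ℝ) : ℂ) * h (σ * (y / (2 * π)))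

private theorem jai_prod {G : ℝ → ℂ} (hG : Integrable G) {a : ℝ} (ha : 0 < a) (σ : ℝ) :
    Integrable (Function.uncurry fun (t y : ℝ) =>
      Complex.exp (-((a : ℂ) + ((σ * t : ℝ) : ℂ) * I) * y) * G t)
      (volume.prod (volume.restrict (Ioi (0 : ℝ)))) := by
  have hE0 := exp_neg_integrableOn_Ioi 0 ha
  have hE : Integrable (fun y : ℝ => ((Real.exp (-a * y) : ℝ) : ℂ)) (volume.restrict (Ioi (0 : ℝ))) :=
    hE0.ofReal
  have h1 : Integrable (fun z : ℝ × ℝ => G z.1 * ((Real.exp (-a * z.2) : ℝ) : ℂ))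
      (volume.prod (volume.restrict (Ioi (0 : ℝ)))) := hG.mul_prod hE
  have h2 := h1.bdd_mul (c := 1) (f := fun z : ℝ × ℝ => Complex.exp (-(((σ * z.1 : ℝ) : ℂ) * I) * z.2))
    (by
      apply Continuous.aestronglyMeasurable
      fun_prop)
    (Eventually.of_forall fun z => by
      have h3 : -(((σ * z.1 : ℝ) : ℂ) * I) * (z.2 : ℂ) = ((-(σ * z.1 * z.2) : ℝ) : ℂ) * I := by
        push_cast
        ring
      rw [h3, Complex.norm_exp_ofReal_mul_I])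
  refine h2.congr (Eventually.of_forall fun z => ?_)
  simp only [Function.uncurry]
  have h4 : Complex.exp (-((a : ℂ) + ((σ * z.1 : ℝ) : ℂ) * I) * z.2) =
      Complex.exp (-(((σ * z.1 : ℝ) : ℂ) * I) * z.2) * ((Real.exp (-a * z.2) : ℝ) : ℂ) := by
    rw [Complex.ofReal_exp, ← Complex.exp_add]
    congr 1
    push_cast
    ring
  rw [h4]
  ring

/-- Module JA. PROOF. `1/(a + iσt) = ∫_0^∞ e^{-(a + iσt)y} dy`; Fubini (the product
`‖gs h (t - iσ)‖ e^{-ay}` is integrable, `integrable_gs`); the inner integral is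
`∫ gs h (t - iσ) e^{-iσty} dt = h(σy/2π) e^{y}` by `integral_gs_exp` at height `-σ` and
`v = σy/(2π)` (`exp (-(2π v (-σ))) = exp (σ² y) = exp y`). -/
theorem integral_inv_gs {h : ℝ → ℂ} {δ : ℝ} (hδ : 0 ≤ δ) (hh : Bump δ h) {a : ℝ} (ha : 0 < a)
    {σ : ℝ} (hσ : σ = 1 ∨ σ = -1) :
    ∫ t : ℝ, ((a : ℂ) + ((σ * t : ℝ) : ℂ) * I)⁻¹ * gs h ((t : ℂ) + ((-σ : ℝ) : ℂ) * I) =
      Ja h σ a := by
  set G : ℝ → ℂ := fun t => gs h ((t : ℂ) + ((-σ : ℝ) : ℂ) * I) with hG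
  have hGi : Integrable G := integrable_gs hδ hh (-σ)
  have hσ2 : σ * σ = 1 := by rcases hσ with h | h <;> rw [h] <;> norm_num
  have hfi := jai_prod hGi ha σ
  calc ∫ t : ℝ, ((a : ℂ) + ((σ * t : ℝ) : ℂ) * I)⁻¹ * G t
      = ∫ t : ℝ, ∫ y in Ioi (0 : ℝ), Complex.exp (-((a : ℂ) + ((σ * t : ℝ) : ℂ) * I) * y) * G t := by
        refine integral_congr_ae (Eventually.of_forall fun t => ?_)
        simp only
        rw [integral_mul_const, integral_exp_mul_complex_Ioi (by simpa using ha)]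
        congr 1
        rw [ofReal_zero, mul_zero, Complex.exp_zero, neg_div_neg_eq, one_div]
    _ = ∫ y in Ioi (0 : ℝ), ∫ t : ℝ, Complex.exp (-((a : ℂ) + ((σ * t : ℝ) : ℂ) * I) * y) * G t :=
        integral_integral_swap hfi
    _ = Ja h σ a := by
        unfold Ja
        refine setIntegral_congr_fun measurableSet_Ioi fun y _ => ?_
        have h1 := integral_gs_exp hδ hh (-σ) (σ * (y / (2 * π)))
        have h2 : ∀ t : ℝ, Complex.exp (-((a : ℂ) + ((σ * t : ℝ) : ℂ) * I) * y) * G t =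
            ((Real.exp (-(a * y)) : ℝ) : ℂ) *
              (G t * Complex.exp (-(2 * π * I * ((σ * (y / (2 * π)) : ℝ) : ℂ) * t))) := by
          intro t
          have h3 : Complex.exp (-((a : ℂ) + ((σ * t : ℝ) : ℂ) * I) * y) =
              ((Real.exp (-(a * y)) : ℝ) : ℂ) *
                Complex.exp (-(2 * π * I * ((σ * (y / (2 * π)) : ℝ) : ℂ) * t)) := by
            rw [Complex.ofReal_exp, ← Complex.exp_add]
            congr 1
            have hpi : (π : ℂ) ≠ 0 := by exact_mod_cast Real.pi_ne_zero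
            push_cast
            field_simp
            ring
          rw [h3]
          ring
        simp only [h2]
        rw [integral_const_mul]
        have h4 : ∫ t : ℝ, G t * Complex.exp (-(2 * π * I * ((σ * (y / (2 * π)) : ℝ) : ℂ) * t)) =
            h (σ * (y / (2 * π))) * ((Real.exp (-(2 * π * (σ * (y / (2 * π))) * (-σ))) : ℝ) : ℂ) := h1
        rw [h4]
        have h5 : -(2 * π * (σ * (y / (2 * π))) * (-σ)) = y := by
          have hpi : π ≠ 0 := Real.pi_ne_zero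
          field_simp
          linear_combination y * hσ2
        rw [h5]
        have h6 : -((a - 1) * y) = -(a * y) + y := by ring
        rw [h6, Real.exp_add]
        push_cast
        ring

private theorem jan_B {G : ℝ → ℂ} (hG : Integrable G) {a : ℝ} (ha : 0 < a) (σ : ℝ) :
    Integrable fun t : ℝ => ((a : ℂ) + ((σ * t : ℝ) : ℂ) * I)⁻¹ * G t := by
  have hne : ∀ t : ℝ, (a : ℂ) + ((σ * t : ℝ) : ℂ) * I ≠ 0 := by
    intro t h
    have := congrArg Complex.re h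
    simp at this
    linarith
  refine hG.bdd_mul (c := a⁻¹) ?_ (Eventually.of_forall fun t => ?_)
  · apply Continuous.aestronglyMeasurable
    apply Continuous.inv₀
    · fun_prop
    · exact hne
  · rw [norm_inv]
    refine inv_anti₀ ha ?_
    have h1 := Complex.re_le_norm ((a : ℂ) + ((σ * t : ℝ) : ℂ) * I)
    simpa using h1

/-- Module ARN. PROOF. `∫ gs h (t - iσ) dt = h 0 = 0` (`integral_gs_exp` with `v = 0`), so
`archF (pt32 (σt))` may be replaced by `archF (pt32 (σt)) - archF (pt32 0)`; insert `archF_sub` (at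
`σt`) and `integral_inv_gs` for each term (the constants integrate to zero); the last term is at most
`(1/2) ∫ |t|/(N+1) ‖gs h (t - iσ)‖ dt ≤ K/(N+1)` (`digamma_far_sub`; integrable by `gs_decay` with
`K = 4`, `archF` part by `integrable_arch`). -/
theorem arch_partial {h : ℝ → ℂ} {δ : ℝ} (hδ : 0 ≤ δ) (hh : Bump δ h) (h0 : h 0 = 0)
    {σ : ℝ} (hσ : σ = 1 ∨ σ = -1) : ∃ K : ℝ, ∀ N : ℕ,
      ‖(∫ t : ℝ, archF (pt32 (σ * t)) * gs h ((t : ℂ) + ((-σ : ℝ) : ℂ) * I)) -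
        (Ja h σ (1 / 2) - ∑ j ∈ Finset.range N, Ja h σ (3 / 2 + 2 * ((j : ℝ) + 1)))‖ ≤
        K / ((N : ℝ) + 1) := by
  set G : ℝ → ℂ := fun t => gs h ((t : ℂ) + ((-σ : ℝ) : ℂ) * I) with hG
  have hGi : Integrable G := integrable_gs hδ hh (-σ)
  have hσa : |σ| = 1 := by rcases hσ with h | h <;> rw [h] <;> norm_num
  have hA : Integrable fun t : ℝ => archF (pt32 (σ * t)) * G t := integrable_arch hδ hh σ (-σ) hσa
  have hG0 : ∫ t : ℝ, G t = 0 := by
    have h1 := integral_gs_exp hδ hh (-σ) 0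
    rw [h0, zero_mul] at h1
    rw [← h1]
    refine integral_congr_ae (Eventually.of_forall fun t => ?_)
    simp [hG]
  obtain ⟨C, hC, hb⟩ := gs_line_bound hδ hh (-σ)
  have htG : Integrable fun t : ℝ => |t| * ‖G t‖ := by
    refine Integrable.mono' (integrable_inv_one_add_sq.const_mul C)
      (continuous_abs.aestronglyMeasurable.mul hGi.norm.aestronglyMeasurable)
      (Eventually.of_forall fun t => ?_)
    rw [Real.norm_of_nonneg (by positivity)]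
    calc |t| * ‖G t‖ ≤ |t| * (C / (1 + t ^ 2) ^ 3) := mul_le_mul_of_nonneg_left (hb t) (abs_nonneg _)
      _ ≤ C * (1 + t ^ 2)⁻¹ := by
        have h7 : 0 < 1 + t ^ 2 := by positivity
        have h8 : |t| ≤ (1 + t ^ 2) ^ 2 := by
          have := sq_abs t
          nlinarith [abs_nonneg t, sq_nonneg (|t| - 1), sq_nonneg (t ^ 2)]
        rw [mul_div_assoc', div_le_iff₀ (by positivity)]
        have h9 : C * (1 + t ^ 2)⁻¹ * (1 + t ^ 2) ^ 3 = C * (1 + t ^ 2) ^ 2 := by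
          field_simp
        rw [h9, mul_comm]
        exact mul_le_mul_of_nonneg_left h8 hC.le
  refine ⟨(∫ t : ℝ, |t| * ‖G t‖) / 2, fun N => ?_⟩
  set aj : ℕ → ℝ := fun j => 3 / 2 + 2 * ((j : ℝ) + 1) with haj
  have haj0 : ∀ j, 0 < aj j := fun j => by
    simp only [haj]
    positivity
  have hB : ∀ a : ℝ, 0 < a → ∫ t : ℝ, ((a : ℂ) + ((σ * t : ℝ) : ℂ) * I)⁻¹ * G t = Ja h σ a :=
    fun a ha => integral_inv_gs hδ hh ha hσ
  set cN : ℂ := archF (pt32 0) - (((1 / 2 : ℝ) : ℂ))⁻¹ + ∑ j ∈ Finset.range N, (((aj j : ℝ) : ℂ))⁻¹ with hcN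
  have hS : Integrable fun t : ℝ => ∑ j ∈ Finset.range N, (((aj j : ℝ) : ℂ) + ((σ * t : ℝ) : ℂ) * I)⁻¹ * G t :=
    integrable_finsetSum _ fun j _ => jan_B hGi (haj0 j) σ
  have hH : Integrable fun t : ℝ => (((1 / 2 : ℝ) : ℂ) + ((σ * t : ℝ) : ℂ) * I)⁻¹ * G t :=
    jan_B hGi (by norm_num) σ
  have hHS : Integrable fun t : ℝ => (((1 / 2 : ℝ) : ℂ) + ((σ * t : ℝ) : ℂ) * I)⁻¹ * G t -
      ∑ j ∈ Finset.range N, (((aj j : ℝ) : ℂ) + ((σ * t : ℝ) : ℂ) * I)⁻¹ * G t := hH.sub hS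
  have hAHS : Integrable fun t : ℝ => archF (pt32 (σ * t)) * G t -
      ((((1 / 2 : ℝ) : ℂ) + ((σ * t : ℝ) : ℂ) * I)⁻¹ * G t -
      ∑ j ∈ Finset.range N, (((aj j : ℝ) : ℂ) + ((σ * t : ℝ) : ℂ) * I)⁻¹ * G t) := hA.sub hHS
  have hint : (∫ t : ℝ, archF (pt32 (σ * t)) * G t) -
      (Ja h σ (1 / 2) - ∑ j ∈ Finset.range N, Ja h σ (aj j)) =
      ∫ t : ℝ, ((archF (pt32 (σ * t)) * G t -
        ((((1 / 2 : ℝ) : ℂ) + ((σ * t : ℝ) : ℂ) * I)⁻¹ * G t -
          ∑ j ∈ Finset.range N, (((aj j : ℝ) : ℂ) + ((σ * t : ℝ) : ℂ) * I)⁻¹ * G t)) - cN * G t) := by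
    rw [integral_sub hAHS (hGi.const_mul cN), integral_sub hA hHS,
      integral_sub hH hS, integral_finsetSum _ (fun j _ => jan_B hGi (haj0 j) σ), integral_const_mul, hG0,
      mul_zero, sub_zero, hB _ (by norm_num)]
    congr 2
    exact Finset.sum_congr rfl fun j _ => (hB _ (haj0 j)).symm
  rw [hint]
  have hN : (0 : ℝ) < (N : ℝ) + 1 := by positivity
  have hbound : ∫ t : ℝ, |t| * ‖G t‖ / (2 * ((N : ℝ) + 1)) = (∫ t : ℝ, |t| * ‖G t‖) / 2 / ((N : ℝ) + 1) := by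
    rw [integral_div, div_div]
  rw [← hbound]
  refine norm_integral_le_of_norm_le (htG.div_const _) (Eventually.of_forall fun t => ?_)
  have h1 : (archF (pt32 (σ * t)) * G t -
        ((((1 / 2 : ℝ) : ℂ) + ((σ * t : ℝ) : ℂ) * I)⁻¹ * G t -
          ∑ j ∈ Finset.range N, (((aj j : ℝ) : ℂ) + ((σ * t : ℝ) : ℂ) * I)⁻¹ * G t)) - cN * G t =
      ((digamma (pt32 (σ * t) / 2 + (N + 1 : ℕ)) - digamma (pt32 0 / 2 + (N + 1 : ℕ))) / 2) * G t := by
    have h2 := archF_sub N (σ * t)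
    rw [Finset.sum_sub_distrib] at h2
    rw [← Finset.sum_mul, hcN]
    linear_combination (G t) * h2
  rw [h1, norm_mul, norm_div, norm_ofNat]
  have h3 := digamma_far_sub (N + 1) (by omega) (σ * t)
  rw [abs_mul, hσa, one_mul] at h3
  have h4 : ‖digamma (pt32 (σ * t) / 2 + (N + 1 : ℕ)) - digamma (pt32 0 / 2 + (N + 1 : ℕ))‖ / 2 ≤
      |t| / (2 * ((N : ℝ) + 1)) := by
    rw [div_le_iff₀ (by norm_num)]
    refine h3.trans (le_of_eq ?_)
    push_cast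
    field_simp
  calc ‖digamma (pt32 (σ * t) / 2 + (N + 1 : ℕ)) - digamma (pt32 0 / 2 + (N + 1 : ℕ))‖ / 2 * ‖G t‖
      ≤ |t| / (2 * ((N : ℝ) + 1)) * ‖G t‖ := mul_le_mul_of_nonneg_right h4 (norm_nonneg _)
    _ = |t| * ‖G t‖ / (2 * ((N : ℝ) + 1)) := by ring

/-- Module ARB. PROOF. Let `N → ∞` in `arch_partial`: if `‖Ja h σ (3/2 + 2(j+1))‖ ≤ M q^j`
(`0 ≤ q ≤ 1/2`) then `‖∫ archF gs‖ ≤ ‖Ja h σ (1/2)‖ + 2 M`. -/
theorem arch_le {h : ℝ → ℂ} {δ : ℝ} (hδ : 0 ≤ δ) (hh : Bump δ h) (h0 : h 0 = 0)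
    {σ : ℝ} (hσ : σ = 1 ∨ σ = -1) {M q : ℝ} (hM : 0 ≤ M) (hq : 0 ≤ q) (hq2 : q ≤ 1 / 2)
    (hJ : ∀ j : ℕ, ‖Ja h σ (3 / 2 + 2 * ((j : ℝ) + 1))‖ ≤ M * q ^ j) :
    ‖∫ t : ℝ, archF (pt32 (σ * t)) * gs h ((t : ℂ) + ((-σ : ℝ) : ℂ) * I)‖ ≤
      ‖Ja h σ (1 / 2)‖ + 2 * M := by
  obtain ⟨K, hK⟩ := arch_partial hδ hh h0 hσ
  set A := ∫ t : ℝ, archF (pt32 (σ * t)) * gs h ((t : ℂ) + ((-σ : ℝ) : ℂ) * I) with hA
  have hsum : ∀ N : ℕ, ‖∑ j ∈ Finset.range N, Ja h σ (3 / 2 + 2 * ((j : ℝ) + 1))‖ ≤ 2 * M := by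
    intro N
    have h2 : ∑ j ∈ Finset.range N, q ^ j ≤ 2 := by
      calc ∑ j ∈ Finset.range N, q ^ j ≤ ∑ j ∈ Finset.range N, (1 / 2 : ℝ) ^ j :=
            Finset.sum_le_sum fun j _ => pow_le_pow_left₀ hq hq2 j
        _ ≤ 2 := by
            have h3 := Summable.sum_le_tsum (Finset.range N) (fun j _ => by positivity)
              (summable_geometric_two)
            rw [tsum_geometric_two] at h3
            exact h3
    calc ‖∑ j ∈ Finset.range N, Ja h σ (3 / 2 + 2 * ((j : ℝ) + 1))‖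
        ≤ ∑ j ∈ Finset.range N, ‖Ja h σ (3 / 2 + 2 * ((j : ℝ) + 1))‖ := norm_sum_le _ _
      _ ≤ ∑ j ∈ Finset.range N, M * q ^ j := Finset.sum_le_sum fun j _ => hJ j
      _ = M * ∑ j ∈ Finset.range N, q ^ j := by rw [Finset.mul_sum]
      _ ≤ M * 2 := mul_le_mul_of_nonneg_left h2 hM
      _ = 2 * M := mul_comm _ _
  have hN : ∀ N : ℕ, ‖A‖ ≤ K / ((N : ℝ) + 1) + (‖Ja h σ (1 / 2)‖ + 2 * M) := by
    intro N
    have h1 := hK N
    set S := ∑ j ∈ Finset.range N, Ja h σ (3 / 2 + 2 * ((j : ℝ) + 1)) with hS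
    have h2 : A = (A - (Ja h σ (1 / 2) - S)) + (Ja h σ (1 / 2) - S) := by ring
    rw [h2]
    refine (norm_add_le _ _).trans (add_le_add h1 ((norm_sub_le _ _).trans ?_))
    have := hsum N
    linarith
  have hlim : Tendsto (fun N : ℕ => K / ((N : ℝ) + 1) + (‖Ja h σ (1 / 2)‖ + 2 * M)) atTop
      (𝓝 (0 + (‖Ja h σ (1 / 2)‖ + 2 * M))) := by
    refine Tendsto.add ?_ tendsto_const_nhds
    exact tendsto_const_nhds.div_atTop (tendsto_atTop_add_const_right _ _ tendsto_natCast_atTop_atTop)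
  rw [zero_add] at hlim
  exact ge_of_tendsto' hlim hN

end Pool.Agent.MP_67227b_nt.Gg
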