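import Mathlib
import Pool.Agent.MP_67227b_nt.Gg.GgHb
import Pool.Agent.MP_67227b_nt.Gg.GgJa

set_option autoImplicit false

open Filter Topology Set MeasureTheory Complex
open scoped Real ContDiff ArithmeticFunction ArithmeticFunction.Moebius

namespace Pool.Agent.MP_67227b_nt.Gg

open Pool.Agent.MP_67227b_nt.Mo Pool.Agent.MP_67227b_nt.Fb Pool.Agent.Lib.ZetaCount_helper33

/-- The profile with the frequency `t`: `h(v) e^{-2πivt}`; it is `Mo.hsc (2π) (hB η α T) t`. -/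
noncomputable def hT (η : ℝ → ℝ) (α T t : ℝ) : ℝ → ℂ := hsc (2 * π) (hB η α T) t

/-- Module JB (a). -/
theorem hT_eq (η : ℝ → ℝ) (α T t v : ℝ) :
    hT η α T t v = hB η α T v * Complex.exp (-(2 * π * I * v * t)) := by
  have h1 : (2 * π / (2 * π) : ℝ) = 1 := div_self (by positivity)
  rw [hT, hsc, h1, one_mul, Complex.ofReal_one, one_mul]

private theorem jb_eta_le {X : ℝ} {η : ℝ → ℝ} (hη : Eta X η) (v : ℝ) : |η v| ≤ 1 := by
  have h1 := hη.sq_le v
  have h2 : Real.exp (-(2 * |v|)) ≤ 1 := Real.exp_le_one_iff.2 (by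
    have := abs_nonneg v
    linarith)
  rw [← sq_le_one_iff_abs_le_one]
  linarith

private theorem jb_norm (η : ℝ → ℝ) (α T t y : ℝ) :
    ‖hT η α T t (y / (2 * π))‖ = 2 * π * |η (y - α * Real.log T)| := by
  have h1 : 2 * π * (y / (2 * π)) = y := by field_simp
  rw [hT_eq, norm_mul, hB, h1, Complex.norm_real, Real.norm_eq_abs, abs_mul,
    abs_of_pos (by positivity : (0 : ℝ) < 2 * π)]
  have h2 : ‖Complex.exp (-(2 * π * I * ((y / (2 * π) : ℝ) : ℂ) * t))‖ = 1 := by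
    have h3 : (-(2 * π * I * ((y / (2 * π) : ℝ) : ℂ) * t) : ℂ) =
        ((-(2 * π * (y / (2 * π)) * t) : ℝ) : ℂ) * I := by
      push_cast
      ring
    rw [h3, Complex.norm_exp_ofReal_mul_I]
  rw [h2, mul_one]

/-- Module JB (b). `h_t` vanishes on `(-∞, 0]` if `X < αL`. -/
theorem hT_neg {X : ℝ} {η : ℝ → ℝ} (hη : Eta X η) {α T t v : ℝ} (hXL : X < α * Real.log T)
    (hv : v ≤ 0) : hT η α T t v = 0 := by
  have h1 : X < |2 * π * v - α * Real.log T| := by
    have h2 : 2 * π * v ≤ 0 := mul_nonpos_of_nonneg_of_nonpos (by positivity) hv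
    have h3 := neg_abs_le (2 * π * v - α * Real.log T)
    linarith
  rw [hT_eq, hB, hη.supp _ h1]
  simp

theorem Ja_neg {X : ℝ} {η : ℝ → ℝ} (hη : Eta X η) {α T : ℝ} (t : ℝ) (hXL : X < α * Real.log T)
    (a : ℝ) : Ja (hT η α T t) (-1) a = 0 := by
  unfold Ja
  rw [setIntegral_congr_fun measurableSet_Ioi (g := fun _ => (0 : ℂ))]
  · simp
  · intro y hy
    have hy' : (0 : ℝ) < y := hy
    have h1 : (-1 : ℝ) * (y / (2 * π)) ≤ 0 := by
      have : 0 < y / (2 * π) := by positivity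
      linarith
    show ((Real.exp (-((a - 1) * y)) : ℝ) : ℂ) * hT η α T t (-1 * (y / (2 * π))) = 0
    rw [hT_neg hη hXL h1, mul_zero]

/-- Module JB (c). For `a ≥ 1`, `‖Ja h_t 1 a‖ ≤ 2π ∫ |η| e^{-(a-1)(αL - X)}`: on the support of
`η(y - αL)` one has `y ≥ αL - X`; `|η| ≤ 1` and the support has length `2X`. -/
theorem Ja_far {X : ℝ} (hX : 0 ≤ X) {η : ℝ → ℝ} (hη : Eta X η) {α T : ℝ} (t : ℝ)
    (hXL : X < α * Real.log T) {a : ℝ} (ha : 1 ≤ a) :
    ‖Ja (hT η α T t) 1 a‖ ≤ 4 * π * X * Real.exp (-((a - 1) * (α * Real.log T - X))) := by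
  set M : ℝ := 2 * π * Real.exp (-((a - 1) * (α * Real.log T - X))) with hM
  have hM0 : 0 ≤ M := by positivity
  set g : ℝ → ℝ := Set.indicator (Set.Icc (α * Real.log T - X) (α * Real.log T + X))
    (fun _ => M) with hg
  have hgi : Integrable g := by
    rw [hg, integrable_indicator_iff measurableSet_Icc]
    exact integrableOn_const (by simp)
  have hg0 : ∀ y, 0 ≤ g y := fun y => Set.indicator_nonneg (fun _ _ => hM0) y
  unfold Ja
  refine (norm_integral_le_of_norm_le (g := g) hgi.integrableOn ?_).trans ?_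
  · refine Eventually.of_forall fun y => ?_
    rw [norm_mul, Complex.norm_real, Real.norm_of_nonneg (Real.exp_pos _).le, one_mul, jb_norm]
    by_cases hy : y ∈ Set.Icc (α * Real.log T - X) (α * Real.log T + X)
    · rw [hg, Set.indicator_of_mem hy, hM]
      have h1 : Real.exp (-((a - 1) * y)) ≤ Real.exp (-((a - 1) * (α * Real.log T - X))) := by
        apply Real.exp_le_exp.2
        have := mul_le_mul_of_nonneg_left hy.1 (by linarith : 0 ≤ a - 1)
        linarith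
      calc Real.exp (-((a - 1) * y)) * (2 * π * |η (y - α * Real.log T)|)
          ≤ Real.exp (-((a - 1) * (α * Real.log T - X))) * (2 * π * 1) := by
            apply mul_le_mul h1 _ (by positivity) (by positivity)
            exact mul_le_mul_of_nonneg_left (jb_eta_le hη _) (by positivity)
        _ = _ := by ring
    · have h1 : X < |y - α * Real.log T| := by
        by_contra hcon
        push Not at hcon
        rw [abs_le] at hcon
        exact hy ⟨by linarith, by linarith⟩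
      rw [hη.supp _ h1, abs_zero, mul_zero, mul_zero]
      exact hg0 y
  · refine (setIntegral_le_integral hgi (Eventually.of_forall hg0)).trans (le_of_eq ?_)
    rw [hg, integral_indicator measurableSet_Icc, setIntegral_const, smul_eq_mul,
      Real.volume_real_Icc_of_le (by linarith), hM]
    ring

/-- Module JB (d). The pole at `s = 1`: `Ja h_t 1 (1/2) = 2π ∫ e^{y/2} η(y - αL) e^{-iyt} dy
= 2π T^(α/2) e^{-iαLt} gs (e^{·/2} η) (-t/(2π))`, and `gs_real_bound` with `K = 1` for the bump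
`e^{·/2} η`: `≤ C T^(α/2) / (1 + (t/2π)²) ≤ C' T^(α/2) / (1 + t²)`. -/
theorem Ja_half {X : ℝ} (hX : 0 ≤ X) {η : ℝ → ℝ} (hη : Eta X η) : ∃ C : ℝ, 0 < C ∧
    ∀ α T t : ℝ, 1 < T → X < α * Real.log T →
      ‖Ja (hT η α T t) 1 (1 / 2)‖ ≤ C * T ^ (α / 2) / (1 + t ^ 2) := by
  set g : ℝ → ℂ := fun w => ((Real.exp (w / 2) * η w : ℝ) : ℂ) with hg
  have hgb : Bump X g := by
    refine ⟨?_, ?_⟩
    · exact Complex.ofRealCLM.contDiff.comp
        ((Real.contDiff_exp.comp (contDiff_id.div_const 2)).mul hη.smooth)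
    · intro v hv
      rw [hg]
      simp [hη.supp v hv]
  obtain ⟨C, hC, hCb⟩ := gs_real_bound hX hgb 1
  refine ⟨2 * π * (C * (4 * π ^ 2)), by positivity, ?_⟩
  intro α T t hT1 hXL
  have hT0 : 0 < T := by linarith
  have hh : ∀ y : ℝ, y ≤ 0 → hT η α T t (1 * (y / (2 * π))) = 0 := by
    intro y hy
    refine hT_neg hη hXL ?_
    rw [one_mul]
    exact div_nonpos_of_nonpos_of_nonneg hy (by positivity)
  have h1 : Ja (hT η α T t) 1 (1 / 2) = ∫ y : ℝ, ((Real.exp (-((1 / 2 - 1) * y)) : ℝ) : ℂ) *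
      hT η α T t (1 * (y / (2 * π))) := by
    unfold Ja
    rw [← integral_indicator measurableSet_Ioi]
    congr 1
    ext y
    by_cases hy : y ∈ Ioi (0 : ℝ)
    · rw [Set.indicator_of_mem hy]
    · rw [Set.indicator_of_notMem hy, hh y (not_lt.1 hy), mul_zero]
  have h2 : ∀ w : ℝ, ((Real.exp (-((1 / 2 - 1) * (w + α * Real.log T))) : ℝ) : ℂ) *
      hT η α T t (1 * ((w + α * Real.log T) / (2 * π))) =
      (2 * π * ((T ^ (α / 2) : ℝ) : ℂ) *
        Complex.exp (((-(α * Real.log T * t) : ℝ) : ℂ) * I)) *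
        (g w * Complex.exp (2 * π * I * w * ((-(t / (2 * π)) : ℝ) : ℂ))) := by
    intro w
    have e1 : (2 * π * ((w + α * Real.log T) / (2 * π)) - α * Real.log T : ℝ) = w := by
      field_simp
      ring
    have e2 : Real.exp (-((1 / 2 - 1) * (w + α * Real.log T))) =
        T ^ (α / 2) * Real.exp (w / 2) := by
      rw [Real.rpow_def_of_pos hT0, ← Real.exp_add]
      congr 1
      ring
    have hpi : (π : ℂ) ≠ 0 := by exact_mod_cast Real.pi_ne_zero
    have e3 : Complex.exp (-(2 * π * I * (((w + α * Real.log T) / (2 * π) : ℝ) : ℂ) * t)) =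
        Complex.exp (((-(α * Real.log T * t) : ℝ) : ℂ) * I) *
          Complex.exp (2 * π * I * w * ((-(t / (2 * π)) : ℝ) : ℂ)) := by
      rw [← Complex.exp_add]
      congr 1
      push_cast
      field_simp
      ring
    rw [one_mul, hT_eq, hB, e1, e2, e3, hg]
    push_cast
    ring
  have h3 : Ja (hT η α T t) 1 (1 / 2) = (2 * π * ((T ^ (α / 2) : ℝ) : ℂ) *
      Complex.exp (((-(α * Real.log T * t) : ℝ) : ℂ) * I)) *
      gs g ((-(t / (2 * π)) : ℝ) : ℂ) := by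
    rw [h1, ← integral_add_right_eq_self (fun y : ℝ =>
      ((Real.exp (-((1 / 2 - 1) * y)) : ℝ) : ℂ) * hT η α T t (1 * (y / (2 * π))))
      (α * Real.log T)]
    simp only [h2]
    rw [integral_const_mul]
    rfl
  rw [h3, norm_mul, norm_mul, norm_mul, Complex.norm_exp_ofReal_mul_I, mul_one,
    Complex.norm_real, Real.norm_of_nonneg (by positivity : (0 : ℝ) ≤ T ^ (α / 2))]
  have h4 : ‖(2 * π : ℂ)‖ = 2 * π := by
    rw [norm_mul, Complex.norm_real, Real.norm_of_nonneg Real.pi_pos.le]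
    simp
  rw [h4]
  have h5 := hCb (-(t / (2 * π)))
  have h6 : C / (1 + (-(t / (2 * π))) ^ 2) ^ 1 ≤ C * (4 * π ^ 2) / (1 + t ^ 2) := by
    rw [pow_one, div_le_div_iff₀ (by positivity) (by positivity), mul_assoc]
    refine mul_le_mul_of_nonneg_left ?_ hC.le
    have e4 : (4 * π ^ 2) * (1 + (-(t / (2 * π))) ^ 2) = 4 * π ^ 2 + t ^ 2 := by
      field_simp
      ring
    rw [e4]
    have : (1 : ℝ) ≤ 4 * π ^ 2 := by nlinarith [Real.pi_gt_three]
    linarith
  calc 2 * π * T ^ (α / 2) * ‖gs g ((-(t / (2 * π)) : ℝ) : ℂ)‖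
      ≤ 2 * π * T ^ (α / 2) * (C * (4 * π ^ 2) / (1 + t ^ 2)) :=
        mul_le_mul_of_nonneg_left (h5.trans h6) (by positivity)
    _ = _ := by ring

/-- Module JB (e). PROOF. `arch_le` with `q = 1/2`, `M = 4πX e^{-(5/2)(αL - X)}`
(`Ja_far`, `a - 1 = 1/2 + 2(j+1) = 5/2 + 2j`, `e^{-2(αL - X)} ≤ 1/2` for `T` large), `Ja_half`: the sum
is `≤ C T^(α/2)/(1+κ²T²) + 8πX e^{5X/2} T^(-5/2) ≤ T^(-1)` since `α ≤ 3/2`. For `σ = -1` everything
vanishes (`Ja_neg`). -/
theorem arch_hT {X κ : ℝ} (hX : 0 ≤ X) (hκ : 0 < κ) {η : ℝ → ℝ} (hη : Eta X η) :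
    ∀ᶠ T : ℝ in atTop, ∀ α ∈ Icc (1 : ℝ) (3 / 2), ∀ t : ℝ, κ * T ≤ t → ∀ σ : ℝ,
      (σ = 1 ∨ σ = -1) →
      ‖∫ u : ℝ, archF (pt32 (σ * u)) * gs (hT η α T t) ((u : ℂ) + ((-σ : ℝ) : ℂ) * I)‖ ≤
        1 / T := by
  obtain ⟨C, hC, hCb⟩ := Ja_half hX hη
  have hlog : ∀ᶠ T : ℝ in atTop, X + 1 ≤ Real.log T :=
    Real.tendsto_log_atTop.eventually_ge_atTop _
  have hp1 : ∀ᶠ T : ℝ in atTop, 2 * (C / κ ^ 2) ≤ T ^ (1 / 4 : ℝ) :=
    (tendsto_rpow_atTop (by norm_num)).eventually_ge_atTop _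
  have hp2 : ∀ᶠ T : ℝ in atTop, 16 * π * X * Real.exp (5 / 2 * X) ≤ T ^ (3 / 2 : ℝ) :=
    (tendsto_rpow_atTop (by norm_num)).eventually_ge_atTop _
  filter_upwards [hlog, hp1, hp2, eventually_gt_atTop (1 : ℝ)] with T hl h1 h2 hT1
  intro α hα t ht σ hσ
  have hT0 : 0 < T := by linarith
  have hlog0 : 0 < Real.log T := Real.log_pos hT1
  have hαL : Real.log T ≤ α * Real.log T := le_mul_of_one_le_left hlog0.le hα.1
  have hXL : X < α * Real.log T := by linarith
  have hb : Bump ((X + α * Real.log T) / (2 * π) * (2 * π) / (2 * π)) (hT η α T t) :=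
    bump_hsc (by positivity) (bump_hB hη hT1.le (by linarith [hα.1])) t
  have hδ0 : 0 ≤ X + α * Real.log T := by linarith
  have hδ : 0 ≤ (X + α * Real.log T) / (2 * π) * (2 * π) / (2 * π) := by positivity
  have h0 : hT η α T t 0 = 0 := hT_neg hη hXL le_rfl
  set D : ℝ := α * Real.log T - X with hD
  have hD1 : 1 ≤ D := by linarith
  set M : ℝ := 4 * π * X * Real.exp (-(5 / 2 * D)) with hM
  have hM0 : 0 ≤ M := by positivity
  have hJ : ∀ j : ℕ, ‖Ja (hT η α T t) σ (3 / 2 + 2 * ((j : ℝ) + 1))‖ ≤ M * (1 / 2) ^ j := by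
    intro j
    rcases hσ with rfl | rfl
    · refine (Ja_far hX hη t hXL (by linarith [(Nat.cast_nonneg j : (0 : ℝ) ≤ j)])).trans ?_
      rw [← hD]
      have e1 : Real.exp (-((3 / 2 + 2 * ((j : ℝ) + 1) - 1) * D)) =
          Real.exp (-(5 / 2 * D)) * Real.exp (-(2 * D)) ^ j := by
        rw [← Real.exp_nat_mul, ← Real.exp_add]
        congr 1
        ring
      have e2 : Real.exp (-(2 * D)) ≤ 1 / 2 := by
        have e3 : Real.exp (-(2 * D)) ≤ Real.exp (-1) := Real.exp_le_exp.2 (by linarith)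
        have e4 : Real.exp (-1) ≤ 1 / 2 := by
          rw [Real.exp_neg, inv_le_comm₀ (Real.exp_pos _) (by norm_num)]
          have := Real.add_one_le_exp (1 : ℝ)
          linarith
        linarith
      rw [e1, hM]
      calc 4 * π * X * (Real.exp (-(5 / 2 * D)) * Real.exp (-(2 * D)) ^ j)
          = 4 * π * X * Real.exp (-(5 / 2 * D)) * Real.exp (-(2 * D)) ^ j := by ring
        _ ≤ _ := mul_le_mul_of_nonneg_left
            (pow_le_pow_left₀ (Real.exp_pos _).le e2 j) (by positivity)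
    · rw [Ja_neg hη t hXL, norm_zero]
      positivity
  have hmain := arch_le hδ hb h0 hσ hM0 (by norm_num) (by norm_num) hJ
  refine hmain.trans ?_
  have hA : ‖Ja (hT η α T t) σ (1 / 2)‖ ≤ 1 / (2 * T) := by
    rcases hσ with rfl | rfl
    · refine (hCb α T t hT1 hXL).trans ?_
      have e1 : T ^ (α / 2) ≤ T ^ (3 / 4 : ℝ) :=
        Real.rpow_le_rpow_of_exponent_le hT1.le (by linarith [hα.2])
      have e2 : κ ^ 2 * T ^ 2 ≤ 1 + t ^ 2 := by
        have : (κ * T) ^ 2 ≤ t ^ 2 := pow_le_pow_left₀ (by positivity) ht 2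
        nlinarith
      have e3 : T ^ (3 / 4 : ℝ) * T ^ (1 / 4 : ℝ) = T := by
        rw [← Real.rpow_add hT0]
        norm_num
      have e4 : C * T ^ (α / 2) / (1 + t ^ 2) ≤ C * T ^ (3 / 4 : ℝ) / (κ ^ 2 * T ^ 2) :=
        div_le_div₀ (by positivity) (mul_le_mul_of_nonneg_left e1 hC.le) (by positivity) e2
      refine e4.trans ?_
      rw [div_le_div_iff₀ (by positivity) (by positivity)]
      have e5 : 2 * C ≤ κ ^ 2 * T ^ (1 / 4 : ℝ) := by
        have := mul_le_mul_of_nonneg_left h1 (by positivity : (0 : ℝ) ≤ κ ^ 2)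
        calc 2 * C = κ ^ 2 * (2 * (C / κ ^ 2)) := by field_simp
          _ ≤ _ := this
      calc C * T ^ (3 / 4 : ℝ) * (2 * T) = (2 * C) * (T ^ (3 / 4 : ℝ) * T) := by ring
        _ ≤ (κ ^ 2 * T ^ (1 / 4 : ℝ)) * (T ^ (3 / 4 : ℝ) * T) :=
            mul_le_mul_of_nonneg_right e5 (by positivity)
        _ = κ ^ 2 * (T ^ (3 / 4 : ℝ) * T ^ (1 / 4 : ℝ)) * T := by ring
        _ = 1 * (κ ^ 2 * T ^ 2) := by rw [e3]; ring
    · rw [Ja_neg hη t hXL, norm_zero]
      positivity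
  have hB' : 2 * M ≤ 1 / (2 * T) := by
    have e1 : Real.exp (-(5 / 2 * D)) ≤ Real.exp (5 / 2 * X) * T ^ (-(5 / 2) : ℝ) := by
      rw [Real.rpow_def_of_pos hT0, ← Real.exp_add]
      apply Real.exp_le_exp.2
      rw [hD]
      linarith
    have e2 : T ^ (3 / 2 : ℝ) * T ^ (-(5 / 2) : ℝ) = 1 / T := by
      rw [← Real.rpow_add hT0]
      norm_num
      rw [Real.rpow_neg_one]
    calc 2 * M ≤ 2 * (4 * π * X * (Real.exp (5 / 2 * X) * T ^ (-(5 / 2) : ℝ))) := by
          rw [hM]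
          exact mul_le_mul_of_nonneg_left (mul_le_mul_of_nonneg_left e1 (by positivity))
            (by norm_num)
      _ = (16 * π * X * Real.exp (5 / 2 * X)) * T ^ (-(5 / 2) : ℝ) / 2 := by ring
      _ ≤ T ^ (3 / 2 : ℝ) * T ^ (-(5 / 2) : ℝ) / 2 := by
          apply div_le_div_of_nonneg_right _ (by norm_num)
          exact mul_le_mul_of_nonneg_right h2 (by positivity)
      _ = 1 / (2 * T) := by rw [e2]; field_simp
  calc ‖Ja (hT η α T t) σ (1 / 2)‖ + 2 * M ≤ 1 / (2 * T) + 1 / (2 * T) := add_le_add hA hB'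
    _ = 1 / T := by field_simp; norm_num

end Pool.Agent.MP_67227b_nt.Gg
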