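import Mathlib
import Pool.Agent.MP_67227b_nt.Gg.GgDefs
import Pool.Agent.MP_67227b_nt.Mo.MoDefs

set_option autoImplicit false

open Filter Topology Set MeasureTheory Complex
open scoped Real ContDiff ArithmeticFunction ArithmeticFunction.Moebius

namespace Pool.Agent.MP_67227b_nt.Gg

open Pool.Agent.MP_67227b_nt.Mo

/-- Module VF (a). `Eta` for a larger support. -/
theorem Eta.mono {X Y : ℝ} {η : ℝ → ℝ} (h : Eta X η) (hXY : X ≤ Y) : Eta Y η where
  smooth := h.smooth
  supp := fun v hv => h.supp v (hXY.trans_lt hv)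
  sq_le := h.sq_le

theorem Eta.abs_le_one {X : ℝ} {η : ℝ → ℝ} (h : Eta X η) (v : ℝ) : |η v| ≤ 1 := by
  have h1 : η v ^ 2 ≤ 1 := (h.sq_le v).trans (Real.exp_le_one_iff.2 (by
    have := abs_nonneg v
    linarith))
  have h2 : |η v| ^ 2 ≤ 1 := by rwa [sq_abs]
  nlinarith [abs_nonneg (η v)]

/-- Module VF (b). `fV` is smooth (finite sum of products of smooth functions; `ρ`, `exp`, `ex` are
smooth) and vanishes outside `[-(X + αL), X + αL]`. -/
theorem bump_fV {X κ : ℝ} {η ρ : ℝ → ℝ} (hη : Eta X η) (hρ : Rho κ ρ) (c : ℝ) {α T : ℝ}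
    (hT : 1 ≤ T) (hα : 0 ≤ α) : Bump (X + α * Real.log T) (fV η ρ c α T) := by
  have hL : 0 ≤ α * Real.log T := mul_nonneg hα (Real.log_nonneg hT)
  refine ⟨?_, fun v hv => ?_⟩
  · have h1 : ContDiff ℝ ∞ fun v : ℝ => Real.exp (v / 2) * η (v - α * Real.log T) := by
      have : ContDiff ℝ ∞ fun v : ℝ => η (v - α * Real.log T) :=
        hη.smooth.comp (by fun_prop)
      exact (by fun_prop : ContDiff ℝ ∞ fun v : ℝ => Real.exp (v / 2)).mul this
    have h2 : ContDiff ℝ ∞ fun v : ℝ =>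
        ((Real.exp (v / 2) * η (v - α * Real.log T) : ℝ) : ℂ) := ofRealCLM.contDiff.comp h1
    have h3 : ContDiff ℝ ∞ fun v : ℝ => EE ρ c α T (Real.exp v) := by
      unfold EE
      refine ContDiff.sum fun A _ => ContDiff.sum fun B _ => ?_
      have h4 : ContDiff ℝ ∞ fun v : ℝ => (μ A : ℝ) / (Nat.totient A : ℝ) *
          wt ρ T A B (Real.exp v) := by
        refine contDiff_const.mul ?_
        unfold wt
        exact hρ.smooth.comp (by fun_prop)
      have h5 : ContDiff ℝ ∞ fun v : ℝ => ((((μ A : ℝ) / (Nat.totient A : ℝ) *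
          wt ρ T A B (Real.exp v) : ℝ)) : ℂ) := ofRealCLM.contDiff.comp h4
      have h6 : ContDiff ℝ ∞ fun v : ℝ => ex (Real.exp v * B / A) := by
        unfold ex
        have h7 : ContDiff ℝ ∞ fun v : ℝ => ((Real.exp v * B / A : ℝ) : ℂ) :=
          ofRealCLM.contDiff.comp ((Real.contDiff_exp.mul contDiff_const).div_const _)
        exact (contDiff_const.mul h7).cexp
      exact h5.mul h6
    exact h2.mul h3
  · have h1 : X < |v - α * Real.log T| := by
      have h2 : |v| - |α * Real.log T| ≤ |v - α * Real.log T| := abs_sub_abs_le_abs_sub _ _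
      rw [abs_of_nonneg hL] at h2
      linarith
    unfold fV
    rw [hη.supp _ h1]
    simp

/-- Module VF (c). `VV` in terms of `gs`. -/
theorem VV_eq_gs (η ρ : ℝ → ℝ) (c α T t : ℝ) :
    VV η ρ c α T t = gs (fV η ρ c α T) (((-t) / (2 * π) : ℝ) : ℂ) := by
  unfold VV gs
  refine integral_congr_ae (Eventually.of_forall fun v => ?_)
  simp only
  congr 2
  have hpi : (π : ℂ) ≠ 0 := by exact_mod_cast Real.pi_ne_zero
  push_cast
  field_simp

/-- Module VF (d). `P` is bounded by `T ^ 3`. -/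
theorem norm_PP_le {X : ℝ} {η : ℝ → ℝ} (hη : Eta X η) :
    ∀ᶠ T : ℝ in atTop, ∀ α t : ℝ, ‖PP η α T t‖ ≤ T ^ 3 := by
  have h0 : ∀ᶠ T : ℝ in atTop, 2 * Real.log T ≤ T := by
    have h := (Real.isLittleO_log_id_atTop).bound (show (0 : ℝ) < 1 / 2 by norm_num)
    filter_upwards [h, eventually_ge_atTop (1 : ℝ)] with T hT hT1
    rw [Real.norm_of_nonneg (Real.log_nonneg hT1), id, Real.norm_of_nonneg (by linarith)] at hT
    linarith
  filter_upwards [h0, eventually_ge_atTop (1 : ℝ)] with T hT hT1 α t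
  have hT0 : 0 < T := by linarith
  unfold PP
  refine (norm_sum_le _ _).trans ?_
  have h1 : ∀ n ∈ Finset.Icc 1 ⌊T ^ (2 : ℝ)⌋₊, ‖((Λ n * η (Real.log n - α * Real.log T) : ℝ) : ℂ) *
      (n : ℂ) ^ (-(1 / 2 + (t : ℂ) * I))‖ ≤ T := by
    intro n hn
    rw [Finset.mem_Icc] at hn
    have hn0 : 0 < n := by omega
    have hn1 : (1 : ℝ) ≤ n := by exact_mod_cast hn.1
    have hnT : (n : ℝ) ≤ T ^ (2 : ℝ) := (Nat.le_floor_iff (by positivity)).1 hn.2
    rw [norm_mul, Complex.norm_real, Complex.norm_natCast_cpow_of_pos hn0, norm_mul,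
      Real.norm_eq_abs, Real.norm_eq_abs, abs_of_nonneg ArithmeticFunction.vonMangoldt_nonneg]
    have e1 : (-(1 / 2 + (t : ℂ) * I)).re = -(1 / 2) := by simp
    rw [e1]
    have h2 : (n : ℝ) ^ (-(1 / 2) : ℝ) ≤ 1 :=
      Real.rpow_le_one_of_one_le_of_nonpos hn1 (by norm_num)
    have h3 : Λ n ≤ T := by
      refine ArithmeticFunction.vonMangoldt_le_log.trans ?_
      refine (Real.log_le_log (by linarith) hnT).trans ?_
      rw [Real.log_rpow hT0]
      exact hT
    have h4 := hη.abs_le_one (Real.log n - α * Real.log T)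
    calc Λ n * |η (Real.log n - α * Real.log T)| * (n : ℝ) ^ (-(1 / 2) : ℝ)
        ≤ T * 1 * 1 := by
          refine mul_le_mul (mul_le_mul h3 h4 (abs_nonneg _) hT0.le) h2 (by positivity)
            (by positivity)
      _ = T := by ring
  refine (Finset.sum_le_sum h1).trans ?_
  rw [Finset.sum_const, Nat.card_Icc, nsmul_eq_mul, Nat.add_sub_cancel]
  have h5 : (⌊T ^ (2 : ℝ)⌋₊ : ℝ) ≤ T ^ (2 : ℝ) := Nat.floor_le (by positivity)
  calc (⌊T ^ (2 : ℝ)⌋₊ : ℝ) * T ≤ T ^ (2 : ℝ) * T := by gcongr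
    _ = T ^ 3 := by
        rw [Real.rpow_two]
        ring

/-- Module VF (e). `P` is continuous in `t`. -/
theorem continuous_PP (η : ℝ → ℝ) (α T : ℝ) : Continuous (PP η α T) := by
  unfold PP
  refine continuous_finsetSum _ fun n hn => ?_
  have hn0 : (n : ℂ) ≠ 0 := by
    rw [Finset.mem_Icc] at hn
    exact_mod_cast (by omega : n ≠ 0)
  refine continuous_const.mul ?_
  exact Continuous.const_cpow (by fun_prop) (Or.inl hn0)

end Pool.Agent.MP_67227b_nt.Gg
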