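import Mathlib
import Pool.Agent.MP_67227b_nt.Gg.GgEd
import Pool.Agent.MP_67227b_nt.Gg.GgJb
import Pool.Agent.MP_67227b_nt.Gg.GgVf

set_option autoImplicit false

open Filter Topology Set MeasureTheory Complex
open scoped Real ContDiff ArithmeticFunction ArithmeticFunction.Moebius

namespace Pool.Agent.MP_67227b_nt.Gg

open Pool.Agent.MP_67227b_nt.Mo Pool.Agent.MP_67227b_nt.Fb Pool.Agent.Lib.ZetaCount_helper33

/-- Module EX (a). The prime sums of `explicit_split` for `h_t`: `h_t(log n/2π) =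
2π η(log n - αL) e^{-it log n}`, zero for `n > T²` as soon as `e^X T^(3/2) ≤ T²`; `h_t` vanishes at the
negative arguments (`hT_neg`); `n^(-(1/2+it)) = e^{-it log n}/√n`; the term `n = 0` has `Λ 0 = 0`. -/
theorem prime_hT {X : ℝ} (hX : 0 ≤ X) {η : ℝ → ℝ} (hη : Eta X η) :
    ∀ᶠ T : ℝ in atTop, ∀ α ∈ Icc (1 : ℝ) (3 / 2), ∀ t : ℝ,
      (∑' n : ℕ, ((Λ n / Real.sqrt n : ℝ) : ℂ) * hT η α T t (1 * (Real.log n / (2 * π)))) +
        (∑' n : ℕ, ((Λ n / Real.sqrt n : ℝ) : ℂ) * hT η α T t (-1 * (Real.log n / (2 * π)))) =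
        2 * π * PP η α T t := by
  filter_upwards [Real.tendsto_log_atTop.eventually_gt_atTop (2 * X),
    eventually_gt_atTop 1] with T hLX hT1 α hα t
  have hpi := Real.pi_pos
  have hT0 : 0 < T := by linarith
  have hL0 : 0 < Real.log T := Real.log_pos hT1
  have hXL : X < α * Real.log T := by nlinarith [hα.1]
  have h2 : ∀ n : ℕ, hT η α T t (-1 * (Real.log n / (2 * π))) = 0 := by
    intro n
    apply hT_neg hη hXL
    have h3 : 0 ≤ Real.log n := Real.log_natCast_nonneg n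
    have h4 : 0 ≤ Real.log n / (2 * π) := by positivity
    linarith
  simp only [h2, mul_zero, tsum_zero, add_zero]
  rw [tsum_eq_sum (s := Finset.Icc 1 ⌊T ^ (2 : ℝ)⌋₊)]
  · unfold PP
    rw [Finset.mul_sum]
    refine Finset.sum_congr rfl fun n hn => ?_
    have hn1 : 1 ≤ n := (Finset.mem_Icc.1 hn).1
    have hn0 : (0 : ℝ) < n := by exact_mod_cast hn1
    have hnC : (n : ℂ) ≠ 0 := by exact_mod_cast hn0.ne'
    rw [one_mul, hT_eq, hB]
    have e1 : 2 * π * (Real.log n / (2 * π)) = Real.log n := by field_simp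
    rw [e1]
    have e2 : (n : ℂ) ^ (-(1 / 2 + (t : ℂ) * I)) = ((1 / Real.sqrt n : ℝ) : ℂ) *
        Complex.exp (-(2 * π * I * ((Real.log n / (2 * π) : ℝ) : ℂ) * t)) := by
      rw [cpow_def_of_ne_zero hnC, ← natCast_log]
      have e3 : ((Real.log n : ℝ) : ℂ) * (-(1 / 2 + (t : ℂ) * I)) =
          ((-(Real.log n / 2) : ℝ) : ℂ) +
            (-(2 * π * I * ((Real.log n / (2 * π) : ℝ) : ℂ) * t)) := by
        have hpc : (π : ℂ) ≠ 0 := by exact_mod_cast Real.pi_ne_zero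
        push_cast
        field_simp
        ring
      rw [e3, Complex.exp_add, ← ofReal_exp]
      congr 2
      rw [Real.exp_neg, one_div]
      congr 1
      rw [Real.sqrt_eq_rpow, Real.rpow_def_of_pos hn0]
      congr 1
      ring
    rw [e2]
    push_cast
    ring
  · intro n hn
    by_cases hn0 : n = 0
    · subst hn0
      simp
    · have hn1 : 1 ≤ n := Nat.one_le_iff_ne_zero.2 hn0
      have hbig : ⌊T ^ (2 : ℝ)⌋₊ < n := by
        by_contra h
        exact hn (Finset.mem_Icc.2 ⟨hn1, not_lt.1 h⟩)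
      have h3 : T ^ (2 : ℝ) < n := (Nat.floor_lt (by positivity)).1 hbig
      have h4 : 2 * Real.log T < Real.log n := by
        rw [← Real.log_rpow hT0]
        exact Real.log_lt_log (by positivity) h3
      have h5 : η (Real.log n - α * Real.log T) = 0 := by
        apply hη.supp
        have h6 : X < Real.log n - α * Real.log T := by
          have := mul_le_mul_of_nonneg_right hα.2 hL0.le
          linarith
        exact h6.trans_le (le_abs_self _)
      rw [one_mul, hT_eq, hB]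
      have e1 : 2 * π * (Real.log n / (2 * π)) = Real.log n := by field_simp
      rw [e1, h5]
      simp

/-- Module EX (b). PROOF. `explicit_split` for `h = hT η α T t` (a bump by `bump_hsc`), where
`gs (hT ..) (ord u) = gs (hB ..) ((ord u - t) · 2π/(2π))` (`gs_hsc`), `prime_hT`, and `arch_hT` for both
signs: `‖2π SZ + 2π P‖ ≤ 2/T`. -/
theorem SZ_add_PP (hRH : RiemannHypothesis) {X κ : ℝ} (hX : 0 ≤ X) (hκ : 0 < κ) {η : ℝ → ℝ}
    (hη : Eta X η) : ∀ᶠ T : ℝ in atTop, ∀ α ∈ Icc (1 : ℝ) (3 / 2), ∀ t : ℝ, κ * T ≤ t →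
      ‖SZ (2 * π) (hB η α T) t + PP η α T t‖ ≤ 1 / T := by
  filter_upwards [prime_hT hX hη, arch_hT hX hκ hη, eventually_gt_atTop 1] with T hP hA hT1 α hα t ht
  have hpi := Real.pi_gt_three
  have hpc : (π : ℂ) ≠ 0 := by exact_mod_cast Real.pi_ne_zero
  have hT0 : 0 < T := by linarith
  have hL0 : 0 < Real.log T := Real.log_pos hT1
  have hα0 : 0 ≤ α := by linarith [hα.1]
  have hXL : 0 ≤ X + α * Real.log T := add_nonneg hX (mul_nonneg hα0 hL0.le)
  have h2pi : (0 : ℝ) < 2 * π := by positivity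
  have hb := bump_hsc h2pi (bump_hB hη hT1.le hα0) t
  have hd : 0 ≤ (X + α * Real.log T) / (2 * π) * (2 * π) / (2 * π) := by positivity
  have h1 := explicit_split hRH hd hb
  have h2 : ∑' u : Zer, (mu u : ℂ) * gs (hsc (2 * π) (hB η α T) t) (ord u) =
      SZ (2 * π) (hB η α T) t := by
    unfold SZ
    refine tsum_congr fun u => ?_
    rw [gs_hsc h2pi]
    congr 2
    push_cast
    ring
  have h3 := hP α hα t
  have h4 := hA α hα t ht 1 (Or.inl rfl)
  have h5 := hA α hα t ht (-1) (Or.inr rfl)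
  rw [h2] at h1
  unfold hT at h3 h4 h5
  rw [h3] at h1
  set A₁ := ∫ u : ℝ, archF (pt32 (1 * u)) *
    gs (hsc (2 * π) (hB η α T) t) ((u : ℂ) + ((-1 : ℝ) : ℂ) * I)
  set A₂ := ∫ u : ℝ, archF (pt32 (-1 * u)) *
    gs (hsc (2 * π) (hB η α T) t) ((u : ℂ) + ((- -1 : ℝ) : ℂ) * I)
  have h6 : SZ (2 * π) (hB η α T) t + PP η α T t = (1 / (2 * π) : ℂ) * (A₁ + A₂) := by
    have h7 : A₁ + A₂ = 2 * π * (SZ (2 * π) (hB η α T) t + PP η α T t) := by
      rw [mul_add, h1]
      ring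
    rw [h7]
    field_simp
  rw [h6, norm_mul]
  have h8 : ‖(1 / (2 * π) : ℂ)‖ ≤ 1 / 2 := by
    rw [norm_div, norm_one, norm_mul, norm_ofNat, norm_real, Real.norm_of_nonneg Real.pi_pos.le]
    apply one_div_le_one_div_of_le (by norm_num)
    linarith
  have h9 : ‖A₁ + A₂‖ ≤ 1 / T + 1 / T := (norm_add_le _ _).trans (add_le_add h4 h5)
  calc ‖(1 / (2 * π) : ℂ)‖ * ‖A₁ + A₂‖ ≤ 1 / 2 * (1 / T + 1 / T) :=
        mul_le_mul h8 h9 (norm_nonneg _) (by norm_num)
    _ = 1 / T := by ring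

/-- Module BRF. PROOF. Replace `X` by `max X 0`. `‖P‖² ≤ (1 + δ) ‖SZ‖² + (1 + 1/δ) /T²` with
`1/(1+δ) ≥ 1 - ε` (`SZ_add_PP`; pointwise on `[κT, T - T^(3/4)]`, empty or reversed only for small `T`
if `κ < 1`; if `κ ≥ 1` the integral on the left is `≤ 0` and `montF ≥ -ε/2` by `montF_ge_SZ` needs
care: the reversed integral of `‖SZ‖²` — use the hypothesis `κ < 1` below). Then `montF_ge_SZ` with
`ε/2`. -/
theorem bridge (hRH : RiemannHypothesis) {X κ ε : ℝ} {η : ℝ → ℝ} (hη : Eta X η) (hκ : 0 < κ)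
    (hκ1 : κ < 1) (hε : 0 < ε) : ∀ᶠ T : ℝ in atTop, ∀ α ∈ Icc (1 : ℝ) (3 / 2),
      (1 - ε) * ((1 / (T * Real.log T)) * ∫ t in (κ * T)..(T - T ^ (3 / 4 : ℝ)),
        ‖PP η α T t‖ ^ 2) - ε ≤ montF T α := by
  have hX : 0 ≤ max X 0 := le_max_right _ _
  have hη' : Eta (max X 0) η := hη.mono (le_max_left _ _)
  obtain ⟨C, hC, hDB⟩ := DB_hB hX hη'
  set δ : ℝ := min (ε / 2) (1 / 2) with hδ
  have hδ0 : 0 < δ := lt_min (by linarith) (by norm_num)
  have hδ1 : δ ≤ 1 / 2 := min_le_right _ _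
  have hδε : δ ≤ ε / 2 := min_le_left _ _
  have hsm : ∀ᶠ T : ℝ in atTop, T ^ (-(1 / 4) : ℝ) ≤ 1 - κ :=
    (tendsto_rpow_neg_atTop (by norm_num)).eventually_le_const (by linarith)
  have hinv : ∀ᶠ T : ℝ in atTop, (1 / δ) * (1 / T) ≤ ε / 4 := by
    have h : Tendsto (fun T : ℝ => (1 / δ) * (1 / T)) atTop (𝓝 ((1 / δ) * 0)) := by
      apply Tendsto.const_mul
      exact (tendsto_const_nhds (x := (1 : ℝ))).div_atTop tendsto_id
    rw [mul_zero] at h
    exact h.eventually_le_const (by linarith)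
  filter_upwards [SZ_add_PP hRH hX hκ hη', montF_ge_SZ hRH hX hη' hκ (show 0 < ε / 4 by linarith),
    hsm, hinv, eventually_gt_atTop 3] with T hSP hM hq hinvT hT3 α hα
  have hT0 : 0 < T := by linarith
  have hT1 : 1 < T := by linarith
  have hL1 : 1 < Real.log T := by
    rw [Real.lt_log_iff_exp_lt hT0]
    exact Real.exp_one_lt_d9.trans (by linarith)
  have hL0 : 0 < Real.log T := by linarith
  have hα0 : 0 ≤ α := by linarith [hα.1]
  have e34 : T ^ (3 / 4 : ℝ) = T * T ^ (-(1 / 4) : ℝ) := by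
    rw [← Real.rpow_one_add' hT0.le (by norm_num)]; norm_num
  have hA : 0 < T ^ (3 / 4 : ℝ) := Real.rpow_pos_of_pos hT0 _
  have hab : κ * T ≤ T - T ^ (3 / 4 : ℝ) := by
    rw [e34]
    have := mul_le_mul_of_nonneg_left hq hT0.le
    linarith
  have hXL : 0 ≤ max X 0 + α * Real.log T := add_nonneg hX (mul_nonneg hα0 hL0.le)
  have hbb : 0 ≤ (max X 0 + α * Real.log T) / (2 * π) := by positivity
  have hg := continuous_gs hbb (bump_hB hη' hT1.le hα0)
  have hSc : Continuous (SZ (2 * π) (hB η α T)) :=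
    ED92.continuous_SZ hRH hC (hDB α T).1 (le_refl _) hg
  have hPc := continuous_PP η α T
  have hpt : ∀ t ∈ Icc (κ * T) (T - T ^ (3 / 4 : ℝ)), (1 - δ) * ‖PP η α T t‖ ^ 2 ≤
      ‖SZ (2 * π) (hB η α T) t‖ ^ 2 + (1 / δ) * (1 / T) ^ 2 := by
    intro t ht
    have h1 := hSP α hα t ht.1
    have h2 : ‖PP η α T t‖ ≤ ‖SZ (2 * π) (hB η α T) t‖ + 1 / T := by
      have h3 : PP η α T t = (SZ (2 * π) (hB η α T) t + PP η α T t) -
        SZ (2 * π) (hB η α T) t := by ring
      rw [h3]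
      refine (norm_sub_le _ _).trans ?_
      linarith
    set a := ‖PP η α T t‖
    set s := ‖SZ (2 * π) (hB η α T) t‖
    set e : ℝ := 1 / T
    have ha : 0 ≤ a := norm_nonneg _
    have hs : 0 ≤ s := norm_nonneg _
    have he : 0 ≤ e := by positivity
    have h4 : a ^ 2 ≤ (s + e) ^ 2 := pow_le_pow_left₀ ha h2 2
    have h5 : (1 - δ) * a ^ 2 ≤ (1 - δ) * (s + e) ^ 2 :=
      mul_le_mul_of_nonneg_left h4 (by linarith)
    refine h5.trans ?_
    have h6 : 0 ≤ (δ * s - e) ^ 2 / δ := by positivity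
    have h7 : (δ * s - e) ^ 2 / δ = δ * s ^ 2 - 2 * s * e + (1 / δ) * e ^ 2 := by
      field_simp
      ring
    rw [h7] at h6
    have h8 := mul_nonneg (show 0 ≤ 1 - δ by linarith) h6
    have h9 : δ * (1 / δ) * e ^ 2 = e ^ 2 := by
      field_simp
    nlinarith [sq_nonneg (δ * s), mul_nonneg hδ0.le (sq_nonneg e)]
  have hint : (1 - δ) * (∫ t in (κ * T)..(T - T ^ (3 / 4 : ℝ)), ‖PP η α T t‖ ^ 2) ≤
      (∫ t in (κ * T)..(T - T ^ (3 / 4 : ℝ)), ‖SZ (2 * π) (hB η α T) t‖ ^ 2) +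
        (1 / δ) * (1 / T) := by
    rw [← intervalIntegral.integral_const_mul]
    have h1 : (∫ t in (κ * T)..(T - T ^ (3 / 4 : ℝ)), (1 - δ) * ‖PP η α T t‖ ^ 2) ≤
        ∫ t in (κ * T)..(T - T ^ (3 / 4 : ℝ)), (‖SZ (2 * π) (hB η α T) t‖ ^ 2 +
          (1 / δ) * (1 / T) ^ 2) := by
      apply intervalIntegral.integral_mono_on hab
      · exact Continuous.intervalIntegrable (by fun_prop) _ _
      · exact Continuous.intervalIntegrable (by fun_prop) _ _
      · exact hpt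
    refine h1.trans ?_
    rw [intervalIntegral.integral_add (Continuous.intervalIntegrable (by fun_prop) _ _)
      (Continuous.intervalIntegrable (by fun_prop) _ _), intervalIntegral.integral_const,
      smul_eq_mul]
    have h2 : (T - T ^ (3 / 4 : ℝ) - κ * T) * ((1 / δ) * (1 / T) ^ 2) ≤
        T * ((1 / δ) * (1 / T) ^ 2) := by
      apply mul_le_mul_of_nonneg_right _ (by positivity)
      have := mul_pos hκ hT0
      linarith
    have h3 : T * ((1 / δ) * (1 / T) ^ 2) = (1 / δ) * (1 / T) := by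
      field_simp
    linarith
  have hM1 := hM α hα
  set IP := ∫ t in (κ * T)..(T - T ^ (3 / 4 : ℝ)), ‖PP η α T t‖ ^ 2 with hIP
  set IS := ∫ t in (κ * T)..(T - T ^ (3 / 4 : ℝ)), ‖SZ (2 * π) (hB η α T) t‖ ^ 2 with hIS
  have hIP0 : 0 ≤ IP := intervalIntegral.integral_nonneg hab fun t _ => by positivity
  have hTL : 1 ≤ T * Real.log T := by nlinarith
  have hw0 : 0 ≤ 1 / (T * Real.log T) := by positivity
  have hw1 : 1 / (T * Real.log T) ≤ 1 := by
    rw [div_le_one (by positivity)]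
    exact hTL
  have h1 : (1 - δ) * ((1 / (T * Real.log T)) * IP) ≤
      (1 / (T * Real.log T)) * IS + ε / 4 := by
    have h2 := mul_le_mul_of_nonneg_left hint hw0
    have h3 : (1 / (T * Real.log T)) * ((1 / δ) * (1 / T)) ≤ 1 * (ε / 4) :=
      mul_le_mul hw1 hinvT (by positivity) zero_le_one
    nlinarith
  have h2 : 0 ≤ (1 / (T * Real.log T)) * IP := mul_nonneg hw0 hIP0
  have h3 : (1 - ε) * ((1 / (T * Real.log T)) * IP) ≤ (1 - δ) * ((1 / (T * Real.log T)) * IP) :=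
    mul_le_mul_of_nonneg_right (by linarith) h2
  linarith

end Pool.Agent.MP_67227b_nt.Gg
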