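import Mathlib
import Pool.Agent.MP_67227b_nt.Gg.GgDefs
import Pool.Agent.MP_67227b_nt.Gg.GgPvLib

set_option autoImplicit false

open Filter Topology Set MeasureTheory Complex
open scoped Real ContDiff ArithmeticFunction ArithmeticFunction.Moebius

namespace Pool.Agent.MP_67227b_nt.Gg

/-- A sum and the integral, compared by the total variation. -/
theorem sum_int {f f' : ℝ → ℝ} (hd : ∀ x, HasDerivAt f (f' x) x) (hc : Continuous f') (M : ℕ) :
    |∑ m ∈ Finset.Icc 1 M, f m - ∫ x in (0 : ℝ)..M, f x| ≤ ∫ x in (0 : ℝ)..M, |f' x| := by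
  have hfc : Continuous f := continuous_iff_continuousAt.2 fun v => (hd v).continuousAt
  induction M with
  | zero => simp
  | succ M ih =>
    rw [Finset.sum_Icc_succ_top (by omega), Nat.cast_add, Nat.cast_one,
      ← intervalIntegral.integral_add_adjacent_intervals (b := (M : ℝ))
        (hfc.intervalIntegrable _ _) (hfc.intervalIntegrable _ _),
      ← intervalIntegral.integral_add_adjacent_intervals (a := 0) (b := (M : ℝ))
        (hc.abs.intervalIntegrable _ _) (hc.abs.intervalIntegrable _ _)]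
    have h1 : f ((M : ℝ) + 1) - ∫ x in (M : ℝ)..(M + 1), f x =
        ∫ x in (M : ℝ)..(M + 1), (x - M) * f' x := by
      have h2 : ∫ x in (M : ℝ)..(M + 1), (1 * f x + (x - M) * f' x) = f ((M : ℝ) + 1) := by
        rw [intervalIntegral.integral_eq_sub_of_hasDerivAt (f := fun x => (x - M) * f x)]
        · ring
        · intro x _
          exact ((hasDerivAt_id x).sub_const (M : ℝ)).mul (hd x)
        · exact (by fun_prop : Continuous fun x : ℝ =>
            1 * f x + (x - M) * f' x).intervalIntegrable _ _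
      rw [intervalIntegral.integral_add
        ((by fun_prop : Continuous fun x : ℝ => 1 * f x).intervalIntegrable _ _)
        ((by fun_prop : Continuous fun x : ℝ => (x - M) * f' x).intervalIntegrable _ _)] at h2
      simp only [one_mul] at h2
      linarith
    have h3 : |∫ x in (M : ℝ)..(M + 1), (x - M) * f' x| ≤ ∫ x in (M : ℝ)..(M + 1), |f' x| := by
      refine (intervalIntegral.abs_integral_le_integral_abs (by linarith)).trans ?_
      apply intervalIntegral.integral_mono_on (by linarith)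
        ((by fun_prop : Continuous fun x : ℝ => |(x - M) * f' x|).intervalIntegrable _ _)
        (hc.abs.intervalIntegrable _ _)
      intro x hx
      rw [abs_mul]
      apply mul_le_of_le_one_left (abs_nonneg _)
      rw [abs_of_nonneg (by linarith [hx.1])]
      linarith [hx.2]
    have e : ∑ m ∈ Finset.Icc 1 M, f m + f ((M : ℝ) + 1) -
        ((∫ x in (0 : ℝ)..M, f x) + ∫ x in (M : ℝ)..(M + 1), f x) =
        (∑ m ∈ Finset.Icc 1 M, f m - ∫ x in (0 : ℝ)..M, f x) +
          (f ((M : ℝ) + 1) - ∫ x in (M : ℝ)..(M + 1), f x) := by ring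
    have e' : (∑ k ∈ Finset.Icc 1 M, f (k : ℝ)) + f ((M : ℝ) + 1) -
        ((∫ x in (0 : ℝ)..M, f x) + ∫ x in (M : ℝ)..(M + 1), f x) =
        (∑ m ∈ Finset.Icc 1 M, f m - ∫ x in (0 : ℝ)..M, f x) +
          ∫ x in (M : ℝ)..(M + 1), (x - M) * f' x := by rw [← h1]; exact e
    rw [e']
    exact (abs_add_le _ _).trans (add_le_add ih h3)

/-- Sums of the cutoff. -/
theorem rho_sum {κ : ℝ} {ρ : ℝ → ℝ} (hκ : 0 < κ) (hρ : Rho κ ρ) :
    ∃ V : ℝ, 0 ≤ V ∧ ∀ (Y : ℝ) (M : ℕ), 0 < Y → Y ≤ M + 1 →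
      |∑ m ∈ Finset.Icc 1 M, ρ (m / Y) - Y * ∫ s, ρ s| ≤ V := by
  have hρ1 : ContDiff ℝ 1 ρ := hρ.smooth.of_le (by exact_mod_cast le_top)
  have hdρ : Continuous (deriv ρ) := hρ1.continuous_deriv le_rfl
  have hcs : HasCompactSupport ρ := by
    apply HasCompactSupport.intro (K := Icc (2 * κ) (1 - κ)) isCompact_Icc
    intro s hs
    rw [mem_Icc, not_and_or, not_le, not_le] at hs
    rcases hs with h | h
    · exact hρ.left s h.le
    · exact hρ.right s h.le
  have hint : Integrable fun s => |deriv ρ s| :=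
    (hdρ.integrable_of_hasCompactSupport hcs.deriv).abs
  refine ⟨∫ s, |deriv ρ s|, integral_nonneg fun _ => abs_nonneg _, fun Y M hY hM => ?_⟩
  have hd : ∀ x, HasDerivAt (fun x => ρ (x / Y)) (deriv ρ (x / Y) * (1 / Y)) x := by
    intro x
    have h1 : HasDerivAt ρ (deriv ρ (x / Y)) (x / Y) :=
      (hρ1.differentiable (by norm_num)).differentiableAt.hasDerivAt
    exact h1.comp x ((hasDerivAt_id x).div_const Y)
  have hc : Continuous fun x => deriv ρ (x / Y) * (1 / Y) :=
    (hdρ.comp (by fun_prop)).mul continuous_const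
  have h1 := sum_int hd hc (M + 1)
  have hM1 : (1 : ℝ) ≤ ((M + 1 : ℕ) : ℝ) / Y := by
    rw [le_div_iff₀ hY]
    push_cast
    linarith
  have e1 : ∑ m ∈ Finset.Icc 1 (M + 1), ρ ((m : ℝ) / Y) = ∑ m ∈ Finset.Icc 1 M, ρ (m / Y) := by
    rw [Finset.sum_Icc_succ_top (by omega), hρ.right _ (by linarith), add_zero]
  have e2 : ∫ x in (0 : ℝ)..((M + 1 : ℕ) : ℝ), ρ (x / Y) = Y * ∫ s, ρ s := by
    rw [intervalIntegral.integral_comp_div _ hY.ne', zero_div, smul_eq_mul]
    congr 1
    rw [intervalIntegral.integral_of_le (by linarith)]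
    apply setIntegral_eq_integral_of_forall_compl_eq_zero
    intro s hs
    rw [mem_Ioc, not_and_or, not_lt, not_le] at hs
    rcases hs with h | h
    · exact hρ.left s (by linarith)
    · exact hρ.right s (by linarith)
  have e3 : ∫ x in (0 : ℝ)..((M + 1 : ℕ) : ℝ), |deriv ρ (x / Y) * (1 / Y)| ≤
      ∫ s, |deriv ρ s| := by
    have e4 : (fun x => |deriv ρ (x / Y) * (1 / Y)|) = fun x => (1 / Y) * |deriv ρ (x / Y)| := by
      ext x
      rw [abs_mul, abs_of_pos (by positivity : 0 < 1 / Y)]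
      ring
    rw [e4, intervalIntegral.integral_const_mul,
      intervalIntegral.integral_comp_div (fun s => |deriv ρ s|) hY.ne', zero_div, smul_eq_mul,
      ← mul_assoc, one_div_mul_cancel hY.ne', one_mul,
      intervalIntegral.integral_of_le (by linarith)]
    exact setIntegral_le_integral hint (Eventually.of_forall fun _ => abs_nonneg _)
  rw [e1, e2] at h1
  exact h1.trans e3

/-- `∑_{d ∣ A} μ(d)/d = φ(A)/A`. -/
theorem sum_mu_div {A : ℕ} (hA : 0 < A) :
    ∑ d ∈ A.divisors, (μ d : ℝ) / d = (A.totient : ℝ) / A := by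
  have h1 := (ArithmeticFunction.sum_eq_iff_sum_mul_moebius_eq
    (f := fun n : ℕ => (n.totient : ℝ)) (g := fun n : ℕ => (n : ℝ))).1 (by
      intro n _
      have := Nat.sum_totient n
      exact_mod_cast this) A hA
  have hA0 : (A : ℝ) ≠ 0 := by exact_mod_cast hA.ne'
  rw [← h1, Finset.sum_div, Nat.sum_divisorsAntidiagonal (f := fun d m => (μ d : ℝ) * m / A)]
  apply Finset.sum_congr rfl
  intro d hd
  have hdvd := Nat.dvd_of_mem_divisors hd
  have hd0 : (d : ℝ) ≠ 0 := by
    have := Nat.pos_of_mem_divisors hd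
    exact_mod_cast this.ne'
  rw [Nat.cast_div hdvd hd0]
  field_simp

/-- Sums of the cutoff over the integers coprime to `A`. -/
theorem cop_sum {κ : ℝ} {ρ : ℝ → ℝ} (hκ : 0 < κ) (hρ : Rho κ ρ) :
    ∃ V : ℝ, 0 ≤ V ∧ ∀ (A N : ℕ) (Y : ℝ), 0 < A → 0 < Y → Y ≤ N + 1 →
      |∑ B ∈ (Finset.Icc 1 N).filter (fun B => B.Coprime A), ρ (B / Y) -
        (A.totient : ℝ) / A * Y * ∫ s, ρ s| ≤ V * (A.divisors.card : ℝ) := by
  obtain ⟨V, hV0, hV⟩ := rho_sum hκ hρ
  refine ⟨V, hV0, fun A N Y hA hY hN => ?_⟩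
  have e1 : ∑ B ∈ (Finset.Icc 1 N).filter (fun B => B.Coprime A), ρ (B / Y) =
      ∑ d ∈ A.divisors, (μ d : ℝ) * ∑ m ∈ Finset.Icc 1 (N / d), ρ ((m : ℝ) / (Y / d)) := by
    have h1 := sum_coprime_eq (fun n => ((ρ ((n : ℝ) / Y) : ℝ) : ℂ)) A 0 N hA
    have h2 : ∑ B ∈ (Finset.Ioc 0 N).filter (fun B => B.Coprime A), ρ ((B : ℝ) / Y) =
        ∑ d ∈ A.divisors, (μ d : ℝ) * ∑ m ∈ Finset.Ioc (0 / d) (N / d), ρ (((d * m : ℕ) : ℝ) / Y) := by
      exact_mod_cast h1
    have h3 : ∀ n : ℕ, Finset.Icc 1 n = Finset.Ioc 0 n := fun n => by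
      ext m
      rw [Finset.mem_Icc, Finset.mem_Ioc]
      omega
    rw [h3, h2]
    apply Finset.sum_congr rfl
    intro d hd
    have hd0 : (d : ℝ) ≠ 0 := by
      have := Nat.pos_of_mem_divisors hd
      exact_mod_cast this.ne'
    rw [Nat.zero_div, h3]
    congr 1
    apply Finset.sum_congr rfl
    intro m _
    congr 1
    push_cast
    field_simp
  have e2 : (A.totient : ℝ) / A * Y * ∫ s, ρ s =
      ∑ d ∈ A.divisors, (μ d : ℝ) * (Y / d * ∫ s, ρ s) := by
    rw [← sum_mu_div hA, Finset.sum_mul, Finset.sum_mul]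
    apply Finset.sum_congr rfl
    intro d _
    ring
  rw [e1, e2, ← Finset.sum_sub_distrib]
  refine (Finset.abs_sum_le_sum_abs _ _).trans ?_
  have h4 : ∀ d ∈ A.divisors, |(μ d : ℝ) * ∑ m ∈ Finset.Icc 1 (N / d), ρ ((m : ℝ) / (Y / d)) -
      (μ d : ℝ) * (Y / d * ∫ s, ρ s)| ≤ V := by
    intro d hd
    have hdp := Nat.pos_of_mem_divisors hd
    have hd0 : (0 : ℝ) < d := by exact_mod_cast hdp
    rw [← mul_sub, abs_mul]
    have h5 : |(μ d : ℝ)| ≤ 1 := by
      have := ArithmeticFunction.abs_moebius_le_one (n := d)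
      exact_mod_cast this
    have h6 : Y / d ≤ ((N / d : ℕ) : ℝ) + 1 := by
      rw [div_le_iff₀ hd0]
      have h7 : N + 1 ≤ (N / d + 1) * d := by
        have h8 := Nat.lt_mul_div_succ N hdp
        rw [mul_comm] at h8
        exact h8
      have h9 : (N : ℝ) + 1 ≤ (((N / d : ℕ) : ℝ) + 1) * d := by exact_mod_cast h7
      linarith
    calc |(μ d : ℝ)| * |∑ m ∈ Finset.Icc 1 (N / d), ρ ((m : ℝ) / (Y / d)) -
          Y / d * ∫ s, ρ s| ≤ 1 * V :=
          mul_le_mul h5 (hV (Y / d) (N / d) (by positivity) h6) (abs_nonneg _) zero_le_one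
      _ = V := one_mul V
  refine (Finset.sum_le_sum h4).trans (le_of_eq ?_)
  rw [Finset.sum_const, nsmul_eq_mul]
  ring

end Pool.Agent.MP_67227b_nt.Gg
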