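import Mathlib
import Pool.Agent.MP_67227b_nt.Gg.GgCoef
import Pool.Agent.MP_67227b_nt.Gg.GgRho

set_option autoImplicit false

open Filter Topology Set MeasureTheory Complex
open scoped Real ContDiff ArithmeticFunction ArithmeticFunction.Moebius

namespace Pool.Agent.MP_67227b_nt.Gg

private theorem eta_cs {X : ℝ} {η : ℝ → ℝ} (hη : Eta X η) : HasCompactSupport η := by
  apply HasCompactSupport.intro (K := Icc (-X) X) isCompact_Icc
  intro v hv
  have : X < |v| := by
    rw [mem_Icc, ← abs_le, not_le] at hv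
    exact hv
  exact hη.supp v this

/-- The sum over the numerators, from below. -/
private theorem inner_lower {X : ℝ} {η ρ : ℝ → ℝ} (hη : Eta X η) {V : ℝ}
    (hV : ∀ (A N : ℕ) (Y : ℝ), 0 < A → 0 < Y → Y ≤ N + 1 →
      |∑ B ∈ (Finset.Icc 1 N).filter (fun B => B.Coprime A), ρ (B / Y) -
        (A.totient : ℝ) / A * Y * ∫ s, ρ s| ≤ V * (A.divisors.card : ℝ)) {α T : ℝ} (hT : 0 < T)
    {A : ℕ} (hA : 0 < A) (hAT : (A : ℝ) * T ^ (1 - α) * Real.exp |X| ≤ T) (v : ℝ) :
    (A.totient : ℝ) * (T / (2 * π)) * (∫ s, ρ s) * η (v - α * Real.log T) ^ 2 -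
      V * (A.divisors.card : ℝ) * (Real.exp v * η (v - α * Real.log T) ^ 2) ≤
    ∑ B ∈ Bs T A, Real.exp v * η (v - α * Real.log T) ^ 2 * wt ρ T A B (Real.exp v) ^ 1 := by
  by_cases hv : X < |v - α * Real.log T|
  · rw [hη.supp _ hv]
    simp
  · have hv2 : -|X| ≤ v - α * Real.log T := by
      have h1 := neg_abs_le (v - α * Real.log T)
      have h2 := le_abs_self X
      linarith [not_lt.1 hv]
    have hA0 : (0 : ℝ) < A := by exact_mod_cast hA
    set Y : ℝ := A * T / (2 * π * Real.exp v) with hY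
    have hY0 : 0 < Y := by positivity
    have hYT : Y ≤ T := by
      have h3 : Real.exp (-|X|) * T ^ α ≤ Real.exp v := by
        rw [Real.rpow_def_of_pos hT, ← Real.exp_add]
        apply Real.exp_le_exp.2
        linarith [mul_comm (Real.log T) α]
      rw [hY, div_le_iff₀ (by positivity)]
      have h7 : (1 : ℝ) ≤ 2 * π := by linarith [Real.pi_gt_three]
      have e2 : T ^ α * T ^ (1 - α) = T := by
        rw [← Real.rpow_add hT]
        simp
      have e1 : Real.exp (-|X|) * Real.exp |X| = 1 := by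
        rw [← Real.exp_add]
        simp
      calc (A : ℝ) * T = (A : ℝ) * T ^ (1 - α) * Real.exp |X| * (Real.exp (-|X|) * T ^ α) := by
            calc (A : ℝ) * T = A * (T ^ α * T ^ (1 - α)) * (Real.exp (-|X|) * Real.exp |X|) := by
                  rw [e1, e2, mul_one]
              _ = _ := by ring
        _ ≤ T * Real.exp v := by gcongr
        _ ≤ T * (2 * π * Real.exp v) := by
            apply mul_le_mul_of_nonneg_left _ hT.le
            exact le_mul_of_one_le_left (Real.exp_pos v).le h7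
    have hYN : Y ≤ (⌊T⌋₊ : ℝ) + 1 := hYT.trans (Nat.lt_floor_add_one T).le
    have h4 := (abs_le.1 (hV A ⌊T⌋₊ Y hA hY0 hYN)).1
    have e3 : ∑ B ∈ Bs T A, Real.exp v * η (v - α * Real.log T) ^ 2 *
        wt ρ T A B (Real.exp v) ^ 1 = Real.exp v * η (v - α * Real.log T) ^ 2 *
        ∑ B ∈ (Finset.Icc 1 ⌊T⌋₊).filter (fun B => B.Coprime A), ρ (B / Y) := by
      rw [Finset.mul_sum, Bs]
      apply Finset.sum_congr rfl
      intro B _
      rw [pow_one, wt, hY]
      congr 2
      field_simp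
    rw [e3]
    set g : ℝ := Real.exp v * η (v - α * Real.log T) ^ 2 with hg
    have hg0 : 0 ≤ g := by positivity
    have e4 : (A.totient : ℝ) * (T / (2 * π)) * (∫ s, ρ s) * η (v - α * Real.log T) ^ 2 =
        g * ((A.totient : ℝ) / A * Y * ∫ s, ρ s) := by
      rw [hg, hY]
      field_simp
    rw [e4]
    have h5 := mul_le_mul_of_nonneg_left h4 hg0
    linarith

/-- (helper61) The asymptotics of the main term. -/
theorem main_lower (X κ c ε : ℝ) (hκ : 0 < κ) (hc : 0 < c) (hε : 0 < ε) {η ρ : ℝ → ℝ}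
    (hη : Eta X η) (hρ : Rho κ ρ) :
    ∃ C : ℝ, ∀ᶠ T : ℝ in atTop, ∀ α ∈ Icc (1 : ℝ) (3 / 2 - 4 * c),
      (3 / 2 - α - 2 * c - ε) * T * Real.log T * (∫ s, ρ s) * (∫ v, η v ^ 2) - C * T ≤
        2 * π * JJ 1 η ρ c α T := by
  obtain ⟨V, hV0, hV⟩ := cop_sum hκ hρ
  obtain ⟨K, hK0, hK⟩ := coef_tau
  obtain ⟨C, hC⟩ := coef_main hε
  have hηc : Continuous η := hη.smooth.continuous
  have hρc : Continuous ρ := hρ.smooth.continuous
  have hcs := eta_cs hη
  set IR : ℝ := ∫ s, ρ s with hIR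
  set IE : ℝ := ∫ v, η v ^ 2 with hIE
  set E0 : ℝ := ∫ v, Real.exp v * η v ^ 2 with hE0
  have hIR0 : 0 ≤ IR := integral_nonneg hρ.nonneg
  have hIE0 : 0 ≤ IE := integral_nonneg fun v => sq_nonneg _
  have hE00 : 0 ≤ E0 := integral_nonneg fun v => by positivity
  refine ⟨IR * IE * C + 2 * π * (V * E0 * K), ?_⟩
  have hlog : ∀ᶠ T : ℝ in atTop, Real.log T ^ 4 * T ^ (-c) ≤ 1 := by
    have h1 := (isLittleO_log_rpow_rpow_atTop 4 hc).bound (c := 1) one_pos
    filter_upwards [h1, eventually_ge_atTop (1 : ℝ)] with T hT hT1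
    have hT0 : 0 < T := by linarith
    have h0 : 0 ≤ Real.log T ^ (4 : ℝ) := Real.rpow_nonneg (Real.log_nonneg hT1) _
    have h0' : 0 ≤ T ^ c := Real.rpow_nonneg hT0.le _
    rw [one_mul, Real.norm_of_nonneg h0, Real.norm_of_nonneg h0'] at hT
    have h2 : Real.log T ^ (4 : ℝ) = Real.log T ^ (4 : ℕ) := by
      rw [← Real.rpow_natCast]
      norm_num
    rw [h2] at hT
    rw [Real.rpow_neg hT0.le, ← div_eq_mul_inv, div_le_one (by positivity)]
    exact hT
  have hX : ∀ᶠ T : ℝ in atTop, Real.exp |X| ≤ T ^ (1 / 2 : ℝ) :=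
    (tendsto_rpow_atTop (by norm_num : (0 : ℝ) < 1 / 2)).eventually_ge_atTop _
  filter_upwards [hlog, hX, eventually_ge_atTop (3 : ℝ)] with T hTl hTX hT3 α hα
  have hT0 : 0 < T := by linarith
  have hT1 : 1 ≤ T := by linarith
  set L : ℝ := Real.log T with hL
  -- one denominator
  have hone : ∀ A ∈ As c α T, (A.totient : ℝ) * (T / (2 * π)) * IR * IE -
      V * (A.divisors.card : ℝ) * (T ^ α * E0) ≤
      ∑ B ∈ Bs T A, ∫ v : ℝ, Real.exp v * η (v - α * L) ^ 2 * wt ρ T A B (Real.exp v) ^ 1 := by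
    intro A hA
    rw [As, Finset.mem_Ioc] at hA
    have hA0 : 0 < A := by omega
    have hAT : (A : ℝ) * T ^ (1 - α) * Real.exp |X| ≤ T := by
      have h1 : (A : ℝ) ≤ T ^ (1 / 2 - c) := by
        have h2 : (A : ℝ) ≤ (⌊T ^ (1 / 2 - c)⌋₊ : ℝ) := by exact_mod_cast hA.2
        exact h2.trans (Nat.floor_le (by positivity))
      calc (A : ℝ) * T ^ (1 - α) * Real.exp |X| ≤ T ^ (1 / 2 - c) * T ^ (1 - α) *
            T ^ (1 / 2 : ℝ) := by gcongr
        _ = T ^ ((1 / 2 - c) + (1 - α) + 1 / 2) := by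
            rw [Real.rpow_add hT0, Real.rpow_add hT0]
        _ ≤ T ^ (1 : ℝ) := Real.rpow_le_rpow_of_exponent_le hT1 (by linarith [hα.1])
        _ = T := Real.rpow_one T
    have hcont : Continuous fun v => η (v - α * L) ^ 2 := by fun_prop
    have hcs1 : HasCompactSupport fun v => η (v - α * L) ^ 2 := by
      apply HasCompactSupport.intro (K := Icc (α * L - X) (α * L + X)) isCompact_Icc
      intro v hv
      have h1 : X < |v - α * L| := by
        rw [mem_Icc, not_and_or, not_le, not_le] at hv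
        rcases hv with h | h
        · have := neg_abs_le (v - α * L)
          linarith
        · have := le_abs_self (v - α * L)
          linarith
      rw [hη.supp _ h1]
      ring
    have hi1 : Integrable fun v => η (v - α * L) ^ 2 :=
      hcont.integrable_of_hasCompactSupport hcs1
    have hi2 : Integrable fun v => Real.exp v * η (v - α * L) ^ 2 :=
      (by fun_prop : Continuous fun v =>
        Real.exp v * η (v - α * L) ^ 2).integrable_of_hasCompactSupport
        (hcs1.mul_left (f := fun v => Real.exp v))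
    have hi3 : ∀ B : ℕ, Integrable fun v => Real.exp v * η (v - α * L) ^ 2 *
        wt ρ T A B (Real.exp v) ^ 1 := by
      intro B
      have hw : Continuous fun v => wt ρ T A B (Real.exp v) ^ 1 := by
        simp only [pow_one, wt]
        exact hρc.comp (by fun_prop)
      exact (by fun_prop : Continuous fun v => Real.exp v * η (v - α * L) ^ 2 *
        wt ρ T A B (Real.exp v) ^ 1).integrable_of_hasCompactSupport
        ((hcs1.mul_left (f := fun v => Real.exp v)).mul_right
          (f' := fun v => wt ρ T A B (Real.exp v) ^ 1))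
    rw [← integral_finsetSum _ fun B _ => hi3 B]
    have e1 : ∫ v, η (v - α * L) ^ 2 = IE := by
      rw [hIE, ← integral_sub_right_eq_self (fun v => η v ^ 2) (α * L)]
    have e2 : ∫ v, Real.exp v * η (v - α * L) ^ 2 = T ^ α * E0 := by
      rw [hE0, ← integral_const_mul,
        ← integral_sub_right_eq_self (fun v => T ^ α * (Real.exp v * η v ^ 2)) (α * L)]
      congr 1
      ext v
      rw [Real.rpow_def_of_pos hT0, ← hL, ← mul_assoc, ← Real.exp_add]
      congr 2
      ring
    calc (A.totient : ℝ) * (T / (2 * π)) * IR * IE - V * (A.divisors.card : ℝ) * (T ^ α * E0) =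
        ∫ v, ((A.totient : ℝ) * (T / (2 * π)) * IR * η (v - α * L) ^ 2 -
          V * (A.divisors.card : ℝ) * (Real.exp v * η (v - α * L) ^ 2)) := by
          rw [integral_sub (hi1.const_mul _) (hi2.const_mul _), integral_const_mul,
            integral_const_mul, e1, e2]
      _ ≤ _ := by
          apply integral_mono ((hi1.const_mul _).sub (hi2.const_mul _))
            (integrable_finsetSum _ fun B _ => hi3 B)
          intro v
          exact inner_lower hη hV hT0 hA0 hAT v
  have e5 : JJ 1 η ρ c α T = ∑ A ∈ As c α T, (μ A : ℝ) ^ 2 / (A.totient : ℝ) ^ 2 *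
      ∑ B ∈ Bs T A, ∫ v : ℝ, Real.exp v * η (v - α * L) ^ 2 * wt ρ T A B (Real.exp v) ^ 1 := by
    rw [JJ]
    apply Finset.sum_congr rfl
    intro A _
    rw [Finset.mul_sum]
  have h6 : (T / (2 * π)) * IR * IE * (∑ A ∈ As c α T, (μ A : ℝ) ^ 2 / (A.totient : ℝ)) -
      V * (T ^ α * E0) * (∑ A ∈ As c α T, (μ A : ℝ) ^ 2 / (A.totient : ℝ) ^ 2 *
        (A.divisors.card : ℝ)) ≤ JJ 1 η ρ c α T := by
    rw [e5, Finset.mul_sum, Finset.mul_sum, ← Finset.sum_sub_distrib]
    apply Finset.sum_le_sum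
    intro A hA
    have h7 := mul_le_mul_of_nonneg_left (hone A hA)
      (by positivity : (0 : ℝ) ≤ (μ A : ℝ) ^ 2 / (A.totient : ℝ) ^ 2)
    refine le_trans (le_of_eq ?_) h7
    have hA0 : 0 < A := by
      rw [As, Finset.mem_Ioc] at hA
      omega
    have hφ : (A.totient : ℝ) ≠ 0 := by
      have := Nat.totient_pos.2 hA0
      exact_mod_cast this.ne'
    field_simp
  have h8 := hC c α T hc hT3 hα.1 hα.2
  have h9 := hK c α T hc hT3
  have hTIE : 0 ≤ (T / (2 * π)) * IR * IE := by positivity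
  have hVE : 0 ≤ V * (T ^ α * E0) := by positivity
  have h10 := mul_le_mul_of_nonneg_left h8 hTIE
  have h11 := mul_le_mul_of_nonneg_left h9 hVE
  have h12 : V * (T ^ α * E0) * (K * L ^ 4 * T ^ (-(α - 1 + c))) ≤ V * E0 * K * T := by
    have e6 : T ^ α * T ^ (-(α - 1 + c)) = T * T ^ (-c) := by
      rw [← Real.rpow_add hT0]
      nth_rewrite 2 [← Real.rpow_one T]
      rw [← Real.rpow_add hT0]
      congr 1
      ring
    calc V * (T ^ α * E0) * (K * L ^ 4 * T ^ (-(α - 1 + c))) =
        V * E0 * K * (T ^ α * T ^ (-(α - 1 + c))) * L ^ 4 := by ring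
      _ = V * E0 * K * T * (L ^ 4 * T ^ (-c)) := by rw [e6]; ring
      _ ≤ V * E0 * K * T * 1 := mul_le_mul_of_nonneg_left hTl (by positivity)
      _ = _ := mul_one _
  have h13 : (T / (2 * π)) * IR * IE * ((3 / 2 - α - 2 * c - ε) * L - C) - V * E0 * K * T ≤
      JJ 1 η ρ c α T := by linarith
  have h14 := mul_le_mul_of_nonneg_left h13 (by positivity : (0 : ℝ) ≤ 2 * π)
  refine le_trans (le_of_eq ?_) h14
  field_simp
  ring

end Pool.Agent.MP_67227b_nt.Gg
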