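import Mathlib
import Pool.Agent.MP_67227b_nt.Gg.GgAbel
import Pool.Agent.MP_67227b_nt.Gg.GgCoef

set_option autoImplicit false

open Filter Topology Set MeasureTheory Complex
open scoped Real ContDiff ArithmeticFunction ArithmeticFunction.Moebius

namespace Pool.Agent.MP_67227b_nt.Gg

theorem Rho.hasCompactSupport {κ : ℝ} {ρ : ℝ → ℝ} (hρ : Rho κ ρ) : HasCompactSupport ρ := by
  apply HasCompactSupport.intro (K := Icc (2 * κ) (1 - κ)) isCompact_Icc
  intro s hs
  rw [mem_Icc, not_and_or, not_le, not_le] at hs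
  rcases hs with h | h
  · exact hρ.left s h.le
  · exact hρ.right s h.le

theorem Eta.hasCompactSupport {X : ℝ} {η : ℝ → ℝ} (hη : Eta X η) : HasCompactSupport η := by
  apply HasCompactSupport.intro (K := Icc (-X) X) isCompact_Icc
  intro v hv
  have : X < |v| := by
    rw [mem_Icc, ← abs_le, not_le] at hv
    exact hv
  exact hη.supp v this

theorem Eta.sq_le_one {X : ℝ} {η : ℝ → ℝ} (hη : Eta X η) (v : ℝ) : η v ^ 2 ≤ 1 :=
  (hη.sq_le v).trans (Real.exp_le_one_iff.2 (by linarith [abs_nonneg v]))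

/-- The derivative of `v ↦ η(v - αL)² ρ(2πe^v B/(AT))` is bounded, uniformly. -/
theorem deriv_bound {X κ : ℝ} {η ρ : ℝ → ℝ} (hη : Eta X η) (hρ : Rho κ ρ) :
    ∃ H : ℝ, ∀ (z q : ℝ), ∃ h' : ℝ → ℝ,
      (∀ v, HasDerivAt (fun v => η (v - z) ^ 2 * ρ (q * Real.exp v)) (h' v) v) ∧
      Continuous h' ∧ ∀ v, |h' v| ≤ H := by
  have hη1 : ContDiff ℝ 1 η := hη.smooth.of_le (by exact_mod_cast le_top)
  have hρ1 : ContDiff ℝ 1 ρ := hρ.smooth.of_le (by exact_mod_cast le_top)
  have hdη : Continuous (deriv η) := hη1.continuous_deriv le_rfl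
  have hdρ : Continuous (deriv ρ) := hρ1.continuous_deriv le_rfl
  obtain ⟨E1, hE1⟩ := hdη.bounded_above_of_compact_support hη.hasCompactSupport.deriv
  obtain ⟨E2, hE2⟩ := (hdρ.mul continuous_id).bounded_above_of_compact_support
    (hρ.hasCompactSupport.deriv.mul_right (f' := id))
  refine ⟨2 * E1 + E2, fun z q => ⟨fun v => (2 * η (v - z) * deriv η (v - z)) * ρ (q * Real.exp v) +
    η (v - z) ^ 2 * (deriv ρ (q * Real.exp v) * (q * Real.exp v)), ?_, ?_, ?_⟩⟩
  · intro v
    have d1 : HasDerivAt (fun v => η (v - z)) (deriv η (v - z)) v := by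
      have h1 : HasDerivAt η (deriv η (v - z)) (v - z) :=
        (hη1.differentiable (by norm_num)).differentiableAt.hasDerivAt
      have h2 : HasDerivAt (fun v : ℝ => v - z) 1 v := (hasDerivAt_id v).sub_const z
      have h3 := h1.comp v h2
      rw [mul_one] at h3
      exact h3
    have d2 : HasDerivAt (fun v => ρ (q * Real.exp v))
        (deriv ρ (q * Real.exp v) * (q * Real.exp v)) v := by
      have h1 : HasDerivAt ρ (deriv ρ (q * Real.exp v)) (q * Real.exp v) :=
        (hρ1.differentiable (by norm_num)).differentiableAt.hasDerivAt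
      exact h1.comp v ((Real.hasDerivAt_exp v).const_mul q)
    have d3 := (d1.fun_pow 2).mul d2
    refine HasDerivAt.congr_deriv d3 ?_
    simp only [Nat.cast_ofNat, Nat.add_one_sub_one, pow_one]
  · have c1 : Continuous fun v => η (v - z) := hη1.continuous.comp (by fun_prop)
    have c2 : Continuous fun v => deriv η (v - z) := hdη.comp (by fun_prop)
    have c3 : Continuous fun v => ρ (q * Real.exp v) := hρ1.continuous.comp (by fun_prop)
    have c4 : Continuous fun v => deriv ρ (q * Real.exp v) := hdρ.comp (by fun_prop)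
    fun_prop
  · intro v
    have b1 : |η (v - z)| ≤ 1 := by
      rw [← sq_le_one_iff_abs_le_one]
      exact hη.sq_le_one _
    have b2 := hE1 (v - z)
    have b3 := hE2 (q * Real.exp v)
    rw [Real.norm_eq_abs] at b2 b3
    change |deriv ρ (q * Real.exp v) * (q * Real.exp v)| ≤ E2 at b3
    have b4 : |ρ (q * Real.exp v)| ≤ 1 := by
      rw [abs_of_nonneg (hρ.nonneg _)]
      exact hρ.le_one _
    have b5 : |η (v - z) ^ 2| ≤ 1 := by
      rw [abs_of_nonneg (sq_nonneg _)]
      exact hη.sq_le_one _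
    calc |(2 * η (v - z) * deriv η (v - z)) * ρ (q * Real.exp v) +
          η (v - z) ^ 2 * (deriv ρ (q * Real.exp v) * (q * Real.exp v))|
        ≤ |(2 * η (v - z) * deriv η (v - z)) * ρ (q * Real.exp v)| +
          |η (v - z) ^ 2 * (deriv ρ (q * Real.exp v) * (q * Real.exp v))| := abs_add_le _ _
      _ = 2 * |η (v - z)| * |deriv η (v - z)| * |ρ (q * Real.exp v)| +
          |η (v - z) ^ 2| * |deriv ρ (q * Real.exp v) * (q * Real.exp v)| := by
          rw [abs_mul, abs_mul, abs_mul, abs_mul, abs_two]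
      _ ≤ 2 * 1 * E1 * 1 + 1 * E2 := by
          have := abs_nonneg (η (v - z))
          have := abs_nonneg (deriv η (v - z))
          have := abs_nonneg (ρ (q * Real.exp v))
          have := abs_nonneg (η (v - z) ^ 2)
          have hE0 : 0 ≤ E1 := (abs_nonneg _).trans b2
          gcongr
      _ = 2 * E1 + E2 := by ring

/-- Beyond `A T^{1-α} e^X` the weight and the profile have disjoint supports. -/
theorem wt_eq_zero {X κ : ℝ} {η ρ : ℝ → ℝ} (hη : Eta X η) (hρ : Rho κ ρ) (hκ : 0 < κ) {α T : ℝ}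
    (hT : 0 < T) {A B : ℕ} (hA : 0 < A) (hB : (A : ℝ) * T ^ (1 - α) * Real.exp |X| < B) (v : ℝ) :
    η (v - α * Real.log T) ^ 2 * wt ρ T A B (Real.exp v) = 0 := by
  by_cases hv : X < |v - α * Real.log T|
  · rw [hη.supp _ hv]
    simp
  · have hv2 : -|X| ≤ v - α * Real.log T := by
      have h1 := neg_abs_le (v - α * Real.log T)
      have h2 := le_abs_self X
      linarith [not_lt.1 hv]
    have hA0 : (0 : ℝ) < A := by exact_mod_cast hA
    have hw : wt ρ T A B (Real.exp v) = 0 := by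
      apply hρ.right
      have h3 : Real.exp (-|X|) * T ^ α ≤ Real.exp v := by
        rw [Real.rpow_def_of_pos hT, ← Real.exp_add]
        apply Real.exp_le_exp.2
        linarith [mul_comm (Real.log T) α]
      have h4 : (A : ℝ) * T ≤ Real.exp v * B := by
        calc (A : ℝ) * T = (Real.exp (-|X|) * T ^ α) * ((A : ℝ) * T ^ (1 - α) * Real.exp |X|) := by
              have e1 : Real.exp (-|X|) * Real.exp |X| = 1 := by
                rw [← Real.exp_add]
                simp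
              have e2 : T ^ α * T ^ (1 - α) = T := by
                rw [← Real.rpow_add hT]
                simp
              calc (A : ℝ) * T = A * (T ^ α * T ^ (1 - α)) * (Real.exp (-|X|) * Real.exp |X|) := by
                    rw [e1, e2, mul_one]
                _ = _ := by ring
          _ ≤ Real.exp v * B := by
              gcongr
      have h5 : 1 ≤ 2 * π * Real.exp v * B / (A * T) := by
        rw [le_div_iff₀ (by positivity), one_mul]
        have h6 : 0 ≤ Real.exp v * B := by positivity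
        have h7 : (1 : ℝ) ≤ 2 * π := by linarith [Real.pi_gt_three]
        calc (A : ℝ) * T ≤ 1 * (Real.exp v * B) := by linarith
          _ ≤ 2 * π * (Real.exp v * B) := mul_le_mul_of_nonneg_right h7 h6
          _ = _ := by ring
      linarith
    rw [hw, mul_zero]

/-- PNT for one fraction. -/
theorem pnt_one {X κ : ℝ} {η ρ : ℝ → ℝ} (hη : Eta X η) (hρ : Rho κ ρ) :
    ∃ C : ℝ, 0 ≤ C ∧ ∀ᶠ T : ℝ in atTop, ∀ α ∈ Icc (1 : ℝ) (3 / 2), ∀ A B : ℕ,
      |∑ n ∈ Finset.Icc 1 ⌊T ^ (2 : ℝ)⌋₊, Λ n * η (Real.log n - α * Real.log T) ^ 2 *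
        wt ρ T A B n - ∫ v : ℝ, Real.exp v * η (v - α * Real.log T) ^ 2 *
          wt ρ T A B (Real.exp v) ^ 1| ≤ C * (T ^ α / Real.log T ^ 2) := by
  obtain ⟨H, hH⟩ := deriv_bound hη hρ
  obtain ⟨C, hC0, hC⟩ := prime_sum 2
  set Y : ℝ := |X| + 1 with hY
  have hY1 : 1 ≤ Y := by linarith [abs_nonneg X]
  have hH0 : 0 ≤ H := by
    obtain ⟨h', _, _, h3⟩ := hH 0 0
    exact (abs_nonneg _).trans (h3 0)
  refine ⟨C * H * (2 * Y) * (4 * Real.exp Y), by positivity, ?_⟩
  filter_upwards [eventually_ge_atTop (1 : ℝ), Real.tendsto_log_atTop.eventually_ge_atTop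
    (4 * Y + 4)] with T hT1 hL α hα A B
  have hT0 : 0 < T := by linarith
  set L : ℝ := Real.log T with hLdef
  have hL0 : 0 < L := by linarith
  obtain ⟨h', hd, hc, hb⟩ := hH (α * L) (2 * π * B / (A * T))
  have hαL : L ≤ α * L := le_mul_of_one_le_left hL0.le hα.1
  have hαL2 : α * L ≤ 3 / 2 * L := mul_le_mul_of_nonneg_right hα.2 hL0.le
  have hv0 : ∀ v, v ≤ α * L - Y → η (v - α * L) ^ 2 *
      ρ (2 * π * B / (A * T) * Real.exp v) = 0 := by
    intro v hv
    rw [hη.supp (v - α * L)]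
    · simp
    · have h1 := neg_abs_le (v - α * L)
      have h2 := le_abs_self X
      linarith
  have hv1 : ∀ v, α * L + Y ≤ v → η (v - α * L) ^ 2 *
      ρ (2 * π * B / (A * T) * Real.exp v) = 0 := by
    intro v hv
    rw [hη.supp (v - α * L)]
    · simp
    · have h1 := le_abs_self (v - α * L)
      have h2 := le_abs_self X
      linarith
  have hM : Real.exp (α * L + Y) ≤ (⌊T ^ (2 : ℝ)⌋₊ : ℝ) := by
    have h1 : Real.exp (α * L + Y) + 1 ≤ T ^ (2 : ℝ) := by
      rw [Real.rpow_def_of_pos hT0, ← hLdef]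
      have h2 : Real.exp (α * L + Y) ≤ Real.exp (2 * L - 1) := Real.exp_le_exp.2 (by linarith)
      have h3 : (1 : ℝ) ≤ Real.exp (2 * L - 1) := Real.one_le_exp (by linarith)
      have h4 : Real.exp (L * 2) = Real.exp 1 * Real.exp (2 * L - 1) := by
        rw [← Real.exp_add]
        congr 1
        ring
      have h5 : (2 : ℝ) ≤ Real.exp 1 := by linarith [Real.add_one_le_exp (1 : ℝ)]
      have h6 := mul_le_mul_of_nonneg_right h5 (Real.exp_pos (2 * L - 1)).le
      linarith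
    have h7 := Nat.lt_floor_add_one (T ^ (2 : ℝ))
    linarith
  have key := hC _ h' (α * L - Y) (α * L + Y) H ⌊T ^ (2 : ℝ)⌋₊ (by linarith) (by linarith)
    hd hc hb hv0 hv1 hM
  have e1 : ∑ n ∈ Finset.Icc 1 ⌊T ^ (2 : ℝ)⌋₊, Λ n * η (Real.log n - α * L) ^ 2 *
      wt ρ T A B n = ∑ n ∈ Finset.Icc 1 ⌊T ^ (2 : ℝ)⌋₊, Λ n * (η (Real.log n - α * L) ^ 2 *
        ρ (2 * π * B / (A * T) * Real.exp (Real.log n))) := by
    apply Finset.sum_congr rfl
    intro n hn
    have hn0 : (0 : ℝ) < n := by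
      have := (Finset.mem_Icc.1 hn).1
      exact_mod_cast this
    rw [Real.exp_log hn0, wt, mul_assoc]
    congr 3
    ring
  have e2 : ∫ v : ℝ, Real.exp v * η (v - α * L) ^ 2 * wt ρ T A B (Real.exp v) ^ 1 =
      ∫ v, Real.exp v * (η (v - α * L) ^ 2 * ρ (2 * π * B / (A * T) * Real.exp v)) := by
    congr 1
    ext v
    rw [pow_one, wt, mul_assoc]
    congr 3
    ring
  rw [e1, e2]
  refine key.trans ?_
  have h8 : L / 2 ≤ α * L - Y := by linarith
  have h9 : Real.exp (α * L + Y) / (α * L - Y) ^ 2 ≤ 4 * Real.exp Y * (T ^ α / L ^ 2) := by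
    calc Real.exp (α * L + Y) / (α * L - Y) ^ 2 ≤ Real.exp (α * L + Y) / (L / 2) ^ 2 := by
          gcongr
      _ = 4 * Real.exp Y * (T ^ α / L ^ 2) := by
          rw [Real.exp_add, Real.rpow_def_of_pos hT0, ← hLdef, mul_comm L α]
          field_simp
          norm_num
  calc C * H * (α * L + Y - (α * L - Y)) * (Real.exp (α * L + Y) / (α * L - Y) ^ 2) =
      C * H * (2 * Y) * (Real.exp (α * L + Y) / (α * L - Y) ^ 2) := by ring
    _ ≤ C * H * (2 * Y) * (4 * Real.exp Y * (T ^ α / L ^ 2)) := by gcongr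
    _ = _ := by ring

/-- (helper61) PNT in the main term. -/
theorem pnt_main (X κ c : ℝ) (hκ : 0 < κ) (hc : 0 < c) {η ρ : ℝ → ℝ} (hη : Eta X η)
    (hρ : Rho κ ρ) :
    ∃ C : ℝ, ∀ᶠ T : ℝ in atTop, ∀ α ∈ Icc (1 : ℝ) (3 / 2 - 4 * c),
      |X0 η ρ c α T - JJ 1 η ρ c α T| ≤ C * T := by
  obtain ⟨C, hC0, hC⟩ := pnt_one hη hρ
  obtain ⟨K, hK0, hK⟩ := coef_A
  refine ⟨Real.exp |X| * C * K, ?_⟩
  filter_upwards [hC, eventually_ge_atTop (3 : ℝ)] with T hCT hT α hα
  have hT0 : 0 < T := by linarith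
  have hL0 : 0 < Real.log T := Real.log_pos (by linarith)
  set D : ℝ := C * (T ^ α / Real.log T ^ 2) with hD
  have hD0 : 0 ≤ D := by positivity
  -- one fraction
  have hone : ∀ A ∈ As c α T, ∀ B ∈ Bs T A,
      |∑ n ∈ Finset.Icc 1 ⌊T ^ (2 : ℝ)⌋₊, Λ n * η (Real.log n - α * Real.log T) ^ 2 *
        wt ρ T A B n - ∫ v : ℝ, Real.exp v * η (v - α * Real.log T) ^ 2 *
          wt ρ T A B (Real.exp v) ^ 1| ≤
      if (B : ℝ) ≤ (A : ℝ) * T ^ (1 - α) * Real.exp |X| then D else 0 := by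
    intro A hA B _
    have hA0 : 0 < A := by
      rw [As, Finset.mem_Ioc] at hA
      omega
    split_ifs with h
    · exact hCT α ⟨hα.1, by linarith [hα.2]⟩ A B
    · have hz := wt_eq_zero hη hρ hκ hT0 hA0 (not_le.1 h)
      have e1 : ∑ n ∈ Finset.Icc 1 ⌊T ^ (2 : ℝ)⌋₊, Λ n * η (Real.log n - α * Real.log T) ^ 2 *
          wt ρ T A B n = 0 := by
        apply Finset.sum_eq_zero
        intro n hn
        have hn0 : (0 : ℝ) < n := by
          have := (Finset.mem_Icc.1 hn).1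
          exact_mod_cast this
        have := hz (Real.log n)
        rw [Real.exp_log hn0] at this
        rw [mul_assoc, this, mul_zero]
      have e2 : ∫ v : ℝ, Real.exp v * η (v - α * Real.log T) ^ 2 *
          wt ρ T A B (Real.exp v) ^ 1 = 0 := by
        have : (fun v : ℝ => Real.exp v * η (v - α * Real.log T) ^ 2 *
            wt ρ T A B (Real.exp v) ^ 1) = fun _ => 0 := by
          ext v
          rw [pow_one, mul_assoc, hz v, mul_zero]
        rw [this]
        simp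
      rw [e1, e2]
      simp
  -- the numerators
  have hsumB : ∀ A ∈ As c α T, ∑ B ∈ Bs T A,
      (if (B : ℝ) ≤ (A : ℝ) * T ^ (1 - α) * Real.exp |X| then D else 0) ≤
      (A : ℝ) * T ^ (1 - α) * Real.exp |X| * D := by
    intro A _
    rw [← Finset.sum_filter, Finset.sum_const, nsmul_eq_mul]
    apply mul_le_mul_of_nonneg_right _ hD0
    set Z : ℝ := (A : ℝ) * T ^ (1 - α) * Real.exp |X| with hZ
    have hZ0 : 0 ≤ Z := by positivity
    have h1 : (Bs T A).filter (fun B : ℕ => (B : ℝ) ≤ Z) ⊆ Finset.Icc 1 ⌊Z⌋₊ := by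
      intro B hB
      rw [Finset.mem_filter, Bs, Finset.mem_filter, Finset.mem_Icc] at hB
      rw [Finset.mem_Icc]
      exact ⟨hB.1.1.1, Nat.le_floor hB.2⟩
    have h2 := Finset.card_le_card h1
    rw [Nat.card_Icc, Nat.add_sub_cancel] at h2
    calc (((Bs T A).filter (fun B : ℕ => (B : ℝ) ≤ Z)).card : ℝ) ≤ (⌊Z⌋₊ : ℝ) := by
          exact_mod_cast h2
      _ ≤ Z := Nat.floor_le hZ0
  have e3 : X0 η ρ c α T - JJ 1 η ρ c α T = ∑ A ∈ As c α T, ∑ B ∈ Bs T A,
      (μ A : ℝ) ^ 2 / (Nat.totient A : ℝ) ^ 2 *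
      (∑ n ∈ Finset.Icc 1 ⌊T ^ (2 : ℝ)⌋₊, Λ n * η (Real.log n - α * Real.log T) ^ 2 *
        wt ρ T A B n - ∫ v : ℝ, Real.exp v * η (v - α * Real.log T) ^ 2 *
          wt ρ T A B (Real.exp v) ^ 1) := by
    rw [X0, JJ, ← Finset.sum_sub_distrib]
    apply Finset.sum_congr rfl
    intro A _
    rw [← Finset.sum_sub_distrib]
    apply Finset.sum_congr rfl
    intro B _
    ring
  rw [e3]
  calc |∑ A ∈ As c α T, ∑ B ∈ Bs T A, (μ A : ℝ) ^ 2 / (Nat.totient A : ℝ) ^ 2 *
        (∑ n ∈ Finset.Icc 1 ⌊T ^ (2 : ℝ)⌋₊, Λ n * η (Real.log n - α * Real.log T) ^ 2 *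
        wt ρ T A B n - ∫ v : ℝ, Real.exp v * η (v - α * Real.log T) ^ 2 *
          wt ρ T A B (Real.exp v) ^ 1)|
      ≤ ∑ A ∈ As c α T, ∑ B ∈ Bs T A, (μ A : ℝ) ^ 2 / (Nat.totient A : ℝ) ^ 2 *
        (if (B : ℝ) ≤ (A : ℝ) * T ^ (1 - α) * Real.exp |X| then D else 0) := by
        refine (Finset.abs_sum_le_sum_abs _ _).trans (Finset.sum_le_sum fun A hA => ?_)
        refine (Finset.abs_sum_le_sum_abs _ _).trans (Finset.sum_le_sum fun B hB => ?_)
        rw [abs_mul, abs_of_nonneg (by positivity :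
          (0 : ℝ) ≤ (μ A : ℝ) ^ 2 / (Nat.totient A : ℝ) ^ 2)]
        exact mul_le_mul_of_nonneg_left (hone A hA B hB) (by positivity)
    _ ≤ ∑ A ∈ As c α T, (μ A : ℝ) ^ 2 / (Nat.totient A : ℝ) ^ 2 *
        ((A : ℝ) * T ^ (1 - α) * Real.exp |X| * D) := by
        apply Finset.sum_le_sum
        intro A hA
        rw [← Finset.mul_sum]
        exact mul_le_mul_of_nonneg_left (hsumB A hA) (by positivity)
    _ = (T ^ (1 - α) * Real.exp |X| * D) *
        ∑ A ∈ As c α T, (μ A : ℝ) ^ 2 / (Nat.totient A : ℝ) ^ 2 * A := by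
        rw [Finset.mul_sum]
        apply Finset.sum_congr rfl
        intro A _
        ring
    _ ≤ (T ^ (1 - α) * Real.exp |X| * D) * (K * Real.log T ^ 2) :=
        mul_le_mul_of_nonneg_left (hK c α T hc hT) (by positivity)
    _ = Real.exp |X| * C * K * T := by
        have e2 : T ^ (1 - α) * T ^ α = T := by
          rw [← Real.rpow_add hT0]
          simp
        rw [hD]
        have hne : Real.log T ^ 2 ≠ 0 := by positivity
        calc T ^ (1 - α) * Real.exp |X| * (C * (T ^ α / Real.log T ^ 2)) *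
              (K * Real.log T ^ 2) = (T ^ (1 - α) * T ^ α) * (Real.exp |X| * C * K) *
              (Real.log T ^ 2 / Real.log T ^ 2) := by ring
          _ = _ := by rw [e2, div_self hne]; ring

end Pool.Agent.MP_67227b_nt.Gg
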