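import Mathlib
import Pool.Agent.MP_67227b_nt.Gg.GgDefs

set_option autoImplicit false

open Filter Topology Set MeasureTheory Complex
open scoped Real ContDiff ArithmeticFunction ArithmeticFunction.Moebius

namespace Pool.Agent.MP_67227b_nt.Gg

/-- The choice of the cutoff `ρ`. -/
theorem exists_rho {ε : ℝ} (hε : 0 < ε) : ∃ κ : ℝ, ∃ ρ : ℝ → ℝ, 0 < κ ∧ κ < 1 ∧ Rho κ ρ ∧
    1 - ε ≤ ∫ s, ρ s := by
  set κ : ℝ := min (1 / 10) (ε / 5) with hκdef
  have hκ : 0 < κ := by positivity
  have hκ1 : κ ≤ 1 / 10 := min_le_left _ _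
  have hκ2 : κ ≤ ε / 5 := min_le_right _ _
  set ρ : ℝ → ℝ := fun s => Real.smoothTransition ((s - 2 * κ) / κ) *
    Real.smoothTransition ((1 - κ - s) / κ) with hρdef
  have hsm : ContDiff ℝ ∞ ρ := by
    apply ContDiff.mul
    · exact Real.smoothTransition.contDiff.comp (by fun_prop)
    · exact Real.smoothTransition.contDiff.comp (by fun_prop)
  have hleft : ∀ s, s ≤ 2 * κ → ρ s = 0 := by
    intro s hs
    have : (s - 2 * κ) / κ ≤ 0 := div_nonpos_of_nonpos_of_nonneg (by linarith) hκ.le
    simp only [hρdef, Real.smoothTransition.zero_of_nonpos this, zero_mul]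
  have hright : ∀ s, 1 - κ ≤ s → ρ s = 0 := by
    intro s hs
    have : (1 - κ - s) / κ ≤ 0 := div_nonpos_of_nonpos_of_nonneg (by linarith) hκ.le
    simp only [hρdef, Real.smoothTransition.zero_of_nonpos this, mul_zero]
  have hnn : ∀ s, 0 ≤ ρ s := fun s =>
    mul_nonneg (Real.smoothTransition.nonneg _) (Real.smoothTransition.nonneg _)
  have hle : ∀ s, ρ s ≤ 1 := fun s =>
    mul_le_one₀ (Real.smoothTransition.le_one _) (Real.smoothTransition.nonneg _)
      (Real.smoothTransition.le_one _)
  refine ⟨κ, ρ, hκ, by linarith, ⟨hsm, hleft, hright, hnn, hle⟩, ?_⟩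
  have hcs : HasCompactSupport ρ := by
    apply HasCompactSupport.intro (K := Icc (2 * κ) (1 - κ)) isCompact_Icc
    intro s hs
    rw [mem_Icc, not_and_or, not_le, not_le] at hs
    rcases hs with h | h
    · exact hleft s h.le
    · exact hright s h.le
  have hint : Integrable ρ := hsm.continuous.integrable_of_hasCompactSupport hcs
  have h1 : ∫ s in Icc (3 * κ) (1 - 2 * κ), ρ s ≤ ∫ s, ρ s :=
    setIntegral_le_integral hint (Eventually.of_forall hnn)
  have h2 : ∫ s in Icc (3 * κ) (1 - 2 * κ), ρ s = 1 - 5 * κ := by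
    have h3 : ∫ s in Icc (3 * κ) (1 - 2 * κ), ρ s = ∫ s in Icc (3 * κ) (1 - 2 * κ), (1 : ℝ) := by
      apply setIntegral_congr_fun measurableSet_Icc
      intro s hs
      have a1 : 1 ≤ (s - 2 * κ) / κ := by
        rw [le_div_iff₀ hκ]
        linarith [hs.1]
      have a2 : 1 ≤ (1 - κ - s) / κ := by
        rw [le_div_iff₀ hκ]
        linarith [hs.2]
      simp only [hρdef, Real.smoothTransition.one_of_one_le a1,
        Real.smoothTransition.one_of_one_le a2, mul_one]
    rw [h3, setIntegral_const, smul_eq_mul, mul_one, Measure.real, Real.volume_Icc,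
      ENNReal.toReal_ofReal (by linarith)]
    ring
  rw [h2] at h1
  linarith

/-- The choice of the profile `η`. -/
theorem exists_eta {ε : ℝ} (hε : 0 < ε) : ∃ X : ℝ, ∃ η : ℝ → ℝ, 0 < X ∧ Eta X η ∧
    1 - ε ≤ ∫ v, η v ^ 2 := by
  set δ : ℝ := ε / 4 with hδdef
  have hδ : 0 < δ := by positivity
  set R : ℝ := 1 / ε with hRdef
  have hR : 0 < R := by positivity
  set η : ℝ → ℝ := fun v => Real.smoothTransition (R + 1 - v) *
    Real.smoothTransition (R + 1 + v) * Real.exp (-Real.sqrt (v ^ 2 + δ ^ 2)) with hηdef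
  have hsq : ∀ v : ℝ, |v| ≤ Real.sqrt (v ^ 2 + δ ^ 2) := by
    intro v
    apply Real.le_sqrt_of_sq_le
    rw [sq_abs]
    nlinarith [sq_nonneg δ]
  have hsq2 : ∀ v : ℝ, Real.sqrt (v ^ 2 + δ ^ 2) ≤ |v| + δ := by
    intro v
    rw [Real.sqrt_le_left (by positivity)]
    nlinarith [sq_abs v, abs_nonneg v, mul_nonneg (abs_nonneg v) hδ.le]
  have hsm : ContDiff ℝ ∞ η := by
    apply ContDiff.mul
    · apply ContDiff.mul
      · exact Real.smoothTransition.contDiff.comp (by fun_prop)
      · exact Real.smoothTransition.contDiff.comp (by fun_prop)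
    · apply ContDiff.exp
      apply ContDiff.neg
      apply ContDiff.sqrt (by fun_prop)
      intro v
      positivity
  have hsupp : ∀ v, R + 1 < |v| → η v = 0 := by
    intro v hv
    rcases lt_abs.1 hv with h | h
    · have : R + 1 - v ≤ 0 := by linarith
      simp only [hηdef, Real.smoothTransition.zero_of_nonpos this, zero_mul]
    · have : R + 1 + v ≤ 0 := by linarith
      simp only [hηdef, Real.smoothTransition.zero_of_nonpos this, mul_zero, zero_mul]
  have hst0 : ∀ v, 0 ≤ Real.smoothTransition (R + 1 - v) * Real.smoothTransition (R + 1 + v) :=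
    fun v => mul_nonneg (Real.smoothTransition.nonneg _) (Real.smoothTransition.nonneg _)
  have hst1 : ∀ v, Real.smoothTransition (R + 1 - v) * Real.smoothTransition (R + 1 + v) ≤ 1 :=
    fun v => mul_le_one₀ (Real.smoothTransition.le_one _) (Real.smoothTransition.nonneg _)
      (Real.smoothTransition.le_one _)
  have hη0 : ∀ v, 0 ≤ η v := fun v => mul_nonneg (hst0 v) (Real.exp_pos _).le
  have hsqle : ∀ v, η v ^ 2 ≤ Real.exp (-(2 * |v|)) := by
    intro v
    have h1 : η v ≤ Real.exp (-|v|) := by
      calc η v ≤ 1 * Real.exp (-Real.sqrt (v ^ 2 + δ ^ 2)) :=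
            mul_le_mul_of_nonneg_right (hst1 v) (Real.exp_pos _).le
        _ ≤ Real.exp (-|v|) := by
            rw [one_mul]
            exact Real.exp_le_exp.2 (by linarith [hsq v])
    calc η v ^ 2 ≤ Real.exp (-|v|) ^ 2 := pow_le_pow_left₀ (hη0 v) h1 2
      _ = Real.exp (-(2 * |v|)) := by
          rw [← Real.exp_nat_mul]
          congr 1
          push_cast
          ring
  refine ⟨R + 1, η, by positivity, ⟨hsm, hsupp, hsqle⟩, ?_⟩
  have hcs : HasCompactSupport fun v => η v ^ 2 := by
    apply HasCompactSupport.intro (K := Icc (-(R + 1)) (R + 1)) isCompact_Icc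
    intro v hv
    have : R + 1 < |v| := by
      rw [mem_Icc, ← abs_le, not_le] at hv
      exact hv
    simp only [hsupp v this, ne_eq, OfNat.ofNat_ne_zero, not_false_eq_true, zero_pow]
  have hint : Integrable fun v => η v ^ 2 :=
    (hsm.continuous.pow 2).integrable_of_hasCompactSupport hcs
  have h1 : ∫ v in Icc (-R) R, η v ^ 2 ≤ ∫ v, η v ^ 2 :=
    setIntegral_le_integral hint (Eventually.of_forall fun v => sq_nonneg _)
  have hlow : ∀ v ∈ Icc (-R) R, Real.exp (-(2 * δ)) * Real.exp (-(2 * |v|)) ≤ η v ^ 2 := by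
    intro v hv
    have e1 : η v = Real.exp (-Real.sqrt (v ^ 2 + δ ^ 2)) := by
      have a1 : 1 ≤ R + 1 - v := by linarith [hv.2]
      have a2 : 1 ≤ R + 1 + v := by linarith [hv.1]
      simp only [hηdef, Real.smoothTransition.one_of_one_le a1,
        Real.smoothTransition.one_of_one_le a2, one_mul]
    rw [e1, ← Real.exp_nat_mul, ← Real.exp_add]
    apply Real.exp_le_exp.2
    have := hsq2 v
    push_cast
    linarith
  have hI : ∫ v in Icc (-R) R, Real.exp (-(2 * |v|)) = 1 - Real.exp (-(2 * R)) := by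
    rw [integral_Icc_eq_integral_Ioc, ← intervalIntegral.integral_of_le (by linarith)]
    have hc : Continuous fun v : ℝ => Real.exp (-(2 * |v|)) := by fun_prop
    rw [← intervalIntegral.integral_add_adjacent_intervals (b := 0)
      (hc.intervalIntegrable _ _) (hc.intervalIntegrable _ _)]
    have i1 : ∫ v in (-R)..0, Real.exp (-(2 * |v|)) = (1 - Real.exp (-(2 * R))) / 2 := by
      have : ∫ v in (-R)..0, Real.exp (-(2 * |v|)) = ∫ v in (-R)..0, Real.exp (2 * v) := by
        apply intervalIntegral.integral_congr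
        intro v hv
        rw [uIcc_of_le (by linarith)] at hv
        simp only
        rw [abs_of_nonpos hv.2]
        congr 1
        ring
      rw [this, intervalIntegral.integral_eq_sub_of_hasDerivAt (f := fun v => Real.exp (2 * v) / 2)
        (f' := fun v => Real.exp (2 * v))]
      · simp only [mul_zero, Real.exp_zero]
        have : (2 : ℝ) * -R = -(2 * R) := by ring
        rw [this]
        ring
      · intro v _
        have := ((hasDerivAt_id v).const_mul (2 : ℝ)).exp.div_const 2
        simpa using this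
      · exact (by fun_prop : Continuous fun v : ℝ => Real.exp (2 * v)).intervalIntegrable _ _
    have i2 : ∫ v in (0 : ℝ)..R, Real.exp (-(2 * |v|)) = (1 - Real.exp (-(2 * R))) / 2 := by
      have : ∫ v in (0 : ℝ)..R, Real.exp (-(2 * |v|)) = ∫ v in (0 : ℝ)..R, Real.exp (-2 * v) := by
        apply intervalIntegral.integral_congr
        intro v hv
        rw [uIcc_of_le (by linarith)] at hv
        simp only
        rw [abs_of_nonneg hv.1]
        congr 1
        ring
      rw [this, intervalIntegral.integral_eq_sub_of_hasDerivAt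
        (f := fun v => Real.exp (-2 * v) / (-2)) (f' := fun v => Real.exp (-2 * v))]
      · simp only [mul_zero, Real.exp_zero]
        have : (-2 : ℝ) * R = -(2 * R) := by ring
        rw [this]
        ring
      · intro v _
        have := ((hasDerivAt_id v).const_mul (-2 : ℝ)).exp.div_const (-2)
        simpa using this
      · exact (by fun_prop : Continuous fun v : ℝ => Real.exp (-2 * v)).intervalIntegrable _ _
    rw [i1, i2]
    ring
  have h2 : Real.exp (-(2 * δ)) * (1 - Real.exp (-(2 * R))) ≤ ∫ v in Icc (-R) R, η v ^ 2 := by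
    rw [← hI, ← integral_const_mul]
    apply setIntegral_mono_on _ hint.integrableOn measurableSet_Icc hlow
    apply Continuous.integrableOn_Icc
    fun_prop
  have h3 : 1 - ε / 2 ≤ Real.exp (-(2 * δ)) := by
    have := Real.add_one_le_exp (-(2 * δ))
    have e : 2 * δ = ε / 2 := by rw [hδdef]; ring
    linarith
  have h4 : Real.exp (-(2 * R)) ≤ ε / 2 := by
    rw [Real.exp_neg, inv_le_comm₀ (Real.exp_pos _) (by positivity)]
    have := Real.add_one_le_exp (2 * R)
    have e : (ε / 2)⁻¹ = 2 * R := by rw [hRdef]; field_simp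
    linarith
  have h5 : Real.exp (-(2 * δ)) ≤ 1 := Real.exp_le_one_iff.2 (by linarith)
  have h6 : 0 < Real.exp (-(2 * R)) := Real.exp_pos _
  have h7 : 0 ≤ (1 - Real.exp (-(2 * δ))) * Real.exp (-(2 * R)) :=
    mul_nonneg (by linarith) h6.le
  linarith [h1, h2]

end Pool.Agent.MP_67227b_nt.Gg
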