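import Mathlib
import Pool.Agent.MP_67227b_nt.Fb.FbPos
import Pool.Agent.MP_67227b_nt.Gg.GgMainT
import Pool.Agent.MP_67227b_nt.Gg.GgPnt
import Pool.Agent.MP_67227b_nt.Gg.GgProf

set_option autoImplicit false

open Filter Topology Set MeasureTheory Complex
open scoped Real ContDiff ArithmeticFunction ArithmeticFunction.Moebius

namespace Pool.Agent.MP_67227b_nt.Gg

open Pool.Agent.MP_67227b_nt.Fb

/-- `∫ e^v η² ρ(·)² ≤ ∫ e^v η² ρ(·)`, summed. -/
theorem JJ_le {X κ : ℝ} {η ρ : ℝ → ℝ} (hη : Eta X η) (hρ : Rho κ ρ) (c α T : ℝ) :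
    JJ 2 η ρ c α T ≤ JJ 1 η ρ c α T := by
  rw [JJ, JJ]
  apply Finset.sum_le_sum
  intro A _
  apply Finset.sum_le_sum
  intro B _
  apply mul_le_mul_of_nonneg_left _ (by positivity)
  have hηc : Continuous η := hη.smooth.continuous
  have hρc : Continuous ρ := hρ.smooth.continuous
  set L := Real.log T with hL
  have hcs1 : HasCompactSupport fun v => η (v - α * L) ^ 2 := by
    apply HasCompactSupport.intro (K := Icc (α * L - X) (α * L + X)) isCompact_Icc
    intro v hv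
    have h1 : X < |v - α * L| := by
      rw [mem_Icc, not_and_or, not_le, not_le] at hv
      rcases hv with h | h
      · have := neg_abs_le (v - α * L)
        linarith
      · have := le_abs_self (v - α * L)
        linarith
    rw [hη.supp _ h1]
    ring
  have hw : Continuous fun v => wt ρ T A B (Real.exp v) := by
    simp only [wt]
    exact hρc.comp (by fun_prop)
  have hw0 : ∀ v, 0 ≤ wt ρ T A B (Real.exp v) := fun v => hρ.nonneg _
  have hw1 : ∀ v, wt ρ T A B (Real.exp v) ≤ 1 := fun v => hρ.le_one _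
  apply integral_mono_of_nonneg
  · exact Eventually.of_forall fun v => by
      have := hw0 v
      positivity
  · exact (by fun_prop : Continuous fun v => Real.exp v * η (v - α * L) ^ 2 *
      wt ρ T A B (Real.exp v) ^ 1).integrable_of_hasCompactSupport
      ((hcs1.mul_left (f := fun v => Real.exp v)).mul_right
        (f' := fun v => wt ρ T A B (Real.exp v) ^ 1))
  · exact Eventually.of_forall fun v => by
      have h0 := hw0 v
      have h1 := hw1 v
      simp only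
      apply mul_le_mul_of_nonneg_left _ (by positivity)
      rw [pow_one, sq]
      exact mul_le_of_le_one_left h0 h1

/-- The assembly, from the bridge, the lower bound for `∫ |P|²` and the arithmetic error. -/
theorem final_of
    (hbridge : ∀ (X κ ε : ℝ) (η : ℝ → ℝ), Eta X η → 0 < κ → κ < 1 → 0 < ε → ∀ᶠ T : ℝ in atTop,
      ∀ α ∈ Icc (1 : ℝ) (3 / 2), (1 - ε) * ((1 / (T * Real.log T)) *
        ∫ t in (κ * T)..(T - T ^ (3 / 4 : ℝ)), ‖PP η α T t‖ ^ 2) - ε ≤ montF T α)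
    (hlow : ∀ (X κ c : ℝ) (η ρ : ℝ → ℝ), 0 < κ → κ < 1 → 0 < c → Eta X η → Rho κ ρ → ∃ C : ℝ,
      ∀ᶠ T : ℝ in atTop, ∀ α ∈ Icc (1 : ℝ) (3 / 2 - 4 * c),
        2 * (2 * π * (XX η ρ c α T).re) - 2 * π * JJ 2 η ρ c α T - C * T ≤
          ∫ t in (κ * T)..(T - T ^ (3 / 4 : ℝ)), ‖PP η α T t‖ ^ 2)
    (herr : ∀ (X κ c : ℝ) (η ρ : ℝ → ℝ), 0 < κ → 0 < c → Eta X η → Rho κ ρ → ∃ C : ℝ,
      ∀ᶠ T : ℝ in atTop, ∀ α ∈ Icc (1 : ℝ) (3 / 2 - 4 * c),
        ‖XX η ρ c α T - (X0 η ρ c α T : ℂ)‖ ≤ C * T)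
    {ε : ℝ} (hε : 0 < ε) :
    ∀ᶠ T : ℝ in atTop, ∀ α : ℝ, 1 ≤ α → 3 / 2 - α - ε ≤ montF T α := by
  obtain ⟨δ, hδ0, hδ1, hδ2⟩ : ∃ δ : ℝ, 0 < δ ∧ δ ≤ 1 / 8 ∧ 8 * δ ≤ ε := by
    refine ⟨min ε 1 / 8, by positivity, ?_, ?_⟩
    · have := min_le_right ε 1
      linarith
    · have := min_le_left ε 1
      linarith
  obtain ⟨X, η, hX, hη, hηI⟩ := exists_eta hδ0
  obtain ⟨κ, ρ, hκ, hκ1, hρ, hρI⟩ := exists_rho hδ0
  obtain ⟨C1, h1⟩ := hlow X κ δ η ρ hκ hκ1 hδ0 hη hρ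
  obtain ⟨C2, h2⟩ := herr X κ δ η ρ hκ hδ0 hη hρ
  obtain ⟨C3, h3⟩ := pnt_main X κ δ hκ hδ0 hη hρ
  obtain ⟨C4, h4⟩ := main_lower X κ δ δ hκ hδ0 hδ0 hη hρ
  have h5 := hbridge X κ δ η hη hκ hκ1 hδ0
  set K : ℝ := |C1 + 4 * π * (C2 + C3) + C4| with hK
  have hlog : ∀ᶠ T : ℝ in atTop, K / δ ≤ Real.log T :=
    Real.tendsto_log_atTop.eventually_ge_atTop _
  filter_upwards [h1, h2, h3, h4, h5, hlog, eventually_gt_atTop (3 : ℝ)] with T g1 g2 g3 g4 g5 g6
    hT3 α hα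
  have hT0 : 0 < T := by linarith
  have hL0 : 0 < Real.log T := Real.log_pos (by linarith)
  by_cases hα2 : α ≤ 3 / 2 - 4 * δ
  · have hmem : α ∈ Icc (1 : ℝ) (3 / 2 - 4 * δ) := ⟨hα, hα2⟩
    have k1 := g1 α hmem
    have k2 := g2 α hmem
    have k3 := g3 α hmem
    have k4 := g4 α hmem
    have k5 := g5 α ⟨hα, by linarith⟩
    set P : ℝ := ∫ t in (κ * T)..(T - T ^ (3 / 4 : ℝ)), ‖PP η α T t‖ ^ 2 with hP
    set L : ℝ := Real.log T with hL
    set IR : ℝ := ∫ s, ρ s with hIR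
    set IE : ℝ := ∫ v, η v ^ 2 with hIE
    have k6 : X0 η ρ δ α T - C2 * T ≤ (XX η ρ δ α T).re := by
      have e1 : (XX η ρ δ α T).re = X0 η ρ δ α T +
          (XX η ρ δ α T - (X0 η ρ δ α T : ℂ)).re := by
        rw [Complex.sub_re, Complex.ofReal_re]
        ring
      have e2 := (abs_le.1 (Complex.abs_re_le_norm (XX η ρ δ α T - (X0 η ρ δ α T : ℂ)))).1
      linarith
    have k7 := (abs_le.1 k3).1
    have k8 := JJ_le hη hρ δ α T
    have k9 : 2 * π * JJ 1 η ρ δ α T - (C1 + 4 * π * (C2 + C3)) * T ≤ P := by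
      refine le_trans ?_ k1
      have e3 : JJ 1 η ρ δ α T - (C2 + C3) * T ≤ (XX η ρ δ α T).re := by linarith
      have e4 := mul_le_mul_of_nonneg_left e3 (by positivity : (0 : ℝ) ≤ 4 * π)
      have e5 := mul_le_mul_of_nonneg_left k8 (by positivity : (0 : ℝ) ≤ 2 * π)
      linarith
    have k10 : (3 / 2 - α - 2 * δ - δ) * T * L * IR * IE - K * T ≤ P := by
      have e6 : (C1 + 4 * π * (C2 + C3) + C4) * T ≤ K * T :=
        mul_le_mul_of_nonneg_right (le_abs_self _) hT0.le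
      linarith
    have hs0 : 0 ≤ 3 / 2 - α - 2 * δ - δ := by linarith
    have k11 : (3 / 2 - α - 2 * δ - δ) * (1 - 2 * δ) ≤ (3 / 2 - α - 2 * δ - δ) * IR * IE := by
      rw [mul_assoc]
      apply mul_le_mul_of_nonneg_left _ hs0
      have e7 : (1 - δ) * (1 - δ) ≤ IR * IE :=
        mul_le_mul hρI hηI (by linarith) ((by linarith : (0 : ℝ) ≤ 1 - δ).trans hρI)
      have e8 : 0 ≤ δ * δ := by positivity
      linarith
    have k12 : (3 / 2 - α - 2 * δ - δ) * (1 - 2 * δ) - δ ≤ (1 / (T * L)) * P := by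
      have hTL : 0 < T * L := by positivity
      rw [one_div, ← div_eq_inv_mul, le_div_iff₀ hTL]
      have e9 : K ≤ δ * L := by
        rw [div_le_iff₀ hδ0] at g6
        linarith
      have e10 := mul_le_mul_of_nonneg_right e9 hT0.le
      have e11 := mul_le_mul_of_nonneg_right k11 hTL.le
      have e12 : (3 / 2 - α - 2 * δ - δ) * T * L * IR * IE =
          (3 / 2 - α - 2 * δ - δ) * IR * IE * (T * L) := by ring
      rw [e12] at k10
      have e13 : ((3 / 2 - α - 2 * δ - δ) * (1 - 2 * δ) - δ) * (T * L) =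
          (3 / 2 - α - 2 * δ - δ) * (1 - 2 * δ) * (T * L) - δ * L * T := by ring
      rw [e13]
      linarith
    have k13 := mul_le_mul_of_nonneg_left k12 (by linarith : (0 : ℝ) ≤ 1 - δ)
    refine le_trans ?_ k5
    refine le_trans ?_ (sub_le_sub_right k13 δ)
    set s : ℝ := 3 / 2 - α - 2 * δ - δ with hs
    have hs1 : s ≤ 1 / 2 := by linarith
    have e14 : s - 3 * δ * s - δ ≤ (1 - δ) * (s * (1 - 2 * δ) - δ) := by
      have e15 : (1 - δ) * (s * (1 - 2 * δ) - δ) = s - 3 * δ * s - δ + (2 * δ * δ * s + δ * δ) := by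
        ring
      rw [e15]
      have : 0 ≤ 2 * δ * δ * s + δ * δ := by positivity
      linarith
    have e16 : 3 * δ * s ≤ 3 * δ * (1 / 2) := mul_le_mul_of_nonneg_left hs1 (by positivity)
    linarith
  · have := montF_nonneg (by linarith : (1 : ℝ) < T) α
    linarith [not_le.1 hα2]

end Pool.Agent.MP_67227b_nt.Gg
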