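import Mathlib
import Pool.Agent.MP_67227b_nt.Gg.GgVf
import Pool.Agent.MP_67227b_nt.Mo.Four

set_option autoImplicit false

open Filter Topology Set MeasureTheory Complex
open scoped Real ContDiff ArithmeticFunction ArithmeticFunction.Moebius

namespace Pool.Agent.MP_67227b_nt.Gg

open Pool.Agent.MP_67227b_nt.Mo

private theorem pl_nonneg {X α T : ℝ} (hX : 0 ≤ X) (hT : 1 ≤ T) (hα : 0 ≤ α) :
    0 ≤ X + α * Real.log T :=
  add_nonneg hX (mul_nonneg hα (Real.log_nonneg hT))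

private theorem pl_ne : (-(1 / (2 * π)) : ℝ) ≠ 0 := by
  have := Real.pi_pos
  have : 0 < 1 / (2 * π) := by positivity
  linarith

private theorem pl_VV (η ρ : ℝ → ℝ) (c α T t : ℝ) :
    VV η ρ c α T t = gs (fV η ρ c α T) (((-(1 / (2 * π)) * t : ℝ)) : ℂ) := by
  rw [VV_eq_gs]
  congr 2
  ring

/-- Module PL (a). Continuity of `V`. -/
theorem continuous_VV {X κ : ℝ} (hX : 0 ≤ X) {η ρ : ℝ → ℝ} (hη : Eta X η) (hρ : Rho κ ρ) (c : ℝ)
    {α T : ℝ} (hT : 1 ≤ T) (hα : 0 ≤ α) : Continuous (VV η ρ c α T) := by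
  have h := continuous_gs (pl_nonneg hX hT hα) (bump_fV hη hρ c hT hα)
  have e : VV η ρ c α T = fun t => gs (fV η ρ c α T) (((-(1 / (2 * π)) * t : ℝ)) : ℂ) :=
    funext fun t => pl_VV η ρ c α T t
  rw [e]
  exact h.comp (continuous_ofReal.comp (by fun_prop))

theorem integrable_VV {X κ : ℝ} (hX : 0 ≤ X) {η ρ : ℝ → ℝ} (hη : Eta X η) (hρ : Rho κ ρ) (c : ℝ)
    {α T : ℝ} (hT : 1 ≤ T) (hα : 0 ≤ α) : Integrable (VV η ρ c α T) := by
  have h := integrable_gs (pl_nonneg hX hT hα) (bump_fV hη hρ c hT hα) 0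
  simp only [ofReal_zero, zero_mul, add_zero] at h
  have h2 := h.comp_mul_left' pl_ne
  refine h2.congr (Eventually.of_forall fun t => ?_)
  exact (pl_VV η ρ c α T t).symm

private theorem pl_bdd {X κ : ℝ} (hX : 0 ≤ X) {η ρ : ℝ → ℝ} (hη : Eta X η) (hρ : Rho κ ρ) (c : ℝ)
    {α T : ℝ} (hT : 1 ≤ T) (hα : 0 ≤ α) : ∃ C : ℝ, ∀ t, ‖VV η ρ c α T t‖ ≤ C := by
  obtain ⟨C, hC, h⟩ := gs_real_bound (pl_nonneg hX hT hα) (bump_fV hη hρ c hT hα) 0
  refine ⟨C, fun t => ?_⟩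
  rw [pl_VV]
  have := h (-(1 / (2 * π)) * t)
  simpa using this

theorem integrable_VV_sq {X κ : ℝ} (hX : 0 ≤ X) {η ρ : ℝ → ℝ} (hη : Eta X η) (hρ : Rho κ ρ)
    (c : ℝ) {α T : ℝ} (hT : 1 ≤ T) (hα : 0 ≤ α) : Integrable fun t => ‖VV η ρ c α T t‖ ^ 2 := by
  obtain ⟨C, hC⟩ := pl_bdd hX hη hρ c hT hα
  refine ((integrable_VV hX hη hρ c hT hα).norm.const_mul C).mono' ?_ ?_
  · exact ((continuous_VV hX hη hρ c hT hα).norm.pow 2).aestronglyMeasurable
  · refine Eventually.of_forall fun t => ?_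
    rw [Real.norm_of_nonneg (by positivity), sq]
    exact mul_le_mul_of_nonneg_right (hC t) (norm_nonneg _)

private theorem pl_conj (f : ℝ → ℂ) (x : ℝ) :
    gs (fun v => (starRingEnd ℂ) (f (-v))) (x : ℂ) = (starRingEnd ℂ) (gs f (x : ℂ)) := by
  unfold gs
  rw [← integral_conj, ← integral_neg_eq_self]
  refine integral_congr_ae (Eventually.of_forall fun v => ?_)
  simp only [neg_neg, map_mul]
  congr 1
  rw [← Complex.exp_conj]
  congr 1
  simp only [map_mul, Complex.conj_ofReal, Complex.conj_I, map_ofNat, Complex.ofReal_neg]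
  ring

/-- Module PL (b). Plancherel. -/
theorem plancherel_VV {X κ : ℝ} (hX : 0 ≤ X) {η ρ : ℝ → ℝ} (hη : Eta X η) (hρ : Rho κ ρ) (c : ℝ)
    {α T : ℝ} (hT : 1 ≤ T) (hα : 0 ≤ α) :
    ∫ t : ℝ, ‖VV η ρ c α T t‖ ^ 2 = 2 * π * ∫ v : ℝ, ‖fV η ρ c α T v‖ ^ 2 := by
  have hδ := pl_nonneg hX hT hα
  have hb := bump_fV hη hρ c hT hα
  set f := fV η ρ c α T with hf
  have hb2 : Bump (X + α * Real.log T) (fun v => (starRingEnd ℂ) (f (-v))) := by
    refine ⟨?_, fun v hv => ?_⟩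
    · exact (Complex.conjCLE.contDiff).comp (hb.smooth.comp contDiff_neg)
    · rw [hb.supp (-v) (by rwa [abs_neg]), map_zero]
  have h := integral_gs_mul_gs hδ hδ hb hb2 one_pos 0 0
  have e1 : ∀ t : ℝ, gs f (((0 - t) * 1 / (2 * π) : ℝ) : ℂ) *
      gs (fun v => (starRingEnd ℂ) (f (-v))) (((0 - t) * 1 / (2 * π) : ℝ) : ℂ) =
      ((‖VV η ρ c α T t‖ ^ 2 : ℝ) : ℂ) := by
    intro t
    rw [pl_conj, Complex.mul_conj, Complex.normSq_eq_norm_sq, VV_eq_gs]
    congr 5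
    simp
  simp only [e1] at h
  rw [integral_complex_ofReal] at h
  have e2 : gs (fun ξ => f ξ * (starRingEnd ℂ) (f (- -ξ))) (((0 - 0) * 1 / (2 * π) : ℝ) : ℂ) =
      ((∫ v : ℝ, ‖f v‖ ^ 2 : ℝ) : ℂ) := by
    rw [← integral_complex_ofReal]
    unfold gs
    refine integral_congr_ae (Eventually.of_forall fun v => ?_)
    simp only [neg_neg, sub_zero, zero_mul, zero_div, ofReal_zero, mul_zero, Complex.exp_zero,
      mul_one]
    rw [Complex.mul_conj, Complex.normSq_eq_norm_sq]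
  rw [e2, div_one] at h
  exact_mod_cast h

private theorem pl_inv {X κ : ℝ} (hX : 0 ≤ X) {η ρ : ℝ → ℝ} (hη : Eta X η) (hρ : Rho κ ρ) (c : ℝ)
    {α T : ℝ} (hT : 1 ≤ T) (hα : 0 ≤ α) (v : ℝ) :
    ∫ t : ℝ, Complex.exp (I * t * v) * VV η ρ c α T t = 2 * π * fV η ρ c α T v := by
  have h := integral_gs_exp (pl_nonneg hX hT hα) (bump_fV hη hρ c hT hα) 0 v
  simp only [ofReal_zero, zero_mul, add_zero, mul_zero, neg_zero, Real.exp_zero, ofReal_one,
    mul_one] at h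
  have h2 := Measure.integral_comp_mul_left
    (fun s : ℝ => gs (fV η ρ c α T) (s : ℂ) * Complex.exp (-(2 * π * I * v * s)))
    (-(1 / (2 * π)))
  rw [h] at h2
  have e1 : ∀ t : ℝ, gs (fV η ρ c α T) ((-(1 / (2 * π)) * t : ℝ) : ℂ) *
      Complex.exp (-(2 * π * I * v * ((-(1 / (2 * π)) * t : ℝ) : ℂ))) =
      Complex.exp (I * t * v) * VV η ρ c α T t := by
    intro t
    rw [pl_VV, mul_comm]
    congr 2
    have hpi : (π : ℂ) ≠ 0 := by exact_mod_cast Real.pi_ne_zero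
    push_cast
    field_simp
  simp only [e1] at h2
  rw [h2]
  have hpi := Real.pi_pos
  have e2 : |(-(1 / (2 * π)))⁻¹| = 2 * π := by
    rw [abs_inv, abs_neg, abs_of_pos (by positivity)]
    field_simp
  rw [e2, Complex.real_smul]
  push_cast
  ring

/-- Module PL (c). Fourier inversion. -/
theorem inversion_VV {X κ : ℝ} (hX : 0 ≤ X) {η ρ : ℝ → ℝ} (hη : Eta X η) (hρ : Rho κ ρ) (c : ℝ)
    {α T : ℝ} (hT : 1 ≤ T) (hα : 0 ≤ α) :
    ∫ t : ℝ, PP η α T t * (starRingEnd ℂ) (VV η ρ c α T t) = 2 * π * XX η ρ c α T := by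
  have hV := integrable_VV hX hη hρ c hT hα
  have hterm : ∀ n ∈ Finset.Icc 1 ⌊T ^ (2 : ℝ)⌋₊, ∀ t : ℝ,
      ((Λ n * η (Real.log n - α * Real.log T) : ℝ) : ℂ) * (n : ℂ) ^ (-(1 / 2 + (t : ℂ) * I)) *
        (starRingEnd ℂ) (VV η ρ c α T t) =
      ((Λ n * η (Real.log n - α * Real.log T) * Real.exp (-(Real.log n / 2)) : ℝ) : ℂ) *
        (starRingEnd ℂ) (Complex.exp (I * t * (Real.log n : ℝ)) * VV η ρ c α T t) := by
    intro n hn t
    rw [Finset.mem_Icc] at hn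
    have hn0 : (n : ℂ) ≠ 0 := by exact_mod_cast (by omega : n ≠ 0)
    have e1 : (n : ℂ) ^ (-(1 / 2 + (t : ℂ) * I)) =
        ((Real.exp (-(Real.log n / 2)) : ℝ) : ℂ) *
          (starRingEnd ℂ) (Complex.exp (I * t * (Real.log n : ℝ))) := by
      rw [Complex.cpow_def_of_ne_zero hn0, ← Complex.natCast_log, ← Complex.exp_conj,
        Complex.ofReal_exp, ← Complex.exp_add]
      congr 1
      simp only [map_mul, Complex.conj_ofReal, Complex.conj_I]
      push_cast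
      ring
    rw [e1, map_mul]
    push_cast
    ring
  have hint : ∀ v : ℝ, Integrable fun t : ℝ =>
      (starRingEnd ℂ) (Complex.exp (I * t * v) * VV η ρ c α T t) := by
    intro v
    have h1 : Integrable fun t : ℝ => Complex.exp (I * t * v) * VV η ρ c α T t := by
      refine hV.bdd_mul (c := 1) ?_ (Eventually.of_forall fun t => ?_)
      · exact (by fun_prop : Continuous fun t : ℝ => Complex.exp (I * t * v)).aestronglyMeasurable
      · rw [show I * (t : ℂ) * v = ((t * v : ℝ) : ℂ) * I by push_cast; ring,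
          Complex.norm_exp_ofReal_mul_I]
    exact (Complex.conjCLE.toContinuousLinearMap).integrable_comp h1
  unfold PP
  simp only [Finset.sum_mul]
  rw [integral_finsetSum]
  · unfold XX
    rw [Finset.mul_sum]
    refine Finset.sum_congr rfl fun n hn => ?_
    rw [integral_congr_ae (Eventually.of_forall (hterm n hn)), integral_const_mul, integral_conj,
      pl_inv hX hη hρ c hT hα]
    rw [Finset.mem_Icc] at hn
    have hn0 : (0 : ℝ) < n := by exact_mod_cast (by omega : 0 < n)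
    unfold fV
    rw [Real.exp_log hn0]
    simp only [map_mul, Complex.conj_ofReal, map_ofNat]
    have e3 : ((Real.exp (-(Real.log n / 2)) : ℝ) : ℂ) * ((Real.exp (Real.log n / 2) : ℝ) : ℂ) =
        1 := by
      rw [← Complex.ofReal_mul, ← Real.exp_add]
      simp
    push_cast at e3 ⊢
    linear_combination (2 * (π : ℂ) * (Λ n : ℂ) * (η (Real.log n - α * Real.log T) : ℂ) ^ 2 *
      (starRingEnd ℂ) (EE ρ c α T n)) * e3
  · intro n hn
    rw [integrable_congr (Eventually.of_forall (hterm n hn))]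
    exact (hint _).const_mul _

end Pool.Agent.MP_67227b_nt.Gg
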