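import Mathlib
import Pool.Agent.MP_67227b_nt.Gg.GgDefs
import Pool.Agent.MP_67227b_nt.Gg.GgOsc

set_option autoImplicit false

open Filter Topology Set MeasureTheory Complex
open scoped Real ContDiff ArithmeticFunction ArithmeticFunction.Moebius

namespace Pool.Agent.MP_67227b_nt.Gg

/-- The smooth cutoff of the parameter `β`. -/
private noncomputable def tlchi (K b : ℝ) : ℝ :=
  Real.smoothTransition (1 + 2 * b) * Real.smoothTransition (K + 1 - b)

private theorem tlchi_smooth (K : ℝ) : ContDiff ℝ ∞ (tlchi K) := by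
  apply ContDiff.mul
  · exact Real.smoothTransition.contDiff.comp (by fun_prop)
  · exact Real.smoothTransition.contDiff.comp (by fun_prop)

private theorem tlchi_one {K b : ℝ} (h0 : 0 ≤ b) (h1 : b ≤ K) : tlchi K b = 1 := by
  rw [tlchi, Real.smoothTransition.one_of_one_le (by linarith),
    Real.smoothTransition.one_of_one_le (by linarith), one_mul]

private theorem tlchi_left {K b : ℝ} (h0 : b < -1 / 2) : tlchi K b = 0 := by
  rw [tlchi, Real.smoothTransition.zero_of_nonpos (by linarith), zero_mul]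

private theorem tlchi_right {K b : ℝ} (h0 : K + 1 < b) : tlchi K b = 0 := by
  rw [tlchi, Real.smoothTransition.zero_of_nonpos (x := K + 1 - b) (by linarith), mul_zero]

/-- The amplitude. -/
private noncomputable def tlF (η ρ : ℝ → ℝ) (K : ℝ) (x : ℝ × ℝ × ℝ) : ℂ :=
  ((Real.exp (x.1 / 2) * η x.1 * ρ (Real.exp (x.1 + x.2.1)) * tlchi K x.2.2 : ℝ) : ℂ)

/-- The phase. -/
private noncomputable def tlpsi (s σ : ℝ) (x : ℝ × ℝ × ℝ) : ℝ :=
  x.2.2 * Real.exp (x.1 + x.2.1) - (s * x.2.2 + σ) * x.1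

private theorem tlpsi_smooth (s σ : ℝ) : ContDiff ℝ ∞ (tlpsi s σ) := by
  unfold tlpsi
  fun_prop

private theorem tlpsi_deriv (s σ : ℝ) (x : ℝ × ℝ × ℝ) :
    fderiv ℝ (tlpsi s σ) x (1, 0) = x.2.2 * (Real.exp (x.1 + x.2.1) - s) - σ := by
  have h1 : HasFDerivAt (tlpsi s σ) (fderiv ℝ (tlpsi s σ) x) x :=
    ((tlpsi_smooth s σ).differentiable (by simp)).differentiableAt.hasFDerivAt
  have h2 : HasDerivAt (fun t : ℝ => ((x.1 + t, x.2) : ℝ × ℝ × ℝ)) (1, 0) 0 := by
    have a1 : HasDerivAt (fun t : ℝ => x.1 + t) 1 0 := (hasDerivAt_id (0 : ℝ)).const_add x.1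
    exact a1.prodMk (hasDerivAt_const (0 : ℝ) x.2)
  have h3 : HasDerivAt (fun t : ℝ => tlpsi s σ (x.1 + t, x.2))
      (fderiv ℝ (tlpsi s σ) x (1, 0)) 0 := by
    have h1' : HasFDerivAt (tlpsi s σ) (fderiv ℝ (tlpsi s σ) x) (x.1 + 0, x.2) := by
      rw [add_zero]
      exact h1
    exact h1'.comp_hasDerivAt 0 h2
  have h4 : HasDerivAt (fun t : ℝ => tlpsi s σ (x.1 + t, x.2))
      (x.2.2 * (Real.exp (x.1 + x.2.1) - s) - σ) 0 := by
    have b1 : HasDerivAt (fun t : ℝ => x.1 + t + x.2.1) 1 0 :=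
      ((hasDerivAt_id (0 : ℝ)).const_add x.1).add_const x.2.1
    have b2 := (b1.exp.const_mul x.2.2).sub
      (((hasDerivAt_id (0 : ℝ)).const_add x.1).const_mul (s * x.2.2 + σ))
    refine HasDerivAt.congr_deriv b2 ?_
    rw [add_zero]
    ring
  exact h3.unique h4

private theorem tlF_smooth {η ρ : ℝ → ℝ} (hη : ContDiff ℝ ∞ η) (hρ : ContDiff ℝ ∞ ρ) (K : ℝ) :
    ContDiff ℝ ∞ (tlF η ρ K) := by
  have h1 : ContDiff ℝ ∞ fun x : ℝ × ℝ × ℝ => η x.1 := hη.comp contDiff_fst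
  have h2 : ContDiff ℝ ∞ fun x : ℝ × ℝ × ℝ => ρ (Real.exp (x.1 + x.2.1)) :=
    hρ.comp (by fun_prop)
  have h3 : ContDiff ℝ ∞ fun x : ℝ × ℝ × ℝ => tlchi K x.2.2 :=
    (tlchi_smooth K).comp (by fun_prop)
  have h4 : ContDiff ℝ ∞ fun x : ℝ × ℝ × ℝ => Real.exp (x.1 / 2) := by fun_prop
  exact Complex.ofRealCLM.contDiff.comp (((h4.mul h1).mul h2).mul h3)

private theorem tlF_zero {X κ : ℝ} {η ρ : ℝ → ℝ} (hη : Eta X η) (hρ : Rho κ ρ) (K : ℝ)
    (x : ℝ × ℝ × ℝ) (hx : tlF η ρ K x ≠ 0) :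
    |x.1| ≤ |X| ∧ (2 * κ ≤ Real.exp (x.1 + x.2.1) ∧ Real.exp (x.1 + x.2.1) ≤ 1 - κ) ∧
      (-1 / 2 ≤ x.2.2 ∧ x.2.2 ≤ K + 1) := by
  refine ⟨?_, ⟨?_, ?_⟩, ?_, ?_⟩
  · by_contra h
    apply hx
    rw [tlF, hη.supp x.1 ((le_abs_self X).trans_lt (not_le.1 h))]
    simp
  · by_contra h
    apply hx
    rw [tlF, hρ.left _ (not_le.1 h).le]
    simp
  · by_contra h
    apply hx
    rw [tlF, hρ.right _ (not_le.1 h).le]
    simp
  · by_contra h
    apply hx
    rw [tlF, tlchi_left (not_le.1 h)]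
    simp
  · by_contra h
    apply hx
    rw [tlF, tlchi_right (not_le.1 h)]
    simp

private theorem tlF_cs {X κ : ℝ} (hκ : 0 < κ) {η ρ : ℝ → ℝ} (hη : Eta X η) (hρ : Rho κ ρ)
    (K : ℝ) : HasCompactSupport (tlF η ρ K) := by
  apply HasCompactSupport.intro (K := Icc (-|X|) |X| ×ˢ
    (Icc (Real.log (2 * κ) - |X|) |X| ×ˢ Icc (-1 / 2) (K + 1)))
    (isCompact_Icc.prod (isCompact_Icc.prod isCompact_Icc))
  intro x hx
  by_contra h
  apply hx
  obtain ⟨h1, ⟨h2, h3⟩, h4, h5⟩ := tlF_zero hη hρ K x h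
  have h1' := abs_le.1 h1
  have h6 : Real.log (2 * κ) ≤ x.1 + x.2.1 := by
    rw [Real.log_le_iff_le_exp (by positivity)]
    exact h2
  have h7 : x.1 + x.2.1 ≤ 0 := by
    rw [← Real.exp_le_one_iff]
    linarith
  exact ⟨⟨h1'.1, h1'.2⟩, ⟨by linarith [h1'.2], by linarith [h1'.1]⟩, h4, h5⟩

/-- The oscillatory integral, uniformly in the parameters. -/
private theorem tl_osc {X κ : ℝ} (hκ : 0 < κ) {η ρ : ℝ → ℝ} (hη : Eta X η) (hρ : Rho κ ρ)
    (s σ K : ℝ) (hD : ∀ b y : ℝ, -1 / 2 ≤ b → 2 * κ ≤ y → y ≤ 1 - κ → b * (y - s) - σ ≠ 0)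
    (k : ℕ) : ∃ C : ℝ, 0 < C ∧ ∀ r b l : ℝ, 0 ≤ b → b ≤ K → l ≠ 0 →
      ‖∫ p : ℝ, ((Real.exp (p / 2) * η p * ρ (Real.exp (p + r)) : ℝ) : ℂ) *
        Complex.exp (I * ((l * (b * Real.exp (p + r) - (s * b + σ) * p) : ℝ) : ℂ))‖ ≤
        C / |l| ^ k := by
  have hsub : tsupport (tlF η ρ K) ⊆ {x | (2 * κ ≤ Real.exp (x.1 + x.2.1) ∧
      Real.exp (x.1 + x.2.1) ≤ 1 - κ) ∧ -1 / 2 ≤ x.2.2} := by
    apply closure_minimal
    · intro x hx
      obtain ⟨h1, h2, h3, h4⟩ := tlF_zero hη hρ K x hx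
      exact ⟨h2, h3⟩
    · have c1 : Continuous fun x : ℝ × ℝ × ℝ => Real.exp (x.1 + x.2.1) := by fun_prop
      have c2 : Continuous fun x : ℝ × ℝ × ℝ => x.2.2 := by fun_prop
      exact ((isClosed_le continuous_const c1).inter (isClosed_le c1 continuous_const)).inter
        (isClosed_le continuous_const c2)
  obtain ⟨C, hC, h⟩ := osc (tlF_smooth hη.smooth hρ.smooth K) (tlF_cs hκ hη hρ K)
    (tlpsi_smooth s σ) (fun x hx => by
      rw [tlpsi_deriv]
      have := hsub hx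
      exact hD _ _ this.2 this.1.1 this.1.2) k
  refine ⟨C, hC, fun r b l hb0 hb1 hl => ?_⟩
  have h1 := h (r, b) l hl
  have e : (fun p : ℝ => tlF η ρ K (p, (r, b)) *
      Complex.exp (I * ((l * tlpsi s σ (p, (r, b)) : ℝ) : ℂ))) =
      fun p : ℝ => ((Real.exp (p / 2) * η p * ρ (Real.exp (p + r)) : ℝ) : ℂ) *
        Complex.exp (I * ((l * (b * Real.exp (p + r) - (s * b + σ) * p) : ℝ) : ℂ)) := by
    ext p
    simp only [tlF, tlpsi, tlchi_one hb0 hb1, mul_one]
  rw [e] at h1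
  exact h1

/-- The change of variables. -/
private theorem tl_change {η ρ : ℝ → ℝ} {α T : ℝ} (hT : 0 < T) {A B : ℕ} (hA : 0 < A)
    (hB : 0 < B) (t : ℝ) :
    ‖∫ v : ℝ, ((Real.exp (v / 2) * η (v - α * Real.log T) * wt ρ T A B (Real.exp v) : ℝ) : ℂ) *
        ex (Real.exp v * B / A) * Complex.exp (-(I * t * v))‖ =
      T ^ (α / 2) * ‖∫ p : ℝ, ((Real.exp (p / 2) * η p *
        ρ (Real.exp (p + Real.log (2 * π * T ^ α * B / (A * T)))) : ℝ) : ℂ) *
        Complex.exp (I * ((T * Real.exp (p + Real.log (2 * π * T ^ α * B / (A * T))) -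
          t * p : ℝ) : ℂ))‖ := by
  set L : ℝ := Real.log T with hL
  set q : ℝ := 2 * π * T ^ α * B / (A * T) with hq
  have hA0 : (0 : ℝ) < A := by exact_mod_cast hA
  have hB0 : (0 : ℝ) < B := by exact_mod_cast hB
  have hTα : 0 < T ^ α := by positivity
  have hq0 : 0 < q := by positivity
  have hexp : Real.exp (α * L) = T ^ α := by rw [Real.rpow_def_of_pos hT, mul_comm]
  rw [← integral_add_right_eq_self _ (α * L)]
  have e : (fun v : ℝ => ((Real.exp ((v + α * L) / 2) * η (v + α * L - α * L) *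
      wt ρ T A B (Real.exp (v + α * L)) : ℝ) : ℂ) * ex (Real.exp (v + α * L) * B / A) *
      Complex.exp (-(I * t * ((v + α * L : ℝ) : ℂ)))) =
      fun p : ℝ => (((T ^ (α / 2) : ℝ) : ℂ) * Complex.exp ((((-(t * (α * L)) : ℝ)) : ℂ) * I)) *
        (((Real.exp (p / 2) * η p * ρ (Real.exp (p + Real.log q)) : ℝ) : ℂ) *
        Complex.exp (I * ((T * Real.exp (p + Real.log q) - t * p : ℝ) : ℂ))) := by
    ext p
    have e1 : Real.exp (p + Real.log q) = Real.exp p * q := by rw [Real.exp_add, Real.exp_log hq0]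
    have e2 : Real.exp (p + α * L) = Real.exp p * T ^ α := by rw [Real.exp_add, hexp]
    have e3 : Real.exp ((p + α * L) / 2) = T ^ (α / 2) * Real.exp (p / 2) := by
      rw [add_div, Real.exp_add, mul_comm, Real.rpow_def_of_pos hT]
      congr 2
      ring
    have e4 : 2 * π * (Real.exp p * T ^ α) * B / (A * T) = Real.exp p * q := by
      rw [hq]
      ring
    have e5 : T * (Real.exp p * q) = 2 * π * (Real.exp p * T ^ α * B / A) := by
      rw [hq]
      field_simp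
    rw [e3, e2, e1, wt, e4, add_sub_cancel_right, ex]
    have e6 : Complex.exp (2 * π * I * ((Real.exp p * T ^ α * B / A : ℝ) : ℂ)) *
        Complex.exp (-(I * t * ((p + α * L : ℝ) : ℂ))) =
        Complex.exp ((((-(t * (α * L)) : ℝ)) : ℂ) * I) *
        Complex.exp (I * ((T * (Real.exp p * q) - t * p : ℝ) : ℂ)) := by
      rw [← Complex.exp_add, ← Complex.exp_add, e5]
      congr 1
      push_cast
      ring
    calc ((T ^ (α / 2) * Real.exp (p / 2) * η p * ρ (Real.exp p * q) : ℝ) : ℂ) *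
          Complex.exp (2 * π * I * ((Real.exp p * T ^ α * B / A : ℝ) : ℂ)) *
          Complex.exp (-(I * t * ((p + α * L : ℝ) : ℂ))) =
        ((T ^ (α / 2) * Real.exp (p / 2) * η p * ρ (Real.exp p * q) : ℝ) : ℂ) *
          (Complex.exp (2 * π * I * ((Real.exp p * T ^ α * B / A : ℝ) : ℂ)) *
          Complex.exp (-(I * t * ((p + α * L : ℝ) : ℂ)))) := by ring
      _ = _ := by
          rw [e6]
          push_cast
          ring
  rw [e, integral_const_mul, norm_mul, norm_mul, Complex.norm_exp_ofReal_mul_I, mul_one,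
    Complex.norm_real, Real.norm_of_nonneg (by positivity)]

/-- The two tails together. -/
private theorem tl_gen {X κ : ℝ} (hκ : 0 < κ) {η ρ : ℝ → ℝ} (hη : Eta X η) (hρ : Rho κ ρ)
    (s σ K M : ℝ) (hM : 0 < M)
    (hD : ∀ b y : ℝ, -1 / 2 ≤ b → 2 * κ ≤ y → y ≤ 1 - κ → b * (y - s) - σ ≠ 0) (k : ℕ) :
    ∃ C : ℝ, 0 < C ∧ ∀ α T : ℝ, 1 < T → ∀ A B : ℕ, 0 < A → 0 < B → ∀ t b l : ℝ, 0 < l → 0 ≤ b →
      b ≤ K → T = b * l → t = l * (s * b + σ) → T + |t| ≤ M * l →
      ‖∫ v : ℝ, ((Real.exp (v / 2) * η (v - α * Real.log T) * wt ρ T A B (Real.exp v) : ℝ) : ℂ) *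
        ex (Real.exp v * B / A) * Complex.exp (-(I * t * v))‖ ≤
        C * T ^ (α / 2) / (T + |t|) ^ k := by
  obtain ⟨C, hC, h⟩ := tl_osc hκ hη hρ s σ K hD k
  refine ⟨C * M ^ k, by positivity, ?_⟩
  intro α T hT A B hA hB t b l hl hb hbK hTl ht hMl
  have hT0 : 0 < T := by linarith
  rw [tl_change hT0 hA hB t]
  have h1 := h (Real.log (2 * π * T ^ α * B / (A * T))) b l hb hbK hl.ne'
  have e : (fun p : ℝ => ((Real.exp (p / 2) * η p *
        ρ (Real.exp (p + Real.log (2 * π * T ^ α * B / (A * T)))) : ℝ) : ℂ) *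
        Complex.exp (I * ((T * Real.exp (p + Real.log (2 * π * T ^ α * B / (A * T))) -
          t * p : ℝ) : ℂ))) =
      fun p : ℝ => ((Real.exp (p / 2) * η p *
        ρ (Real.exp (p + Real.log (2 * π * T ^ α * B / (A * T)))) : ℝ) : ℂ) *
        Complex.exp (I * ((l * (b * Real.exp (p + Real.log (2 * π * T ^ α * B / (A * T))) -
          (s * b + σ) * p) : ℝ) : ℂ)) := by
    ext p
    congr 4
    rw [ht]
    nth_rewrite 1 [hTl]
    ring
  rw [e]
  rw [abs_of_pos hl] at h1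
  have hTt : 0 < T + |t| := by positivity
  calc T ^ (α / 2) * ‖_‖ ≤ T ^ (α / 2) * (C / l ^ k) :=
        mul_le_mul_of_nonneg_left h1 (by positivity)
    _ = C * T ^ (α / 2) * (1 / l ^ k) := by ring
    _ ≤ C * T ^ (α / 2) * (M ^ k / (T + |t|) ^ k) := by
        apply mul_le_mul_of_nonneg_left _ (by positivity)
        rw [div_le_div_iff₀ (by positivity) (by positivity), one_mul, ← mul_pow]
        exact pow_le_pow_left₀ hTt.le hMl k
    _ = _ := by ring

/-- Module TLL. Frequencies to the left of the range.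

PROOF. `v = p + αL`: `exp v = T^α exp p`, `wt ρ T A B (exp v) = ρ (exp (p + r))` with
`r = log (2π T^α B/(AT))`, and `2π exp v B/A = T exp (p + r)`. So the integral is, up to a factor of
modulus one, `T^(α/2) ∫ a p · ρ (exp (p + r)) · exp (I (T exp (p + r) - t p)) dp`, `a p = exp (p/2) η p`.
Let `l = 2κT - t ≥ κT > 0`, `β = T/l ∈ (0, 1/κ]`; then `t = 2κT - l` and
`T exp (p + r) - t p = l ψ (p, (r, β))`, `ψ (p, (r, β)) = β exp (p + r) - (2κβ - 1) p`,
`∂_p ψ = 1 + β (exp (p + r) - 2κ)`. Let `χ : ℝ → ℝ` be smooth, `χ = 1` on `[0, 1/κ]`, `χ = 0`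
outside `[-1/2, 1/κ + 1]` (`ContDiffBump`), `F (p, (r, β)) = a p · ρ (exp (p + r)) · χ β`: smooth, compact
support (`|p| ≤ |X|`, `log (2κ) ≤ p + r ≤ 0`, `β ∈ [-1/2, 1/κ + 1]`). On `tsupport F` (a closed set
where `2κ ≤ exp (p + r) ≤ 1 - κ` and `-1/2 ≤ β`), `∂_p ψ ≥ 1/2` (for `β < 0` use
`exp (p + r) - 2κ ≤ 1`). `osc` gives `C / l ^ k`, and `T + |t| ≤ (1/κ + 1) l`. -/
theorem tail_left {X κ : ℝ} (hκ : 0 < κ) {η ρ : ℝ → ℝ} (hη : Eta X η) (hρ : Rho κ ρ) (k : ℕ) :
    ∃ C : ℝ, 0 < C ∧ ∀ α T : ℝ, 1 < T → ∀ A B : ℕ, 0 < A → 0 < B → ∀ t : ℝ, t ≤ κ * T →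
      ‖∫ v : ℝ, ((Real.exp (v / 2) * η (v - α * Real.log T) * wt ρ T A B (Real.exp v) : ℝ) : ℂ) *
        ex (Real.exp v * B / A) * Complex.exp (-(I * t * v))‖ ≤
        C * T ^ (α / 2) / (T + |t|) ^ k := by
  obtain ⟨C, hC, h⟩ := tl_gen hκ hη hρ (2 * κ) (-1) (1 / κ) (1 / κ + 1) (by positivity) (by
    intro b y hb h1 h2
    have h3 : -1 / 2 ≤ b * (y - 2 * κ) := by
      rcases le_or_gt 0 b with h4 | h4
      · have := mul_nonneg h4 (by linarith : 0 ≤ y - 2 * κ)
        linarith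
      · have h5 : b * 1 ≤ b * (y - 2 * κ) := mul_le_mul_of_nonpos_left (by linarith) h4.le
        linarith
    intro h6
    linarith) k
  refine ⟨C, hC, fun α T hT A B hA hB t ht => ?_⟩
  have hT0 : 0 < T := by linarith
  have hκT : 0 < κ * T := by positivity
  have hl : 0 < 2 * κ * T - t := by linarith
  have hTl : T ≤ 1 / κ * (2 * κ * T - t) := by
    rw [div_mul_eq_mul_div, one_mul, le_div_iff₀ hκ]
    linarith
  refine h α T hT A B hA hB t (T / (2 * κ * T - t)) (2 * κ * T - t) hl (by positivity) ?_ ?_ ?_ ?_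
  · rw [div_le_iff₀ hl]
    exact hTl
  · rw [div_mul_cancel₀ _ hl.ne']
  · field_simp
    ring
  · have h7 : |t| ≤ 2 * κ * T - t := by
      rw [abs_le]
      constructor <;> linarith
    have h8 : (1 / κ + 1) * (2 * κ * T - t) = 1 / κ * (2 * κ * T - t) + (2 * κ * T - t) := by ring
    linarith

/-- Module TLR. Frequencies to the right of the range: the same with
`l = t - (1 - κ) T ≥ κT/2`, `β = T/l ∈ (0, 2/κ]`, `T exp (p + r) - t p = l ψ`,
`ψ (p, (r, β)) = β exp (p + r) - (1 + (1 - κ) β) p`,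
`∂_p ψ = - 1 - β ((1 - κ) - exp (p + r)) ≤ - 1/2` on the support, `T + |t| ≤ (4/κ + 1) l`. -/
theorem tail_right {X κ : ℝ} (hκ : 0 < κ) {η ρ : ℝ → ℝ} (hη : Eta X η) (hρ : Rho κ ρ) (k : ℕ) :
    ∃ C : ℝ, 0 < C ∧ ∀ α T : ℝ, 1 < T → ∀ A B : ℕ, 0 < A → 0 < B → ∀ t : ℝ,
      (1 - κ / 2) * T ≤ t →
      ‖∫ v : ℝ, ((Real.exp (v / 2) * η (v - α * Real.log T) * wt ρ T A B (Real.exp v) : ℝ) : ℂ) *
        ex (Real.exp v * B / A) * Complex.exp (-(I * t * v))‖ ≤
        C * T ^ (α / 2) / (T + |t|) ^ k := by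
  obtain ⟨C, hC, h⟩ := tl_gen hκ hη hρ (1 - κ) 1 (2 / κ) (4 / κ + 1) (by positivity) (by
    intro b y hb h1 h2
    have h3 : b * (y - (1 - κ)) ≤ 1 / 2 := by
      rcases le_or_gt 0 b with h4 | h4
      · have := mul_nonpos_of_nonneg_of_nonpos h4 (by linarith : y - (1 - κ) ≤ 0)
        linarith
      · have h5 : b * (y - (1 - κ)) ≤ b * (-1) :=
          mul_le_mul_of_nonpos_left (by linarith) h4.le
        linarith
    intro h6
    linarith) k
  refine ⟨C, hC, fun α T hT A B hA hB t ht => ?_⟩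
  have hT0 : 0 < T := by linarith
  have hκT : 0 < κ * T := by positivity
  have hl : 0 < t - (1 - κ) * T := by linarith
  have hTl : T ≤ 2 / κ * (t - (1 - κ) * T) := by
    rw [div_mul_eq_mul_div, le_div_iff₀ hκ]
    linarith
  refine h α T hT A B hA hB t (T / (t - (1 - κ) * T)) (t - (1 - κ) * T) hl (by positivity)
    ?_ ?_ ?_ ?_
  · rw [div_le_iff₀ hl]
    exact hTl
  · rw [div_mul_cancel₀ _ hl.ne']
  · field_simp
    ring
  · have h7 : |t| ≤ T + (t - (1 - κ) * T) := by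
      rw [abs_le]
      constructor <;> linarith
    have h8 : (4 / κ + 1) * (t - (1 - κ) * T) =
        2 * (2 / κ * (t - (1 - κ) * T)) + (t - (1 - κ) * T) := by ring
    linarith

/-- Module TLV. `V` outside the range.

PROOF. `V t` is the sum over `A, B` of `μ A/φ A` times the integrals of `tail_left`/`tail_right` (with
`k + 3` in place of `k`); the coefficients are at most `1`, the number of pairs is at most
`T^(1/2) T`, so `‖V t‖ ≤ T^(3/2) C T^(3/4) / (T + |t|)^(k+3) ≤ 1/(T + |t|)^k` for large `T`. -/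
theorem tail_V {X κ c : ℝ} (hκ : 0 < κ) (hc : 0 < c) {η ρ : ℝ → ℝ} (hη : Eta X η) (hρ : Rho κ ρ)
    (k : ℕ) : ∀ᶠ T : ℝ in atTop, ∀ α ∈ Icc (1 : ℝ) (3 / 2), ∀ t : ℝ,
      (t ≤ κ * T ∨ (1 - κ / 2) * T ≤ t) → ‖VV η ρ c α T t‖ ≤ 1 / (T + |t|) ^ k := by
  obtain ⟨C1, hC1, h1⟩ := tail_left hκ hη hρ (k + 3)
  obtain ⟨C2, hC2, h2⟩ := tail_right hκ hη hρ (k + 3)
  have hηc : Continuous η := hη.smooth.continuous
  have hρc : Continuous ρ := hρ.smooth.continuous
  have hlim : ∀ᶠ T : ℝ in atTop, C1 + C2 ≤ T ^ (1 / 4 : ℝ) :=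
    (tendsto_rpow_atTop (by norm_num : (0 : ℝ) < 1 / 4)).eventually_ge_atTop _
  filter_upwards [hlim, eventually_gt_atTop (1 : ℝ)] with T hTC hT1 α hα t ht
  have hT0 : 0 < T := by linarith
  set L : ℝ := Real.log T with hL
  -- one fraction
  have hone : ∀ A B : ℕ, 0 < A → 0 < B →
      ‖∫ v : ℝ, ((Real.exp (v / 2) * η (v - α * L) * wt ρ T A B (Real.exp v) : ℝ) : ℂ) *
        ex (Real.exp v * B / A) * Complex.exp (-(I * t * v))‖ ≤
        (C1 + C2) * T ^ (α / 2) / (T + |t|) ^ (k + 3) := by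
    intro A B hA hB
    have hTt : 0 < T + |t| := by positivity
    rcases ht with ht | ht
    · refine (h1 α T hT1 A B hA hB t ht).trans ?_
      gcongr
      linarith
    · refine (h2 α T hT1 A B hA hB t ht).trans ?_
      gcongr
      linarith
  have hcs1 : HasCompactSupport fun v => η (v - α * L) := by
    apply HasCompactSupport.intro (K := Icc (α * L - X) (α * L + X)) isCompact_Icc
    intro v hv
    apply hη.supp
    rw [mem_Icc, not_and_or, not_le, not_le] at hv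
    rcases hv with h | h
    · have := neg_abs_le (v - α * L)
      linarith
    · have := le_abs_self (v - α * L)
      linarith
  have hint : ∀ A B : ℕ, Integrable fun v : ℝ =>
      ((Real.exp (v / 2) * η (v - α * L) * wt ρ T A B (Real.exp v) : ℝ) : ℂ) *
        ex (Real.exp v * B / A) * Complex.exp (-(I * t * v)) := by
    intro A B
    have hw : Continuous fun v => wt ρ T A B (Real.exp v) := by
      simp only [wt]
      exact hρc.comp (by fun_prop)
    have hx : Continuous fun v : ℝ => ex (Real.exp v * B / A) := by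
      simp only [ex]
      fun_prop
    have hr : Continuous fun v => Real.exp (v / 2) * η (v - α * L) * wt ρ T A B (Real.exp v) := by
      fun_prop
    have hcs2 : HasCompactSupport fun v => ((Real.exp (v / 2) * η (v - α * L) *
        wt ρ T A B (Real.exp v) : ℝ) : ℂ) := by
      have h3 : HasCompactSupport fun v => Real.exp (v / 2) * η (v - α * L) *
          wt ρ T A B (Real.exp v) :=
        (hcs1.mul_left (f := fun v => Real.exp (v / 2))).mul_right
          (f' := fun v => wt ρ T A B (Real.exp v))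
      exact h3.comp_left (g := fun x : ℝ => (x : ℂ)) Complex.ofReal_zero
    have hcont : Continuous fun v : ℝ =>
        ((Real.exp (v / 2) * η (v - α * L) * wt ρ T A B (Real.exp v) : ℝ) : ℂ) *
        ex (Real.exp v * B / A) * Complex.exp (-(I * t * v)) :=
      ((Complex.continuous_ofReal.comp hr).mul hx).mul (by fun_prop)
    exact hcont.integrable_of_hasCompactSupport
      ((hcs2.mul_right (f' := fun v : ℝ => ex (Real.exp v * B / A))).mul_right
        (f' := fun v : ℝ => Complex.exp (-(I * t * v))))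
  have e1 : VV η ρ c α T t = ∑ A ∈ As c α T, ∑ B ∈ Bs T A,
      (((μ A : ℝ) / (Nat.totient A : ℝ) : ℝ) : ℂ) *
      ∫ v : ℝ, ((Real.exp (v / 2) * η (v - α * L) * wt ρ T A B (Real.exp v) : ℝ) : ℂ) *
        ex (Real.exp v * B / A) * Complex.exp (-(I * t * v)) := by
    have e2 : ∀ v : ℝ, fV η ρ c α T v * Complex.exp (-(I * t * v)) =
        ∑ A ∈ As c α T, ∑ B ∈ Bs T A, (((μ A : ℝ) / (Nat.totient A : ℝ) : ℝ) : ℂ) *
        (((Real.exp (v / 2) * η (v - α * L) * wt ρ T A B (Real.exp v) : ℝ) : ℂ) *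
        ex (Real.exp v * B / A) * Complex.exp (-(I * t * v))) := by
      intro v
      rw [fV, EE, Finset.mul_sum, Finset.sum_mul]
      apply Finset.sum_congr rfl
      intro A _
      rw [Finset.mul_sum, Finset.sum_mul]
      apply Finset.sum_congr rfl
      intro B _
      push_cast
      ring
    rw [VV]
    simp only [e2]
    rw [integral_finsetSum _ fun A _ => integrable_finsetSum _ fun B _ => (hint A B).const_mul _]
    apply Finset.sum_congr rfl
    intro A _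
    rw [integral_finsetSum _ fun B _ => (hint A B).const_mul _]
    apply Finset.sum_congr rfl
    intro B _
    rw [integral_const_mul]
  set D : ℝ := (C1 + C2) * T ^ (α / 2) / (T + |t|) ^ (k + 3) with hD
  have hD0 : 0 ≤ D := by positivity
  have hterm : ∀ A ∈ As c α T, ∀ B ∈ Bs T A,
      ‖(((μ A : ℝ) / (Nat.totient A : ℝ) : ℝ) : ℂ) *
      ∫ v : ℝ, ((Real.exp (v / 2) * η (v - α * L) * wt ρ T A B (Real.exp v) : ℝ) : ℂ) *
        ex (Real.exp v * B / A) * Complex.exp (-(I * t * v))‖ ≤ D := by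
    intro A hA B hB
    rw [As, Finset.mem_Ioc] at hA
    rw [Bs, Finset.mem_filter, Finset.mem_Icc] at hB
    have hA0 : 0 < A := by omega
    rw [norm_mul]
    have h5 : ‖(((μ A : ℝ) / (Nat.totient A : ℝ) : ℝ) : ℂ)‖ ≤ 1 := by
      rw [Complex.norm_real, Real.norm_eq_abs, abs_div]
      have h6 : |(μ A : ℝ)| ≤ 1 := by
        have := ArithmeticFunction.abs_moebius_le_one (n := A)
        exact_mod_cast this
      have h7 : (1 : ℝ) ≤ A.totient := by exact_mod_cast Nat.totient_pos.2 hA0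
      rw [abs_of_nonneg (by positivity : (0 : ℝ) ≤ (A.totient : ℝ))]
      exact div_le_one_of_le₀ (h6.trans h7) (by positivity)
    calc _ ≤ 1 * D := mul_le_mul h5 (hone A B hA0 (by omega)) (norm_nonneg _) zero_le_one
      _ = D := one_mul D
  have hcB : ∀ A : ℕ, ((Bs T A).card : ℝ) ≤ T := by
    intro A
    have h8 : (Bs T A).card ≤ ⌊T⌋₊ := by
      calc (Bs T A).card ≤ (Finset.Icc 1 ⌊T⌋₊).card := Finset.card_le_card (Finset.filter_subset _ _)
        _ = ⌊T⌋₊ := by rw [Nat.card_Icc, Nat.add_sub_cancel]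
    calc ((Bs T A).card : ℝ) ≤ (⌊T⌋₊ : ℝ) := by exact_mod_cast h8
      _ ≤ T := Nat.floor_le hT0.le
  have hcA : ((As c α T).card : ℝ) ≤ T := by
    have h8 : (As c α T).card ≤ ⌊T ^ (1 / 2 - c)⌋₊ := by
      rw [As, Nat.card_Ioc]
      omega
    calc ((As c α T).card : ℝ) ≤ (⌊T ^ (1 / 2 - c)⌋₊ : ℝ) := by exact_mod_cast h8
      _ ≤ T ^ (1 / 2 - c) := Nat.floor_le (by positivity)
      _ ≤ T ^ (1 : ℝ) := Real.rpow_le_rpow_of_exponent_le hT1.le (by linarith)
      _ = T := Real.rpow_one T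
  have h9 : ‖VV η ρ c α T t‖ ≤ T * (T * D) := by
    rw [e1]
    calc _ ≤ ∑ A ∈ As c α T, T * D := by
          refine norm_sum_le_of_le _ fun A hA => ?_
          calc _ ≤ ∑ B ∈ Bs T A, D := norm_sum_le_of_le _ fun B hB => hterm A hA B hB
            _ = ((Bs T A).card : ℝ) * D := by rw [Finset.sum_const, nsmul_eq_mul]
            _ ≤ T * D := mul_le_mul_of_nonneg_right (hcB A) hD0
      _ = ((As c α T).card : ℝ) * (T * D) := by rw [Finset.sum_const, nsmul_eq_mul]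
      _ ≤ T * (T * D) := mul_le_mul_of_nonneg_right hcA (by positivity)
  refine h9.trans ?_
  have hTt : T ≤ T + |t| := by linarith [abs_nonneg t]
  have hTt0 : 0 < T + |t| := by linarith
  have h10 : T * (T * ((C1 + C2) * T ^ (α / 2))) ≤ (T + |t|) ^ 3 := by
    have hTα : T ^ (α / 2) ≤ T ^ (3 / 4 : ℝ) :=
      Real.rpow_le_rpow_of_exponent_le hT1.le (by linarith [hα.2])
    calc T * (T * ((C1 + C2) * T ^ (α / 2))) ≤ T * (T * (T ^ (1 / 4 : ℝ) * T ^ (3 / 4 : ℝ))) :=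
          mul_le_mul_of_nonneg_left (mul_le_mul_of_nonneg_left
            (mul_le_mul hTC hTα (by positivity) (by positivity)) hT0.le) hT0.le
      _ = T ^ 3 := by
          rw [← Real.rpow_add hT0]
          norm_num
          ring
      _ ≤ (T + |t|) ^ 3 := pow_le_pow_left₀ hT0.le hTt 3
  rw [hD, pow_add]
  calc T * (T * ((C1 + C2) * T ^ (α / 2) / ((T + |t|) ^ k * (T + |t|) ^ 3))) =
      (T * (T * ((C1 + C2) * T ^ (α / 2)))) / (T + |t|) ^ 3 * (1 / (T + |t|) ^ k) := by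
        field_simp
    _ ≤ 1 * (1 / (T + |t|) ^ k) := by
        apply mul_le_mul_of_nonneg_right _ (by positivity)
        rw [div_le_one (by positivity)]
        exact h10
    _ = _ := one_mul _

end Pool.Agent.MP_67227b_nt.Gg
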