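import Mathlib
import Pool.Agent.MP_67227b_nt.Gg.GgEn
import Pool.Agent.MP_67227b_nt.Gg.GgPl
import Pool.Agent.MP_67227b_nt.Gg.GgTl
import Pool.Agent.MP_67227b_nt.Mo.ExScale

set_option autoImplicit false

open Filter Topology Set MeasureTheory Complex
open scoped Real ContDiff ArithmeticFunction ArithmeticFunction.Moebius

namespace Pool.Agent.MP_67227b_nt.Gg

open Pool.Agent.MP_67227b_nt.Mo

private theorem low_pt (a b : ℂ) : 2 * (a * (starRingEnd ℂ) b).re - ‖b‖ ^ 2 ≤ ‖a‖ ^ 2 := by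
  have h : ‖a - b‖ ^ 2 = ‖a‖ ^ 2 - 2 * (a * (starRingEnd ℂ) b).re + ‖b‖ ^ 2 := by
    rw [← Complex.normSq_eq_norm_sq, ← Complex.normSq_eq_norm_sq, ← Complex.normSq_eq_norm_sq,
      Complex.normSq_sub]
    ring
  nlinarith [sq_nonneg ‖a - b‖]

/-- Module LOW. PROOF. Replace `X` by `max X 0` (`Eta.mono`). Let `I = [κT, T - T^(3/4)]`.
`‖P‖² ≥ 2 Re (P conj V) - ‖V‖²` pointwise; integrate over `I`; `∫_I ‖V‖² ≤ ∫_ℝ ‖V‖²`;
`Re ∫_I P conj V = Re ∫_ℝ P conj V - Re ∫_{ℝ∖I} P conj V`, and outside `I` (where `t ≤ κT` or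
`t ≥ T - T^(3/4) ≥ (1 - κ/2) T`) `‖P conj V‖ ≤ T^3 / (T + |t|)^5 ≤ 1/(1 + |t|)^2`, integral `≤ π`
(`Mo.integral_inv_sq_abs_le`). Then `plancherel_VV`, `inversion_VV`, `energy_fV`. -/
theorem low (X κ c : ℝ) (hκ : 0 < κ) (hκ1 : κ < 1) (hc : 0 < c) {η ρ : ℝ → ℝ} (hη : Eta X η)
    (hρ : Rho κ ρ) :
    ∃ C : ℝ, ∀ᶠ T : ℝ in atTop, ∀ α ∈ Icc (1 : ℝ) (3 / 2 - 4 * c),
      2 * (2 * π * (XX η ρ c α T).re) - 2 * π * JJ 2 η ρ c α T - C * T ≤
        ∫ t in (κ * T)..(T - T ^ (3 / 4 : ℝ)), ‖PP η α T t‖ ^ 2 := by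
  have hX : 0 ≤ max X 0 := le_max_right _ _
  have hη' : Eta (max X 0) η := hη.mono (le_max_left _ _)
  have hpi := Real.pi_pos
  refine ⟨4 * π, ?_⟩
  have hsm : ∀ᶠ T : ℝ in atTop, T ^ (-(1 / 4) : ℝ) ≤ min (κ / 2) (1 - κ) :=
    (tendsto_rpow_neg_atTop (by norm_num)).eventually_le_const (lt_min (by linarith) (by linarith))
  filter_upwards [norm_PP_le hη', tail_V hκ hc hη' hρ 5, energy_fV hκ hc hη' hρ, hsm,
    eventually_gt_atTop 3] with T hP hV hE hq hT3 α hα
  have hα' : α ∈ Icc (1 : ℝ) (3 / 2) := ⟨hα.1, by linarith [hα.2]⟩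
  have hT0 : 0 < T := by linarith
  have hT1 : 1 ≤ T := by linarith
  have hα0 : 0 ≤ α := by linarith [hα.1]
  have e34 : T ^ (3 / 4 : ℝ) = T * T ^ (-(1 / 4) : ℝ) := by
    rw [← Real.rpow_one_add' hT0.le (by norm_num)]; norm_num
  have hA1 : T ^ (3 / 4 : ℝ) ≤ κ / 2 * T := by
    rw [e34]
    have := mul_le_mul_of_nonneg_left (hq.trans (min_le_left _ _)) hT0.le
    linarith
  have hab : κ * T ≤ T - T ^ (3 / 4 : ℝ) := by
    rw [e34]
    have := mul_le_mul_of_nonneg_left (hq.trans (min_le_right _ _)) hT0.le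
    linarith
  set a : ℝ := κ * T with ha
  set b : ℝ := T - T ^ (3 / 4 : ℝ) with hb
  have hPc := continuous_PP η α T
  have hVc := continuous_VV hX hη' hρ c hT1 hα0
  have hVi := integrable_VV hX hη' hρ c hT1 hα0
  have hV2 := integrable_VV_sq hX hη' hρ c hT1 hα0
  set G : ℝ → ℂ := fun t => PP η α T t * (starRingEnd ℂ) (VV η ρ c α T t) with hG
  have hconjV : Continuous fun t => (starRingEnd ℂ) (VV η ρ c α T t) :=
    Complex.continuous_conj.comp hVc
  have hGc : Continuous G := hPc.mul hconjV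
  have hGi : Integrable G := by
    have h1 : Integrable fun t => (starRingEnd ℂ) (VV η ρ c α T t) := by
      refine hVi.norm.mono' hconjV.aestronglyMeasurable (Eventually.of_forall fun t => ?_)
      rw [RCLike.norm_conj]
    exact h1.bdd_mul (c := T ^ 3) hPc.aestronglyMeasurable (Eventually.of_forall fun t => hP α t)
  -- pointwise inequality, integrated
  have h1 : (∫ t in a..b, (2 * (G t).re - ‖VV η ρ c α T t‖ ^ 2)) ≤
      ∫ t in a..b, ‖PP η α T t‖ ^ 2 := by
    apply intervalIntegral.integral_mono_on hab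
    · apply Continuous.intervalIntegrable
      have := Complex.continuous_re.comp hGc
      fun_prop
    · apply Continuous.intervalIntegrable
      fun_prop
    · intro t _
      exact low_pt _ _
  have h2 : (∫ t in a..b, (2 * (G t).re - ‖VV η ρ c α T t‖ ^ 2)) =
      2 * (∫ t in a..b, G t).re - ∫ t in a..b, ‖VV η ρ c α T t‖ ^ 2 := by
    rw [intervalIntegral.integral_sub, intervalIntegral.integral_const_mul]
    · congr 2
      exact Complex.reCLM.intervalIntegral_comp_comm (hGc.intervalIntegrable a b)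
    · apply Continuous.intervalIntegrable
      have : Continuous fun t => (G t).re := Complex.continuous_re.comp hGc
      fun_prop
    · apply Continuous.intervalIntegrable
      fun_prop
  have h3 : (∫ t in a..b, ‖VV η ρ c α T t‖ ^ 2) ≤ 2 * π * (JJ 2 η ρ c α T + 1) := by
    rw [intervalIntegral.integral_of_le hab]
    have h4 : (∫ t in Ioc a b, ‖VV η ρ c α T t‖ ^ 2) ≤ ∫ t, ‖VV η ρ c α T t‖ ^ 2 :=
      setIntegral_le_integral hV2 (ae_of_all _ fun t => by positivity)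
    refine h4.trans ?_
    rw [plancherel_VV hX hη' hρ c hT1 hα0]
    exact mul_le_mul_of_nonneg_left (hE α hα') (by positivity)
  have h4 : (∫ t in a..b, G t) = 2 * π * XX η ρ c α T - ∫ t in (Ioc a b)ᶜ, G t := by
    rw [intervalIntegral.integral_of_le hab, ← inversion_VV hX hη' hρ c hT1 hα0,
      ← integral_add_compl measurableSet_Ioc hGi]
    ring
  have h5 : ‖∫ t in (Ioc a b)ᶜ, G t‖ ≤ π := by
    have hi := integrable_inv_sq_abs 0
    have h6 : ‖∫ t in (Ioc a b)ᶜ, G t‖ ≤ ∫ t in (Ioc a b)ᶜ, 1 / (1 + |t - 0|) ^ 2 := by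
      refine norm_integral_le_of_norm_le hi.integrableOn ?_
      refine (ae_restrict_iff' measurableSet_Ioc.compl).2 (ae_of_all _ fun t ht => ?_)
      have h7 : t ≤ κ * T ∨ (1 - κ / 2) * T ≤ t := by
        by_contra hcon
        push Not at hcon
        apply ht
        refine ⟨hcon.1, ?_⟩
        rw [hb]
        linarith [hcon.2]
      have h8 := hV α hα' t h7
      have h9 : ‖G t‖ ≤ T ^ 3 * (1 / (T + |t|) ^ 5) := by
        rw [hG]
        simp only [norm_mul, RCLike.norm_conj]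
        exact mul_le_mul (hP α t) h8 (norm_nonneg _) (by positivity)
      refine h9.trans ?_
      have ht0 := abs_nonneg t
      rw [sub_zero, mul_one_div, div_le_div_iff₀ (by positivity) (by positivity), one_mul]
      have e1 : T ^ 3 ≤ (T + |t|) ^ 3 := pow_le_pow_left₀ hT0.le (by linarith) 3
      have e2 : (1 + |t|) ^ 2 ≤ (T + |t|) ^ 2 := pow_le_pow_left₀ (by linarith) (by linarith) 2
      calc T ^ 3 * (1 + |t|) ^ 2 ≤ (T + |t|) ^ 3 * (T + |t|) ^ 2 :=
            mul_le_mul e1 e2 (by positivity) (by positivity)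
        _ = (T + |t|) ^ 5 := by ring
    refine h6.trans ?_
    refine (setIntegral_le_integral hi (ae_of_all _ fun t => by positivity)).trans ?_
    exact integral_inv_sq_abs_le 0
  have h6 : 2 * π * (XX η ρ c α T).re - π ≤ (∫ t in a..b, G t).re := by
    rw [h4, Complex.sub_re]
    have h7 := (Complex.abs_re_le_norm (∫ t in (Ioc a b)ᶜ, G t)).trans h5
    have h8 := (abs_le.1 h7).2
    have h9 : (2 * π * XX η ρ c α T : ℂ).re = 2 * π * (XX η ρ c α T).re := by
      have : (2 * π * XX η ρ c α T : ℂ) = ((2 * π : ℝ) : ℂ) * XX η ρ c α T := by push_cast; ring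
      rw [this, Complex.re_ofReal_mul]
    rw [h9]
    linarith
  rw [h2] at h1
  nlinarith

end Pool.Agent.MP_67227b_nt.Gg
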