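import Mathlib
import Pool.Agent.MP_67227b_nt.Gg.GgErr
import Pool.Agent.MP_67227b_nt.Gg.GgEx
import Pool.Agent.MP_67227b_nt.Gg.GgFin
import Pool.Agent.MP_67227b_nt.Gg.GgLow

set_option autoImplicit false

open Filter Topology Set MeasureTheory Complex
open scoped Real

namespace Pool.Agent.MP_67227b_nt.Gg

open Pool.Agent.MP_67227b_nt.Fb

/-- Assume the Riemann Hypothesis. For every `ε > 0` and all large `T`, `F(α, T) ≥ 3/2 - α - ε` for
all `α ≥ 1` (Goldston, Gonek, Özlük and Snyder proved this under the generalised Riemann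
Hypothesis). -/
theorem final (hRH : RiemannHypothesis) {ε : ℝ} (hε : 0 < ε) :
    ∀ᶠ T : ℝ in atTop, ∀ α : ℝ, 1 ≤ α → 3 / 2 - α - ε ≤ montF T α :=
  final_of (fun _ _ _ _ hη hκ hκ1 hε => bridge hRH hη hκ hκ1 hε)
    (fun X κ c _ _ hκ hκ1 hc hη hρ => low X κ c hκ hκ1 hc hη hρ)
    (fun X κ c _ _ hκ hc hη hρ => err X κ c hκ hc hη hρ) hε

end Pool.Agent.MP_67227b_nt.Gg
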